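import Mathlib

/-!
# The zero set near a nondegenerate critical point in the plane (helper88, cell PG)

`nondeg_components`: arbitrarily small neighbourhoods `B` of a nondegenerate critical point `0` of
`g` with `g 0 = 0` such that `{g = 0} ∩ B`, without `0`, has finitely many path components.
-/

set_option autoImplicit false
set_option linter.unusedVariables false

namespace Pool.Agent.PG

open Set Topology Filter

/-- The arc of zeros in the sector `|y| ≤ x`. -/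
lemma arc_joined {G : ℝ × ℝ → ℝ} {δ : ℝ} (hδ : 0 < δ) (hG : Continuous G)
    (hmono : ∀ x ∈ Ioo 0 δ, StrictMonoOn (fun y => G (x, y)) (Icc (-x) x))
    (hpos : ∀ x ∈ Ioo 0 δ, 0 < G (x, x)) (hneg : ∀ x ∈ Ioo 0 δ, G (x, -x) < 0) :
    ∃ p₀ : ℝ × ℝ, ∀ p : ℝ × ℝ, p.1 ∈ Ioo 0 δ → |p.2| ≤ p.1 → G p = 0 →
      JoinedIn {p : ℝ × ℝ | p.1 ∈ Ioo 0 δ ∧ |p.2| ≤ p.1 ∧ G p = 0} p p₀ := by
  have hex : ∀ x ∈ Ioo 0 δ, ∃ y, -x < y ∧ y < x ∧ G (x, y) = 0 := by
    intro x hx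
    have hc : ContinuousOn (fun y => G (x, y)) (Icc (-x) x) :=
      (hG.comp (by fun_prop)).continuousOn
    obtain ⟨y, hy, hy0⟩ := intermediate_value_Icc (by linarith [hx.1] : -x ≤ x) hc
      ⟨(hneg x hx).le, (hpos x hx).le⟩
    refine ⟨y, lt_of_le_of_ne hy.1 ?_, lt_of_le_of_ne hy.2 ?_, hy0⟩
    · intro h
      have := hneg x hx
      rw [h] at this
      simp only at hy0
      linarith
    · intro h
      have := hpos x hx
      rw [← h] at this
      simp only at hy0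
      rw [h] at hy0 this
      linarith
  choose! f hf1 hf2 hf3 using hex
  have huniq : ∀ x ∈ Ioo 0 δ, ∀ y, |y| ≤ x → G (x, y) = 0 → y = f x := by
    intro x hx y hy h0
    exact (hmono x hx).injOn (abs_le.1 hy) ⟨(hf1 x hx).le, (hf2 x hx).le⟩
      (by rw [h0, hf3 x hx])
  have hfc : ContinuousOn f (Ioo 0 δ) := by
    intro x₀ hx₀
    refine ContinuousAt.continuousWithinAt ?_
    rw [ContinuousAt, Metric.tendsto_nhds]
    intro ε hε
    -- shrink `ε`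
    obtain ⟨η, hη, hηε, hη1, hη2⟩ : ∃ η > 0, η ≤ ε ∧ -x₀ < f x₀ - η ∧ f x₀ + η < x₀ := by
      refine ⟨min ε (min ((f x₀ + x₀) / 2) ((x₀ - f x₀) / 2)), ?_, min_le_left _ _, ?_, ?_⟩
      · have h1 := hf1 x₀ hx₀
        have h2 := hf2 x₀ hx₀
        exact lt_min hε (lt_min (by linarith) (by linarith))
      · have h1 := hf1 x₀ hx₀
        have := (min_le_right ε (min ((f x₀ + x₀) / 2) ((x₀ - f x₀) / 2))).trans (min_le_left _ _)
        linarith
      · have h2 := hf2 x₀ hx₀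
        have := (min_le_right ε (min ((f x₀ + x₀) / 2) ((x₀ - f x₀) / 2))).trans (min_le_right _ _)
        linarith
    have hlo : G (x₀, f x₀ - η) < 0 := by
      have := hmono x₀ hx₀ (a := f x₀ - η) (b := f x₀) ⟨hη1.le, by linarith⟩
        ⟨(hf1 x₀ hx₀).le, (hf2 x₀ hx₀).le⟩ (by linarith)
      simp only at this
      rwa [hf3 x₀ hx₀] at this
    have hhi : 0 < G (x₀, f x₀ + η) := by
      have := hmono x₀ hx₀ (a := f x₀) (b := f x₀ + η) ⟨(hf1 x₀ hx₀).le, (hf2 x₀ hx₀).le⟩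
        ⟨by linarith, hη2.le⟩ (by linarith)
      simp only at this
      rwa [hf3 x₀ hx₀] at this
    have c1 : ∀ᶠ x in 𝓝 x₀, G (x, f x₀ - η) < 0 :=
      ((hG.comp (by fun_prop : Continuous fun x : ℝ => (x, f x₀ - η))).tendsto
        x₀).eventually_lt_const hlo
    have c2 : ∀ᶠ x in 𝓝 x₀, 0 < G (x, f x₀ + η) :=
      ((hG.comp (by fun_prop : Continuous fun x : ℝ => (x, f x₀ + η))).tendsto
        x₀).eventually_const_lt hhi
    have c3 : ∀ᶠ x in 𝓝 x₀, x ∈ Ioo 0 δ := Ioo_mem_nhds hx₀.1 hx₀.2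
    have c4 : ∀ᶠ x in 𝓝 x₀, -x < f x₀ - η :=
      (continuous_neg.tendsto x₀).eventually_lt_const hη1
    have c5 : ∀ᶠ x in 𝓝 x₀, f x₀ + η < x :=
      (continuous_id.tendsto x₀).eventually_const_lt hη2
    filter_upwards [c1, c2, c3, c4, c5] with x h1 h2 h3 h4 h5
    have hl : f x₀ - η < f x := by
      by_contra hcon
      have := (hmono x h3).monotoneOn ⟨(hf1 x h3).le, (hf2 x h3).le⟩
        (⟨h4.le, by linarith⟩ : f x₀ - η ∈ Icc (-x) x) (not_lt.1 hcon)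
      rw [hf3 x h3] at this
      linarith
    have hr : f x < f x₀ + η := by
      by_contra hcon
      have := (hmono x h3).monotoneOn (⟨by linarith, h5.le⟩ : f x₀ + η ∈ Icc (-x) x)
        ⟨(hf1 x h3).le, (hf2 x h3).le⟩ (not_lt.1 hcon)
      rw [hf3 x h3] at this
      linarith
    rw [Real.dist_eq, abs_lt]
    constructor <;> linarith
  have hmid : δ / 2 ∈ Ioo 0 δ := ⟨by linarith, by linarith⟩
  refine ⟨(δ / 2, f (δ / 2)), ?_⟩
  rintro ⟨x, y⟩ hx hy h0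
  simp only at hx hy
  have hyf := huniq x hx y hy h0
  subst hyf
  have hseg : ∀ t ∈ Icc (0 : ℝ) 1, x + t * (δ / 2 - x) ∈ Ioo 0 δ := by
    intro t ht
    have h1 := hx.1
    have h2 := hx.2
    constructor
    · nlinarith [ht.1, ht.2]
    · nlinarith [ht.1, ht.2]
  refine JoinedIn.ofLine (f := fun t : ℝ => (x + t * (δ / 2 - x), f (x + t * (δ / 2 - x))))
    ?_ (by simp) (by simp) ?_
  · refine ContinuousOn.prodMk (by fun_prop) ?_
    exact hfc.comp (by fun_prop) fun t ht => hseg t ht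
  · rintro _ ⟨t, ht, rfl⟩
    have h1 := hseg t ht
    exact ⟨h1, abs_le.2 ⟨(hf1 _ h1).le, (hf2 _ h1).le⟩, hf3 _ h1⟩

/-- `G` is `C^1`-close to `x y` in the ball of radius `δ` (sup norm). -/
structure NearXY (G : ℝ × ℝ → ℝ) (δ : ℝ) : Prop where
  diff : Differentiable ℝ G
  est1 : ∀ q, ‖q‖ < δ → ∀ v, |fderiv ℝ G q v - (q.1 * v.2 + q.2 * v.1)| ≤ ‖q‖ * ‖v‖ / 4
  est0 : ∀ q, ‖q‖ < δ → |G q - q.1 * q.2| ≤ ‖q‖ ^ 2 / 4

lemma norm_eq_of_sector {x y : ℝ} (hx : 0 < x) (hy : |y| ≤ x) : ‖((x, y) : ℝ × ℝ)‖ = x := by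
  rw [Prod.norm_mk, Real.norm_eq_abs, Real.norm_eq_abs, abs_of_pos hx, max_eq_left hy]

lemma NearXY.arc {G : ℝ × ℝ → ℝ} {δ : ℝ} (hδ : 0 < δ) (h : NearXY G δ) :
    ∃ p₀ : ℝ × ℝ, ∀ p : ℝ × ℝ, p.1 ∈ Ioo 0 δ → |p.2| ≤ p.1 → G p = 0 →
      JoinedIn {p : ℝ × ℝ | p.1 ∈ Ioo 0 δ ∧ |p.2| ≤ p.1 ∧ G p = 0} p p₀ := by
  refine arc_joined hδ h.diff.continuous ?_ ?_ ?_
  · intro x hx
    refine strictMonoOn_of_deriv_pos (convex_Icc _ _) (h.diff.continuous.comp
      (by fun_prop)).continuousOn ?_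
    intro y hy
    rw [interior_Icc] at hy
    have hy' : |y| ≤ x := abs_le.2 ⟨hy.1.le, hy.2.le⟩
    have hn : ‖((x, y) : ℝ × ℝ)‖ = x := norm_eq_of_sector hx.1 hy'
    have hd : HasDerivAt (fun y => G (x, y)) (fderiv ℝ G (x, y) (0, 1)) y := by
      have h1 : HasDerivAt (fun y : ℝ => ((x, y) : ℝ × ℝ)) (0, 1) y :=
        (hasDerivAt_const _ _).prodMk (hasDerivAt_id y)
      exact HasFDerivAt.comp_hasDerivAt (f := fun y : ℝ => ((x, y) : ℝ × ℝ)) y
        (h.diff _).hasFDerivAt h1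
    rw [hd.deriv]
    have h2 := h.est1 (x, y) (by rw [hn]; exact hx.2) (0, 1)
    have h3 : ‖((0, 1) : ℝ × ℝ)‖ = 1 := by simp [Prod.norm_mk]
    rw [hn, h3, abs_le] at h2
    simp only [mul_one, mul_zero, add_zero] at h2
    linarith [h2.1, hx.1]
  · intro x hx
    have hn : ‖((x, x) : ℝ × ℝ)‖ = x := norm_eq_of_sector hx.1 (by rw [abs_of_pos hx.1])
    have h2 := h.est0 (x, x) (by rw [hn]; exact hx.2)
    rw [hn, abs_le] at h2
    simp only at h2
    nlinarith [h2.1, hx.1]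
  · intro x hx
    have hn : ‖((x, -x) : ℝ × ℝ)‖ = x :=
      norm_eq_of_sector hx.1 (by rw [abs_neg, abs_of_pos hx.1])
    have h2 := h.est0 (x, -x) (by rw [hn]; exact hx.2)
    rw [hn, abs_le] at h2
    simp only at h2
    nlinarith [h2.2, hx.1]

lemma NearXY.comp {G : ℝ × ℝ → ℝ} {δ : ℝ} (h : NearXY G δ) (σ : ℝ × ℝ →L[ℝ] ℝ × ℝ) (s : ℝ)
    (hs : |s| = 1) (hσ : ∀ v, ‖σ v‖ = ‖v‖)
    (hK : ∀ p v : ℝ × ℝ, s * ((σ p).1 * (σ v).2 + (σ p).2 * (σ v).1) = p.1 * v.2 + p.2 * v.1) :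
    NearXY (fun p => s * G (σ p)) δ := by
  have hd : ∀ q, HasFDerivAt (fun p => s * G (σ p)) (s • ((fderiv ℝ G (σ q)).comp σ)) q :=
    fun q => (((h.diff (σ q)).hasFDerivAt).comp q σ.hasFDerivAt).const_mul s
  refine ⟨fun q => (hd q).differentiableAt, fun q hq v => ?_, fun q hq => ?_⟩
  · rw [(hd q).fderiv]
    have h1 := h.est1 (σ q) (by rw [hσ]; exact hq) (σ v)
    rw [hσ, hσ] at h1
    rw [← hK q v]
    change |s * (fderiv ℝ G (σ q) (σ v)) - _| ≤ _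
    rw [← mul_sub, abs_mul, hs, one_mul]
    exact h1
  · have h1 := h.est0 (σ q) (by rw [hσ]; exact hq)
    rw [hσ] at h1
    have h2 := hK q q
    have h3 : q.1 * q.2 = s * ((σ q).1 * (σ q).2) := by linarith
    rw [h3, ← mul_sub, abs_mul, hs, one_mul]
    exact h1

/-- The canonical case. -/
lemma NearXY.components {G : ℝ × ℝ → ℝ} {δ : ℝ} (hδ : 0 < δ) (h : NearXY G δ) :
    ∃ T : Set (ℝ × ℝ), T.Finite ∧ ∀ q, ‖q‖ < δ → G q = 0 → q ≠ 0 →
      ∃ q' ∈ T, JoinedIn {q | ‖q‖ < δ ∧ G q = 0 ∧ q ≠ 0} q q' := by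
  -- the general sector
  have sector : ∀ (σ : ℝ × ℝ →L[ℝ] ℝ × ℝ) (s : ℝ), |s| = 1 → (∀ v, ‖σ v‖ = ‖v‖) →
      (∀ p v : ℝ × ℝ, s * ((σ p).1 * (σ v).2 + (σ p).2 * (σ v).1) = p.1 * v.2 + p.2 * v.1) →
      ∃ q₀ : ℝ × ℝ, ∀ p : ℝ × ℝ, 0 < p.1 → |p.2| ≤ p.1 → ‖p‖ < δ → G (σ p) = 0 →
        JoinedIn {q | ‖q‖ < δ ∧ G q = 0 ∧ q ≠ 0} (σ p) q₀ := by
    intro σ s hs hσ hK
    obtain ⟨p₀, hp₀⟩ := (h.comp σ s hs hσ hK).arc hδ
    refine ⟨σ p₀, fun p hp1 hp2 hpn hp0 => ?_⟩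
    have hpn' : ‖p‖ = p.1 := norm_eq_of_sector hp1 hp2
    have hJ := hp₀ p ⟨hp1, by rw [← hpn']; exact hpn⟩ hp2 (by simp [hp0])
    have hs0 : s ≠ 0 := fun h0 => by rw [h0, abs_zero] at hs; norm_num at hs
    refine ⟨hJ.somePath.map σ.continuous, fun t => ?_⟩
    obtain ⟨h1, h2, h3⟩ := hJ.somePath_mem t
    have h4 : ‖hJ.somePath t‖ = (hJ.somePath t).1 := norm_eq_of_sector h1.1 h2
    refine ⟨?_, ?_, ?_⟩
    · change ‖σ (hJ.somePath t)‖ < δ
      rw [hσ, h4]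
      exact h1.2
    · change G (σ (hJ.somePath t)) = 0
      rcases mul_eq_zero.1 h3 with h | h
      · exact absurd h hs0
      · exact h
    · change σ (hJ.somePath t) ≠ 0
      rw [← norm_ne_zero_iff, hσ, h4]
      exact h1.1.ne'
  let σ₂ : ℝ × ℝ →L[ℝ] ℝ × ℝ :=
    (-(ContinuousLinearMap.fst ℝ ℝ ℝ)).prod (ContinuousLinearMap.snd ℝ ℝ ℝ)
  let σ₃ : ℝ × ℝ →L[ℝ] ℝ × ℝ :=
    (ContinuousLinearMap.snd ℝ ℝ ℝ).prod (ContinuousLinearMap.fst ℝ ℝ ℝ)
  let σ₄ : ℝ × ℝ →L[ℝ] ℝ × ℝ :=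
    (ContinuousLinearMap.snd ℝ ℝ ℝ).prod (-(ContinuousLinearMap.fst ℝ ℝ ℝ))
  have e2 : ∀ v : ℝ × ℝ, σ₂ v = (-v.1, v.2) := fun v => rfl
  have e3 : ∀ v : ℝ × ℝ, σ₃ v = (v.2, v.1) := fun v => rfl
  have e4 : ∀ v : ℝ × ℝ, σ₄ v = (v.2, -v.1) := fun v => rfl
  obtain ⟨a₁, h₁⟩ := sector (ContinuousLinearMap.id ℝ (ℝ × ℝ)) 1 (by simp) (fun v => rfl)
    (fun p v => by simp)
  obtain ⟨a₂, h₂⟩ := sector σ₂ (-1) (by simp)
    (fun v => by rw [e2, Prod.norm_mk, norm_neg]; rfl)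
    (fun p v => by rw [e2, e2]; ring)
  obtain ⟨a₃, h₃⟩ := sector σ₃ 1 (by simp)
    (fun v => by rw [e3, Prod.norm_mk, max_comm]; rfl)
    (fun p v => by rw [e3, e3]; ring)
  obtain ⟨a₄, h₄⟩ := sector σ₄ (-1) (by simp)
    (fun v => by rw [e4, Prod.norm_mk, norm_neg, max_comm]; rfl)
    (fun p v => by rw [e4, e4]; ring)
  refine ⟨{a₁, a₂, a₃, a₄}, by simp, ?_⟩
  rintro ⟨x, y⟩ hq hG0 hne
  have hnorm : ∀ a b : ℝ, ‖((a, b) : ℝ × ℝ)‖ = max |a| |b| := fun a b => rfl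
  rw [hnorm] at hq
  rcases le_or_gt |y| |x| with hxy | hxy
  · rcases lt_trichotomy x 0 with hx | hx | hx
    · rw [abs_of_neg hx] at hxy
      have := h₂ (-x, y) (by simp only; linarith) hxy (by rw [hnorm, abs_neg]; exact hq)
        (by rw [e2]; simpa using hG0)
      rw [e2] at this
      simp only [neg_neg] at this
      exact ⟨a₂, by simp, this⟩
    · exfalso
      subst hx
      rw [abs_zero] at hxy
      have : y = 0 := abs_eq_zero.1 (le_antisymm hxy (abs_nonneg y))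
      exact hne (by rw [this]; rfl)
    · rw [abs_of_pos hx] at hxy
      exact ⟨a₁, by simp, h₁ (x, y) hx hxy (by rw [hnorm]; exact hq) hG0⟩
  · rcases lt_trichotomy y 0 with hy | hy | hy
    · rw [abs_of_neg hy] at hxy
      have := h₄ (-y, x) (by simp only; linarith) hxy.le
        (by rw [hnorm, abs_neg, max_comm]; exact hq) (by rw [e4]; simpa using hG0)
      rw [e4] at this
      simp only [neg_neg] at this
      exact ⟨a₄, by simp, this⟩
    · exfalso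
      subst hy
      rw [abs_zero] at hxy
      exact absurd hxy (not_lt.2 (abs_nonneg x))
    · rw [abs_of_pos hy] at hxy
      exact ⟨a₃, by simp, h₃ (y, x) hy hxy.le (by rw [hnorm, max_comm]; exact hq) hG0⟩

/-- Taylor estimates at a critical point. -/
lemma taylor_crit {g : ℝ × ℝ → ℝ} (hg : ContDiff ℝ 2 g) (h0 : g 0 = 0) (h1 : fderiv ℝ g 0 = 0)
    {c : ℝ} (hc : 0 < c) : ∃ r > 0, ∀ q : ℝ × ℝ, ‖q‖ < r →
      (∀ v, |fderiv ℝ g q v - fderiv ℝ (fderiv ℝ g) 0 q v| ≤ c * ‖q‖ * ‖v‖) ∧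
      |g q - fderiv ℝ (fderiv ℝ g) 0 q q / 2| ≤ c * ‖q‖ ^ 2 := by
  set H := fderiv ℝ (fderiv ℝ g) 0 with hH
  have hDg : ContDiff ℝ 1 (fderiv ℝ g) := hg.fderiv_right (m := 1) (by norm_num)
  have hd : HasFDerivAt (fderiv ℝ g) H 0 := (hDg.differentiable (by norm_num) 0).hasFDerivAt
  have hsymm : ∀ u v, H u v = H v u := by
    have : IsSymmSndFDerivAt ℝ g 0 := (hg.contDiffAt (x := 0)).isSymmSndFDerivAt (by
      rw [minSmoothness_of_isRCLikeNormedField])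
    exact fun u v => this.eq u v
  have ho := hd.isLittleO
  rw [Asymptotics.isLittleO_iff] at ho
  have ho1 := ho hc
  obtain ⟨r, hr, hball⟩ := Metric.eventually_nhds_iff.1 ho1
  have hn : ∀ q : ℝ × ℝ, ‖q‖ < r → ‖fderiv ℝ g q - H q‖ ≤ c * ‖q‖ := by
    intro q hq
    have := hball (y := q) (by rwa [dist_zero_right])
    rwa [h1, sub_zero, sub_zero] at this
  refine ⟨r, hr, fun q hq => ⟨fun v => ?_, ?_⟩⟩
  · have h2 : fderiv ℝ g q v - H q v = (fderiv ℝ g q - H q) v := rfl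
    rw [h2, ← Real.norm_eq_abs]
    exact ((fderiv ℝ g q - H q).le_opNorm v).trans
      (mul_le_mul_of_nonneg_right (hn q hq) (norm_nonneg v))
  · have hk : ∀ z, HasFDerivAt (fun q => g q - H q q / 2) (fderiv ℝ g z - H z) z := by
      intro z
      have e1 : HasFDerivAt g (fderiv ℝ g z) z := (hg.differentiable (by norm_num) z).hasFDerivAt
      have e2 : HasFDerivAt (fun q => H q) H z := H.hasFDerivAt
      have e3 := e2.clm_apply (hasFDerivAt_id z)
      have e4 := e1.sub (e3.mul_const (1 / 2))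
      have e5 : (fun q => g q - H q q / 2) = (g - fun y => H y (id y) * (1 / 2)) := by
        funext q
        simp [div_eq_mul_inv]
      rw [e5]
      refine e4.congr_fderiv ?_
      refine ContinuousLinearMap.ext fun v => ?_
      simp only [ContinuousLinearMap.sub_apply, ContinuousLinearMap.smul_apply,
        ContinuousLinearMap.add_apply, ContinuousLinearMap.comp_apply,
        ContinuousLinearMap.flip_apply, ContinuousLinearMap.id_apply, id, smul_eq_mul]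
      rw [hsymm v z]
      ring
    have h2 := (convex_closedBall (0 : ℝ × ℝ) ‖q‖).norm_image_sub_le_of_norm_hasFDerivWithin_le
      (f := fun q => g q - H q q / 2) (C := c * ‖q‖)
      (fun z _ => (hk z).hasFDerivWithinAt) (fun z hz => by
        have hz' : ‖z‖ ≤ ‖q‖ := mem_closedBall_zero_iff.1 hz
        exact (hn z (lt_of_le_of_lt hz' hq)).trans (mul_le_mul_of_nonneg_left hz' hc.le))
      (mem_closedBall_zero_iff.2 (by simp) : (0 : ℝ × ℝ) ∈ Metric.closedBall 0 ‖q‖)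
      (mem_closedBall_zero_iff.2 le_rfl : q ∈ Metric.closedBall 0 ‖q‖)
    simp only [h0, map_zero, ContinuousLinearMap.zero_apply, zero_div, sub_zero] at h2
    rw [Real.norm_eq_abs] at h2
    calc _ ≤ _ := h2
      _ = _ := by ring

/-- Null basis of an indefinite form in the plane. -/
lemma exists_null_basis {H : ℝ × ℝ →L[ℝ] ℝ × ℝ →L[ℝ] ℝ} (hsymm : ∀ u v, H u v = H v u)
    (hD : H (1, 0) (1, 0) * H (0, 1) (0, 1) - H (1, 0) (0, 1) ^ 2 < 0) :
    ∃ e₁ e₂ : ℝ × ℝ, H e₁ e₁ = 0 ∧ H e₂ e₂ = 0 ∧ H e₁ e₂ = 1 := by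
  set a := H (1, 0) (1, 0) with ha
  set b := H (1, 0) (0, 1) with hb
  set d := H (0, 1) (0, 1) with hd
  have hform : ∀ x y x' y' : ℝ, H (x, y) (x', y') = a * (x * x') + b * (x * y' + y * x')
      + d * (y * y') := by
    intro x y x' y'
    have e1 : ((x, y) : ℝ × ℝ) = x • (1, 0) + y • (0, 1) := by simp
    have e2 : ((x', y') : ℝ × ℝ) = x' • (1, 0) + y' • (0, 1) := by simp
    rw [e1, e2]
    simp only [map_add, map_smul, ContinuousLinearMap.add_apply, ContinuousLinearMap.smul_apply,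
      smul_eq_mul]
    rw [hsymm (0, 1) (1, 0), ← ha, ← hb, ← hd]
    ring
  obtain ⟨e₁, e₂, h1, h2, h3⟩ : ∃ e₁ e₂ : ℝ × ℝ, H e₁ e₁ = 0 ∧ H e₂ e₂ = 0 ∧ H e₁ e₂ ≠ 0 := by
    by_cases ha0 : a = 0
    · rw [ha0] at hD
      have hb0 : b ≠ 0 := by
        intro h
        rw [h] at hD
        norm_num at hD
      refine ⟨(1, 0), (-d, 2 * b), ?_, ?_, ?_⟩
      · rw [hform, ha0]; ring
      · rw [hform, ha0]; ring
      · rw [hform, ha0]
        have : 0 * (1 * -d) + b * (1 * (2 * b) + 0 * -d) + d * (0 * (2 * b)) = 2 * b ^ 2 := by ring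
        rw [this]
        positivity
    · set r := Real.sqrt (b ^ 2 - a * d) with hr
      have hr2 : r ^ 2 = b ^ 2 - a * d := Real.sq_sqrt (by linarith)
      refine ⟨(-b + r, a), (-b - r, a), ?_, ?_, ?_⟩
      · rw [hform]
        have : a * ((-b + r) * (-b + r)) + b * ((-b + r) * a + a * (-b + r)) + d * (a * a)
            = a * (r ^ 2 - (b ^ 2 - a * d)) := by ring
        rw [this, hr2]; ring
      · rw [hform]
        have : a * ((-b - r) * (-b - r)) + b * ((-b - r) * a + a * (-b - r)) + d * (a * a)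
            = a * (r ^ 2 - (b ^ 2 - a * d)) := by ring
        rw [this, hr2]; ring
      · rw [hform]
        have : a * ((-b + r) * (-b - r)) + b * ((-b + r) * a + a * (-b - r)) + d * (a * a)
            = a * (a * d - b ^ 2 - r ^ 2) := by ring
        rw [this, hr2]
        refine mul_ne_zero ha0 ?_
        have : a * d - b ^ 2 - (b ^ 2 - a * d) < 0 := by linarith
        exact this.ne
  refine ⟨e₁, (H e₁ e₂)⁻¹ • e₂, h1, ?_, ?_⟩
  · simp only [map_smul, ContinuousLinearMap.smul_apply, h2, smul_zero]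
  · rw [map_smul, smul_eq_mul, inv_mul_cancel₀ h3]

/-- **Zero set near a nondegenerate critical point.** -/
theorem nondeg_components {g : ℝ × ℝ → ℝ} (hg : ContDiff ℝ 2 g) (h0 : g 0 = 0)
    (h1 : fderiv ℝ g 0 = 0)
    (h2 : ∀ u : ℝ × ℝ, (∀ v, fderiv ℝ (fderiv ℝ g) 0 u v = 0) → u = 0) :
    ∀ U ∈ 𝓝 (0 : ℝ × ℝ), ∃ B ∈ 𝓝 (0 : ℝ × ℝ), B ⊆ U ∧ ∃ T : Set (ℝ × ℝ), T.Finite ∧
      ∀ q ∈ B, g q = 0 → q ≠ 0 → ∃ q' ∈ T, JoinedIn {q | q ∈ B ∧ g q = 0 ∧ q ≠ 0} q q' := by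
  intro U hU
  set H := fderiv ℝ (fderiv ℝ g) 0 with hH
  have hsymm : ∀ u v, H u v = H v u := by
    have : IsSymmSndFDerivAt ℝ g 0 := (hg.contDiffAt (x := 0)).isSymmSndFDerivAt (by
      rw [minSmoothness_of_isRCLikeNormedField])
    exact fun u v => this.eq u v
  set a := H (1, 0) (1, 0) with ha
  set b := H (1, 0) (0, 1) with hb
  set d := H (0, 1) (0, 1) with hd
  have hform : ∀ x y x' y' : ℝ, H (x, y) (x', y') = a * (x * x') + b * (x * y' + y * x')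
      + d * (y * y') := by
    intro x y x' y'
    have e1 : ((x, y) : ℝ × ℝ) = x • (1, 0) + y • (0, 1) := by simp
    have e2 : ((x', y') : ℝ × ℝ) = x' • (1, 0) + y' • (0, 1) := by simp
    rw [e1, e2]
    simp only [map_add, map_smul, ContinuousLinearMap.add_apply, ContinuousLinearMap.smul_apply,
      smul_eq_mul]
    rw [hsymm (0, 1) (1, 0), ← ha, ← hb, ← hd]
    ring
  have hD0 : a * d - b ^ 2 ≠ 0 := by
    intro h
    -- a null direction of the whole form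
    by_cases hab : a = 0 ∧ b = 0
    · have := h2 (1, 0) fun v => by
        obtain ⟨x, y⟩ := v
        rw [hform, hab.1, hab.2]; ring
      simp at this
    · have := h2 (-b, a) fun v => by
        obtain ⟨x, y⟩ := v
        rw [hform]
        have : a * (-b * x) + b * (-b * y + a * x) + d * (a * y) = (a * d - b ^ 2) * y := by ring
        rw [this, h, zero_mul]
      rw [Prod.mk_eq_zero] at this
      exact hab ⟨this.2, by simpa using this.1⟩
  rcases lt_or_gt_of_ne hD0 with hD | hD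
  · -- indefinite case
    obtain ⟨e₁, e₂, n1, n2, n3⟩ := exists_null_basis hsymm hD
    let A₀ : ℝ × ℝ →ₗ[ℝ] ℝ × ℝ :=
      { toFun := fun p => p.1 • e₁ + p.2 • e₂
        map_add' := fun p q => by simp only [Prod.fst_add, Prod.snd_add]; module
        map_smul' := fun c p => by
          simp only [Prod.smul_fst, Prod.smul_snd, smul_eq_mul, RingHom.id_apply]; module }
    have hA₀ : ∀ p : ℝ × ℝ, A₀ p = p.1 • e₁ + p.2 • e₂ := fun p => rfl
    have hHA : ∀ p v : ℝ × ℝ, H (A₀ p) (A₀ v) = p.1 * v.2 + p.2 * v.1 := by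
      intro p v
      rw [hA₀, hA₀]
      simp only [map_add, map_smul, ContinuousLinearMap.add_apply,
        ContinuousLinearMap.smul_apply, smul_eq_mul]
      rw [n1, n2, hsymm e₂ e₁, n3]
      ring
    have hinj : Function.Injective A₀ := by
      rw [injective_iff_map_eq_zero]
      intro p hp
      have k1 := hHA p (0, 1)
      have k2 := hHA p (1, 0)
      rw [hp] at k1 k2
      simp only [map_zero, ContinuousLinearMap.zero_apply, mul_one, mul_zero, add_zero,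
        zero_add] at k1 k2
      exact Prod.ext k1.symm k2.symm
    let A : (ℝ × ℝ) ≃L[ℝ] (ℝ × ℝ) :=
      (LinearEquiv.ofInjectiveEndo A₀ hinj).toContinuousLinearEquiv
    have hA : ∀ p, A p = A₀ p := fun p => rfl
    set K : ℝ := ‖(A : (ℝ × ℝ) →L[ℝ] (ℝ × ℝ))‖ + 1 with hK
    have hK1 : 1 ≤ K := by rw [hK]; linarith [norm_nonneg (A : (ℝ × ℝ) →L[ℝ] (ℝ × ℝ))]
    have hAn : ∀ p, ‖A p‖ ≤ K * ‖p‖ := by
      intro p
      refine ((A : (ℝ × ℝ) →L[ℝ] (ℝ × ℝ)).le_opNorm p).trans ?_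
      rw [hK]
      nlinarith [norm_nonneg p]
    obtain ⟨r, hr, htay⟩ := taylor_crit hg h0 h1 (c := 1 / (4 * K ^ 2)) (by positivity)
    -- the radius
    obtain ⟨δ, hδ, hδr, hδU⟩ : ∃ δ > 0, (∀ q : ℝ × ℝ, ‖q‖ < δ → ‖A q‖ < r) ∧
        ∀ q : ℝ × ℝ, ‖q‖ < δ → A q ∈ U := by
      have k1 : A ⁻¹' (U ∩ Metric.ball 0 r) ∈ 𝓝 (0 : ℝ × ℝ) := by
        refine A.continuous.continuousAt.preimage_mem_nhds ?_
        rw [map_zero]
        exact inter_mem hU (Metric.ball_mem_nhds _ hr)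
      obtain ⟨δ, hδ, hδ2⟩ := Metric.mem_nhds_iff.1 k1
      refine ⟨δ, hδ, fun q hq => ?_, fun q hq => ?_⟩
      · have := (hδ2 (mem_ball_zero_iff.2 hq)).2
        rwa [mem_ball_zero_iff] at this
      · exact (hδ2 (mem_ball_zero_iff.2 hq)).1
    have hnear : NearXY (fun p => g (A p)) δ := by
      have hd' : ∀ q, HasFDerivAt (fun p => g (A p))
          ((fderiv ℝ g (A q)).comp (A : (ℝ × ℝ) →L[ℝ] (ℝ × ℝ))) q := fun q =>
        ((hg.differentiable (by norm_num) (A q)).hasFDerivAt).comp q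
          (A : (ℝ × ℝ) →L[ℝ] (ℝ × ℝ)).hasFDerivAt
      refine ⟨fun q => (hd' q).differentiableAt, fun q hq v => ?_, fun q hq => ?_⟩
      · rw [(hd' q).fderiv]
        have k1 := (htay (A q) (hδr q hq)).1 (A v)
        rw [← hH, hA q, hA v, hHA] at k1
        have k2 : 1 / (4 * K ^ 2) * ‖A₀ q‖ * ‖A₀ v‖ ≤ ‖q‖ * ‖v‖ / 4 := by
          have k3 : ‖A₀ q‖ * ‖A₀ v‖ ≤ (K * ‖q‖) * (K * ‖v‖) :=
            mul_le_mul (hAn q) (hAn v) (norm_nonneg _) (by positivity)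
          calc 1 / (4 * K ^ 2) * ‖A₀ q‖ * ‖A₀ v‖ = 1 / (4 * K ^ 2) * (‖A₀ q‖ * ‖A₀ v‖) := by ring
            _ ≤ 1 / (4 * K ^ 2) * ((K * ‖q‖) * (K * ‖v‖)) :=
                mul_le_mul_of_nonneg_left k3 (by positivity)
            _ = ‖q‖ * ‖v‖ / 4 := by field_simp
        exact k1.trans k2
      · have k1 := (htay (A q) (hδr q hq)).2
        rw [← hH, hA q, hHA] at k1
        have k3 : (q.1 * q.2 + q.2 * q.1) / 2 = q.1 * q.2 := by ring
        rw [k3] at k1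
        have k2 : 1 / (4 * K ^ 2) * ‖A₀ q‖ ^ 2 ≤ ‖q‖ ^ 2 / 4 := by
          have k4 : ‖A₀ q‖ ^ 2 ≤ (K * ‖q‖) ^ 2 := by
            have := hAn q
            rw [hA] at this
            gcongr
          calc 1 / (4 * K ^ 2) * ‖A₀ q‖ ^ 2 ≤ 1 / (4 * K ^ 2) * (K * ‖q‖) ^ 2 :=
                mul_le_mul_of_nonneg_left k4 (by positivity)
            _ = ‖q‖ ^ 2 / 4 := by field_simp
        exact k1.trans k2
    obtain ⟨T, hT, hcomp⟩ := hnear.components hδ
    refine ⟨A '' Metric.ball 0 δ, ?_, ?_, A '' T, hT.image _, ?_⟩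
    · have k1 := A.toHomeomorph.isOpenMap.image_mem_nhds (Metric.ball_mem_nhds (0 : ℝ × ℝ) hδ)
      have k2 : A.toHomeomorph (0 : ℝ × ℝ) = 0 := map_zero A
      rw [k2] at k1
      exact k1
    · rintro _ ⟨q, hq, rfl⟩
      exact hδU q (mem_ball_zero_iff.1 hq)
    · rintro _ ⟨q, hq, rfl⟩ hgq hq0
      have hq0' : q ≠ 0 := fun h => hq0 (by rw [h, map_zero])
      obtain ⟨q', hq'T, hJ⟩ := hcomp q (mem_ball_zero_iff.1 hq) hgq hq0'
      refine ⟨A q', mem_image_of_mem _ hq'T, hJ.somePath.map A.continuous, fun t => ?_⟩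
      obtain ⟨m1, m2, m3⟩ := hJ.somePath_mem t
      refine ⟨⟨_, mem_ball_zero_iff.2 m1, rfl⟩, m2, ?_⟩
      change A (hJ.somePath t) ≠ 0
      exact fun h => m3 (by rwa [map_eq_zero_iff A A.injective] at h)
  · -- definite case
    have hpos : 0 < |a| + |d| := by
      by_contra hcon
      have e1 : |a| = 0 := by linarith [abs_nonneg a, abs_nonneg d, not_lt.1 hcon]
      have e2 := abs_eq_zero.1 e1
      rw [e2] at hD
      nlinarith [sq_nonneg b]
    obtain ⟨r, hr, htay⟩ := taylor_crit hg h0 h1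
      (c := (a * d - b ^ 2) / (4 * (|a| + |d|))) (by positivity)
    refine ⟨U ∩ Metric.ball 0 r, inter_mem hU (Metric.ball_mem_nhds _ hr), inter_subset_left,
      ∅, finite_empty, ?_⟩
    rintro ⟨x, y⟩ ⟨-, hq⟩ hgq hq0
    exfalso
    have k1 := (htay (x, y) (mem_ball_zero_iff.1 hq)).2
    rw [← hH, hgq, hform, zero_sub, abs_neg] at k1
    set D := a * d - b ^ 2 with hDdef
    set Q := a * (x * x) + b * (x * y + y * x) + d * (y * y) with hQ
    have m1 : D * y ^ 2 ≤ |a| * |Q| := by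
      have : a * Q = (a * x + b * y) ^ 2 + D * y ^ 2 := by rw [hQ, hDdef]; ring
      calc D * y ^ 2 ≤ a * Q := by rw [this]; nlinarith [sq_nonneg (a * x + b * y)]
        _ ≤ |a * Q| := le_abs_self _
        _ = |a| * |Q| := abs_mul _ _
    have m2 : D * x ^ 2 ≤ |d| * |Q| := by
      have : d * Q = (b * x + d * y) ^ 2 + D * x ^ 2 := by rw [hQ, hDdef]; ring
      calc D * x ^ 2 ≤ d * Q := by rw [this]; nlinarith [sq_nonneg (b * x + d * y)]
        _ ≤ |d * Q| := le_abs_self _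
        _ = |d| * |Q| := abs_mul _ _
    have hnsq : ‖((x, y) : ℝ × ℝ)‖ ^ 2 ≤ x ^ 2 + y ^ 2 := by
      rw [Prod.norm_mk, Real.norm_eq_abs, Real.norm_eq_abs]
      rcases max_cases |x| |y| with ⟨h, -⟩ | ⟨h, -⟩
      · rw [h, sq_abs]; nlinarith [sq_nonneg y]
      · rw [h, sq_abs]; nlinarith [sq_nonneg x]
    have hxy : 0 < x ^ 2 + y ^ 2 := by
      have : 0 < ‖((x, y) : ℝ × ℝ)‖ := norm_pos_iff.2 hq0
      nlinarith
    have k2 : |Q| / 2 ≤ D / (4 * (|a| + |d|)) * (x ^ 2 + y ^ 2) := by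
      have e1 : |Q / 2| = |Q| / 2 := by rw [abs_div]; norm_num
      rw [e1] at k1
      exact k1.trans (mul_le_mul_of_nonneg_left hnsq (by positivity))
    have k3 : (|a| + |d|) * |Q| ≤ D * (x ^ 2 + y ^ 2) / 2 := by
      have := mul_le_mul_of_nonneg_left k2 (by positivity : 0 ≤ 2 * (|a| + |d|))
      have e2 : 2 * (|a| + |d|) * (D / (4 * (|a| + |d|)) * (x ^ 2 + y ^ 2))
          = D * (x ^ 2 + y ^ 2) / 2 := by field_simp; ring
      rw [e2] at this
      linarith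
    have k4 : D * (x ^ 2 + y ^ 2) ≤ (|a| + |d|) * |Q| := by linarith
    have k5 : 0 < D * (x ^ 2 + y ^ 2) := mul_pos hD hxy
    linarith

end Pool.Agent.PG
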