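import Pool.Agent.Work.PG.SardUT
import Pool.Agent.Work.PG.Nondeg

/-!
# Transversally nondegenerate (Bott) integrals are tame (helper88, helper65; cell PG)
-/

set_option autoImplicit false
set_option linter.unusedVariables false
set_option linter.unusedSectionVars false

open Set Filter Topology
open scoped ContDiff InnerProductSpace

namespace Pool.Agent.PG

variable {E : Type} [NormedAddCommGroup E] [InnerProductSpace ℝ E] [FiniteDimensional ℝ E]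
  {M : Set E} {P : E → E →L[ℝ] E}

/-- Derivatives of tangent fields along a curve which vanish at time `0` are tangent. -/
lemma Surf.tangent_limit (S : Surf M P) {y b : ℝ → E × E} {y' b' : E × E}
    (hy : HasDerivAt y y' 0) (hb : HasDerivAt b b' 0)
    (hbT : ∀ᶠ t in 𝓝 (0 : ℝ), b t ∈ TU P (y t)) (hb0 : b 0 = 0) : b' ∈ TU P (y 0) := by
  have hP : HasDerivAt (fun t => P (y t).1) (fderiv ℝ P (y 0).1 y'.1) 0 := by
    have h1 : HasFDerivAt P (fderiv ℝ P (y 0).1) (y 0).1 :=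
      (S.smooth.differentiable (by simp) _).hasFDerivAt
    have h2 : HasDerivAt (fun t => (y t).1) y'.1 0 := hy.fst
    exact HasFDerivAt.comp_hasDerivAt (f := fun t => (y t).1) (0 : ℝ) h1 h2
  have hDP : HasDerivAt (fun t => fderiv ℝ P (y t).1)
      (fderiv ℝ (fderiv ℝ P) (y 0).1 y'.1) 0 := by
    have hs : ContDiff ℝ ∞ (fderiv ℝ P) := S.smooth.fderiv_right (m := ∞) (by simp)
    have h1 : HasFDerivAt (fderiv ℝ P) (fderiv ℝ (fderiv ℝ P) (y 0).1) (y 0).1 :=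
      (hs.differentiable (by simp) _).hasFDerivAt
    exact HasFDerivAt.comp_hasDerivAt (f := fun t => (y t).1) (l := fderiv ℝ P) (0 : ℝ) h1 hy.fst
  have hb1 : HasDerivAt (fun t => (b t).1) b'.1 0 := hb.fst
  have hb2 : HasDerivAt (fun t => (b t).2) b'.2 0 := hb.snd
  have hc : HasDerivAt (fun t => (b t).2 - fderiv ℝ P (y t).1 (b t).1 (y t).2)
      (b'.2 - fderiv ℝ P (y 0).1 b'.1 (y 0).2) 0 := by
    have h1 := (hDP.clm_apply hb1).clm_apply hy.snd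
    have h2 := hb2.sub h1
    have h3 : b'.2 - ((fderiv ℝ (fderiv ℝ P) (y 0).1 y'.1 (b 0).1 + fderiv ℝ P (y 0).1 b'.1)
        (y 0).2 + (fderiv ℝ P (y 0).1 (b 0).1) y'.2) = b'.2 - fderiv ℝ P (y 0).1 b'.1 (y 0).2 := by
      simp [hb0]
    rw [h3] at h2
    exact h2
  refine ⟨?_, ?_, ?_⟩
  · have h1 := hP.clm_apply hb1
    have h2 : HasDerivAt (fun t => P (y t).1 (b t).1) b'.1 0 :=
      hb1.congr_of_eventuallyEq (hbT.mono fun t ht => ht.1)
    have h3 := h1.unique h2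
    simpa [hb0] using h3
  · have h1 := hP.clm_apply hc
    have h2 : HasDerivAt (fun t => P (y t).1 ((b t).2 - fderiv ℝ P (y t).1 (b t).1 (y t).2))
        (b'.2 - fderiv ℝ P (y 0).1 b'.1 (y 0).2) 0 :=
      hc.congr_of_eventuallyEq (hbT.mono fun t ht => ht.2.1)
    have h3 := h1.unique h2
    simpa [hb0] using h3
  · have h1 := hb2.inner ℝ hy.snd
    have h2 : HasDerivAt (fun t => ⟪(b t).2, (y t).2⟫_ℝ) 0 0 :=
      (hasDerivAt_const (0 : ℝ) (0 : ℝ)).congr_of_eventuallyEq (hbT.mono fun t ht => ht.2.2)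
    have h3 := h1.unique h2
    simpa [hb0] using h3

/-- In a transversally nondegenerate family, the flow coordinates are nonsingular. -/
lemma Surf.bott_injective (S : Surf M P) {F : E × E → ℝ} (hF : IsFirstIntegral M F)
    {φ : ℝ → E × E → E × E} (hφ : IsFlowOn (UT M) (Xf P) φ) {Γ : ℝ × ℝ → E × E}
    (hΓ : ContDiff ℝ ∞ Γ) (hΓU : ∀ q, Γ q ∈ UT M) (hcrit : Γ 0 ∈ Critical M F)
    (hnd : ∀ u : ℝ × ℝ, (∀ v, fderiv ℝ (fderiv ℝ (fun q => F (Γ q))) 0 u v = 0) → u = 0) :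
    Function.Injective (fderiv ℝ (fun r : ℝ × ℝ × ℝ => φ r.1 (Γ r.2)) 0) := by
  set Ψ : ℝ × ℝ × ℝ → E × E := fun r => φ r.1 (Γ r.2) with hΨdef
  set g : ℝ × ℝ → ℝ := fun q => F (Γ q) with hg
  have hgs : ContDiff ℝ ∞ g := hF.1.comp hΓ
  have hΨ : ContDiff ℝ ∞ Ψ := hφ.smooth.comp (contDiff_fst.prodMk (hΓ.comp contDiff_snd))
  have hΨU : ∀ r, Ψ r ∈ UT M := fun r => hφ.maps _ _ (hΓU _)
  have hFΨ : ∀ r, F (Ψ r) = g r.2 := fun r => S.integral_flow hφ hF (hΓU _) _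
  have hΨ0 : Ψ 0 = Γ 0 := by
    change φ 0 (Γ 0) = Γ 0
    rw [hφ.zero]
  have hΨd : ∀ r, HasFDerivAt Ψ (fderiv ℝ Ψ r) r := fun r =>
    (hΨ.differentiable (by simp) r).hasFDerivAt
  have hFd : ∀ w, HasFDerivAt F (fderiv ℝ F w) w := fun w =>
    (hF.1.differentiable (by simp) w).hasFDerivAt
  have hgd : ∀ q, HasFDerivAt g (fderiv ℝ g q) q := fun q =>
    (hgs.differentiable (by simp) q).hasFDerivAt
  -- velocities are tangent
  have htan : ∀ r a, fderiv ℝ Ψ r a ∈ TU P (Ψ r) := by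
    intro r a
    have hline : HasDerivAt (fun t : ℝ => r + t • a) a 0 := by
      simpa using ((hasDerivAt_id (0 : ℝ)).smul_const a).const_add r
    have hΨd0 : HasFDerivAt Ψ (fderiv ℝ Ψ r) (r + (0 : ℝ) • a) := by simpa using hΨd r
    have h1 := HasFDerivAt.comp_hasDerivAt (f := fun t : ℝ => r + t • a) 0 hΨd0 hline
    exact S.vel_mem (hΨU r) (β := Ψ ∘ fun t : ℝ => r + t • a) (by simp)
      (Eventually.of_forall fun t => hΨU _) h1
  -- the chain rule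
  have hchain : ∀ r a, fderiv ℝ F (Ψ r) (fderiv ℝ Ψ r a) = fderiv ℝ g r.2 a.2 := by
    intro r a
    have h1 : HasFDerivAt (fun r => F (Ψ r)) ((fderiv ℝ F (Ψ r)).comp (fderiv ℝ Ψ r)) r :=
      (hFd _).comp r (hΨd r)
    have h2 : HasFDerivAt (fun r : ℝ × ℝ × ℝ => g r.2)
        ((fderiv ℝ g r.2).comp (ContinuousLinearMap.snd ℝ ℝ (ℝ × ℝ))) r :=
      HasFDerivAt.comp (g := g) r (hgd _) hasFDerivAt_snd
    have h3 : (fun r => F (Ψ r)) = fun r : ℝ × ℝ × ℝ => g r.2 := funext hFΨ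
    rw [h3] at h1
    have h4 := congrArg (fun l => l a) (h1.unique h2)
    exact h4
  rw [injective_iff_map_eq_zero]
  intro a ha
  -- the Hessian kills `a.2`
  have hker : ∀ v : ℝ × ℝ, fderiv ℝ (fderiv ℝ g) 0 v a.2 = 0 := by
    intro v
    have hDΨ : ContDiff ℝ ∞ (fderiv ℝ Ψ) := hΨ.fderiv_right (m := ∞) (by simp)
    have hDF : ContDiff ℝ ∞ (fderiv ℝ F) := hF.1.fderiv_right (m := ∞) (by simp)
    have hDg : ContDiff ℝ ∞ (fderiv ℝ g) := hgs.fderiv_right (m := ∞) (by simp)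
    have hl : HasDerivAt (fun t : ℝ => ((0, t • v) : ℝ × ℝ × ℝ)) (0, v) 0 := by
      have h1 : HasDerivAt (fun t : ℝ => t • v) v 0 := by
        simpa using (hasDerivAt_id (0 : ℝ)).smul_const v
      exact (hasDerivAt_const _ _).prodMk h1
    have hl0 : ((0, (0 : ℝ) • v) : ℝ × ℝ × ℝ) = 0 := by simp
    have hy : HasDerivAt (fun t : ℝ => Ψ (0, t • v)) (fderiv ℝ Ψ 0 (0, v)) 0 := by
      have h1 : HasFDerivAt Ψ (fderiv ℝ Ψ 0) (0, (0 : ℝ) • v) := by rw [hl0]; exact hΨd 0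
      exact HasFDerivAt.comp_hasDerivAt (f := fun t : ℝ => ((0, t • v) : ℝ × ℝ × ℝ)) 0 h1 hl
    have hDΨl : HasDerivAt (fun t : ℝ => fderiv ℝ Ψ (0, t • v))
        (fderiv ℝ (fderiv ℝ Ψ) 0 (0, v)) 0 := by
      have h1 : HasFDerivAt (fderiv ℝ Ψ) (fderiv ℝ (fderiv ℝ Ψ) 0) (0, (0 : ℝ) • v) := by
        rw [hl0]
        exact (hDΨ.differentiable (by simp) 0).hasFDerivAt
      exact HasFDerivAt.comp_hasDerivAt (f := fun t : ℝ => ((0, t • v) : ℝ × ℝ × ℝ))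
        (l := fderiv ℝ Ψ) 0 h1 hl
    have hb : HasDerivAt (fun t : ℝ => fderiv ℝ Ψ (0, t • v) a)
        (fderiv ℝ (fderiv ℝ Ψ) 0 (0, v) a) 0 := by
      have h1 := hDΨl.clm_apply (hasDerivAt_const (0 : ℝ) a)
      simpa using h1
    have hb0 : fderiv ℝ Ψ (0, (0 : ℝ) • v) a = 0 := by rw [hl0]; exact ha
    have hT := S.tangent_limit hy hb (Eventually.of_forall fun t => htan _ _) hb0
    have hy0 : Ψ (0, (0 : ℝ) • v) = Γ 0 := by rw [hl0, hΨ0]
    simp only [hy0] at hT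
    have hzero : fderiv ℝ F (Γ 0) (fderiv ℝ (fderiv ℝ Ψ) 0 (0, v) a) = 0 :=
      ((S.mem_Critical hF.1).1 hcrit).2 _ hT
    -- differentiate the chain rule
    have hDFl : HasDerivAt (fun t : ℝ => fderiv ℝ F (Ψ (0, t • v)))
        (fderiv ℝ (fderiv ℝ F) (Γ 0) (fderiv ℝ Ψ 0 (0, v))) 0 := by
      have h1 : HasFDerivAt (fderiv ℝ F) (fderiv ℝ (fderiv ℝ F) (Γ 0)) (Ψ (0, (0 : ℝ) • v)) := by
        rw [hy0]
        exact (hDF.differentiable (by simp) _).hasFDerivAt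
      exact HasFDerivAt.comp_hasDerivAt (f := fun t : ℝ => Ψ (0, t • v))
        (l := fderiv ℝ F) 0 h1 hy
    have hL := hDFl.clm_apply hb
    rw [hb0, hy0, hzero, map_zero, add_zero] at hL
    have hR : HasDerivAt (fun t : ℝ => fderiv ℝ g (t • v) a.2)
        (fderiv ℝ (fderiv ℝ g) 0 v a.2) 0 := by
      have h0 : HasDerivAt (fun t : ℝ => t • v) v 0 := by
        simpa using (hasDerivAt_id (0 : ℝ)).smul_const v
      have h1 : HasFDerivAt (fderiv ℝ g) (fderiv ℝ (fderiv ℝ g) 0) ((0 : ℝ) • v) := by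
        rw [zero_smul]
        exact (hDg.differentiable (by simp) _).hasFDerivAt
      have h2 := HasFDerivAt.comp_hasDerivAt (f := fun t : ℝ => t • v)
        (l := fderiv ℝ g) 0 h1 h0
      have h3 := h2.clm_apply (hasDerivAt_const (0 : ℝ) a.2)
      simpa using h3
    have heq : (fun t : ℝ => fderiv ℝ F (Ψ (0, t • v)) (fderiv ℝ Ψ (0, t • v) a))
        = fun t : ℝ => fderiv ℝ g (t • v) a.2 := by
      funext t
      exact hchain (0, t • v) a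
    rw [heq] at hL
    exact hR.unique hL
  have hsymm : IsSymmSndFDerivAt ℝ g 0 :=
    (hgs.contDiffAt (x := 0)).isSymmSndFDerivAt (by
      rw [minSmoothness_of_isRCLikeNormedField]
      exact WithTop.coe_le_coe.2 (le_top : (2 : ℕ∞) ≤ ⊤))
  have ha2 : a.2 = 0 := hnd a.2 fun v => by rw [hsymm.eq]; exact hker v
  -- the flow component
  have hX : fderiv ℝ Ψ 0 (1, 0) = Xf P (Γ 0) := by
    have h1 : HasDerivAt (fun s : ℝ => ((s, 0) : ℝ × ℝ × ℝ)) (1, 0) 0 :=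
      (hasDerivAt_id (0 : ℝ)).prodMk (hasDerivAt_const _ _)
    have h2 := HasFDerivAt.comp_hasDerivAt (f := fun s : ℝ => ((s, 0) : ℝ × ℝ × ℝ)) 0 (hΨd 0) h1
    have h3 := hφ.deriv (Γ 0) (hΓU 0) 0
    rw [hφ.zero] at h3
    exact h2.unique h3
  have ha' : a = a.1 • ((1, 0) : ℝ × ℝ × ℝ) := by
    refine Prod.ext ?_ ?_
    · simp
    · simp [ha2]
  rw [ha', map_smul, hX] at ha
  have h1 : a.1 • (Γ 0).2 = 0 := congrArg Prod.fst ha
  have h2 : a.1 = 0 := by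
    rcases smul_eq_zero.1 h1 with h | h
    · exact h
    · have h3 := (S.mem_UT.1 (hΓU 0)).2.2
      rw [h, norm_zero] at h3
      exact absurd h3 (by norm_num)
  exact Prod.ext h2 ha2

/-- A nondegenerate critical point is isolated. -/
lemma isolated_of_nondeg {g : ℝ × ℝ → ℝ} (hg : ContDiff ℝ 2 g) (h1 : fderiv ℝ g 0 = 0)
    (h2 : ∀ u : ℝ × ℝ, (∀ v, fderiv ℝ (fderiv ℝ g) 0 u v = 0) → u = 0) :
    ∀ᶠ q in 𝓝 (0 : ℝ × ℝ), fderiv ℝ g q = 0 → q = 0 := by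
  have hDg : ContDiff ℝ 1 (fderiv ℝ g) := hg.fderiv_right (m := 1) (by norm_num)
  have hd : HasFDerivAt (fderiv ℝ g) (fderiv ℝ (fderiv ℝ g) 0) 0 :=
    (hDg.differentiable (by norm_num) 0).hasFDerivAt
  have hinj : Function.Injective (fderiv ℝ (fderiv ℝ g) 0) := by
    rw [injective_iff_map_eq_zero]
    intro u hu
    exact h2 u fun v => by rw [hu]; rfl
  obtain ⟨K, hK, hanti⟩ := LinearMap.exists_antilipschitzWith
    (fderiv ℝ (fderiv ℝ g) 0 : (ℝ × ℝ) →ₗ[ℝ] (ℝ × ℝ →L[ℝ] ℝ)) (LinearMap.ker_eq_bot.2 hinj)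
  have hK' : (0 : ℝ) < K := by exact_mod_cast hK
  have ho := hd.isLittleO
  rw [Asymptotics.isLittleO_iff] at ho
  have ho1 := ho (c := 1 / (2 * K)) (by positivity)
  filter_upwards [ho1] with q hq hq0
  rw [hq0, h1, sub_zero, sub_zero, zero_sub, norm_neg] at hq
  have h3 := hanti.le_mul_dist q 0
  simp only [dist_eq_norm, sub_zero, map_zero] at h3
  have h4 : ‖q‖ ≤ K * (1 / (2 * K) * ‖q‖) := h3.trans (mul_le_mul_of_nonneg_left hq hK'.le)
  have h5 : K * (1 / (2 * K) * ‖q‖) = ‖q‖ / 2 := by field_simp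
  rw [h5] at h4
  have h6 : ‖q‖ = 0 := by linarith [norm_nonneg q]
  exact norm_eq_zero.1 h6

/-- tameness at one vector -/
def TameAt (M : Set E) (F : E × E → ℝ) (w : E × E) : Prop :=
  ∀ V ∈ 𝓝 w, ∃ V' ∈ 𝓝 w, V' ⊆ V ∧ ∃ S : Set (E × E), S.Finite ∧
    ∀ y ∈ {y | y ∈ V' ∧ y ∈ UT M ∧ F y = F w ∧ y ∉ Critical M F},
      ∃ y' ∈ S, JoinedIn {y | y ∈ V' ∧ y ∈ UT M ∧ F y = F w ∧ y ∉ Critical M F} y y'

/-- **Bott integrals are tame**, local version. -/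
theorem Surf.tameAt_of_bott (S : Surf M P) {F : E × E → ℝ} (hF : IsFirstIntegral M F)
    {z : E × E} (hz : z ∈ Critical M F) (hB : TransversallyNondegenerate M F z) :
    TameAt M F z := by
  intro V hV
  obtain ⟨φ, hφ⟩ := S.exists_geodesic_flow
  obtain ⟨Γ, hΓ, hΓU, hΓ0, hnd⟩ := hB
  have hcrit : Γ 0 ∈ Critical M F := by rw [hΓ0]; exact hz
  have hinj := S.bott_injective hF hφ hΓ hΓU hcrit hnd
  set Ψ : ℝ × ℝ × ℝ → E × E := fun r => φ r.1 (Γ r.2) with hΨdef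
  have hΨ : ContDiff ℝ ∞ Ψ := hφ.smooth.comp (contDiff_fst.prodMk (hΓ.comp contDiff_snd))
  have hΨU : ∀ r, Ψ r ∈ UT M := fun r => hφ.maps _ _ (hΓU _)
  have hΨ0 : Ψ 0 = z := by
    change φ 0 (Γ 0) = z
    rw [hφ.zero, hΓ0]
  obtain ⟨Λ, hΛ0, hΛc, -, hΛ⟩ := S.local_inverse (hΨ.contDiffAt.of_le (by simp))
    (Eventually.of_forall hΨU) hinj
  rw [hΨ0] at hΛ0 hΛc hΛ
  -- the function on the section
  set g : ℝ × ℝ → ℝ := fun q => F (Γ q) - F z with hg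
  have hgs : ContDiff ℝ ∞ g := (hF.1.comp hΓ).sub contDiff_const
  have hg2 : ContDiff ℝ 2 g := hgs.of_le (WithTop.coe_le_coe.2 (le_top : (2 : ℕ∞) ≤ ⊤))
  have hg0 : g 0 = 0 := by simp [hg, hΓ0]
  have hDg : fderiv ℝ g = fderiv ℝ (fun q => F (Γ q)) := by
    funext q
    rw [hg, fderiv_sub_const]
  -- critical points on the section
  have hcr : ∀ q, Γ q ∈ Critical M F → fderiv ℝ g q = 0 := by
    intro q hq
    refine ContinuousLinearMap.ext fun v => ?_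
    have hline : HasDerivAt (fun t : ℝ => q + t • v) v 0 := by
      simpa using ((hasDerivAt_id (0 : ℝ)).smul_const v).const_add q
    have hgq : HasFDerivAt (fun q => F (Γ q)) (fderiv ℝ g q) (q + (0 : ℝ) • v) := by
      rw [zero_smul, add_zero, hDg]
      exact ((hF.1.comp hΓ).differentiable (by simp) q).hasFDerivAt
    have h1 := HasFDerivAt.comp_hasDerivAt (f := fun t : ℝ => q + t • v) 0 hgq hline
    have hΓl : ContDiff ℝ ∞ fun t : ℝ => Γ (q + t • v) := hΓ.comp (by fun_prop)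
    have h2 := hq.2 (fun t => Γ (q + t • v)) (by simp) (Eventually.of_forall fun t => hΓU _)
      (hΓl.differentiable (by simp) 0)
    exact h1.unique h2
  have hg1 : fderiv ℝ g 0 = 0 := hcr 0 hcrit
  have hnd' : ∀ u : ℝ × ℝ, (∀ v, fderiv ℝ (fderiv ℝ g) 0 u v = 0) → u = 0 := by
    rw [hDg]; exact hnd
  have hiso := isolated_of_nondeg hg2 hg1 hnd'
  -- the size of the box
  obtain ⟨ε, hε, U₁, hU₁, hbox⟩ : ∃ ε > 0, ∃ U₁ ∈ 𝓝 (0 : ℝ × ℝ), ∀ s : ℝ, |s| < ε →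
      ∀ q ∈ U₁, Ψ (s, q) ∈ V := by
    have h1 : Ψ ⁻¹' V ∈ 𝓝 ((0 : ℝ), (0 : ℝ × ℝ)) := by
      refine hΨ.continuous.continuousAt.preimage_mem_nhds ?_
      have : Ψ (0, 0) = z := hΨ0
      rw [this]
      exact hV
    obtain ⟨A, hA, U₁, hU₁, hAU⟩ := mem_nhds_prod_iff.1 h1
    obtain ⟨ε, hε, hεA⟩ := Metric.mem_nhds_iff.1 hA
    refine ⟨ε, hε, U₁, hU₁, fun s hs q hq => ?_⟩
    exact @hAU (s, q) ⟨hεA (by rwa [Metric.mem_ball, Real.dist_eq, sub_zero]), hq⟩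
  obtain ⟨B, hB', hBU, T, hT, hjoin⟩ := nondeg_components hg2 hg0 hg1 hnd'
    (U₁ ∩ {q | fderiv ℝ g q = 0 → q = 0}) (inter_mem hU₁ hiso)
  set V' : Set (E × E) := V ∩ {w | w ∈ UT M → ∃ (s : ℝ) (q : ℝ × ℝ), |s| < ε ∧ q ∈ B ∧
    Ψ (s, q) = w} with hV'
  have hV'n : V' ∈ 𝓝 z := by
    refine inter_mem hV ?_
    have hΛt : Tendsto Λ (𝓝 z) (𝓝 0) := by
      have := hΛc.continuousAt.tendsto
      rwa [hΛ0] at this
    have h1 : ∀ᶠ w in 𝓝 z, |(Λ w).1| < ε := by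
      have h2 : Tendsto (fun w => |(Λ w).1|) (𝓝 z) (𝓝 |(0 : ℝ)|) :=
        ((continuous_abs.comp continuous_fst).tendsto (0 : ℝ × ℝ × ℝ)).comp hΛt
      rw [abs_zero] at h2
      exact h2.eventually_lt_const hε
    have h2 : ∀ᶠ w in 𝓝 z, (Λ w).2 ∈ B :=
      ((continuous_snd.tendsto (0 : ℝ × ℝ × ℝ)).comp hΛt).eventually hB'
    filter_upwards [h1, h2, hΛ] with w hw1 hw2 hw3 hwU
    exact ⟨(Λ w).1, (Λ w).2, hw1, hw2, hw3 hwU⟩
  refine ⟨V', hV'n, inter_subset_left, Γ '' T, hT.image _, ?_⟩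
  set W : Set (E × E) := {y | y ∈ V' ∧ y ∈ UT M ∧ F y = F z ∧ y ∉ Critical M F} with hW
  have hWmem : ∀ (s : ℝ) (q : ℝ × ℝ), |s| < ε → q ∈ B → g q = 0 → q ≠ 0 → Ψ (s, q) ∈ W := by
    intro s q hs hq hgq hq0
    refine ⟨⟨hbox s hs q (hBU hq).1, fun _ => ⟨s, q, hs, hq, rfl⟩⟩, hΨU _, ?_, fun hc => ?_⟩
    · have h1 : F (Ψ (s, q)) = F (Γ q) := S.integral_flow hφ hF (hΓU q) s
      rw [h1]
      exact sub_eq_zero.1 hgq
    · have h1 := S.critical_flow hF hφ hc (-s)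
      have h2 : φ (-s) (Ψ (s, q)) = Γ q := by
        change φ (-s) (φ s (Γ q)) = Γ q
        rw [← hφ.add, neg_add_cancel, hφ.zero]
      rw [h2] at h1
      exact hq0 ((hBU hq).2 (hcr q h1))
  rintro y ⟨hyV, hyU, hyF, hyc⟩
  obtain ⟨s, q, hs, hq, rfl⟩ := hyV.2 hyU
  have hgq : g q = 0 := by
    have h1 : F (Ψ (s, q)) = F (Γ q) := S.integral_flow hφ hF (hΓU q) s
    rw [h1] at hyF
    exact sub_eq_zero.2 hyF
  have hq0 : q ≠ 0 := by
    rintro rfl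
    exact hyc (S.critical_flow hF hφ hcrit s)
  obtain ⟨q', hq'T, hJ⟩ := hjoin q hq hgq hq0
  refine ⟨Γ q', mem_image_of_mem _ hq'T, ?_⟩
  have hJ1 : JoinedIn W (Ψ (s, q)) (Γ q) := by
    refine JoinedIn.ofLine (f := fun t : ℝ => Ψ ((1 - t) * s, q))
      (hΨ.continuous.comp (by fun_prop)).continuousOn (by simp) ?_ ?_
    · change φ ((1 - 1) * s) (Γ q) = Γ q
      rw [sub_self, zero_mul, hφ.zero]
    · rintro _ ⟨t, ht, rfl⟩
      refine hWmem _ _ ?_ hq hgq hq0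
      rw [abs_mul, abs_of_nonneg (by linarith [ht.2])]
      have h1 := abs_nonneg s
      nlinarith [ht.1, ht.2]
  have hJ2 : JoinedIn W (Γ q) (Γ q') := by
    refine ⟨hJ.somePath.map hΓ.continuous, fun t => ?_⟩
    have h1 := hJ.somePath_mem t
    have h2 := hWmem 0 _ (by simpa using hε) h1.1 h1.2.1 h1.2.2
    have h3 : Ψ (0, hJ.somePath t) = Γ (hJ.somePath t) := hφ.zero _
    rw [h3] at h2
    exact h2
  exact hJ1.trans hJ2

/-- **Bott integrals are tame.** -/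
theorem Surf.tame_of_bott (S : Surf M P) {F : E × E → ℝ} (hF : IsFirstIntegral M F)
    (hB : ∀ z ∈ Critical M F, TransversallyNondegenerate M F z) : Tame M F :=
  fun z hz => S.tameAt_of_bott hF hz (hB z hz)

end Pool.Agent.PG
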