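import Pool.Agent.Work.PG.Core2

/-!
# Core, steps 3-6 (helper88, cell PG)
-/

set_option linter.unusedVariables false
set_option linter.unusedSectionVars false

namespace Pool.Agent.PG

open Set Topology Filter

variable {N : Type*} [MetricSpace N] (S : Sys N)

/-- A continuous function on an interval with irrational values only is constant. -/
lemma eq_of_irrational {r : ℝ → ℝ} {a b : ℝ} (hr : ContinuousOn r (Ioo a b))
    (hirr : ∀ c ∈ Ioo a b, ∀ q : ℚ, r c ≠ q) {c d : ℝ} (hc : c ∈ Ioo a b) (hd : d ∈ Ioo a b) :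
    r c = r d := by
  by_contra hne
  wlog h : r c < r d generalizing c d
  · exact this hd hc (Ne.symm hne) (lt_of_le_of_ne (not_lt.1 h) (Ne.symm hne))
  obtain ⟨q, hq1, hq2⟩ := exists_rat_btwn h
  obtain ⟨x, hx, hxq⟩ := isPreconnected_Ioo.intermediate_value hc hd hr ⟨hq1.le, hq2.le⟩
  exact hirr x hx q hxq

lemma zsmul_fst' (m : ℤ) (a : ℝ × ℝ) : (m • a).1 = m * a.1 := by
  rw [Prod.smul_fst, zsmul_eq_mul]

lemma zsmul_snd' (m : ℤ) (a : ℝ × ℝ) : (m • a).2 = m * a.2 := by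
  rw [Prod.smul_snd, zsmul_eq_mul]

namespace Sys

/-- Step 3, the key lemma. -/
lemma full_of_full_left {z : N} (C : ChartAt S.ψ S.F S.Crit z) {W : Set N} (hW : IsOpen W)
    (hzW : z ∈ W) (hWp : ∀ w ∈ W, ∀ s : ℝ, s ≠ 0 → S.ψ (s, 0) w ≠ w) {a₀ : ℝ × ℝ} (ha₀ : a₀ ≠ 0)
    (hstab : S.ψ a₀ z = z) :
    ∃ δ > 0, ∀ c ∈ Ioo (S.F z - δ) (S.F z), C.σ c ∈ W ∧ S.F (C.σ c) = c ∧
      (S.Full (C.σ c) → S.Full z) := by
  have hbase : S.F z ∈ Ioo (S.F z - C.r) (S.F z + C.r) := by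
    constructor <;> linarith [C.r_pos]
  obtain ⟨e, he0, he⟩ := C.period (S.F z) hbase a₀ (by rw [C.σ_base]; exact hstab)
  have hσc : ContinuousAt C.σ (S.F z) := C.cont.continuousAt (Ioo_mem_nhds hbase.1 hbase.2)
  have hσW : ∀ᶠ c in 𝓝 (S.F z), C.σ c ∈ W :=
    hσc.eventually (by rw [C.σ_base]; exact hW.mem_nhds hzW)
  have he1 : ∀ᶠ c in 𝓝 (S.F z), e c ≠ 0 :=
    he.self_of_nhds.2.1.eventually_ne (by rw [he0]; exact ha₀)
  have hint : ∀ᶠ c in 𝓝 (S.F z), c ∈ Ioo (S.F z - C.r) (S.F z + C.r) :=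
    Ioo_mem_nhds hbase.1 hbase.2
  obtain ⟨δ, hδ, hball⟩ := Metric.eventually_nhds_iff.1 (he.and (hσW.and (he1.and hint)))
  have hall : ∀ c ∈ Ioo (S.F z - δ) (S.F z + δ), (S.ψ (e c) (C.σ c) = C.σ c ∧ ContinuousAt e c ∧
      HasDerivAt (fun c => (e c).1) (-(e c).2) c) ∧ C.σ c ∈ W ∧ e c ≠ 0 ∧
      c ∈ Ioo (S.F z - C.r) (S.F z + C.r) := by
    intro c hc
    apply hball
    rw [Real.dist_eq, abs_lt]
    constructor <;> linarith [hc.1, hc.2]
  have he2 : ∀ c ∈ Ioo (S.F z - δ) (S.F z + δ), (e c).2 ≠ 0 := by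
    intro c hc h0
    obtain ⟨⟨h1, -, -⟩, h2, h3, -⟩ := hall c hc
    have h4 : (e c).1 ≠ 0 := fun h => h3 (Prod.ext h h0)
    refine hWp _ h2 _ h4 ?_
    have : ((e c).1, (0 : ℝ)) = e c := Prod.ext rfl h0.symm
    rw [this]
    exact h1
  refine ⟨δ, hδ, fun c' hc' => ?_⟩
  have hc'2 : c' ∈ Ioo (S.F z - δ) (S.F z + δ) := ⟨hc'.1, by linarith [hc'.2]⟩
  refine ⟨(hall c' hc'2).2.1, C.level _ (hall c' hc'2).2.2.2, ?_⟩
  rintro ⟨f₁, f₂, hf₁, hf₂, hdet⟩
  -- a stabiliser vector independent of `e c'`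
  obtain ⟨f, hf, hfdet⟩ : ∃ f, S.ψ f (C.σ c') = C.σ c' ∧
      (e c').1 * f.2 - (e c').2 * f.1 ≠ 0 := by
    by_contra hcon
    push Not at hcon
    have h1 := hcon f₁ hf₁
    have h2 := hcon f₂ hf₂
    have h3 := he2 c' hc'2
    apply hdet
    have h4 : (e c').2 * (f₁.1 * f₂.2 - f₁.2 * f₂.1) = 0 := by
      have e1 : (e c').2 * f₁.1 = (e c').1 * f₁.2 := by linarith
      have e2 : (e c').2 * f₂.1 = (e c').1 * f₂.2 := by linarith
      calc (e c').2 * (f₁.1 * f₂.2 - f₁.2 * f₂.1)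
          = ((e c').2 * f₁.1) * f₂.2 - f₁.2 * ((e c').2 * f₂.1) := by ring
        _ = 0 := by rw [e1, e2]; ring
    rcases mul_eq_zero.1 h4 with h | h
    · exact absurd h h3
    · exact h
  set ρ : ℝ := -f.2 / (e c').2 with hρ
  set μ : ℝ := f.1 + ρ * (e c').1 with hμ
  have hf2 : f.2 = -(ρ * (e c').2) := by
    rw [hρ]; field_simp [he2 c' hc'2]
  have hμ0 : μ ≠ 0 := by
    intro h0
    apply hfdet
    have : f.1 = -(ρ * (e c').1) := by linarith
    rw [hf2, this]; ring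
  let G : ℝ → ℝ × ℝ := fun c => (μ - ρ * (e c).1, -(ρ * (e c).2))
  have hGc' : G c' = f := Prod.ext (by simp only [G]; linarith) (by simp only [G]; rw [hf2])
  let Sset : Set ℝ := {c | S.ψ (G c) (C.σ c) = C.σ c}
  have hIsub : Icc c' (S.F z) ⊆ Ioo (S.F z - δ) (S.F z + δ) := fun c hc =>
    ⟨lt_of_lt_of_le hc'.1 hc.1, lt_of_le_of_lt hc.2 (by linarith)⟩
  have hecont : ContinuousOn e (Icc c' (S.F z)) := fun c hc =>
    (hall c (hIsub hc)).1.2.1.continuousWithinAt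
  have hσcont : ContinuousOn C.σ (Icc c' (S.F z)) :=
    C.cont.mono fun c hc => (hall c (hIsub hc)).2.2.2
  have hGcont : ContinuousOn G (Icc c' (S.F z)) := by
    refine ContinuousOn.prodMk ?_ ?_
    · exact continuousOn_const.sub (continuousOn_const.mul hecont.fst)
    · exact (continuousOn_const.mul hecont.snd).neg
  have hclosed : IsClosed (Sset ∩ Icc c' (S.F z)) := by
    have h1 : ContinuousOn (fun c => (S.ψ (G c) (C.σ c), C.σ c)) (Icc c' (S.F z)) :=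
      ContinuousOn.prodMk (S.cont.comp_continuousOn (hGcont.prodMk hσcont)) hσcont
    have h2 := h1.preimage_isClosed_of_isClosed isClosed_Icc isClosed_diagonal
    rw [inter_comm]
    exact h2
  have hmem : Icc c' (S.F z) ⊆ Sset := by
    refine hclosed.Icc_subset_of_forall_mem_nhdsWithin (show S.ψ (G c') (C.σ c') = C.σ c' by
      rw [hGc']; exact hf) ?_
    rintro c₁ ⟨hc₁, hc₁I⟩
    have hc₁J := hIsub ⟨hc₁I.1, hc₁I.2.le⟩
    obtain ⟨⟨hs1, hcont1, hder1⟩, hW1, hne1, hch1⟩ := hall c₁ hc₁J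
    obtain ⟨g, hg1, hg⟩ := C.period c₁ hch1 (G c₁) hc₁
    -- independence near `c₁`
    have hdet1 : (e c₁).1 * (g c₁).2 - (e c₁).2 * (g c₁).1 ≠ 0 := by
      rw [hg1]
      have : (e c₁).1 * (G c₁).2 - (e c₁).2 * (G c₁).1 = -(μ * (e c₁).2) := by
        simp only [G]; ring
      rw [this, neg_ne_zero]
      exact mul_ne_zero hμ0 (he2 c₁ hc₁J)
    have hgc1 : ContinuousAt g c₁ := hg.self_of_nhds.2.1
    have hdetc : ContinuousAt (fun c => (e c).1 * (g c).2 - (e c).2 * (g c).1) c₁ :=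
      (hcont1.fst.mul hgc1.snd).sub (hcont1.snd.mul hgc1.fst)
    have hJ : ∀ᶠ c in 𝓝 c₁, c ∈ Ioo (S.F z - δ) (S.F z + δ) := Ioo_mem_nhds hc₁J.1 hc₁J.2
    obtain ⟨η, hη, hη2⟩ := Metric.eventually_nhds_iff.1
      (hg.and ((hdetc.eventually_ne hdet1).and hJ))
    have hη3 : ∀ c ∈ Ioo (c₁ - η) (c₁ + η), (S.ψ (g c) (C.σ c) = C.σ c ∧ ContinuousAt g c ∧
        HasDerivAt (fun c => (g c).1) (-(g c).2) c) ∧
        (e c).1 * (g c).2 - (e c).2 * (g c).1 ≠ 0 ∧ c ∈ Ioo (S.F z - δ) (S.F z + δ) := by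
      intro c hc
      apply hη2
      rw [Real.dist_eq, abs_lt]
      constructor <;> linarith [hc.1, hc.2]
    have hc₁η : c₁ ∈ Ioo (c₁ - η) (c₁ + η) := ⟨by linarith, by linarith⟩
    -- the ratio is irrational
    have hrcont : ContinuousOn (fun c => -(g c).2 / (e c).2) (Ioo (c₁ - η) (c₁ + η)) := by
      intro c hc
      obtain ⟨⟨-, h1, -⟩, -, h2⟩ := hη3 c hc
      exact ((h1.snd.neg).div (hall c h2).1.2.1.snd (he2 c h2)).continuousWithinAt
    have hirr : ∀ c ∈ Ioo (c₁ - η) (c₁ + η), ∀ q : ℚ, -(g c).2 / (e c).2 ≠ q := by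
      intro c hc q hq
      obtain ⟨⟨h1, -, -⟩, h2, h3⟩ := hη3 c hc
      obtain ⟨⟨h4, -, -⟩, h5, -, -⟩ := hall c h3
      have h6 : (g c).2 = -((q : ℝ) * (e c).2) := by
        rw [← hq]; field_simp [he2 c h3]
      have hg' : g c ∈ S.stab (C.σ c) := h1
      have he' : e c ∈ S.stab (C.σ c) := h4
      have hh := (S.stab (C.σ c)).add_mem ((S.stab (C.σ c)).zsmul_mem hg' (q.den : ℤ))
        ((S.stab (C.σ c)).zsmul_mem he' q.num)
      have hden : (q.den : ℝ) ≠ 0 := by exact_mod_cast q.den_nz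
      have hqd : (q : ℝ) * q.den = q.num := by exact_mod_cast Rat.mul_den_eq_num q
      have hsnd : (((q.den : ℤ) • g c + q.num • e c : ℝ × ℝ)).2 = 0 := by
        rw [Prod.snd_add, zsmul_snd', zsmul_snd', h6, ← hqd, Int.cast_natCast]; ring
      have hfst : (((q.den : ℤ) • g c + q.num • e c : ℝ × ℝ)).1 ≠ 0 := by
        rw [Prod.fst_add, zsmul_fst', zsmul_fst', Int.cast_natCast]
        intro h0
        apply h2
        have h7 : (q.den : ℝ) * (g c).1 = -((q.num : ℝ) * (e c).1) := by linarith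
        have h8 : (q.den : ℝ) * ((e c).1 * (g c).2 - (e c).2 * (g c).1) = 0 := by
          calc (q.den : ℝ) * ((e c).1 * (g c).2 - (e c).2 * (g c).1)
              = (q.den : ℝ) * (e c).1 * (g c).2 - (e c).2 * ((q.den : ℝ) * (g c).1) := by ring
            _ = 0 := by rw [h7, h6, ← hqd]; ring
        rcases mul_eq_zero.1 h8 with h | h
        · exact absurd h hden
        · exact h
      refine hWp _ h5 _ hfst ?_
      have h9 : ((((q.den : ℤ) • g c + q.num • e c : ℝ × ℝ)).1, (0 : ℝ))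
          = ((q.den : ℤ) • g c + q.num • e c : ℝ × ℝ) := Prod.ext rfl hsnd.symm
      rw [h9]
      exact hh
    have hrconst : ∀ c ∈ Ioo (c₁ - η) (c₁ + η), (g c).2 = -(ρ * (e c).2) := by
      intro c hc
      have h1 := eq_of_irrational hrcont hirr hc hc₁η
      rw [hg1] at h1
      have h2 : -(G c₁).2 / (e c₁).2 = ρ := by
        simp only [G]
        field_simp [he2 c₁ hc₁J]
      rw [h2] at h1
      have h3 := he2 c (hη3 c hc).2.2
      rw [← h1]
      field_simp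
    -- the first component
    have hder : ∀ c ∈ Ioo (c₁ - η) (c₁ + η),
        HasDerivAt (fun c => (g c).1 + ρ * (e c).1) 0 c := by
      intro c hc
      obtain ⟨⟨-, -, h1⟩, -, h2⟩ := hη3 c hc
      have h3 := (hall c h2).1.2.2
      have h4 := h1.add (h3.const_mul ρ)
      refine h4.congr_deriv ?_
      rw [hrconst c hc]; ring
    have hconst : ∀ c ∈ Ioo (c₁ - η) (c₁ + η), (g c).1 + ρ * (e c).1 = μ := by
      intro c hc
      have h1 := (convex_Ioo (c₁ - η) (c₁ + η)).is_const_of_fderivWithin_eq_zero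
        (f := fun c => (g c).1 + ρ * (e c).1) (𝕜 := ℝ)
        (fun c hc => (hder c hc).differentiableAt.differentiableWithinAt)
        (fun c hc => by
          rw [fderivWithin_of_isOpen isOpen_Ioo hc]
          have := (hder c hc).hasFDerivAt.fderiv
          rw [this]
          ext
          simp) hc hc₁η
      rw [h1, hg1]
      simp only [G]
      ring
    have hGg : ∀ c ∈ Ioo (c₁ - η) (c₁ + η), g c = G c := by
      intro c hc
      refine Prod.ext ?_ ?_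
      · simp only [G]; linarith [hconst c hc]
      · simp only [G]; exact hrconst c hc
    refine mem_nhdsWithin_of_mem_nhds ?_
    filter_upwards [Ioo_mem_nhds hc₁η.1 hc₁η.2] with c hc
    change S.ψ (G c) (C.σ c) = C.σ c
    rw [← hGg c hc]
    exact (hη3 c hc).1.1
  have hfin : S.ψ (G (S.F z)) (C.σ (S.F z)) = C.σ (S.F z) :=
    hmem ⟨hc'.2.le, le_rfl⟩
  rw [C.σ_base] at hfin
  have hFzJ : S.F z ∈ Ioo (S.F z - δ) (S.F z + δ) := ⟨by linarith, by linarith⟩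
  refine ⟨e (S.F z), G (S.F z), by rw [he0]; exact hstab, hfin, ?_⟩
  have : (e (S.F z)).1 * (G (S.F z)).2 - (e (S.F z)).2 * (G (S.F z)).1
      = -(μ * (e (S.F z)).2) := by
    simp only [G]; ring
  rw [this, neg_ne_zero]
  exact mul_ne_zero hμ0 (he2 _ hFzJ)

/-- Step 4: all points of a region without periodic points are full. -/
lemma all_full [CompactSpace N] (hper : ∀ z ∈ S.Crit, ∃ l > 0, S.ψ (l, 0) z = z)
    (htame : ∀ z ∈ S.Crit, S.Tame z) (hsard : interior (S.F '' S.Crit) = ∅)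
    {W : Set N} (hW : IsOpen W) (hWp : ∀ w ∈ W, ∀ s : ℝ, s ≠ 0 → S.ψ (s, 0) w ≠ w) :
    ∀ z ∈ W, S.Full z := by
  have hWc : ∀ z ∈ W, z ∉ S.Crit := by
    intro z hz hc
    obtain ⟨l, hl, h⟩ := hper z hc
    exact hWp z hz l hl.ne' h
  have hcv : ∀ z ∈ W, ¬ S.Full z → S.F z ∈ S.F '' S.Crit ∧ ∃ a, a ≠ 0 ∧ S.ψ a z = z := by
    intro z hz hnf
    obtain ⟨w, hw, hwc⟩ := S.exists_crit_of_not_full hnf
    have hFw : S.F w = S.F z := by
      have hcl : IsClosed {w | S.F w = S.F z} := isClosed_eq S.contF continuous_const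
      have : closure (range fun a => S.ψ a z) ⊆ {w | S.F w = S.F z} := by
        refine closure_minimal ?_ hcl
        rintro _ ⟨a, rfl⟩
        exact S.invF a z
      exact this hw
    obtain ⟨l, hl, hl2⟩ := hper w hwc
    exact ⟨⟨w, hwc, hFw⟩, S.exists_stab_of_crit (hWc z hz) hw hwc hl hl2 (htame w hwc)⟩
  intro z hz
  by_contra hnf
  obtain ⟨-, a, ha0, ha⟩ := hcv z hz hnf
  obtain ⟨C⟩ := S.chart z (hWc z hz)
  obtain ⟨δ, hδ, h⟩ := S.full_of_full_left C hW hz hWp ha0 ha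
  have hsub : Ioo (S.F z - δ) (S.F z) ⊆ S.F '' S.Crit := by
    intro c hc
    obtain ⟨h1, h2, h3⟩ := h c hc
    have := (hcv _ h1 (fun h4 => hnf (h3 h4))).1
    rwa [h2] at this
  have hmid : S.F z - δ / 2 ∈ interior (S.F '' S.Crit) :=
    interior_maximal hsub isOpen_Ioo ⟨by linarith, by linarith⟩
  rw [hsard] at hmid
  exact hmid

/-- Bounded representatives near a full regular point. -/
lemma bounded_rep {z : N} (hz : z ∉ S.Crit) (hfull : S.Full z) :
    ∃ B : ℝ, ∀ᶠ w in 𝓝 z, ∀ a, ∃ a', ‖a'‖ ≤ B ∧ S.ψ a' w = S.ψ a w := by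
  obtain ⟨C⟩ := S.chart z hz
  obtain ⟨e₀, f₀, he₀, hf₀, hdet⟩ := hfull
  have hbase : S.F z ∈ Ioo (S.F z - C.r) (S.F z + C.r) := by
    constructor <;> linarith [C.r_pos]
  obtain ⟨e, he0, he⟩ := C.period (S.F z) hbase e₀ (by rw [C.σ_base]; exact he₀)
  obtain ⟨f, hf0, hf⟩ := C.period (S.F z) hbase f₀ (by rw [C.σ_base]; exact hf₀)
  have hec := he.self_of_nhds.2.1
  have hfc := hf.self_of_nhds.2.1
  have hdetc : ContinuousAt (fun c => (e c).1 * (f c).2 - (e c).2 * (f c).1) (S.F z) :=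
    (hec.fst.mul hfc.snd).sub (hec.snd.mul hfc.fst)
  have h1 : ∀ᶠ c in 𝓝 (S.F z), (e c).1 * (f c).2 - (e c).2 * (f c).1 ≠ 0 :=
    hdetc.eventually_ne (by rw [he0, hf0]; exact hdet)
  have h2 : ∀ᶠ c in 𝓝 (S.F z), ‖e c‖ < ‖e₀‖ + 1 :=
    hec.norm.eventually_lt_const (by simp only; rw [he0]; linarith)
  have h3 : ∀ᶠ c in 𝓝 (S.F z), ‖f c‖ < ‖f₀‖ + 1 :=
    hfc.norm.eventually_lt_const (by simp only; rw [hf0]; linarith)
  obtain ⟨ε, hε, hball⟩ := Metric.eventually_nhds_iff.1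
    (he.and (hf.and (h1.and (h2.and h3))))
  refine ⟨(‖e₀‖ + 1) + (‖f₀‖ + 1), ?_⟩
  filter_upwards [S.plaque C hε] with w hw a
  obtain ⟨b, c, -, -, -, hcε, hbw⟩ := hw
  obtain ⟨⟨he1, -, -⟩, ⟨hf1, -, -⟩, hd, hn1, hn2⟩ := hball (y := c) (by rwa [Real.dist_eq])
  set D := (e c).1 * (f c).2 - (e c).2 * (f c).1 with hD
  set x := (a.1 * (f c).2 - a.2 * (f c).1) / D with hx
  set y := ((e c).1 * a.2 - (e c).2 * a.1) / D with hy
  have ha : a = x • e c + y • f c := by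
    refine Prod.ext ?_ ?_
    · simp only [Prod.fst_add, Prod.smul_fst, smul_eq_mul, hx, hy]
      field_simp
      rw [hD]; ring
    · simp only [Prod.snd_add, Prod.smul_snd, smul_eq_mul, hx, hy]
      field_simp
      rw [hD]; ring
  have hst : S.stab w = S.stab (C.σ c) := by rw [← hbw, S.stab_act]
  refine ⟨Int.fract x • e c + Int.fract y • f c, ?_, ?_⟩
  · refine (norm_add_le _ _).trans (add_le_add ?_ ?_)
    · rw [norm_smul, Real.norm_of_nonneg (Int.fract_nonneg x)]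
      have := (Int.fract_lt_one x).le
      nlinarith [norm_nonneg (e c)]
    · rw [norm_smul, Real.norm_of_nonneg (Int.fract_nonneg y)]
      have := (Int.fract_lt_one y).le
      nlinarith [norm_nonneg (f c)]
  · have hm1 : e c ∈ S.stab w := by rw [hst]; exact he1
    have hm2 : f c ∈ S.stab w := by rw [hst]; exact hf1
    have hm := (S.stab w).add_mem ((S.stab w).zsmul_mem hm1 ⌊x⌋) ((S.stab w).zsmul_mem hm2 ⌊y⌋)
    have hdec : a = (Int.fract x • e c + Int.fract y • f c) + (⌊x⌋ • e c + ⌊y⌋ • f c) := by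
      have h4 : x = Int.fract x + ⌊x⌋ := (Int.fract_add_floor x).symm
      have h5 : y = Int.fract y + ⌊y⌋ := (Int.fract_add_floor y).symm
      conv_lhs => rw [ha, h4, h5]
      rw [add_smul, add_smul, Int.cast_smul_eq_zsmul, Int.cast_smul_eq_zsmul]
      abel
    conv_rhs => rw [hdec, S.add]
    rw [S.mem_stab.1 hm]

/-- Step 5: along a path of full regular points, equal levels are on the same orbit. -/
lemma same_orbit_of_path {γ : ℝ → N} (hγ : Continuous γ) (hreg : ∀ u, γ u ∉ S.Crit)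
    (hfull : ∀ u, S.Full (γ u)) {u v : ℝ} (huv : u ≤ v) (hF : S.F (γ u) = S.F (γ v)) :
    ∃ a, S.ψ a (γ u) = γ v := by
  refine zip_lemma (R := fun u v => ∃ a, S.ψ a (γ u) = γ v) (A := fun u => S.F (γ u))
    (a := u) (b := v) ((S.contF.comp hγ).continuousOn) (fun u _ => ⟨0, S.zero _⟩)
    (fun u _ v _ h => ?_) (fun u _ v _ w _ h1 h2 => ?_) ?_ (fun u _ v _ h => ?_)
    u (left_mem_Icc.2 huv) v (right_mem_Icc.2 huv) hF
  · obtain ⟨a, ha⟩ := h
    exact ⟨-a, (S.eq_neg_of a ha).symm⟩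
  · obtain ⟨a, ha⟩ := h1
    obtain ⟨b, hb⟩ := h2
    exact ⟨b + a, by rw [S.add, ha, hb]⟩
  · have hcl : IsClosed {p : ℝ × ℝ | ∃ a, S.ψ a (γ p.1) = γ p.2} := by
      rw [← isOpen_compl_iff, isOpen_iff_mem_nhds]
      rintro ⟨u, v⟩ hp
      obtain ⟨B, hB⟩ := S.bounded_rep (hreg u) (hfull u)
      have hp' : ∀ a, S.ψ a (γ u) ≠ γ v := fun a ha => hp ⟨a, ha⟩
      have h1 : ∀ᶠ p : ℝ × ℝ in 𝓝 (u, v), ∀ a ∈ Metric.closedBall (0 : ℝ × ℝ) B,
          S.ψ a (γ p.1) ≠ γ p.2 := by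
        refine (isCompact_closedBall (0 : ℝ × ℝ) B).eventually_forall_of_forall_eventually
          (P := fun (p : ℝ × ℝ) (a : ℝ × ℝ) => S.ψ a (γ p.1) ≠ γ p.2) fun a _ => ?_
        have hc1 : Continuous fun r : (ℝ × ℝ) × (ℝ × ℝ) => S.ψ r.2 (γ r.1.1) :=
          S.cont.comp (continuous_snd.prodMk (hγ.comp (continuous_fst.comp continuous_fst)))
        have hc2 : Continuous fun r : (ℝ × ℝ) × (ℝ × ℝ) => γ r.1.2 :=
          hγ.comp (continuous_snd.comp continuous_fst)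
        exact (isOpen_ne_fun hc1 hc2).mem_nhds (hp' a)
      have h2 : ∀ᶠ p : ℝ × ℝ in 𝓝 (u, v), ∀ a, ∃ a', ‖a'‖ ≤ B ∧
          S.ψ a' (γ p.1) = S.ψ a (γ p.1) :=
        ((hγ.comp continuous_fst).tendsto (u, v)).eventually hB
      filter_upwards [h1, h2] with p hp1 hp2
      rintro ⟨a, ha⟩
      obtain ⟨a', ha', h⟩ := hp2 a
      exact hp1 a' (by rwa [mem_closedBall_zero_iff]) (h.trans ha)
    have : {p : ℝ × ℝ | p.1 ∈ Icc u v ∧ p.2 ∈ Icc u v ∧ ∃ a, S.ψ a (γ p.1) = γ p.2}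
        = (Icc u v ×ˢ Icc u v) ∩ {p : ℝ × ℝ | ∃ a, S.ψ a (γ p.1) = γ p.2} := by
      ext q
      constructor
      · rintro ⟨h1, h2, h3⟩; exact ⟨⟨h1, h2⟩, h3⟩
      · rintro ⟨⟨h1, h2⟩, h3⟩; exact ⟨h1, h2, h3⟩
    rw [this]
    exact (isClosed_Icc.prod isClosed_Icc).inter hcl
  · obtain ⟨a, ha⟩ := h
    have h1 := S.same_orbit (hreg u)
    have hc : Continuous fun p : ℝ × ℝ => (γ p.1, S.ψ (-a) (γ p.2)) :=
      (hγ.comp continuous_fst).prodMk ((S.cont_right (-a)).comp (hγ.comp continuous_snd))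
    have h2 : Tendsto (fun p : ℝ × ℝ => (γ p.1, S.ψ (-a) (γ p.2))) (𝓝 (u, v))
        (𝓝 (γ u, γ u)) := by
      have := hc.tendsto (u, v)
      rwa [← ha, S.neg_add'] at this
    filter_upwards [h2.eventually h1] with p hp _ _ hA
    obtain ⟨b, hb⟩ := hp (by simp only [S.invF]; exact hA)
    exact ⟨a + b, by rw [S.add, hb, S.add_neg']⟩

/-- Step 6: a full point without horizontal stabiliser is not reversed within its orbit. -/
lemma no_reversal {z : N} (hfull : S.Full z) (hp : ∀ s : ℝ, s ≠ 0 → S.ψ (s, 0) z ≠ z)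
    {e : ℝ × ℝ} (he : S.J z = S.ψ e z) : False := by
  obtain ⟨e₀, f₀, he₀, hf₀, hdet⟩ := hfull
  have hhor : ∀ a ∈ S.stab z, a.2 = 0 → a = 0 := by
    intro a ha h0
    by_contra hne
    have h1 : a.1 ≠ 0 := fun h => hne (Prod.ext h h0)
    refine hp _ h1 ?_
    have : (a.1, (0 : ℝ)) = a := Prod.ext rfl h0.symm
    rw [this]
    exact ha
  set T : AddSubgroup ℝ := (S.stab z).map (AddMonoidHom.snd ℝ ℝ) with hT
  have hdense : Dense (T : Set ℝ) := by
    rcases T.dense_or_cyclic with h | ⟨τ, hτ⟩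
    · exact h
    · exfalso
      have h1 : e₀.2 ∈ T := ⟨e₀, he₀, rfl⟩
      have h2 : f₀.2 ∈ T := ⟨f₀, hf₀, rfl⟩
      rw [hτ, AddSubgroup.mem_closure_singleton] at h1 h2
      obtain ⟨m, hm⟩ := h1
      obtain ⟨n, hn⟩ := h2
      have hm' : (m : ℝ) * τ = e₀.2 := by rw [← hm, zsmul_eq_mul]
      have hn' : (n : ℝ) * τ = f₀.2 := by rw [← hn, zsmul_eq_mul]
      have hh : n • e₀ - m • f₀ ∈ S.stab z :=
        (S.stab z).sub_mem ((S.stab z).zsmul_mem he₀ n) ((S.stab z).zsmul_mem hf₀ m)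
      have h3 : (n • e₀ - m • f₀).2 = 0 := by
        rw [Prod.snd_sub, zsmul_snd', zsmul_snd', ← hm', ← hn']; ring
      have h4 := hhor _ hh h3
      have h5 : (n : ℝ) * e₀.1 - m * f₀.1 = 0 := by
        have := congrArg Prod.fst h4
        rwa [Prod.fst_sub, zsmul_fst', zsmul_fst'] at this
      -- `n = m = 0`
      have h6 : (n : ℝ) * (e₀.1 * f₀.2 - e₀.2 * f₀.1) = 0 := by
        calc (n : ℝ) * (e₀.1 * f₀.2 - e₀.2 * f₀.1)
            = ((n : ℝ) * e₀.1 - m * f₀.1) * f₀.2 + f₀.1 * (m * f₀.2 - n * e₀.2) := by ring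
          _ = 0 := by rw [h5, ← hm', ← hn']; ring
      have h7 : (n : ℝ) = 0 := by
        rcases mul_eq_zero.1 h6 with h | h
        · exact h
        · exact absurd h hdet
      have h8 : f₀.2 = 0 := by rw [← hn', h7, zero_mul]
      have h9 := hhor f₀ hf₀ h8
      apply hdet
      rw [h9]; simp
  -- the identity on a dense set
  have hid : ∀ q : ℝ, S.J (S.ψ (e.1 / 2, q) z) = S.ψ (e.1 - e.1 / 2, e.2 - q) z := by
    have hcl : IsClosed {q : ℝ | S.J (S.ψ (e.1 / 2, q) z) = S.ψ (e.1 - e.1 / 2, e.2 - q) z} := by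
      refine isClosed_eq ?_ ?_
      · exact S.contJ.comp ((S.cont_left z).comp (by fun_prop))
      · exact (S.cont_left z).comp (by fun_prop)
    have hsub : (T : Set ℝ) ⊆
        {q : ℝ | S.J (S.ψ (e.1 / 2, q) z) = S.ψ (e.1 - e.1 / 2, e.2 - q) z} := by
      rintro _ ⟨γ, hγ, rfl⟩
      have hγ' : S.ψ γ z = z := hγ
      change S.J (S.ψ (e.1 / 2, γ.2) z) = S.ψ (e.1 - e.1 / 2, e.2 - γ.2) z
      have e1 : (e.1 / 2, γ.2) = (e.1 / 2 - γ.1, 0) + γ := by
        refine Prod.ext ?_ ?_ <;> simp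
      have e2 : (e.1 - e.1 / 2, e.2 - γ.2) = (-(e.1 / 2 - γ.1), 0) + (e + -γ) := by
        refine Prod.ext ?_ ?_ <;> simp <;> ring
      rw [e1, S.add, hγ', S.J_flow, he, e2, S.add, S.add, S.stab_neg hγ']
    intro q
    have h1 : closure (T : Set ℝ) ⊆ _ := closure_minimal hsub hcl
    rw [hdense.closure_eq] at h1
    exact h1 (mem_univ q)
  refine S.J_ne (S.ψ (e.1 / 2, e.2 / 2) z) ?_
  rw [hid]
  congr 1
  refine Prod.ext ?_ ?_ <;> simp <;> ring

/-- **Core theorem.** -/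
theorem core [CompactSpace N] (hper : ∀ z ∈ S.Crit, ∃ l > 0, S.ψ (l, 0) z = z)
    (htame : ∀ z ∈ S.Crit, S.Tame z) (hsard : interior (S.F '' S.Crit) = ∅)
    {W : Set N} (hW : IsOpen W) (hWp : ∀ w ∈ W, ∀ s : ℝ, s ≠ 0 → S.ψ (s, 0) w ≠ w)
    {γ : ℝ → N} (hγ : Continuous γ) (hγW : ∀ u, γ u ∈ W)
    (hγJ : ∀ u, γ (u + Real.pi) = S.J (γ u)) : False := by
  have hfull := S.all_full hper htame hsard hW hWp
  have hWc : ∀ z ∈ W, z ∉ S.Crit := by
    intro z hz hc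
    obtain ⟨l, hl, h⟩ := hper z hc
    exact hWp z hz l hl.ne' h
  -- a unit vector with the same value as its opposite
  obtain ⟨u, -, hu⟩ : ∃ u ∈ Icc 0 Real.pi, S.F (γ (u + Real.pi)) - S.F (γ u) = 0 := by
    have hc : Continuous fun u => S.F (γ (u + Real.pi)) - S.F (γ u) :=
      (S.contF.comp (hγ.comp (by fun_prop))).sub (S.contF.comp hγ)
    have hpi : S.F (γ (Real.pi + Real.pi)) - S.F (γ Real.pi)
        = -(S.F (γ (0 + Real.pi)) - S.F (γ 0)) := by
      have h1 : γ (Real.pi + Real.pi) = γ 0 := by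
        rw [hγJ, ← zero_add Real.pi, hγJ, S.J_J]
      rw [h1, zero_add]; ring
    rcases le_total (S.F (γ (0 + Real.pi)) - S.F (γ 0)) 0 with h | h
    · exact intermediate_value_Icc Real.pi_pos.le hc.continuousOn
        ⟨h, by rw [hpi]; linarith⟩
    · exact intermediate_value_Icc' Real.pi_pos.le hc.continuousOn
        ⟨by rw [hpi]; linarith, h⟩
  obtain ⟨e, he⟩ := S.same_orbit_of_path hγ (fun u => hWc _ (hγW u)) (fun u => hfull _ (hγW u))
    (show u ≤ u + Real.pi by linarith [Real.pi_pos]) (by linarith)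
  rw [hγJ] at he
  exact S.no_reversal (hfull _ (hγW u)) (hWp _ (hγW u)) he.symm

end Sys

end Pool.Agent.PG
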