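import Pool.Agent.Work.PG.SardUT
import Pool.Agent.Work.PG.Core3

/-!
# Density of closed geodesics for completely integrable geodesic flows

Module G of cell PG (assembly with helper88's `core`).
-/

set_option autoImplicit false
set_option linter.unusedSectionVars false

open Set Filter Topology
open scoped ContDiff InnerProductSpace

namespace Pool.Agent.PG

variable {E : Type} [NormedAddCommGroup E] [InnerProductSpace ℝ E] [FiniteDimensional ℝ E]
  {M : Set E} {P : E → E →L[ℝ] E}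

/-- the action of the plane on the unit tangent bundle given by the two flows -/
def act {φ η : ℝ → E × E → E × E} {f g : E × E → E × E} (hφ : IsFlowOn (UT M) f φ)
    (hη : IsFlowOn (UT M) g η) (a : ℝ × ℝ) (z : UT M) : UT M :=
  ⟨φ a.1 (η a.2 z), hφ.maps _ _ (hη.maps _ _ z.2)⟩

/-- the reversal of unit vectors -/
def rev (S : Surf M P) (z : UT M) : UT M :=
  ⟨(z.1.1, -z.1.2), S.mem_UT.2 ⟨(S.mem_UT.1 z.2).1,
    by rw [map_neg, (S.mem_UT.1 z.2).2.1], by rw [norm_neg]; exact z.2.2.2⟩⟩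

/-- the critical vectors -/
def crit (M : Set E) (F : E × E → ℝ) : Set (UT M) := {z | z.1 ∈ Critical M F}

theorem Surf.crit_flow (S : Surf M P) {F : E × E → ℝ} (hF : ContDiff ℝ ∞ F)
    {f : E × E → E × E} {φ : ℝ → E × E → E × E} (hφ : IsFlowOn (UT M) f φ)
    (hinv : ∀ z ∈ UT M, ∀ b ∈ TU P z, ∀ s,
      fderiv ℝ F (φ s z) (fderiv ℝ (φ s) z b) = fderiv ℝ F z b)
    {z : E × E} (hz : z ∈ Critical M F) (s : ℝ) : φ s z ∈ Critical M F := by
  obtain ⟨h1, h2⟩ := (S.mem_Critical hF).1 hz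
  refine (S.mem_Critical hF).2 ⟨hφ.maps s z h1, fun b' hb' => ?_⟩
  have hb : fderiv ℝ (φ (-s)) (φ s z) b' ∈ TU P z := by
    have h := S.fderiv_flow_mem hφ (hφ.maps s z h1) hb' (-s)
    rwa [hφ.neg_add_self] at h
  have h3 := hinv z h1 _ hb s
  rw [hφ.fderiv_fderiv_neg, h2 _ hb] at h3
  exact h3

/-- the abstract system of a first integral -/
noncomputable def sys (S : Surf M P) {F : E × E → ℝ} (hF : IsFirstIntegral M F)
    {φ η : ℝ → E × E → E × E} (hφ : IsFlowOn (UT M) (Xf P) φ)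
    (hη : IsFlowOn (UT M) (Yf P F) η) : Sys (UT M) where
  ψ := act hφ hη
  F := fun z => F z.1
  J := rev S
  Crit := crit M F
  cont := by
    refine Continuous.subtype_mk ?_ _
    have h1 : Continuous fun p : (ℝ × ℝ) × UT M => (p.1.2, (p.2 : E × E)) := by fun_prop
    have h2 : Continuous fun p : (ℝ × ℝ) × UT M => η p.1.2 p.2 := hη.smooth.continuous.comp h1
    have h3 : Continuous fun p : (ℝ × ℝ) × UT M => (p.1.1, η p.1.2 p.2) :=
      (continuous_fst.comp continuous_fst).prodMk h2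
    exact hφ.smooth.continuous.comp h3
  zero := fun z => Subtype.ext (by
    show φ 0 (η 0 z) = z
    rw [hφ.zero, hη.zero])
  add := fun a b z => Subtype.ext (by
    show φ (a.1 + b.1) (η (a.2 + b.2) z) = φ a.1 (η a.2 (φ b.1 (η b.2 z)))
    rw [← S.comm hF hφ hη (hη.maps _ _ z.2), hφ.add, hη.add])
  contF := hF.1.continuous.comp continuous_subtype_val
  invF := fun a z => by
    show F (φ a.1 (η a.2 z)) = F z
    rw [S.integral_flow hφ hF (hη.maps _ _ z.2), S.F_eta hF hφ hη z.2]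
  contJ := Continuous.subtype_mk
    ((continuous_fst.comp continuous_subtype_val).prodMk
      (continuous_snd.comp continuous_subtype_val).neg) _
  J_J := fun z => Subtype.ext (by
    show (z.1.1, - -z.1.2) = z.1
    rw [neg_neg])
  J_ne := fun z h => by
    have h1 : -z.1.2 = z.1.2 := congrArg (fun w : UT M => w.1.2) h
    have h2 : z.1.2 = 0 := by
      have h4 : (2 : ℝ) • z.1.2 = 0 := by
        rw [two_smul]
        nth_rewrite 1 [← h1]
        exact neg_add_cancel _
      exact (smul_eq_zero.1 h4).resolve_left two_ne_zero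
    have h3 := z.2.2.2
    rw [h2, norm_zero] at h3
    exact zero_ne_one h3
  J_flow := fun s z => Subtype.ext (by
    show ((φ s (η 0 z)).1, -(φ s (η 0 z)).2) = φ (-s) (η 0 (z.1.1, -z.1.2))
    rw [hη.zero, hη.zero, S.flow_neg hφ z.2, neg_neg])
  crit_inv := fun a z hz => by
    have h1 := S.crit_flow hF.1 hη (fun z hz b hb s => S.dF_eta hF hφ hη hz hb s) hz a.2
    exact S.crit_flow hF.1 hφ (fun z hz b hb s => S.dF_phi hF hφ hz hb s) h1 a.1
  nofix := fun z => by
    obtain ⟨κ, hκ, h⟩ := S.no_short_period hφ z.2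
    refine ⟨κ, hκ, fun s hs hs' h1 => h s hs hs' ?_⟩
    have h2 := congrArg Subtype.val h1
    change φ s (η 0 z) = z at h2
    rwa [hη.zero] at h2
  chart := fun z hz => S.chartAt hF hφ hη z.2 hz

theorem tame_subtype {F : E × E → ℝ} (h : Tame M F) {w : UT M} (hw : w.1 ∈ Critical M F)
    {O : Set (UT M)} (hO : O ∈ 𝓝 w) : ∃ O' ∈ 𝓝 w, O' ⊆ O ∧
      Finite (ZerothHomotopy {x : UT M // x ∈ O' ∧ F x.1 = F w.1 ∧ x ∉ crit M F}) := by
  obtain ⟨V, hV, hVO⟩ := (mem_nhds_subtype _ _ _).1 hO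
  obtain ⟨V', hV', hV'V, T, hT, hT2⟩ := h w.1 hw V hV
  refine ⟨Subtype.val ⁻¹' V', continuous_subtype_val.continuousAt.preimage_mem_nhds hV',
    (preimage_mono hV'V).trans hVO, ?_⟩
  set A : Set (E × E) := {y | y ∈ V' ∧ y ∈ UT M ∧ F y = F w.1 ∧ y ∉ Critical M F} with hA
  have hfin : Finite ↥(T ∩ A) := (hT.inter_of_left A).to_subtype
  let mk : ↥A → {x : UT M // x ∈ (Subtype.val ⁻¹' V' : Set (UT M)) ∧ F x.1 = F w.1 ∧
    x ∉ crit M F} := fun y => ⟨⟨y.1, y.2.2.1⟩, y.2.1, y.2.2.2.1, y.2.2.2.2⟩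
  have hmk : Continuous mk := Continuous.subtype_mk (Continuous.subtype_mk
    continuous_subtype_val _) _
  refine Finite.of_surjective (α := ↥(T ∩ A))
    (fun y => Quotient.mk (pathSetoid _) (mk ⟨y.1, y.2.2⟩)) ?_
  intro c
  induction c using Quotient.inductionOn with
  | h x =>
    have hxA : x.1.1 ∈ A := ⟨x.2.1, x.1.2, x.2.2.1, x.2.2.2⟩
    obtain ⟨y', hy', hj⟩ := hT2 x.1.1 hxA
    have hyA : y' ∈ A := hj.target_mem
    refine ⟨⟨y', hy', hyA⟩, Quotient.sound ?_⟩
    have h1 : Joined (⟨x.1.1, hxA⟩ : ↥A) ⟨y', hyA⟩ := hj.joined_subtype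
    have h2 := h1.symm
    obtain ⟨p⟩ := h2
    exact ⟨p.map hmk⟩

theorem dense_of_surf (S : Surf M P) {F : E × E → ℝ}
    (hF : IsFirstIntegral M F) (hper : CriticalPeriodic M F) (htame : Tame M F) :
    M ⊆ closure (closedGeodesicSet M) := by
  obtain ⟨φ, hφ⟩ := S.exists_geodesic_flow
  obtain ⟨η, hη⟩ := S.exists_Y_flow hF.1
  intro x hx
  by_contra hcl
  have hcomp : CompactSpace (UT M) := isCompact_iff_compactSpace.1 S.isCompact_UT
  obtain ⟨e₁, e₂, he₁, he₂, hn₁, hn₂, ho, -⟩ := S.plane x hx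
  set G := sys S hF hφ hη with hG
  set W : Set (UT M) := {z | z.1.1 ∈ (closure (closedGeodesicSet M))ᶜ} with hW
  have hWo : IsOpen W := isClosed_closure.isOpen_compl.preimage
    (continuous_fst.comp continuous_subtype_val)
  have hWp : ∀ w ∈ W, ∀ s : ℝ, s ≠ 0 → G.ψ (s, 0) w ≠ w := by
    intro w hw s hs h
    apply hw
    have h2 := congrArg Subtype.val h
    change φ s (η 0 w) = w at h2
    rw [hη.zero] at h2
    exact subset_closure (S.mem_closedGeodesicSet hφ w.2 hs h2)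
  have hγm : ∀ u : ℝ, (x, Real.cos u • e₁ + Real.sin u • e₂) ∈ UT M := by
    intro u
    refine S.mem_UT.2 ⟨hx, ?_, ?_⟩
    · rw [map_add, map_smul, map_smul, he₁, he₂]
    · have h1 : ‖Real.cos u • e₁ + Real.sin u • e₂‖ ^ 2 = 1 := by
        rw [← real_inner_self_eq_norm_sq, inner_add_left, inner_add_right, inner_add_right]
        simp only [inner_smul_left, inner_smul_right, real_inner_self_eq_norm_sq, hn₁, hn₂,
          real_inner_comm e₁ e₂, ho]
        simp only [conj_trivial]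
        have := Real.cos_sq_add_sin_sq u
        nlinarith
      have h2 : (0 : ℝ) ≤ ‖Real.cos u • e₁ + Real.sin u • e₂‖ := norm_nonneg _
      nlinarith
  refine G.core ?_ ?_ ?_ hWo hWp (γ := fun u => ⟨(x, Real.cos u • e₁ + Real.sin u • e₂), hγm u⟩)
    ?_ (fun u => hcl) ?_
  · intro z hz
    obtain ⟨γ, hγ, h0, h1⟩ := hper z.1 hz
    obtain ⟨T, hT, h2⟩ := S.periodic_of_closedGeodesic hφ z.2 hγ h0 h1
    refine ⟨T, hT, Subtype.ext ?_⟩
    show φ T (η 0 z) = z
    rw [hη.zero, h2]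
  · intro z hz O hO
    exact tame_subtype htame hz hO
  · have h1 : G.F '' G.Crit = F '' Critical M F := by
      ext c
      constructor
      · rintro ⟨z, hz, rfl⟩
        exact ⟨z.1, hz, rfl⟩
      · rintro ⟨z, hz, rfl⟩
        exact ⟨⟨z, hz.1⟩, hz, rfl⟩
    rw [h1]
    exact S.interior_critical hF
  · exact Continuous.subtype_mk (by fun_prop) _
  · intro u
    refine Subtype.ext (Prod.ext rfl ?_)
    show Real.cos (u + Real.pi) • e₁ + Real.sin (u + Real.pi) • e₂ =
      -(Real.cos u • e₁ + Real.sin u • e₂)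
    rw [Real.cos_add_pi, Real.sin_add_pi, neg_smul, neg_smul, neg_add]

theorem dense_closedGeodesics {M : Set E} (hM : IsClosedSurface M) {F : E × E → ℝ}
    (hF : IsFirstIntegral M F) (hper : CriticalPeriodic M F) (htame : Tame M F) :
    M ⊆ closure (closedGeodesicSet M) := by
  obtain ⟨P, S⟩ := exists_surf hM
  exact dense_of_surf S hF hper htame

end Pool.Agent.PG
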