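import Pool.Agent.Work.PG.BottPer
import Pool.Agent.Work.PG.Main

/-!
# Density of closed geodesics for Bott integrable geodesic flows (cell PG)
-/

set_option autoImplicit false

open Set Filter Topology
open scoped ContDiff InnerProductSpace

namespace Pool.Agent.PG

variable {E : Type} [NormedAddCommGroup E] [InnerProductSpace ℝ E] [FiniteDimensional ℝ E]

/-- If the geodesic flow of `M` has a first integral all of whose critical vectors are
transversally nondegenerate, then the closed geodesics are dense in `M`. -/
theorem dense_of_bott {M : Set E} (hM : IsClosedSurface M) {F : E × E → ℝ}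
    (hF : IsFirstIntegral M F)
    (hB : ∀ z ∈ Critical M F, TransversallyNondegenerate M F z) :
    M ⊆ closure (closedGeodesicSet M) := by
  obtain ⟨P, S⟩ := exists_surf hM
  exact dense_of_surf S hF (S.criticalPeriodic_of_bott hF hB) (S.tame_of_bott hF hB)

end Pool.Agent.PG
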