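import Pool.Agent.Work.PG.Bott

/-!
# The critical vectors of a Bott integral are periodic (helper88; cell PG)
-/

set_option autoImplicit false
set_option linter.unusedVariables false
set_option linter.unusedSectionVars false

open Set Filter Topology
open scoped ContDiff InnerProductSpace

namespace Pool.Agent.PG

variable {E : Type} [NormedAddCommGroup E] [InnerProductSpace ℝ E] [FiniteDimensional ℝ E]
  {M : Set E} {P : E → E →L[ℝ] E}

/-- The critical set is compact. -/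
lemma Surf.isCompact_Critical (S : Surf M P) {F : E × E → ℝ} (hF : IsFirstIntegral M F) :
    IsCompact (Critical M F) := by
  obtain ⟨φ, hφ⟩ := S.exists_geodesic_flow
  have h1 : Critical M F = UT M ∩ {z | Yf P F z = 0} := by
    ext z
    rw [S.mem_Critical hF.1, mem_inter_iff, mem_ofPred_eq]
    refine and_congr_right fun hz => ?_
    exact (S.Yf_eq_zero_iff hz (S.fderiv_Xf hφ hF hz)).symm
  rw [h1]
  exact S.isCompact_UT.inter_right
    (isClosed_singleton.preimage (contDiff_Yf S hF.1).continuous)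

/-- Near a transversally nondegenerate critical vector the critical set is an orbit segment. -/
lemma Surf.critical_segment (S : Surf M P) {F : E × E → ℝ} (hF : IsFirstIntegral M F)
    {φ : ℝ → E × E → E × E} (hφ : IsFlowOn (UT M) (Xf P) φ) {z : E × E}
    (hz : z ∈ Critical M F) (hB : TransversallyNondegenerate M F z) {ε : ℝ} (hε : 0 < ε) :
    ∀ᶠ w in 𝓝 z, w ∈ Critical M F → ∃ s : ℝ, |s| < ε ∧ φ s z = w := by
  obtain ⟨Γ, hΓ, hΓU, hΓ0, hnd⟩ := hB
  have hcrit : Γ 0 ∈ Critical M F := by rw [hΓ0]; exact hz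
  have hinj := S.bott_injective hF hφ hΓ hΓU hcrit hnd
  set Ψ : ℝ × ℝ × ℝ → E × E := fun r => φ r.1 (Γ r.2) with hΨdef
  have hΨ : ContDiff ℝ ∞ Ψ := hφ.smooth.comp (contDiff_fst.prodMk (hΓ.comp contDiff_snd))
  have hΨU : ∀ r, Ψ r ∈ UT M := fun r => hφ.maps _ _ (hΓU _)
  have hΨ0 : Ψ 0 = z := by
    change φ 0 (Γ 0) = z
    rw [hφ.zero, hΓ0]
  obtain ⟨Λ, hΛ0, hΛc, -, hΛ⟩ := S.local_inverse (hΨ.contDiffAt.of_le (by simp))
    (Eventually.of_forall hΨU) hinj
  rw [hΨ0] at hΛ0 hΛc hΛ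
  set g : ℝ × ℝ → ℝ := fun q => F (Γ q) with hg
  have hgs : ContDiff ℝ ∞ g := hF.1.comp hΓ
  have hg2 : ContDiff ℝ 2 g := hgs.of_le (WithTop.coe_le_coe.2 (le_top : (2 : ℕ∞) ≤ ⊤))
  have hcr : ∀ q, Γ q ∈ Critical M F → fderiv ℝ g q = 0 := by
    intro q hq
    refine ContinuousLinearMap.ext fun v => ?_
    have hline : HasDerivAt (fun t : ℝ => q + t • v) v 0 := by
      simpa using ((hasDerivAt_id (0 : ℝ)).smul_const v).const_add q
    have hgq : HasFDerivAt (fun q => F (Γ q)) (fderiv ℝ g q) (q + (0 : ℝ) • v) := by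
      rw [zero_smul, add_zero]
      exact ((hF.1.comp hΓ).differentiable (by simp) q).hasFDerivAt
    have h1 := HasFDerivAt.comp_hasDerivAt (f := fun t : ℝ => q + t • v) 0 hgq hline
    have hΓl : ContDiff ℝ ∞ fun t : ℝ => Γ (q + t • v) := hΓ.comp (by fun_prop)
    have h2 := hq.2 (fun t => Γ (q + t • v)) (by simp) (Eventually.of_forall fun t => hΓU _)
      (hΓl.differentiable (by simp) 0)
    exact h1.unique h2
  have hiso := isolated_of_nondeg hg2 (hcr 0 hcrit) hnd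
  have hΛt : Tendsto Λ (𝓝 z) (𝓝 0) := by
    have := hΛc.continuousAt.tendsto
    rwa [hΛ0] at this
  have h1 : ∀ᶠ w in 𝓝 z, |(Λ w).1| < ε := by
    have h2 : Tendsto (fun w => |(Λ w).1|) (𝓝 z) (𝓝 |(0 : ℝ)|) :=
      ((continuous_abs.comp continuous_fst).tendsto (0 : ℝ × ℝ × ℝ)).comp hΛt
    rw [abs_zero] at h2
    exact h2.eventually_lt_const hε
  have h2 : ∀ᶠ w in 𝓝 z, fderiv ℝ g (Λ w).2 = 0 → (Λ w).2 = 0 :=
    ((continuous_snd.tendsto (0 : ℝ × ℝ × ℝ)).comp hΛt).eventually hiso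
  filter_upwards [h1, h2, hΛ] with w hw1 hw2 hw3 hwc
  have hw4 : φ (Λ w).1 (Γ (Λ w).2) = w := hw3 hwc.1
  have key : ∀ s q, φ s (Γ q) = w → Γ q ∈ Critical M F := fun s q h => by
    have h3 := S.critical_flow hF hφ hwc (-s)
    rwa [← h, ← hφ.add, neg_add_cancel, hφ.zero] at h3
  have hw5 : Γ (Λ w).2 ∈ Critical M F := key _ _ hw4
  have hw6 := hw2 (hcr _ hw5)
  rw [hw6, hΓ0] at hw4
  exact ⟨_, hw1, hw4⟩

/-- **The critical vectors of a Bott integral are tangent to closed geodesics.** -/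
theorem Surf.criticalPeriodic_of_bott (S : Surf M P) {F : E × E → ℝ} (hF : IsFirstIntegral M F)
    (hB : ∀ z ∈ Critical M F, TransversallyNondegenerate M F z) : CriticalPeriodic M F := by
  obtain ⟨φ, hφ⟩ := S.exists_geodesic_flow
  intro z hz
  obtain ⟨w, hw, k, hk, hlim⟩ := (S.isCompact_Critical hF).tendsto_subseq
    (x := fun n : ℕ => φ n z) fun n => S.critical_flow hF hφ hz n
  have h1 := hlim.eventually (S.critical_segment hF hφ hw (hB w hw) (ε := 1 / 2) (by norm_num))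
  obtain ⟨n, hn⟩ := h1.exists_forall_of_atTop
  obtain ⟨s, hs, hs'⟩ := hn n le_rfl (S.critical_flow hF hφ hz _)
  obtain ⟨t, ht, ht'⟩ := hn (n + 1) (Nat.le_succ n) (S.critical_flow hF hφ hz _)
  simp only [Function.comp_apply] at hs' ht'
  have hw1 : φ (k n - s) z = w := by
    rw [sub_eq_neg_add, hφ.add, ← hs', ← hφ.add, neg_add_cancel, hφ.zero]
  have hw2 : φ (k (n + 1) - t) z = w := by
    rw [sub_eq_neg_add, hφ.add, ← ht', ← hφ.add, neg_add_cancel, hφ.zero]
  have hkk : (k n : ℝ) + 1 ≤ k (n + 1) := by exact_mod_cast hk (Nat.lt_succ_self n)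
  have hT0 : 0 < (k (n + 1) - t) - (k n - s) := by
    have := abs_lt.1 hs
    have := abs_lt.1 ht
    linarith
  have hT : φ ((k (n + 1) - t) - (k n - s)) z = z := by
    rw [sub_eq_neg_add, hφ.add, hw2, ← hw1, ← hφ.add, neg_add_cancel, hφ.zero]
  obtain ⟨h5, h6⟩ := S.geodesic_of_flow hφ hz.1
  have h0 : (φ 0 z).1 = z.1 := by rw [hφ.zero]
  refine ⟨fun s => (φ s z).1, ⟨h5, ⟨_, hT0, fun t => ?_⟩, ?_⟩, h0, ?_⟩
  · simp only [hφ.add, hT]
  · by_contra hne
    push Not at hne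
    have h3 : (fun s => (φ s z).1) = fun _ => (φ 0 z).1 := funext hne
    have h4 := h6 0
    rw [h3, deriv_const, hφ.zero] at h4
    have h7 := hz.1.2.2
    rw [← h4, norm_zero] at h7
    exact zero_ne_one h7
  · rw [h6, hφ.zero]

end Pool.Agent.PG
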