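import Pool.Agent.Work.PG.Surf

/-!
# The unit tangent bundle as a contact manifold: algebra

Module B of cell PG.
-/

set_option autoImplicit false
set_option linter.unusedSectionVars false

open Set Filter Topology
open scoped ContDiff InnerProductSpace

namespace Pool.Agent.PG

variable {E : Type*} [NormedAddCommGroup E] [InnerProductSpace ℝ E]

/-- the tangent space of the unit tangent bundle at `z = (x, v)` -/
def TU (P : E → E →L[ℝ] E) (z : E × E) : Set (E × E) :=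
  {b | P z.1 b.1 = b.1 ∧ P z.1 (b.2 - fderiv ℝ P z.1 b.1 z.2) = b.2 - fderiv ℝ P z.1 b.1 z.2 ∧
    ⟪b.2, z.2⟫_ℝ = 0}

/-- the geodesic vector field -/
noncomputable def Xf (P : E → E →L[ℝ] E) (z : E × E) : E × E := (z.2, fderiv ℝ P z.1 z.2 z.2)

/-- the differential of the contact form -/
noncomputable def om (a b : E × E) : ℝ := ⟪a.2, b.1⟫_ℝ - ⟪b.2, a.1⟫_ℝ

variable {M : Set E} {P : E → E →L[ℝ] E}

namespace Surf

variable (S : Surf M P)

include S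

lemma mem_UT {z : E × E} : z ∈ UT M ↔ z.1 ∈ M ∧ P z.1 z.2 = z.2 ∧ ‖z.2‖ = 1 := by
  constructor
  · rintro ⟨h1, h2, h3⟩
    exact ⟨h1, (S.mem_tangent _ h1 _).1 h2, h3⟩
  · rintro ⟨h1, h2, h3⟩
    exact ⟨h1, (S.mem_tangent _ h1 _).2 h2, h3⟩

lemma isCompact_UT [FiniteDimensional ℝ E] : IsCompact (UT M) := by
  have : ProperSpace E := FiniteDimensional.proper ℝ E
  have hset : UT M = {z : E × E | z.1 ∈ M ∧ P z.1 z.2 = z.2 ∧ ‖z.2‖ = 1} := by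
    ext z
    exact S.mem_UT
  rw [hset]
  refine (S.compact.prod (isCompact_closedBall (0 : E) 1)).of_isClosed_subset ?_ ?_
  · refine (S.compact.isClosed.preimage continuous_fst).inter (IsClosed.inter ?_ ?_)
    · exact isClosed_eq (((S.smooth.continuous.comp continuous_fst).clm_apply continuous_snd))
        continuous_snd
    · exact isClosed_eq continuous_snd.norm continuous_const
  · rintro z ⟨h1, -, h3⟩
    exact ⟨h1, by simp [h3]⟩

lemma contDiff_dP : ContDiff ℝ ∞ (fderiv ℝ P) := S.smooth.fderiv_right (by simp)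

lemma contDiff_Xf : ContDiff ℝ ∞ (Xf P) :=
  contDiff_snd.prodMk (((S.contDiff_dP.comp contDiff_fst).clm_apply contDiff_snd).clm_apply
    contDiff_snd)

lemma hasDerivAt_P {c : ℝ → E} {a : E} {t : ℝ} (hc : HasDerivAt c a t) :
    HasDerivAt (fun s => P (c s)) (fderiv ℝ P (c t) a) t :=
  ((S.smooth.differentiable (by simp)) (c t)).hasFDerivAt.comp_hasDerivAt t hc

lemma hasDerivAt_P_apply {c : ℝ → E} {a : E} {t : ℝ} (hc : HasDerivAt c a t) {u : ℝ → E} {w : E}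
    (hu : HasDerivAt u w t) :
    HasDerivAt (fun s => P (c s) (u s)) (fderiv ℝ P (c t) a (u t) + P (c t) w) t :=
  (S.hasDerivAt_P hc).clm_apply hu

/-- the second fundamental form is normal -/
lemma dP_normal {x : E} (hx : x ∈ M) {a w : E} (ha : P x a = a) (hw : P x w = w) :
    P x (fderiv ℝ P x a w) = 0 := by
  obtain ⟨c, -, hcM, hc0, hc⟩ := S.curve x hx a ha
  have h1 : HasDerivAt (fun s => P (c s) w) (fderiv ℝ P (c 0) a w + P (c 0) 0) 0 :=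
    S.hasDerivAt_P_apply hc (hasDerivAt_const _ _)
  have h2 := S.hasDerivAt_P_apply hc h1
  have h3 : (fun s => P (c s) (P (c s) w)) = fun s => P (c s) w :=
    funext fun s => S.idem _ (hcM s) w
  rw [h3] at h2
  have h4 := h2.unique h1
  rw [hc0, map_zero, add_zero, hw] at h4
  have h5 : P x (fderiv ℝ P x a w) = 0 := by
    have := congrArg (fun y => y - fderiv ℝ P x a w) h4
    simpa using this
  exact h5

lemma dP_orth {x : E} (hx : x ∈ M) {a w b : E} (ha : P x a = a) (hw : P x w = w)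
    (hb : P x b = b) : ⟪fderiv ℝ P x a w, b⟫_ℝ = 0 := by
  rw [← hb, ← S.symm x hx, S.dP_normal hx ha hw, inner_zero_left]

lemma add_mem_TU {z a b : E × E} (ha : a ∈ TU P z) (hb : b ∈ TU P z) : a + b ∈ TU P z := by
  obtain ⟨a1, a2, a3⟩ := ha
  obtain ⟨b1, b2, b3⟩ := hb
  have h : (a + b).2 - fderiv ℝ P z.1 (a + b).1 z.2 =
      (a.2 - fderiv ℝ P z.1 a.1 z.2) + (b.2 - fderiv ℝ P z.1 b.1 z.2) := by
    rw [Prod.fst_add, Prod.snd_add, map_add, _root_.add_apply]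
    abel
  refine ⟨?_, ?_, ?_⟩
  · rw [Prod.fst_add, map_add, a1, b1]
  · rw [h, map_add, a2, b2]
  · rw [Prod.snd_add, inner_add_left, a3, b3, add_zero]

lemma smul_mem_TU {z a : E × E} (c : ℝ) (ha : a ∈ TU P z) : c • a ∈ TU P z := by
  obtain ⟨a1, a2, a3⟩ := ha
  have h : (c • a).2 - fderiv ℝ P z.1 (c • a).1 z.2 =
      c • (a.2 - fderiv ℝ P z.1 a.1 z.2) := by
    rw [Prod.smul_fst, Prod.smul_snd, map_smul, _root_.smul_apply, smul_sub]
  refine ⟨?_, ?_, ?_⟩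
  · rw [Prod.smul_fst, map_smul, a1]
  · rw [h, map_smul, a2]
  · rw [Prod.smul_snd, inner_smul_left, a3, mul_zero]

lemma Xf_mem {z : E × E} (hz : z ∈ UT M) : Xf P z ∈ TU P z := by
  obtain ⟨h1, h2, -⟩ := S.mem_UT.1 hz
  refine ⟨h2, ?_, S.dP_orth h1 h2 h2 h2⟩
  simp [Xf]

/-- velocities of curves in the unit tangent bundle -/
lemma vel_mem {z : E × E} (hz : z ∈ UT M) {β : ℝ → E × E} {b : E × E} (h0 : β 0 = z)
    (hβ : ∀ᶠ t in 𝓝 (0 : ℝ), β t ∈ UT M) (hd : HasDerivAt β b 0) : b ∈ TU P z := by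
  subst h0
  have hc : HasDerivAt (fun t => (β t).1) b.1 0 :=
    (hasFDerivAt_fst (𝕜 := ℝ) (E := E) (F := E) (p := β 0)).comp_hasDerivAt 0 hd
  have hu : HasDerivAt (fun t => (β t).2) b.2 0 :=
    (hasFDerivAt_snd (𝕜 := ℝ) (E := E) (F := E) (p := β 0)).comp_hasDerivAt 0 hd
  have h1 : P (β 0).1 b.1 = b.1 :=
    (S.mem_tangent _ hz.1 _).1 ⟨fun t => (β t).1, rfl, hβ.mono fun t ht => ht.1, hc⟩
  have h2 : HasDerivAt (fun t => P (β t).1 (β t).2)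
      (fderiv ℝ P (β 0).1 b.1 (β 0).2 + P (β 0).1 b.2) 0 := S.hasDerivAt_P_apply hc hu
  have h3 : (fun t => P (β t).1 (β t).2) =ᶠ[𝓝 0] fun t => (β t).2 :=
    hβ.mono fun t ht => (S.mem_UT.1 ht).2.1
  have h4 : fderiv ℝ P (β 0).1 b.1 (β 0).2 + P (β 0).1 b.2 = b.2 :=
    (h2.congr_of_eventuallyEq h3.symm).unique hu
  have h5 : b.2 - fderiv ℝ P (β 0).1 b.1 (β 0).2 = P (β 0).1 b.2 := by
    rw [sub_eq_iff_eq_add']
    exact h4.symm
  refine ⟨h1, ?_, ?_⟩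
  · rw [h5, S.idem _ hz.1]
  · have h6 : HasDerivAt (fun t => ⟪(β t).2, (β t).2⟫_ℝ) (⟪(β 0).2, b.2⟫_ℝ + ⟪b.2, (β 0).2⟫_ℝ) 0 :=
      hu.inner ℝ hu
    have h7 : (fun t => ⟪(β t).2, (β t).2⟫_ℝ) =ᶠ[𝓝 0] fun _ => (1 : ℝ) :=
      hβ.mono fun t ht => by
        show ⟪(β t).2, (β t).2⟫_ℝ = 1
        rw [real_inner_self_eq_norm_sq, ht.2.2, one_pow]
    have h8 := (h6.congr_of_eventuallyEq h7.symm).unique (hasDerivAt_const 0 (1 : ℝ))
    have h9 : ⟪b.2, (β 0).2⟫_ℝ = ⟪(β 0).2, b.2⟫_ℝ := real_inner_comm _ _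
    linarith

/-- every element of `TU` is the velocity of a smooth curve in the unit tangent bundle. -/
lemma exists_curve {z : E × E} (hz : z ∈ UT M) {b : E × E} (hb : b ∈ TU P z) :
    ∃ β : ℝ → E × E, ContDiff ℝ ∞ β ∧ (∀ t, β t ∈ UT M) ∧ β 0 = z ∧ HasDerivAt β b 0 := by
  obtain ⟨hx, hv, hn⟩ := S.mem_UT.1 hz
  obtain ⟨b1, b2, b3⟩ := hb
  obtain ⟨c, hcs, hcM, hc0, hc⟩ := S.curve z.1 hx b.1 b1
  set w := b.2 - fderiv ℝ P z.1 b.1 z.2 with hw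
  set u : ℝ → E := fun s => P (c s) (z.2 + s • w) with hu
  have hus : ContDiff ℝ ∞ u :=
    (S.smooth.comp hcs).clm_apply (contDiff_const.add (contDiff_id.smul contDiff_const))
  have hu0 : u 0 = z.2 := by simp [hu, hc0, hv]
  have hlin : HasDerivAt (fun s : ℝ => z.2 + s • w) w 0 := by
    simpa using ((hasDerivAt_id (0 : ℝ)).smul_const w).const_add z.2
  have hud : HasDerivAt u b.2 0 := by
    have h1 := S.hasDerivAt_P_apply hc hlin
    rw [hc0] at h1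
    have h2 : fderiv ℝ P z.1 b.1 (z.2 + (0 : ℝ) • w) + P z.1 w = b.2 := by
      rw [zero_smul, add_zero, b2, hw]
      abel
    rwa [h2] at h1
  have hinner : ⟪z.2, b.2⟫_ℝ = 0 := by rw [real_inner_comm]; exact b3
  -- the normalisation
  set n : ℝ → E := fun s => ‖u s‖⁻¹ • u s with hn'
  have hnd : HasDerivAt n b.2 0 := by
    have h1 : HasDerivAt (fun s => ‖u s‖ ^ 2) (2 * ⟪u 0, b.2⟫_ℝ) 0 := hud.norm_sq
    have h2 : HasDerivAt (fun s => √(‖u s‖ ^ 2)) (2 * ⟪u 0, b.2⟫_ℝ / (2 * √(‖u 0‖ ^ 2))) 0 :=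
      h1.sqrt (by rw [hu0, hn]; norm_num)
    have h3 : (fun s => √(‖u s‖ ^ 2)) = fun s => ‖u s‖ :=
      funext fun s => Real.sqrt_sq (norm_nonneg _)
    rw [h3, hu0, hinner, mul_zero, zero_div] at h2
    have h4 : HasDerivAt (fun s => ‖u s‖⁻¹) (-0 / ‖u 0‖ ^ 2) 0 :=
      h2.inv (by rw [hu0, hn]; norm_num)
    have h5 := h4.smul hud
    have h6 : ‖u 0‖⁻¹ • b.2 + (-0 / ‖u 0‖ ^ 2 : ℝ) • u 0 = b.2 := by
      rw [hu0, hn]
      simp
    rw [h6] at h5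
    exact h5
  have hne : ∀ᶠ s in 𝓝 (0 : ℝ), u s ≠ 0 := by
    refine hus.continuous.continuousAt.eventually_ne ?_
    rw [hu0]
    intro h
    rw [h, norm_zero] at hn
    exact zero_ne_one hn
  obtain ⟨ε, hε, hball⟩ := Metric.eventually_nhds_iff.1 hne
  set θ : ℝ → ℝ := fun t => (ε / 2) * Real.sin (t / (ε / 2)) with hθ
  have hε2 : 0 < ε / 2 := by linarith
  have hθs : ContDiff ℝ ∞ θ :=
    contDiff_const.mul (Real.contDiff_sin.comp (contDiff_id.div_const _))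
  have hθ0 : θ 0 = 0 := by simp [hθ]
  have hθd : HasDerivAt θ 1 0 := by
    have h1 : HasDerivAt (fun t : ℝ => t / (ε / 2)) (1 / (ε / 2)) 0 :=
      (hasDerivAt_id (0 : ℝ)).div_const _
    have h2 := (h1.sin).const_mul (ε / 2)
    have h3 : ε / 2 * (Real.cos (0 / (ε / 2)) * (1 / (ε / 2))) = 1 := by
      rw [zero_div, Real.cos_zero]
      field_simp
    rw [h3] at h2
    exact h2
  have hθb : ∀ t, u (θ t) ≠ 0 := by
    intro t
    refine hball ?_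
    rw [dist_zero_right, Real.norm_eq_abs, hθ, abs_mul, abs_of_pos hε2]
    have h1 := Real.abs_sin_le_one (t / (ε / 2))
    nlinarith [abs_nonneg (Real.sin (t / (ε / 2)))]
  refine ⟨fun t => (c (θ t), n (θ t)), ?_, ?_, ?_, ?_⟩
  · refine (hcs.comp hθs).prodMk ?_
    rw [contDiff_iff_contDiffAt]
    intro t
    have h1 : ContDiffAt ℝ ∞ n (θ t) :=
      ((hus.contDiffAt.norm ℝ (hθb t)).inv (norm_ne_zero_iff.2 (hθb t))).smul hus.contDiffAt
    exact h1.comp t hθs.contDiffAt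
  · intro t
    refine S.mem_UT.2 ⟨hcM _, ?_, ?_⟩
    · show P (c (θ t)) (‖u (θ t)‖⁻¹ • u (θ t)) = ‖u (θ t)‖⁻¹ • u (θ t)
      rw [map_smul]
      congr 1
      exact S.idem _ (hcM _) _
    · show ‖‖u (θ t)‖⁻¹ • u (θ t)‖ = 1
      rw [norm_smul, norm_inv, norm_norm, inv_mul_cancel₀ (norm_ne_zero_iff.2 (hθb t))]
  · show (c (θ 0), n (θ 0)) = z
    rw [hθ0, hc0]
    refine Prod.ext rfl ?_
    show ‖u 0‖⁻¹ • u 0 = z.2
    rw [hu0, hn, inv_one, one_smul]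
  · have h1 : HasDerivAt (fun t => c (θ t)) ((1 : ℝ) • b.1) 0 :=
      HasDerivAt.scomp (g₁ := c) (h := θ) 0 (by rw [hθ0]; exact hc) hθd
    have h2 : HasDerivAt (fun t => n (θ t)) ((1 : ℝ) • b.2) 0 :=
      HasDerivAt.scomp (g₁ := n) (h := θ) 0 (by rw [hθ0]; exact hnd) hθd
    rw [one_smul] at h1 h2
    exact h1.prodMk h2

lemma om_Xf {z b : E × E} (hz : z ∈ UT M) (hb : b ∈ TU P z) : om (Xf P z) b = 0 := by
  obtain ⟨hx, hv, -⟩ := S.mem_UT.1 hz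
  show ⟪fderiv ℝ P z.1 z.2 z.2, b.1⟫_ℝ - ⟪b.2, z.2⟫_ℝ = 0
  rw [S.dP_orth hx hv hv hb.1, hb.2.2, sub_zero]

/-- nondegeneracy -/
lemma eq_zero_of_om {z y : E × E} (hz : z ∈ UT M) (hy : y ∈ TU P z) (h1 : ⟪z.2, y.1⟫_ℝ = 0)
    (h2 : ∀ b ∈ TU P z, om y b = 0) : y = 0 := by
  obtain ⟨hx, hv, -⟩ := S.mem_UT.1 hz
  obtain ⟨y1, y2, y3⟩ := hy
  have h3 : y.1 = 0 := by
    have h4 : ((0 : E), y.1) ∈ TU P z := by
      refine ⟨by simp, ?_, ?_⟩
      · simp [y1]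
      · rw [real_inner_comm]
        exact h1
    have h5 := h2 _ h4
    simp only [om, inner_zero_right, zero_sub, neg_eq_zero, inner_self_eq_zero] at h5
    exact h5
  have h6 : P z.1 y.2 = y.2 := by
    rw [h3] at y2
    simpa using y2
  have h7 : (y.2, fderiv ℝ P z.1 y.2 z.2) ∈ TU P z :=
    ⟨h6, by simp, S.dP_orth hx h6 hv hv⟩
  have h8 := h2 _ h7
  rw [om, h3] at h8
  simp only [inner_zero_right, sub_zero, inner_self_eq_zero] at h8
  exact Prod.ext h3 h8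

end Surf

section Y

variable [FiniteDimensional ℝ E]

/-- the vector representing a linear form -/
noncomputable def riesz (l : E →L[ℝ] ℝ) : E :=
  ∑ i, l (stdOrthonormalBasis ℝ E i) • stdOrthonormalBasis ℝ E i

lemma inner_riesz (l : E →L[ℝ] ℝ) (a : E) : ⟪riesz l, a⟫_ℝ = l a := by
  rw [riesz, sum_inner]
  conv_rhs => rw [← (stdOrthonormalBasis ℝ E).sum_repr' a]
  rw [map_sum]
  refine Finset.sum_congr rfl fun i _ => ?_
  rw [inner_smul_left, map_smul, smul_eq_mul, mul_comm]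
  rfl

lemma contDiff_riesz {l : E × E → E →L[ℝ] ℝ} (hl : ∀ a : E, ContDiff ℝ ∞ fun z => l z a) :
    ContDiff ℝ ∞ fun z => riesz (l z) :=
  ContDiff.sum fun _ _ => (hl _).smul contDiff_const

/-- `Q a = P x a - ⟪v, a⟫ v` -/
noncomputable def Qf (P : E → E →L[ℝ] E) (z : E × E) : E →L[ℝ] E :=
  P z.1 - (innerSL ℝ z.2).smulRight z.2

lemma Qf_apply (P : E → E →L[ℝ] E) (z : E × E) (a : E) : Qf P z a = P z.1 a - ⟪z.2, a⟫_ℝ • z.2 :=
  rfl

/-- `a ↦ DP_x[a] v` -/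
noncomputable def Bf (P : E → E →L[ℝ] E) (z : E × E) : E →L[ℝ] E :=
  (fderiv ℝ P z.1).flip z.2

lemma Bf_apply (P : E → E →L[ℝ] E) (z : E × E) (a : E) : Bf P z a = fderiv ℝ P z.1 a z.2 := rfl

/-- the first component of `-Y` -/
noncomputable def y1 (P : E → E →L[ℝ] E) (F : E × E → ℝ) (z : E × E) : E :=
  riesz ((fderiv ℝ F z).comp ((0 : E →L[ℝ] E).prod (Qf P z)))

/-- the tangential part of the second component of `Y` -/
noncomputable def y2 (P : E → E →L[ℝ] E) (F : E × E → ℝ) (z : E × E) : E :=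
  riesz ((fderiv ℝ F z).comp ((Qf P z).prod ((Bf P z).comp (Qf P z))))

lemma inner_y1 (P : E → E →L[ℝ] E) (F : E × E → ℝ) (z : E × E) (a : E) :
    ⟪y1 P F z, a⟫_ℝ = fderiv ℝ F z (0, Qf P z a) := inner_riesz _ _

lemma inner_y2 (P : E → E →L[ℝ] E) (F : E × E → ℝ) (z : E × E) (a : E) :
    ⟪y2 P F z, a⟫_ℝ = fderiv ℝ F z (Qf P z a, fderiv ℝ P z.1 (Qf P z a) z.2) := inner_riesz _ _

/-- the contact Hamiltonian field: `α(Y) = 0`, `i_Y dα = dF` -/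
noncomputable def Yf (P : E → E →L[ℝ] E) (F : E × E → ℝ) (z : E × E) : E × E :=
  (-y1 P F z, -(fderiv ℝ P z.1 (y1 P F z) z.2) + y2 P F z)

variable {F : E × E → ℝ}

lemma contDiff_Yf (S : Surf M P) (hF : ContDiff ℝ ∞ F) : ContDiff ℝ ∞ (Yf P F) := by
  have hdF : ContDiff ℝ ∞ (fderiv ℝ F) := hF.fderiv_right (by simp)
  have hdP : ContDiff ℝ ∞ fun z : E × E => fderiv ℝ P z.1 := S.contDiff_dP.comp contDiff_fst
  have hQ : ∀ a : E, ContDiff ℝ ∞ fun z : E × E => Qf P z a := fun a =>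
    ((S.smooth.comp contDiff_fst).clm_apply contDiff_const).sub
      ((contDiff_snd.inner ℝ contDiff_const).smul contDiff_snd)
  have h1 : ContDiff ℝ ∞ (y1 P F) := contDiff_riesz fun a =>
    hdF.clm_apply (contDiff_const.prodMk (hQ a))
  have h2 : ContDiff ℝ ∞ (y2 P F) := contDiff_riesz fun a =>
    hdF.clm_apply ((hQ a).prodMk ((hdP.clm_apply (hQ a)).clm_apply contDiff_snd))
  exact h1.neg.prodMk (((hdP.clm_apply h1).clm_apply contDiff_snd).neg.add h2)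

namespace Surf

variable (S : Surf M P) {z : E × E} (hz : z ∈ UT M)

include S hz

lemma Qf_v : Qf P z z.2 = 0 := by
  obtain ⟨-, hv, hn⟩ := S.mem_UT.1 hz
  rw [Qf_apply, hv, real_inner_self_eq_norm_sq, hn]
  simp

lemma P_Qf (a : E) : P z.1 (Qf P z a) = Qf P z a := by
  obtain ⟨hx, hv, -⟩ := S.mem_UT.1 hz
  rw [Qf_apply, map_sub, map_smul, S.idem _ hx, hv]

lemma Qf_P (a : E) : Qf P z (P z.1 a) = Qf P z a := by
  obtain ⟨hx, hv, -⟩ := S.mem_UT.1 hz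
  rw [Qf_apply, Qf_apply, S.idem _ hx, ← S.symm _ hx, hv]

lemma inner_Qf (a : E) : ⟪Qf P z a, z.2⟫_ℝ = 0 := by
  obtain ⟨hx, hv, hn⟩ := S.mem_UT.1 hz
  rw [Qf_apply, inner_sub_left, inner_smul_left, real_inner_self_eq_norm_sq, hn, S.symm _ hx, hv,
    real_inner_comm]
  simp

lemma Qf_Qf (a : E) : Qf P z (Qf P z a) = Qf P z a := by
  rw [Qf_apply, S.P_Qf hz, real_inner_comm, S.inner_Qf hz, zero_smul, sub_zero]

/-- a vector orthogonal to the kernel of `Q` is in its range -/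
lemma Qf_eq_self {y : E} (hy : ∀ a, Qf P z a = 0 → ⟪y, a⟫_ℝ = 0) :
    P z.1 y = y ∧ ⟪y, z.2⟫_ℝ = 0 := by
  obtain ⟨hx, hv, hn⟩ := S.mem_UT.1 hz
  have h1 : ⟪y, z.2⟫_ℝ = 0 := hy _ (S.Qf_v hz)
  refine ⟨?_, h1⟩
  have h2 : Qf P z (y - P z.1 y) = 0 := by rw [map_sub, S.Qf_P hz, sub_self]
  have h3 := hy _ h2
  have h4 : ⟪P z.1 y, y - P z.1 y⟫_ℝ = 0 := by
    rw [S.symm _ hx, map_sub, S.idem _ hx, sub_self, inner_zero_right]
  have h5 : ⟪y - P z.1 y, y - P z.1 y⟫_ℝ = 0 := by rw [inner_sub_left, h3, h4, sub_zero]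
  rw [inner_self_eq_zero, sub_eq_zero] at h5
  exact h5.symm

lemma y1_tangent (F : E × E → ℝ) : P z.1 (y1 P F z) = y1 P F z ∧ ⟪y1 P F z, z.2⟫_ℝ = 0 :=
  S.Qf_eq_self hz fun a ha => by rw [inner_y1, ha]; exact map_zero _

lemma y2_tangent (F : E × E → ℝ) : P z.1 (y2 P F z) = y2 P F z ∧ ⟪y2 P F z, z.2⟫_ℝ = 0 :=
  S.Qf_eq_self hz fun a ha => by
    rw [inner_y2, ha, map_zero]
    exact map_zero _

lemma Yf_mem : Yf P F z ∈ TU P z := by
  obtain ⟨hx, hv, hn⟩ := S.mem_UT.1 hz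
  obtain ⟨h1, h2⟩ := S.y1_tangent hz F
  obtain ⟨h3, h4⟩ := S.y2_tangent hz F
  refine ⟨?_, ?_, ?_⟩
  · show P z.1 (-y1 P F z) = -y1 P F z
    rw [map_neg, h1]
  · show P z.1 (-(fderiv ℝ P z.1 (y1 P F z) z.2) + y2 P F z - fderiv ℝ P z.1 (-y1 P F z) z.2) =
      -(fderiv ℝ P z.1 (y1 P F z) z.2) + y2 P F z - fderiv ℝ P z.1 (-y1 P F z) z.2
    have h5 : -(fderiv ℝ P z.1 (y1 P F z) z.2) + y2 P F z - fderiv ℝ P z.1 (-y1 P F z) z.2 =
        y2 P F z := by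
      rw [map_neg, _root_.neg_apply]
      abel
    rw [h5, h3]
  · show ⟪-(fderiv ℝ P z.1 (y1 P F z) z.2) + y2 P F z, z.2⟫_ℝ = 0
    rw [inner_add_left, inner_neg_left, S.dP_orth hx h1 hv hv, h4]
    simp

lemma alpha_Yf : ⟪z.2, (Yf P F z).1⟫_ℝ = 0 := by
  show ⟪z.2, -y1 P F z⟫_ℝ = 0
  rw [inner_neg_right, real_inner_comm, (S.y1_tangent hz F).2, neg_zero]

lemma om_Yf (hX : fderiv ℝ F z (Xf P z) = 0) {b : E × E} (hb : b ∈ TU P z) :
    om (Yf P F z) b = fderiv ℝ F z b := by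
  obtain ⟨hx, hv, hn⟩ := S.mem_UT.1 hz
  obtain ⟨h1, h2⟩ := S.y1_tangent hz F
  obtain ⟨h3, h4⟩ := S.y2_tangent hz F
  obtain ⟨b1, b2, b3⟩ := hb
  set w := b.2 - fderiv ℝ P z.1 b.1 z.2 with hw
  have hwv : ⟪z.2, w⟫_ℝ = 0 := by
    rw [real_inner_comm, hw, inner_sub_left, b3, S.dP_orth hx b1 hv hv, sub_zero]
  have hQw : Qf P z w = w := by rw [Qf_apply, b2, hwv, zero_smul, sub_zero]
  have hQb : Qf P z b.1 = b.1 - ⟪z.2, b.1⟫_ℝ • z.2 := by rw [Qf_apply, b1]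
  have hb2 : b.2 = fderiv ℝ P z.1 b.1 z.2 + w := by rw [hw]; abel
  have h5 : ⟪(Yf P F z).2, b.1⟫_ℝ =
      fderiv ℝ F z (Qf P z b.1, fderiv ℝ P z.1 (Qf P z b.1) z.2) := by
    show ⟪-(fderiv ℝ P z.1 (y1 P F z) z.2) + y2 P F z, b.1⟫_ℝ = _
    rw [inner_add_left, inner_neg_left, S.dP_orth hx h1 hv b1, neg_zero, zero_add, inner_y2]
  have h6 : ⟪b.2, (Yf P F z).1⟫_ℝ = -fderiv ℝ F z (0, w) := by
    show ⟪b.2, -y1 P F z⟫_ℝ = _
    rw [inner_neg_right, hb2, inner_add_left, S.dP_orth hx b1 hv h1, zero_add, real_inner_comm,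
      inner_y1, hQw]
  rw [om, h5, h6, sub_neg_eq_add, ← map_add]
  have h7 : ((Qf P z b.1, fderiv ℝ P z.1 (Qf P z b.1) z.2) : E × E) + (0, w) =
      b - ⟪z.2, b.1⟫_ℝ • Xf P z := by
    refine Prod.ext ?_ ?_
    · show Qf P z b.1 + 0 = b.1 - ⟪z.2, b.1⟫_ℝ • z.2
      rw [add_zero, hQb]
    · show fderiv ℝ P z.1 (Qf P z b.1) z.2 + w =
        b.2 - ⟪z.2, b.1⟫_ℝ • fderiv ℝ P z.1 z.2 z.2
      rw [hQb, map_sub, map_smul, _root_.sub_apply, _root_.smul_apply,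
        hb2]
      abel
  rw [h7, map_sub, map_smul, hX, smul_zero, sub_zero]

lemma Yf_eq_zero_iff (hX : fderiv ℝ F z (Xf P z) = 0) :
    Yf P F z = 0 ↔ ∀ b ∈ TU P z, fderiv ℝ F z b = 0 := by
  constructor
  · intro h b hb
    rw [← S.om_Yf hz hX hb, h, om]
    simp
  · intro h
    refine S.eq_zero_of_om hz (S.Yf_mem hz) (S.alpha_Yf hz) fun b hb => ?_
    rw [S.om_Yf hz hX hb, h b hb]

omit hz in
lemma mem_Critical (hF : ContDiff ℝ ∞ F) {z : E × E} :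
    z ∈ Critical M F ↔ z ∈ UT M ∧ ∀ b ∈ TU P z, fderiv ℝ F z b = 0 := by
  have hd : ∀ {β : ℝ → E × E} {b : E × E}, HasDerivAt β b 0 →
      HasDerivAt (fun t => F (β t)) (fderiv ℝ F (β 0) b) 0 := fun h =>
    ((hF.differentiable (by simp)) _).hasFDerivAt.comp_hasDerivAt 0 h
  constructor
  · rintro ⟨hz, h⟩
    refine ⟨hz, fun b hb => ?_⟩
    obtain ⟨β, -, h2, h3, h4⟩ := S.exists_curve hz hb
    have h5 := h β h3 (Eventually.of_forall h2) h4.differentiableAt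
    have h6 := hd h4
    rw [h3] at h6
    exact h6.unique h5
  · rintro ⟨hz, h⟩
    refine ⟨hz, fun β h0 hβ hdiff => ?_⟩
    have h1 := S.vel_mem hz h0 hβ hdiff.hasDerivAt
    have h2 := hd hdiff.hasDerivAt
    rw [h0, h _ h1] at h2
    exact h2

end Surf

end Y

end Pool.Agent.PG
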