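import Pool.Agent.Work.PG.Zip

/-!
# Core of the density theorem for integrable geodesic flows (helper88, cell PG)

Abstract setting: an action of `ℝ × ℝ` on a compact metric space `N` (the geodesic flow is the
action of the first coordinate), an invariant function `F`, a reversing map `J` without fixed
points, local product structure off the critical set.
-/

set_option linter.unusedVariables false
set_option linter.unusedSectionVars false

namespace Pool.Agent.PG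

open Set Topology Filter

/-- Local product chart of the action `ψ` with invariant function `F` at a regular point `z`. -/
structure ChartAt {N : Type*} [MetricSpace N] (ψ : ℝ × ℝ → N → N) (F : N → ℝ) (Crit : Set N)
    (z : N) where
  σ : ℝ → N
  σ_base : σ (F z) = z
  r : ℝ
  r_pos : 0 < r
  cont : ContinuousOn σ (Ioo (F z - r) (F z + r))
  level : ∀ c ∈ Ioo (F z - r) (F z + r), F (σ c) = c
  regular : ∀ c ∈ Ioo (F z - r) (F z + r), σ c ∉ Crit
  nhds : ∀ ε > 0, {w | ∃ a c, ‖a‖ < ε ∧ c ∈ Ioo (F z - r) (F z + r) ∧ |c - F z| < ε ∧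
    ψ a (σ c) = w} ∈ 𝓝 z
  period : ∀ c₁ ∈ Ioo (F z - r) (F z + r), ∀ a₁ : ℝ × ℝ, ψ a₁ (σ c₁) = σ c₁ →
    ∃ a : ℝ → ℝ × ℝ, a c₁ = a₁ ∧ ∀ᶠ c in 𝓝 c₁, ψ (a c) (σ c) = σ c ∧ ContinuousAt a c ∧
      HasDerivAt (fun c => (a c).1) (-(a c).2) c

/-- The abstract system. -/
structure Sys (N : Type*) [MetricSpace N] where
  ψ : ℝ × ℝ → N → N
  F : N → ℝ
  J : N → N
  Crit : Set N
  cont : Continuous fun p : (ℝ × ℝ) × N => ψ p.1 p.2
  zero : ∀ z, ψ 0 z = z
  add : ∀ a b z, ψ (a + b) z = ψ a (ψ b z)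
  contF : Continuous F
  invF : ∀ a z, F (ψ a z) = F z
  contJ : Continuous J
  J_J : ∀ z, J (J z) = z
  J_ne : ∀ z, J z ≠ z
  J_flow : ∀ (s : ℝ) (z : N), J (ψ (s, 0) z) = ψ (-s, 0) (J z)
  crit_inv : ∀ a z, z ∈ Crit → ψ a z ∈ Crit
  nofix : ∀ z, ∃ κ > 0, ∀ s : ℝ, s ≠ 0 → |s| ≤ κ → ψ (s, 0) z ≠ z
  chart : ∀ z, z ∉ Crit → Nonempty (ChartAt ψ F Crit z)

variable {N : Type*} [MetricSpace N] (S : Sys N)

namespace Sys

/-- A point whose stabiliser contains two independent vectors. -/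
def Full (z : N) : Prop :=
  ∃ e f : ℝ × ℝ, S.ψ e z = z ∧ S.ψ f z = z ∧ e.1 * f.2 - e.2 * f.1 ≠ 0

lemma cont_left (z : N) : Continuous fun a => S.ψ a z :=
  S.cont.comp (continuous_id.prodMk continuous_const)

lemma cont_right (a : ℝ × ℝ) : Continuous (S.ψ a) :=
  S.cont.comp (continuous_const.prodMk continuous_id)

lemma neg_add' (a : ℝ × ℝ) (z : N) : S.ψ (-a) (S.ψ a z) = z := by
  rw [← S.add, neg_add_cancel, S.zero]

lemma add_neg' (a : ℝ × ℝ) (z : N) : S.ψ a (S.ψ (-a) z) = z := by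
  rw [← S.add, add_neg_cancel, S.zero]

lemma eq_neg_of (a : ℝ × ℝ) {z w : N} (h : S.ψ a z = w) : z = S.ψ (-a) w := by
  rw [← h, S.neg_add']

lemma stab_add {a b : ℝ × ℝ} {z : N} (ha : S.ψ a z = z) (hb : S.ψ b z = z) :
    S.ψ (a + b) z = z := by rw [S.add, hb, ha]

lemma stab_neg {a : ℝ × ℝ} {z : N} (ha : S.ψ a z = z) : S.ψ (-a) z = z := by
  conv_lhs => rw [← ha]
  rw [S.neg_add']

/-- The stabiliser. -/
def stab (z : N) : AddSubgroup (ℝ × ℝ) where
  carrier := {a | S.ψ a z = z}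
  add_mem' := fun ha hb => S.stab_add ha hb
  zero_mem' := S.zero z
  neg_mem' := fun ha => S.stab_neg ha

lemma mem_stab {a : ℝ × ℝ} {z : N} : a ∈ S.stab z ↔ S.ψ a z = z := Iff.rfl

lemma act_comm (a b : ℝ × ℝ) (z : N) : S.ψ a (S.ψ b z) = S.ψ b (S.ψ a z) := by
  rw [← S.add, ← S.add, add_comm]

/-- The stabiliser is constant on orbits. -/
lemma stab_act (a : ℝ × ℝ) (z : N) : S.stab (S.ψ a z) = S.stab z := by
  ext b
  rw [S.mem_stab, S.mem_stab, S.act_comm]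
  constructor
  · intro h
    have := congrArg (S.ψ (-a)) h
    rwa [S.neg_add', S.neg_add'] at this
  · intro h
    rw [h]

lemma crit_iff (a : ℝ × ℝ) (z : N) : S.ψ a z ∈ S.Crit ↔ z ∈ S.Crit := by
  refine ⟨fun h => ?_, S.crit_inv a z⟩
  have := S.crit_inv (-a) _ h
  rwa [S.neg_add'] at this

/-- In a chart domain, points of the same level lie on the same orbit (with control). -/
lemma plaque {z : N} (C : ChartAt S.ψ S.F S.Crit z) {ε : ℝ} (hε : 0 < ε) :
    ∀ᶠ w in 𝓝 z, ∃ a c, ‖a‖ < ε ∧ c ∈ Ioo (S.F z - C.r) (S.F z + C.r) ∧ c = S.F w ∧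
      |c - S.F z| < ε ∧ S.ψ a (C.σ c) = w := by
  filter_upwards [C.nhds ε hε] with w hw
  obtain ⟨a, c, ha, hc, hcε, rfl⟩ := hw
  refine ⟨a, c, ha, hc, ?_, hcε, rfl⟩
  rw [S.invF, C.level c hc]

/-- Near a regular point `z` the points of the same level as `z` are in the plaque of `z`. -/
lemma plaque_self {z : N} (hz : z ∉ S.Crit) {ε : ℝ} (hε : 0 < ε) :
    ∀ᶠ w in 𝓝 z, S.F w = S.F z → ∃ a, ‖a‖ < ε ∧ S.ψ a z = w := by
  obtain ⟨C⟩ := S.chart z hz
  filter_upwards [S.plaque C hε] with w hw hF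
  obtain ⟨a, c, ha, hc, hcw, hcε, h⟩ := hw
  refine ⟨a, ha, ?_⟩
  rw [hcw, hF, C.σ_base] at h
  exact h

/-- Points of the same level near a regular point are on the same orbit. -/
lemma same_orbit {z : N} (hz : z ∉ S.Crit) :
    ∀ᶠ p : N × N in 𝓝 (z, z), S.F p.1 = S.F p.2 → ∃ a, S.ψ a p.1 = p.2 := by
  obtain ⟨C⟩ := S.chart z hz
  have h := S.plaque C one_pos
  rw [nhds_prod_eq]
  filter_upwards [h.prod_mk h] with p hp hF
  obtain ⟨⟨a, c, -, -, hc, -, h1⟩, ⟨b, d, -, -, hd, -, h2⟩⟩ := hp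
  refine ⟨b - a, ?_⟩
  have hcd : c = d := by rw [hc, hd, hF]
  rw [← h1, ← h2, ← hcd, ← S.add, sub_add_cancel]

/-! ### Step 1: orbits whose closure is regular are tori -/

lemma orbit_closed {z : N} (hz : Disjoint (closure (range fun a => S.ψ a z)) S.Crit) :
    IsClosed (range fun a => S.ψ a z) := by
  rw [← closure_subset_iff_isClosed]
  intro w hw
  have hwc : w ∉ S.Crit := Set.disjoint_left.1 hz hw
  have hFw : S.F w = S.F z := by
    have hcl : IsClosed {w | S.F w = S.F z} := isClosed_eq S.contF continuous_const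
    have : closure (range fun a => S.ψ a z) ⊆ {w | S.F w = S.F z} := by
      refine closure_minimal ?_ hcl
      rintro _ ⟨a, rfl⟩
      exact S.invF a z
    exact this hw
  have h1 := S.plaque_self hwc one_pos
  rw [mem_closure_iff_frequently] at hw
  obtain ⟨y, ⟨a, rfl⟩, hy⟩ := (hw.and_eventually h1).exists
  obtain ⟨b, -, hb⟩ := hy (by rw [S.invF, hFw])
  refine ⟨-b + a, ?_⟩
  simp only at hb ⊢
  rw [S.add, ← hb, S.neg_add']

lemma full_of_regular_closure [CompactSpace N] {z : N}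
    (hz : Disjoint (closure (range fun a => S.ψ a z)) S.Crit) : S.Full z := by
  have hcl := S.orbit_closed hz
  have hcomp : IsCompact (range fun a => S.ψ a z) := hcl.isCompact
  have hreg : ∀ a, S.ψ a z ∉ S.Crit := fun a =>
    Set.disjoint_left.1 hz (subset_closure ⟨a, rfl⟩)
  -- a bound for the orbit
  have hb : ∃ R : ℝ, ∀ w ∈ range (fun a => S.ψ a z), ∃ a, ‖a‖ ≤ R ∧ S.ψ a z = w := by
    refine hcomp.induction_on (p := fun K => ∃ R : ℝ, ∀ w ∈ K ∩ range (fun a => S.ψ a z),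
      ∃ a, ‖a‖ ≤ R ∧ S.ψ a z = w) ⟨0, by simp⟩ ?_ ?_ ?_ |>.imp fun R hR w hw => hR w ⟨hw, hw⟩
    · rintro s t hst ⟨R, hR⟩
      exact ⟨R, fun w hw => hR w ⟨hst hw.1, hw.2⟩⟩
    · rintro s t ⟨R, hR⟩ ⟨R', hR'⟩
      refine ⟨max R R', ?_⟩
      rintro w ⟨hw | hw, hw2⟩
      · obtain ⟨a, ha, h⟩ := hR w ⟨hw, hw2⟩
        exact ⟨a, ha.trans (le_max_left _ _), h⟩
      · obtain ⟨a, ha, h⟩ := hR' w ⟨hw, hw2⟩
        exact ⟨a, ha.trans (le_max_right _ _), h⟩
    · rintro _ ⟨b, rfl⟩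
      refine ⟨{w | S.F w = S.F (S.ψ b z) → ∃ a, ‖a‖ < 1 ∧ S.ψ a (S.ψ b z) = w},
        mem_nhdsWithin_of_mem_nhds (S.plaque_self (hreg b) one_pos), 1 + ‖b‖, ?_⟩
      rintro w ⟨hw, ⟨c, rfl⟩⟩
      obtain ⟨a, ha, h⟩ := hw (by simp only [S.invF])
      refine ⟨a + b, (norm_add_le _ _).trans (by linarith), ?_⟩
      rw [S.add, h]
  obtain ⟨R, hR⟩ := hb
  have hR0 : 0 ≤ R := by
    obtain ⟨a, ha, -⟩ := hR z ⟨0, S.zero z⟩
    exact (norm_nonneg _).trans ha
  -- two far away points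
  obtain ⟨a, ha, h1⟩ := hR (S.ψ (2 * R + 1, 0) z) ⟨_, rfl⟩
  obtain ⟨b, hb, h2⟩ := hR (S.ψ (0, 2 * R + 1) z) ⟨_, rfl⟩
  refine ⟨(2 * R + 1, 0) - a, (0, 2 * R + 1) - b, ?_, ?_, ?_⟩
  · have h3 := congrArg (S.ψ (-a)) h1
    rw [S.neg_add', ← S.add] at h3
    rw [sub_eq_neg_add]
    exact h3.symm
  · have h3 := congrArg (S.ψ (-b)) h2
    rw [S.neg_add', ← S.add] at h3
    rw [sub_eq_neg_add]
    exact h3.symm
  · have ha1 : |a.1| ≤ R := (norm_fst_le a).trans ha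
    have ha2 : |a.2| ≤ R := (norm_snd_le a).trans ha
    have hb1 : |b.1| ≤ R := (norm_fst_le b).trans hb
    have hb2 : |b.2| ≤ R := (norm_snd_le b).trans hb
    simp only [Prod.fst_sub, Prod.snd_sub, zero_sub]
    rw [abs_le] at ha1 ha2 hb1 hb2
    have h3 : (R + 1) ^ 2 ≤ (2 * R + 1 - a.1) * (2 * R + 1 - b.2) := by
      have e1 : R + 1 ≤ 2 * R + 1 - a.1 := by linarith
      have e2 : R + 1 ≤ 2 * R + 1 - b.2 := by linarith
      nlinarith
    have h4 : a.2 * b.1 ≤ R ^ 2 := by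
      have : |a.2 * b.1| ≤ R * R := by
        rw [abs_mul]
        exact mul_le_mul (abs_le.2 ha2) (abs_le.2 hb1) (abs_nonneg _) hR0
      nlinarith [le_abs_self (a.2 * b.1)]
    nlinarith

/-- A regular point which is not full has a critical point in its orbit closure. -/
lemma exists_crit_of_not_full [CompactSpace N] {z : N} (hz : ¬ S.Full z) :
    ∃ w ∈ closure (range fun a => S.ψ a z), w ∈ S.Crit := by
  by_contra h
  push Not at h
  exact hz (S.full_of_regular_closure (Set.disjoint_left.2 h))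

end Sys

end Pool.Agent.PG
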