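import Mathlib

/-!
# Closed surfaces in Euclidean space, geodesics, first integrals of the geodesic flow
-/

set_option autoImplicit false

open Set Filter Topology
open scoped ContDiff InnerProductSpace

namespace Pool.Agent.PG

/-- The parameter plane. -/
abbrev Pl := EuclideanSpace ℝ (Fin 2)

variable {E : Type*} [NormedAddCommGroup E] [InnerProductSpace ℝ E]

/-- `M ⊆ E` is a closed (compact, connected, without boundary) smooth embedded surface: near each
of its points it is the image of an open subset `D` of the plane under a smooth map `f` which has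
a smooth left inverse `κ`. -/
structure IsClosedSurface (M : Set E) : Prop where
  compact : IsCompact M
  connected : IsConnected M
  chart : ∀ x ∈ M, ∃ (O : Set E) (D : Set Pl) (f : Pl → E) (κ : E → Pl),
    IsOpen O ∧ x ∈ O ∧ IsOpen D ∧ ContDiffOn ℝ ∞ f D ∧ ContDiffOn ℝ ∞ κ O ∧
      f '' D = M ∩ O ∧ ∀ p ∈ D, κ (f p) = p

/-- Tangent vectors of `M` at `x`: the velocities of the curves in `M` through `x`. -/
def tangent (M : Set E) (x : E) : Set E :=
  {a | ∃ c : ℝ → E, c 0 = x ∧ (∀ᶠ t in 𝓝 (0 : ℝ), c t ∈ M) ∧ HasDerivAt c a 0}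

/-- Geodesics of `M` (with the metric induced by `E`): smooth curves in `M` whose acceleration is
orthogonal to `M`. -/
def IsGeodesic (M : Set E) (γ : ℝ → E) : Prop :=
  ContDiff ℝ ∞ γ ∧ (∀ t, γ t ∈ M) ∧
    ∀ t, ∀ a ∈ tangent M (γ t), ⟪deriv (deriv γ) t, a⟫_ℝ = 0

/-- Periodic (closed) geodesics: non-constant geodesics with a period. -/
def IsClosedGeodesic (M : Set E) (γ : ℝ → E) : Prop :=
  IsGeodesic M γ ∧ (∃ T > 0, ∀ t, γ (t + T) = γ t) ∧ ∃ t, γ t ≠ γ 0

/-- The union of the images of all periodic geodesics. -/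
def closedGeodesicSet (M : Set E) : Set E :=
  {x | ∃ γ : ℝ → E, IsClosedGeodesic M γ ∧ x ∈ range γ}

/-- The unit tangent bundle. -/
def UT (M : Set E) : Set (E × E) :=
  {z | z.1 ∈ M ∧ z.2 ∈ tangent M z.1 ∧ ‖z.2‖ = 1}

/-- `F` (a smooth function on `E × E`, of which only the restriction to the unit tangent bundle
matters) is a first integral of the geodesic flow: it is constant along the lifts of the unit
speed geodesics. -/
def IsFirstIntegral (M : Set E) (F : E × E → ℝ) : Prop :=
  ContDiff ℝ ∞ F ∧ ∀ γ : ℝ → E, IsGeodesic M γ → (∀ t, ‖deriv γ t‖ = 1) →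
    ∀ t, F (γ t, deriv γ t) = F (γ 0, deriv γ 0)

/-- The critical vectors of the restriction of `F` to the unit tangent bundle. -/
def Critical (M : Set E) (F : E × E → ℝ) : Set (E × E) :=
  {z | z ∈ UT M ∧ ∀ β : ℝ → E × E, β 0 = z → (∀ᶠ t in 𝓝 (0 : ℝ), β t ∈ UT M) →
    DifferentiableAt ℝ β 0 → HasDerivAt (fun t => F (β t)) 0 0}

/-- Every critical vector of `F` is tangent to a closed geodesic. -/
def CriticalPeriodic (M : Set E) (F : E × E → ℝ) : Prop :=
  ∀ z ∈ Critical M F, ∃ γ : ℝ → E, IsClosedGeodesic M γ ∧ γ 0 = z.1 ∧ deriv γ 0 = z.2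

/-- Tameness: a critical vector `w` has arbitrarily small neighbourhoods in which the
non-critical vectors of the level of `w` form only finitely many path components. -/
def Tame (M : Set E) (F : E × E → ℝ) : Prop :=
  ∀ w ∈ Critical M F, ∀ V ∈ 𝓝 w, ∃ V' ∈ 𝓝 w, V' ⊆ V ∧ ∃ S : Set (E × E), S.Finite ∧
    ∀ y ∈ {y | y ∈ V' ∧ y ∈ UT M ∧ F y = F w ∧ y ∉ Critical M F},
      ∃ y' ∈ S, JoinedIn {y | y ∈ V' ∧ y ∈ UT M ∧ F y = F w ∧ y ∉ Critical M F} y y'

/-- `F` is transversally nondegenerate (in the sense of Bott) at the critical vector `z`: on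
some smooth two-parameter family `Γ` of unit tangent vectors through `z = Γ 0` it has a
nondegenerate critical point. As `F` is constant along the geodesic flow, this says that the
kernel of the Hessian of `F` at `z` is the direction of the flow. -/
def TransversallyNondegenerate (M : Set E) (F : E × E → ℝ) (z : E × E) : Prop :=
  ∃ Γ : ℝ × ℝ → E × E, ContDiff ℝ ∞ Γ ∧ (∀ q, Γ q ∈ UT M) ∧ Γ 0 = z ∧
    ∀ u : ℝ × ℝ, (∀ v, fderiv ℝ (fderiv ℝ (fun q => F (Γ q))) 0 u v = 0) → u = 0

end Pool.Agent.PG
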