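import Pool.Agent.Work.PG.Defs

/-!
# Families of first integrals
-/

set_option autoImplicit false

open Set Filter Topology
open scoped ContDiff InnerProductSpace

namespace Pool.Agent.PG

variable {E : Type*} [NormedAddCommGroup E] [InnerProductSpace ℝ E]

/-- The unit tangent vectors which are critical for all functions of the family `A`. -/
def JointCritical (M : Set E) (A : Set (E × E → ℝ)) : Set (E × E) :=
  {z | z ∈ UT M ∧ ∀ F ∈ A, z ∈ Critical M F}

/-- Every jointly critical vector is tangent to a closed geodesic. -/
def JointlyPeriodic (M : Set E) (A : Set (E × E → ℝ)) : Prop :=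
  ∀ z ∈ JointCritical M A, ∃ γ : ℝ → E, IsClosedGeodesic M γ ∧ γ 0 = z.1 ∧ deriv γ 0 = z.2

/-- The unit tangent vectors on the joint level of `w` (for the functions of the family `A`)
which are not jointly critical. -/
def JointLevel (M : Set E) (A : Set (E × E → ℝ)) (w : E × E) : Set (E × E) :=
  {y | y ∈ UT M ∧ (∀ F ∈ A, F y = F w) ∧ y ∉ JointCritical M A}

/-- Tameness of a family: a jointly critical vector `w` has arbitrarily small neighbourhoods in
which the vectors of its joint level which are not jointly critical form only finitely many path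
components. -/
def JointlyTame (M : Set E) (A : Set (E × E → ℝ)) : Prop :=
  ∀ w ∈ JointCritical M A, ∀ V ∈ 𝓝 w, ∃ V' ∈ 𝓝 w, V' ⊆ V ∧ ∃ S : Set (E × E), S.Finite ∧
    ∀ y ∈ V' ∩ JointLevel M A w, ∃ y' ∈ S, JoinedIn (V' ∩ JointLevel M A w) y y'

end Pool.Agent.PG
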