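import Pool.Agent.Work.PG.Main

/-!
# Several first integrals: proportionality of the Hamiltonian fields

Module (L2), (L3) of cell PG2 (helper83).
-/

set_option autoImplicit false
set_option linter.unusedSectionVars false

open Set Filter Topology
open scoped ContDiff InnerProductSpace

namespace Pool.Agent.PG

variable {E : Type} [NormedAddCommGroup E] [InnerProductSpace ℝ E] [FiniteDimensional ℝ E]
  {M : Set E} {P : E → E →L[ℝ] E}

variable (S : Surf M P)

include S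

/-- horizontal vectors with `om = 0` are parallel -/
lemma Surf.parallel {z y b : E × E} (hz : z ∈ UT M) (hy : y ∈ TU P z) (hb : b ∈ TU P z)
    (h1 : ⟪z.2, y.1⟫_ℝ = 0) (h2 : ⟪z.2, b.1⟫_ℝ = 0) (hy0 : y ≠ 0) (h : om y b = 0) :
    ∃ κ : ℝ, b = κ • y := by
  obtain ⟨hx, hv, -⟩ := S.mem_UT.1 hz
  obtain ⟨n, hn, hn1, hnv, hP⟩ := S.exists_normal hz
  have key : ∀ c ∈ TU P z, ⟪z.2, c.1⟫_ℝ = 0 → ∃ u u' : ℝ, c.1 = u • n ∧
      c.2 = fderiv ℝ P z.1 c.1 z.2 + u' • n := by
    intro c hc hc1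
    refine ⟨⟪n, c.1⟫_ℝ, ⟪n, c.2 - fderiv ℝ P z.1 c.1 z.2⟫_ℝ, ?_, ?_⟩
    · have h3 := hP c.1
      rw [hc.1, hc1, zero_smul, zero_add] at h3
      exact h3
    · have h3 := hP (c.2 - fderiv ℝ P z.1 c.1 z.2)
      have h4 : ⟪z.2, c.2 - fderiv ℝ P z.1 c.1 z.2⟫_ℝ = 0 := by
        rw [real_inner_comm, inner_sub_left, hc.2.2, S.dP_orth hx hc.1 hv hv, sub_zero]
      rw [hc.2.1, h4, zero_smul, zero_add] at h3
      rw [← h3]
      abel
  obtain ⟨x, x', hx1, hx2⟩ := key y hy h1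
  obtain ⟨u, u', hu1, hu2⟩ := key b hb h2
  have hnn : ⟪n, n⟫_ℝ = 1 := by rw [real_inner_self_eq_norm_sq, hn1]; norm_num
  have hom : om y b = u * x' - x * u' := by
    have e1 : ⟪y.2, b.1⟫_ℝ = u * x' := by
      rw [hx2, inner_add_left, S.dP_orth hx hy.1 hv hb.1, zero_add, hu1, inner_smul_left,
        inner_smul_right, hnn]
      simp [mul_comm]
    have e2 : ⟪b.2, y.1⟫_ℝ = x * u' := by
      rw [hu2, inner_add_left, S.dP_orth hx hb.1 hv hy.1, zero_add, hx1, inner_smul_left,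
        inner_smul_right, hnn]
      simp [mul_comm]
    rw [om, e1, e2]
  rw [hom] at h
  have hlin : ∀ κ : ℝ, u = κ * x → u' = κ * x' → b = κ • y := by
    intro κ e1 e2
    have e3 : b.1 = κ • y.1 := by rw [hu1, hx1, e1, smul_smul]
    refine Prod.ext e3 ?_
    show b.2 = κ • y.2
    rw [hu2, e3, hx2, map_smul, _root_.smul_apply, e2, smul_add, smul_smul]
  rcases eq_or_ne x 0 with h0 | h0
  · have hx' : x' ≠ 0 := by
      intro h'
      apply hy0
      have e1 : y.1 = 0 := by rw [hx1, h0, zero_smul]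
      refine Prod.ext e1 ?_
      show y.2 = 0
      rw [hx2, e1, h', map_zero]
      simp
    refine ⟨u' / x', hlin _ ?_ ?_⟩
    · rw [h0, mul_zero]
      rw [h0, zero_mul, sub_zero] at h
      exact (mul_eq_zero.1 h).resolve_right hx'
    · field_simp
  · refine ⟨u / x, hlin _ ?_ ?_⟩
    · field_simp
    · field_simp
      linarith

variable {F G : E × E → ℝ} (hF : IsFirstIntegral M F) (hG : IsFirstIntegral M G)
  {φ η θ : ℝ → E × E → E × E} (hφ : IsFlowOn (UT M) (Xf P) φ)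
  (hη : IsFlowOn (UT M) (Yf P F) η) (hθ : IsFlowOn (UT M) (Yf P G) θ)

include hF hG hφ

/-- the Hamiltonian fields of dependent integrals are parallel -/
lemma Surf.exists_factor {z : E × E} (hz : z ∈ UT M) (hreg : z ∉ Critical M F)
    (hbr : fderiv ℝ G z (Yf P F z) = 0) : ∃ κ : ℝ, Yf P G z = κ • Yf P F z := by
  refine S.parallel hz (S.Yf_mem hz) (S.Yf_mem hz) (S.alpha_Yf hz) (S.alpha_Yf hz) ?_ ?_
  · intro h
    apply hreg
    rw [S.mem_Critical hF.1]
    exact ⟨hz, (S.Yf_eq_zero_iff hz (S.fderiv_Xf hφ hF hz)).1 h⟩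
  · have h1 : om (Yf P G z) (Yf P F z) = 0 := by
      rw [S.om_Yf hz (S.fderiv_Xf hφ hG hz) (S.Yf_mem hz), hbr]
    have h2 : om (Yf P F z) (Yf P G z) = -om (Yf P G z) (Yf P F z) := by
      simp only [om]; ring
    rw [h2, h1, neg_zero]

omit hF hG hφ in
include hη in
/-- (L2), first part -/
theorem Surf.G_eta {W : Set (E × E)} (hW : W ⊆ UT M) (hWη : ∀ z ∈ W, ∀ t, η t z ∈ W)
    (hG : ContDiff ℝ ∞ G) (hbr : ∀ z ∈ W, fderiv ℝ G z (Yf P F z) = 0) {z : E × E} (hz : z ∈ W)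
    (t : ℝ) : G (η t z) = G z := by
  have h0 : G z = G (η 0 z) := by rw [hη.zero]
  rw [h0]
  refine eq_of_hasDerivAt_zero (g := fun t => G (η t z)) (fun t => ?_) t 0
  have h1 : HasDerivAt (fun t => G (η t z)) (fderiv ℝ G (η t z) (Yf P F (η t z))) t :=
    ((hG.differentiable (by simp)) _).hasFDerivAt.comp_hasDerivAt t (hη.deriv z (hW hz) t)
  rw [hbr _ (hWη z hz t)] at h1
  exact h1

omit hF hG hφ in
include hη in
/-- (L2), second part -/
theorem Surf.crit_G_eta {W : Set (E × E)} (hW : W ⊆ UT M) (hWη : ∀ z ∈ W, ∀ t, η t z ∈ W)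
    (hWo : ∀ z ∈ W, ∀ᶠ w in 𝓝 z, w ∈ UT M → w ∈ W)
    (hG : ContDiff ℝ ∞ G) (hbr : ∀ z ∈ W, fderiv ℝ G z (Yf P F z) = 0) {z : E × E} (hz : z ∈ W)
    (t : ℝ) (hc : z ∈ Critical M G) : η t z ∈ Critical M G := by
  rw [S.mem_Critical hG] at hc ⊢
  refine ⟨hη.maps t z (hW hz), fun b' hb' => ?_⟩
  have hb : fderiv ℝ (η (-t)) (η t z) b' ∈ TU P z := by
    have h := S.fderiv_flow_mem hη (hη.maps t z (hW hz)) hb' (-t)
    rwa [hη.neg_add_self] at h
  set b := fderiv ℝ (η (-t)) (η t z) b' with hbdef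
  obtain ⟨β, hβs, h2, h3, h4⟩ := S.exists_curve (hW hz) hb
  have h5 : HasDerivAt (fun r => η t (β r)) (fderiv ℝ (η t) z b) 0 := by
    have := hη.hasDerivAt_comp t h4
    rwa [h3] at this
  have h6 : HasDerivAt (fun r => G (η t (β r)))
      (fderiv ℝ G (η t (β 0)) (fderiv ℝ (η t) z b)) 0 :=
    ((hG.differentiable (by simp)) _).hasFDerivAt.comp_hasDerivAt 0 h5
  have h7 : HasDerivAt (fun r => G (β r)) (fderiv ℝ G (β 0) b) 0 :=
    ((hG.differentiable (by simp)) _).hasFDerivAt.comp_hasDerivAt 0 h4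
  have h8 : (fun r => G (η t (β r))) =ᶠ[𝓝 0] fun r => G (β r) := by
    have h9 : Tendsto β (𝓝 0) (𝓝 z) := by
      have := hβs.continuous.tendsto 0
      rwa [h3] at this
    filter_upwards [h9.eventually (hWo z hz)] with r hr
    exact S.G_eta hη hW hWη hG hbr (hr (h2 r)) t
  have h9 := (h7.congr_of_eventuallyEq h8).unique h6
  rw [h3, hc.2 b hb, hbdef, hη.fderiv_fderiv_neg] at h9
  exact h9.symm

include hη

/-- near a regular vector of `F`, the integral `G` is a function of `F` -/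
theorem Surf.local_function {W : Set (E × E)} (hW : W ⊆ UT M)
    (hWη : ∀ z ∈ W, ∀ t, η t z ∈ W)
    (hWo : ∀ z ∈ W, ∀ᶠ w in 𝓝 z, w ∈ UT M → w ∈ W)
    (hbr : ∀ z ∈ W, fderiv ℝ G z (Yf P F z) = 0) {z : E × E} (hz : z ∈ W)
    (hreg : z ∉ Critical M F) :
    ∃ h : ℝ → ℝ, ∀ᶠ w in 𝓝 z, w ∈ UT M → G w = h (F w) := by
  obtain ⟨C⟩ := S.chartAt hF hφ hη (hW hz) hreg
  set z' : UT M := ⟨z, hW hz⟩ with hz'
  -- a neighbourhood of `z` contained in `W`
  obtain ⟨ε, hε, hball⟩ := Metric.eventually_nhds_iff.1 (hWo z hz)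
  have hbase : F z ∈ Ioo (F z - C.r) (F z + C.r) := by
    constructor <;> linarith [C.r_pos]
  have hσc : ContinuousAt C.σ (F z) := C.cont.continuousAt (Ioo_mem_nhds hbase.1 hbase.2)
  have hσ0 : C.σ (F z) = z' := C.σ_base
  have hσW : ∀ᶠ c in 𝓝 (F z), ((C.σ c : UT M) : E × E) ∈ W := by
    have h1 : Tendsto (fun c => ((C.σ c : UT M) : E × E)) (𝓝 (F z)) (𝓝 z) := by
      have := (continuous_subtype_val.tendsto (C.σ (F z))).comp hσc
      rw [hσ0] at this
      exact this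
    filter_upwards [h1.eventually (hWo z hz)] with c hc
    exact hc (C.σ c).2
  obtain ⟨δ, hδ, hσδ⟩ := Metric.eventually_nhds_iff.1 hσW
  refine ⟨fun c => G (C.σ c), ?_⟩
  have hn := C.nhds δ hδ
  have hn2 : ∀ᶠ w : UT M in 𝓝 z', G w = G (C.σ (F w)) := by
    filter_upwards [hn] with w hw
    obtain ⟨a, c, ha, hc, hcδ, rfl⟩ := hw
    have hcW : ((C.σ c : UT M) : E × E) ∈ W := hσδ (by rwa [Real.dist_eq])
    have h1 : F (C.σ c) = c := C.level c hc
    have h2 : ((⟨φ a.1 (η a.2 (C.σ c)), hφ.maps _ _ (hη.maps _ _ (C.σ c).2)⟩ : UT M) : E × E)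
      = φ a.1 (η a.2 (C.σ c)) := rfl
    rw [h2, S.integral_flow hφ hF (hη.maps _ _ (C.σ c).2), S.F_eta hF hφ hη (C.σ c).2, h1,
      S.integral_flow hφ hG (hη.maps _ _ (C.σ c).2), S.G_eta hη hW hWη hG.1 hbr hcW]
  obtain ⟨V, hV, hV2⟩ := (mem_nhds_subtype _ _ _).1 hn2
  filter_upwards [hV] with w hw hwU
  exact @hV2 ⟨w, hwU⟩ hw

/-- the proportionality factor is locally constant on the levels of `F` -/
theorem Surf.factor_locally_constant {W : Set (E × E)} (hW : W ⊆ UT M)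
    (hWη : ∀ z ∈ W, ∀ t, η t z ∈ W)
    (hWo : ∀ z ∈ W, ∀ᶠ w in 𝓝 z, w ∈ UT M → w ∈ W)
    (hbr : ∀ z ∈ W, fderiv ℝ G z (Yf P F z) = 0) {z : E × E} (hz : z ∈ W)
    (hreg : z ∉ Critical M F) {κ : ℝ} (hκ : Yf P G z = κ • Yf P F z) :
    ∀ᶠ w in 𝓝 z, w ∈ UT M → F w = F z → Yf P G w = κ • Yf P F w := by
  obtain ⟨h, hh⟩ := S.local_function hF hG hφ hη hW hWη hWo hbr hz hreg
  -- the derivative of `h` at `F z` is the factor at any point of the plaque
  have key : ∀ w ∈ W, w ∉ Critical M F → (∀ᶠ w' in 𝓝 w, w' ∈ UT M → G w' = h (F w')) →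
      ∀ κ', Yf P G w = κ' • Yf P F w → HasDerivAt h κ' (F w) := by
    intro w hw hwreg hwh κ' hκ'
    have hwU := hW hw
    obtain ⟨σ, r, hr, hσ, hσw, hall⟩ := S.exists_transversal hF.1 hwU hwreg
    have hbase : F w ∈ Ioo (F w - r) (F w + r) := by constructor <;> linarith
    have hnb : Ioo (F w - r) (F w + r) ∈ 𝓝 (F w) := Ioo_mem_nhds hbase.1 hbase.2
    have hσd : HasDerivAt σ (deriv σ (F w)) (F w) :=
      ((hσ.contDiffAt hnb).differentiableAt (by simp)).hasDerivAt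
    have hFσ : HasDerivAt (fun c => F (σ c)) (fderiv ℝ F (σ (F w)) (deriv σ (F w))) (F w) :=
      ((hF.1.differentiable (by simp)) _).hasFDerivAt.comp_hasDerivAt _ hσd
    have hGσ : HasDerivAt (fun c => G (σ c)) (fderiv ℝ G (σ (F w)) (deriv σ (F w))) (F w) :=
      ((hG.1.differentiable (by simp)) _).hasFDerivAt.comp_hasDerivAt _ hσd
    have h1 : fderiv ℝ F w (deriv σ (F w)) = 1 := by
      have h2 : (fun c => F (σ c)) =ᶠ[𝓝 (F w)] fun c => c := by
        filter_upwards [hnb] with c hc using (hall c hc).2.1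
      have h3 := (hFσ.congr_of_eventuallyEq h2.symm).unique (hasDerivAt_id _)
      rwa [hσw] at h3
    have htan : deriv σ (F w) ∈ TU P w := by
      have h2 : HasDerivAt (fun t => σ (F w + t)) (deriv σ (F w)) 0 := by
        have h3 : HasDerivAt σ (deriv σ (F w)) (F w + 0) := by rw [add_zero]; exact hσd
        have h4 : HasDerivAt (fun t : ℝ => F w + t) 1 0 := by
          simpa using (hasDerivAt_id (0 : ℝ)).const_add (F w)
        have h5 := HasDerivAt.scomp (g₁ := σ) (h := fun t : ℝ => F w + t) 0 h3 h4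
        rw [one_smul] at h5
        exact h5
      refine S.vel_mem hwU (β := fun t => σ (F w + t)) (by simp [hσw]) ?_ h2
      have h3 : Tendsto (fun t : ℝ => F w + t) (𝓝 0) (𝓝 (F w)) := by
        have : Continuous fun t : ℝ => F w + t := by fun_prop
        have h4 := this.tendsto 0
        rwa [add_zero] at h4
      filter_upwards [h3.eventually hnb] with t ht using (hall _ ht).1
    have h2 : fderiv ℝ G w (deriv σ (F w)) = κ' := by
      rw [← S.om_Yf hwU (S.fderiv_Xf hφ hG hwU) htan, hκ']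
      have h3 : om (κ' • Yf P F w) (deriv σ (F w)) = κ' * om (Yf P F w) (deriv σ (F w)) := by
        simp only [om, Prod.smul_fst, Prod.smul_snd, inner_smul_left, inner_smul_right]
        simp only [conj_trivial]
        ring
      rw [h3, S.om_Yf hwU (S.fderiv_Xf hφ hF hwU) htan, h1, mul_one]
    rw [hσw, h2] at hGσ
    refine hGσ.congr_of_eventuallyEq ?_
    have hσt : Tendsto σ (𝓝 (F w)) (𝓝 w) := by
      have := hσd.continuousAt.tendsto
      rwa [hσw] at this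
    filter_upwards [hσt.eventually hwh, hnb] with c hc hc2
    rw [hc (hall c hc2).1, (hall c hc2).2.1]
  have hz1 := key z hz hreg hh κ hκ
  have hclosed : ∀ᶠ w in 𝓝 z, w ∈ UT M → w ∉ Critical M F := by
    have h1 : Yf P F z ≠ 0 := by
      intro h0
      apply hreg
      rw [S.mem_Critical hF.1]
      exact ⟨hW hz, (S.Yf_eq_zero_iff (hW hz) (S.fderiv_Xf hφ hF (hW hz))).1 h0⟩
    filter_upwards [((contDiff_Yf S hF.1).continuous.continuousAt).eventually_ne h1] with w hw hwU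
    intro hc
    apply hw
    rw [S.mem_Critical hF.1] at hc
    exact (S.Yf_eq_zero_iff hwU (S.fderiv_Xf hφ hF hwU)).2 hc.2
  filter_upwards [eventually_eventually_nhds.2 hh, hWo z hz, hclosed] with w h1 h2 h3 hwU hFw
  have hwW := h2 hwU
  obtain ⟨κ', hκ'⟩ := S.exists_factor hF hG hφ hwU (h3 hwU) (hbr w hwW)
  have h4 := key w hwW (h3 hwU) h1 κ' hκ'
  rw [hFw] at h4
  rw [hκ', h4.unique hz1]

include hθ in
/-- (L3): on `W` the Hamiltonian flows of two integrals agree up to a linear change of time -/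
theorem Surf.theta_eq_eta {W : Set (E × E)} (hW : W ⊆ UT M)
    (hWη : ∀ z ∈ W, ∀ t, η t z ∈ W)
    (hWo : ∀ z ∈ W, ∀ᶠ w in 𝓝 z, w ∈ UT M → w ∈ W)
    (hbr : ∀ z ∈ W, fderiv ℝ G z (Yf P F z) = 0) {z : E × E} (hz : z ∈ W)
    (hreg : z ∉ Critical M F) :
    ∃ κ : ℝ, (∀ t, θ t z = η (κ * t) z) ∧ (z ∉ Critical M G → κ ≠ 0) := by
  obtain ⟨κ, hκ⟩ := S.exists_factor hF hG hφ (hW hz) hreg (hbr z hz)
  have hregη : ∀ t, η t z ∉ Critical M F := by
    intro t h
    apply hreg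
    have h1 := S.crit_flow hF.1 hη (fun z hz b hb s => S.dF_eta hF hφ hη hz hb s) h (-t)
    rwa [hη.neg_add_self] at h1
  have hall : ∀ t, Yf P G (η t z) = κ • Yf P F (η t z) := by
    set A : Set ℝ := {t | Yf P G (η t z) = κ • Yf P F (η t z)} with hA
    have hηc : Continuous fun t => η t z := (hη.smooth_time z).continuous
    have hclosed : IsClosed A :=
      isClosed_eq ((contDiff_Yf S hG.1).continuous.comp hηc)
        (((contDiff_Yf S hF.1).continuous.comp hηc).const_smul κ)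
    have hopen : IsOpen A := by
      rw [isOpen_iff_mem_nhds]
      intro t ht
      have h1 := S.factor_locally_constant hF hG hφ hη hW hWη hWo hbr (hWη z hz t) (hregη t) ht
      filter_upwards [(hηc.tendsto t).eventually h1] with r hr
      exact hr (hη.maps _ _ (hW hz))
        (by rw [S.F_eta hF hφ hη (hW hz), S.F_eta hF hφ hη (hW hz)])
    have huniv : A = univ := IsClopen.eq_univ ⟨hclosed, hopen⟩ ⟨0, by
      show Yf P G (η 0 z) = κ • Yf P F (η 0 z)
      rw [hη.zero]; exact hκ⟩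
    intro t
    have : t ∈ A := by rw [huniv]; exact mem_univ t
    exact this
  refine ⟨κ, fun t => ?_, fun hG' h0 => ?_⟩
  · have h1 := hθ.unique (fun t => η (κ * t) z) (fun t => hη.maps _ _ (hW hz)) (fun t => ?_) t
    · simp only [mul_zero, hη.zero] at h1
      exact h1.symm
    · have h2 := hη.deriv z (hW hz) (κ * t)
      have h3 : HasDerivAt (fun t : ℝ => κ * t) κ t := by
        simpa using (hasDerivAt_id t).const_mul κ
      have h4 := HasDerivAt.scomp (g₁ := fun s => η s z) (h := fun t : ℝ => κ * t) t h2 h3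
      rw [← hall] at h4
      exact h4
  · apply hG'
    rw [S.mem_Critical hG.1]
    refine ⟨hW hz, (S.Yf_eq_zero_iff (hW hz) (S.fderiv_Xf hφ hG (hW hz))).1 ?_⟩
    rw [hκ, h0, zero_smul]

end Pool.Agent.PG
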