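import Pool.Agent.Work.PG.Core3

/-!
# Family core, part 1: path lifting and stabilisers, general form (helper88, cell PG)
-/

set_option linter.unusedVariables false
set_option linter.unusedSectionVars false

namespace Pool.Agent.PG

open Set Topology Filter

variable {N : Type*} [MetricSpace N] (S : Sys N)

namespace Sys

/-- Lifting of paths in a regular level to the acting group, when the stabiliser is trivial. -/
lemma exists_lift' {z : N} (hstab : ∀ a, S.ψ a z = z → a = 0) {p : ℝ → N} (hp : Continuous p)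
    (hp0 : p 0 = z) (hpF : ∀ u, S.F (p u) = S.F z)
    (hpc : ∀ u, p u ∈ closure (range fun a => S.ψ a z) → p u ∉ S.Crit) :
    ∃ a : ℝ → ℝ × ℝ, Continuous a ∧ ∀ u, S.ψ (a u) z = p u := by
  -- points of the path near `u` are in the plaque of `p u`
  have hloc : ∀ u, p u ∈ closure (range fun a => S.ψ a z) → ∀ ε > 0,
      ∀ᶠ u' in 𝓝 u, ∃ b, ‖b‖ < ε ∧ S.ψ b (p u) = p u' := by
    intro u hu ε hε
    filter_upwards [(hp.tendsto u).eventually (S.plaque_self (hpc u hu) hε)] with u' hu'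
    exact hu' (by rw [hpF, hpF])
  set G : Set ℝ := {u | ∃ b, S.ψ b z = p u} with hG
  have hGc : ∀ u ∈ G, p u ∈ closure (range fun a => S.ψ a z) :=
    fun u ⟨b, hb⟩ => subset_closure ⟨b, hb⟩
  have hopen : IsOpen G := by
    rw [isOpen_iff_mem_nhds]
    rintro u ⟨c, hc⟩
    filter_upwards [hloc u (hGc u ⟨c, hc⟩) 1 one_pos] with u' hu'
    obtain ⟨b, -, hb⟩ := hu'
    exact ⟨b + c, by rw [S.add, hc, hb]⟩
  have hclosed : IsClosed G := by
    rw [← closure_subset_iff_isClosed]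
    intro u hu
    have hu2 : p u ∈ closure (range fun a => S.ψ a z) := by
      have h1 : MapsTo p G (range fun a => S.ψ a z) := fun u ⟨b, hb⟩ => ⟨b, hb⟩
      exact h1.closure hp hu
    rw [mem_closure_iff_frequently] at hu
    obtain ⟨u', ⟨c, hc⟩, b, -, hb⟩ := (hu.and_eventually (hloc u hu2 1 one_pos)).exists
    exact ⟨-b + c, by rw [S.add, hc, ← hb, S.neg_add']⟩
  have huniv : G = univ := IsClopen.eq_univ ⟨hclosed, hopen⟩ ⟨0, 0, by rw [S.zero, hp0]⟩
  have hall : ∀ u, ∃ b, S.ψ b z = p u := fun u => by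
    have : u ∈ G := by rw [huniv]; exact mem_univ u
    exact this
  choose a ha using hall
  refine ⟨a, ?_, ha⟩
  rw [continuous_iff_continuousAt]
  intro u
  rw [ContinuousAt, Metric.tendsto_nhds]
  intro ε hε
  filter_upwards [hloc u (subset_closure ⟨a u, ha u⟩) ε hε] with u' hu'
  obtain ⟨b, hb, h⟩ := hu'
  have h1 : S.ψ (-(a u') + (b + a u)) z = z := by
    rw [S.add, S.add, ha u, h, ← ha u', S.neg_add']
  have h2 := hstab _ h1
  have h3 : a u' - a u = b := by
    have : a u' = b + a u := by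
      rw [neg_add_eq_zero] at h2
      exact h2
    rw [this, add_sub_cancel_right]
  rw [dist_eq_norm, h3]
  exact hb

/-- Step 2, general form: `T₀` is a set containing the orbit of `z`, on which `F` is constant, and
which meets the closure of the orbit in regular points only. -/
lemma exists_stab' {z w : N} {T₀ : Set N} (hT1 : ∀ a, S.ψ a z ∈ T₀)
    (hT2 : ∀ x ∈ T₀, S.F x = S.F z)
    (hT3 : ∀ x ∈ T₀, x ∈ closure (range fun a => S.ψ a z) → x ∉ S.Crit)
    (hw : w ∈ closure (range fun a => S.ψ a z)) {l : ℝ} (hl : 0 < l)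
    (hwl : S.ψ (l, 0) w = w) (htame : ∀ O ∈ 𝓝 w, ∃ O' ∈ 𝓝 w, O' ⊆ O ∧
      Finite (ZerothHomotopy {x : N // x ∈ O' ∧ x ∈ T₀})) : ∃ a, a ≠ 0 ∧ S.ψ a z = z := by
  by_contra hcon
  push Not at hcon
  have hstab : ∀ a, S.ψ a z = z → a = 0 := fun a h => by
    by_contra h0
    exact hcon a h0 h
  obtain ⟨κ, hκ, hfix⟩ := S.nofix w
  have hκl : κ < l := by
    by_contra h
    exact hfix l hl.ne' (by rw [abs_of_pos hl]; exact not_lt.1 h) hwl
  -- no quick return near `w`
  set K : Set ℝ := {s | κ / 4 ≤ |s| ∧ |s| ≤ κ} with hK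
  have hKc : IsCompact K := by
    have h1 : K = {s | κ / 4 ≤ |s|} ∩ Icc (-κ) κ := by
      ext s
      simp only [hK, mem_ofPred_eq, mem_inter_iff, mem_Icc, abs_le]
    rw [h1]
    exact isCompact_Icc.inter_left (isClosed_le continuous_const continuous_abs)
  have hret : ∀ᶠ q : N × N in 𝓝 (w, w), ∀ s ∈ K, S.ψ (s, 0) q.1 ≠ q.2 := by
    refine hKc.eventually_forall_of_forall_eventually
      (P := fun (q : N × N) (s : ℝ) => S.ψ (s, 0) q.1 ≠ q.2) fun s hs => ?_
    have hs0 : s ≠ 0 := by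
      intro h
      have := hs.1
      rw [h, abs_zero] at this
      linarith
    have hne := hfix s hs0 hs.2
    have hc : Continuous fun r : (N × N) × ℝ => (S.ψ (r.2, 0) r.1.1, r.1.2) := by
      refine Continuous.prodMk ?_ (by fun_prop)
      exact S.cont.comp (((continuous_snd.prodMk continuous_const)).prodMk
        (continuous_fst.comp continuous_fst))
    have hop : IsOpen {r : (N × N) × ℝ | S.ψ (r.2, 0) r.1.1 ≠ r.1.2} := by
      have : {r : (N × N) × ℝ | S.ψ (r.2, 0) r.1.1 ≠ r.1.2}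
          = (fun r : (N × N) × ℝ => (S.ψ (r.2, 0) r.1.1, r.1.2)) ⁻¹' {q | q.1 ≠ q.2} := rfl
      rw [this]
      exact (isOpen_ne_fun continuous_fst continuous_snd).preimage hc
    exact hop.mem_nhds hne
  rw [nhds_prod_eq] at hret
  obtain ⟨O, hO, hOret⟩ : ∃ O ∈ 𝓝 w, ∀ x ∈ O, ∀ y ∈ O, ∀ s ∈ K, S.ψ (s, 0) x ≠ y := by
    obtain ⟨A, hA, B, hB, hAB⟩ := Filter.mem_prod_iff.1 hret
    exact ⟨A ∩ B, inter_mem hA hB, fun x hx y hy => @hAB (x, y) ⟨hx.1, hy.2⟩⟩
  obtain ⟨O', hO', hO'O, hfin⟩ := htame O hO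
  set T : Set N := {x | x ∈ O' ∧ x ∈ T₀} with hT
  set n := Nat.card (ZerothHomotopy {x : N // x ∈ O' ∧ x ∈ T₀}) with hn
  -- multiples of the period fix `w`
  have hmul : ∀ j : ℕ, S.ψ ((j : ℝ) * l, 0) w = w := by
    intro j
    induction j with
    | zero =>
      have : (((0 : ℕ) : ℝ) * l, (0 : ℝ)) = (0 : ℝ × ℝ) := by simp
      rw [this, S.zero]
    | succ j ih =>
      have : (((j + 1 : ℕ) : ℝ) * l, (0 : ℝ)) = (l, 0) + ((j : ℝ) * l, 0) := by
        rw [Prod.mk_add_mk]; congr 1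
        · push_cast; ring
        · simp
      rw [this, S.add, ih, hwl]
  have hnear : ∀ᶠ x in 𝓝 w, ∀ j ≤ n, S.ψ ((j : ℝ) * l, 0) x ∈ O' := by
    have h1 : ∀ᶠ x in 𝓝 w, ∀ j ∈ Set.Iic n, S.ψ ((j : ℝ) * l, 0) x ∈ O' := by
      rw [Filter.eventually_all_finite (Set.finite_Iic n)]
      intro j _
      have h2 : Tendsto (S.ψ ((j : ℝ) * l, 0)) (𝓝 w) (𝓝 w) := by
        have := (S.cont_right ((j : ℝ) * l, 0)).tendsto w
        rwa [hmul j] at this
      exact h2.eventually (eventually_mem_set.2 hO')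
    exact h1
  rw [mem_closure_iff_frequently] at hw
  obtain ⟨x, ⟨b, hb⟩, hx⟩ := (hw.and_eventually hnear).exists
  simp only at hb
  have hf : ∀ j ≤ n, S.ψ ((j : ℝ) * l, 0) x ∈ T := fun j hj =>
    ⟨hx j hj, by rw [← hb, ← S.add]; exact hT1 _⟩
  -- pigeonhole
  obtain ⟨i, j, hij, hjn, hjoin⟩ : ∃ i j : ℕ, i < j ∧ j ≤ n ∧
      JoinedIn T (S.ψ ((i : ℝ) * l, 0) x) (S.ψ ((j : ℝ) * l, 0) x) := by
    let g : Fin (n + 1) → ZerothHomotopy {x : N // x ∈ O' ∧ x ∈ T₀} :=
      fun j => ZerothHomotopy.mk ⟨S.ψ (((j : ℕ) : ℝ) * l, 0) x, hf j (Nat.lt_succ_iff.1 j.2)⟩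
    have hg : ∃ i j : Fin (n + 1), i < j ∧ g i = g j := by
      have hni : ¬ Function.Injective g := by
        intro hinj
        have := Nat.card_le_card_of_injective g hinj
        rw [Nat.card_eq_fintype_card, Fintype.card_fin] at this
        omega
      rw [Function.Injective] at hni
      push Not at hni
      obtain ⟨i, j, hij, hne⟩ := hni
      rcases lt_or_gt_of_ne hne with h | h
      · exact ⟨i, j, h, hij⟩
      · exact ⟨j, i, h, hij.symm⟩
    obtain ⟨i, j, hij, hgij⟩ := hg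
    refine ⟨i, j, hij, Nat.lt_succ_iff.1 j.2, ?_⟩
    have hj := Quotient.exact hgij
    exact (joinedIn_iff_joined (hf i (Nat.lt_succ_iff.1 i.2)) (hf j (Nat.lt_succ_iff.1 j.2))).2 hj
  set y := S.ψ ((i : ℝ) * l, 0) x with hy
  have hystab : ∀ a, S.ψ a y = y → a = 0 := by
    intro a ha
    apply hstab
    have h1 : a ∈ S.stab y := ha
    rw [hy, S.stab_act, ← hb, S.stab_act] at h1
    exact h1
  have hyz : y = S.ψ (((i : ℝ) * l, 0) + b) z := by rw [hy, ← hb, S.add]
  have hyF : S.F y = S.F z := by rw [hyz, S.invF]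
  have hyr : (range fun a => S.ψ a y) = range fun a => S.ψ a z := by
    ext q
    constructor
    · rintro ⟨a, rfl⟩
      exact ⟨a + (((i : ℝ) * l, 0) + b), by simp only; rw [S.add, ← hyz]⟩
    · rintro ⟨a, rfl⟩
      refine ⟨a - (((i : ℝ) * l, 0) + b), ?_⟩
      simp only
      rw [hyz, ← S.add, sub_add_cancel]
  let p : ℝ → N := hjoin.somePath.extend
  have hpc : Continuous p := hjoin.somePath.extend.continuous
  have hpT : ∀ u, p u ∈ T := by
    intro u
    have h1 : p u ∈ range p := ⟨u, rfl⟩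
    have h2 : range p = range hjoin.somePath := Path.extend_range _
    rw [h2] at h1
    obtain ⟨t, ht⟩ := h1
    rw [← ht]
    exact hjoin.somePath_mem t
  have hp0 : p 0 = y := Path.extend_zero _
  have hp1 : p 1 = S.ψ ((j : ℝ) * l, 0) x := Path.extend_one _
  obtain ⟨a, hac, ha⟩ := S.exists_lift' hystab hpc hp0
    (fun u => by rw [hyF]; exact hT2 _ (hpT u).2) (fun u hu => hT3 _ (hpT u).2 (by rwa [hyr] at hu))
  have ha0 : a 0 = 0 := hystab _ (by rw [ha 0, hp0])
  have hji : (0 : ℝ) < (j : ℝ) - i := by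
    have : (i : ℝ) < j := by exact_mod_cast hij
    linarith
  have hji1 : (1 : ℝ) ≤ (j : ℝ) - i := by
    have : ((i + 1 : ℕ) : ℝ) ≤ j := by exact_mod_cast hij
    push_cast at this
    linarith
  have ha1 : a 1 = (((j : ℝ) - i) * l, 0) := by
    have h1 : S.ψ (-(((j : ℝ) - i) * l, 0) + a 1) y = y := by
      rw [S.add, ha 1, hp1]
      have e1 : ((j : ℝ) * l, (0 : ℝ)) = (((j : ℝ) - i) * l, 0) + ((i : ℝ) * l, 0) := by
        rw [Prod.mk_add_mk]; congr 1
        · ring
        · simp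
      rw [e1, S.add, S.neg_add']
    have h2 := hystab _ h1
    rw [neg_add_eq_zero] at h2
    exact h2.symm
  -- the relation for the zip lemma
  have hkey : ∀ u v, (a u).2 = (a v).2 → |(a u).1 - (a v).1| ≤ κ → |(a u).1 - (a v).1| < κ / 4 := by
    intro u v h2 h1
    by_contra h3
    have h4 : (a u).1 - (a v).1 ∈ K := ⟨not_lt.1 h3, h1⟩
    refine hOret (p v) (hO'O (hpT v).1) (p u) (hO'O (hpT u).1) _ h4 ?_
    rw [← ha v, ← S.add, ← ha u]
    congr 1
    apply Prod.ext
    · simp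
    · simp [h2]
  have hzip := zip_lemma (R := fun u v => (a u).2 = (a v).2 ∧ |(a u).1 - (a v).1| ≤ κ / 2)
    (A := fun u => (a u).2) (a := 0) (b := 1) (by fun_prop)
    (fun u _ => ⟨rfl, by simp; positivity⟩)
    (fun u _ v _ h => ⟨h.1.symm, by rw [abs_sub_comm]; exact h.2⟩)
    (fun u _ v _ w _ h1 h2 => by
      refine ⟨h1.1.trans h2.1, ?_⟩
      have h3 := hkey u v h1.1 (h1.2.trans (by linarith))
      have h4 := hkey v w h2.1 (h2.2.trans (by linarith))
      have h5 := abs_sub_le (a u).1 (a v).1 (a w).1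
      linarith)
    (by
      have hc1 : Continuous fun q : ℝ × ℝ => (a q.1).2 - (a q.2).2 := by fun_prop
      have hc2 : Continuous fun q : ℝ × ℝ => |(a q.1).1 - (a q.2).1| := by fun_prop
      have : {q : ℝ × ℝ | q.1 ∈ Icc (0 : ℝ) 1 ∧ q.2 ∈ Icc (0 : ℝ) 1 ∧
          ((a q.1).2 = (a q.2).2 ∧ |(a q.1).1 - (a q.2).1| ≤ κ / 2)}
          = (Icc 0 1 ×ˢ Icc 0 1) ∩ ({q | (a q.1).2 = (a q.2).2} ∩
            {q | |(a q.1).1 - (a q.2).1| ≤ κ / 2}) := by
        ext q
        constructor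
        · rintro ⟨h1, h2, h3, h4⟩; exact ⟨⟨h1, h2⟩, h3, h4⟩
        · rintro ⟨⟨h1, h2⟩, h3, h4⟩; exact ⟨h1, h2, h3, h4⟩
      rw [this]
      refine (isClosed_Icc.prod isClosed_Icc).inter (IsClosed.inter ?_ ?_)
      · exact isClosed_eq (by fun_prop) (by fun_prop)
      · exact isClosed_le hc2 continuous_const)
    (fun u _ v _ h => by
      have h3 := hkey u v h.1 (h.2.trans (by linarith))
      have hc2 : Continuous fun q : ℝ × ℝ => |(a q.1).1 - (a q.2).1| := by fun_prop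
      have h4 : ∀ᶠ q : ℝ × ℝ in 𝓝 (u, v), |(a q.1).1 - (a q.2).1| < κ / 2 :=
        (hc2.tendsto (u, v)).eventually_lt_const (by simp only; linarith)
      filter_upwards [h4] with q hq _ _ hA
      exact ⟨hA, hq.le⟩)
  have hfinal := hzip 0 (by simp) 1 (by simp) (by rw [ha0, ha1]; rfl)
  rw [ha0, ha1] at hfinal
  have h6 := hfinal.2
  simp only [Prod.fst_zero, zero_sub, abs_neg] at h6
  rw [abs_of_pos (by positivity)] at h6
  nlinarith

end Sys

end Pool.Agent.PG
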