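import Pool.Agent.Work.PG.Fam1

/-!
# Family core, part 2: flat sections of the stabilisers (helper88, cell PG)
-/

set_option linter.unusedVariables false
set_option linter.unusedSectionVars false

namespace Pool.Agent.PG

open Set Topology Filter

variable {N : Type*} [MetricSpace N] (S : Sys N)

namespace Sys

/-- `g` is a period function of the chart `C` on the set `I`. -/
def PerOn {z : N} (C : ChartAt S.ψ S.F S.Crit z) (g : ℝ → ℝ × ℝ) (I : Set ℝ) : Prop :=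
  ∀ c ∈ I, S.ψ (g c) (C.σ c) = C.σ c ∧ ContinuousAt g c ∧
    HasDerivAt (fun c => (g c).1) (-(g c).2) c ∧ (g c).2 ≠ 0

/-- Flat sections persist. -/
lemma flat_step {z : N} (C : ChartAt S.ψ S.F S.Crit z) {α β : ℝ}
    (hI : Ioo α β ⊆ Ioo (S.F z - C.r) (S.F z + C.r))
    (hWp : ∀ c ∈ Ioo α β, ∀ s : ℝ, s ≠ 0 → S.ψ (s, 0) (C.σ c) ≠ C.σ c)
    {g : ℝ → ℝ × ℝ} (hg : S.PerOn C g (Ioo α β)) {m r : ℝ} (hm : m ≠ 0) {c₁ : ℝ}
    (hc₁ : c₁ ∈ Ioo α β)
    (h1 : S.ψ (m + r * (g c₁).1, r * (g c₁).2) (C.σ c₁) = C.σ c₁) :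
    ∀ c ∈ Ioo α β, S.ψ (m + r * (g c).1, r * (g c).2) (C.σ c) = C.σ c := by
  let G : ℝ → ℝ × ℝ := fun c => (m + r * (g c).1, r * (g c).2)
  let T : Set ℝ := {c | c ∈ Ioo α β ∧ S.ψ (G c) (C.σ c) = C.σ c}
  have hσcont : ContinuousOn C.σ (Ioo α β) := C.cont.mono hI
  have hgcont : ContinuousOn g (Ioo α β) := fun c hc => (hg c hc).2.1.continuousWithinAt
  have hGcont : ContinuousOn G (Ioo α β) :=
    (continuousOn_const.add (continuousOn_const.mul hgcont.fst)).prodMk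
      (continuousOn_const.mul hgcont.snd)
  have hopen : IsOpen T := by
    rw [isOpen_iff_mem_nhds]
    rintro c₂ ⟨hc₂, hs₂⟩
    obtain ⟨hs1, hcont1, hder1, hne1⟩ := hg c₂ hc₂
    obtain ⟨e, he1, he⟩ := C.period c₂ (hI hc₂) (G c₂) hs₂
    have hdet1 : (g c₂).1 * (e c₂).2 - (g c₂).2 * (e c₂).1 ≠ 0 := by
      rw [he1]
      have : (g c₂).1 * (G c₂).2 - (g c₂).2 * (G c₂).1 = -(m * (g c₂).2) := by
        simp only [G]; ring
      rw [this, neg_ne_zero]
      exact mul_ne_zero hm hne1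
    have hec1 : ContinuousAt e c₂ := he.self_of_nhds.2.1
    have hdetc : ContinuousAt (fun c => (g c).1 * (e c).2 - (g c).2 * (e c).1) c₂ :=
      (hcont1.fst.mul hec1.snd).sub (hcont1.snd.mul hec1.fst)
    have hJ : ∀ᶠ c in 𝓝 c₂, c ∈ Ioo α β := Ioo_mem_nhds hc₂.1 hc₂.2
    obtain ⟨η, hη, hη2⟩ := Metric.eventually_nhds_iff.1
      (he.and ((hdetc.eventually_ne hdet1).and hJ))
    have hη3 : ∀ c ∈ Ioo (c₂ - η) (c₂ + η), (S.ψ (e c) (C.σ c) = C.σ c ∧ ContinuousAt e c ∧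
        HasDerivAt (fun c => (e c).1) (-(e c).2) c) ∧
        (g c).1 * (e c).2 - (g c).2 * (e c).1 ≠ 0 ∧ c ∈ Ioo α β := by
      intro c hc
      apply hη2
      rw [Real.dist_eq, abs_lt]
      constructor <;> linarith [hc.1, hc.2]
    have hc₂η : c₂ ∈ Ioo (c₂ - η) (c₂ + η) := ⟨by linarith, by linarith⟩
    have hrcont : ContinuousOn (fun c => (e c).2 / (g c).2) (Ioo (c₂ - η) (c₂ + η)) := by
      intro c hc
      obtain ⟨⟨-, h1, -⟩, -, h2⟩ := hη3 c hc
      exact (h1.snd.div (hg c h2).2.1.snd (hg c h2).2.2.2).continuousWithinAt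
    have hirr : ∀ c ∈ Ioo (c₂ - η) (c₂ + η), ∀ q : ℚ, (e c).2 / (g c).2 ≠ q := by
      intro c hc q hq
      obtain ⟨⟨h1, -, -⟩, h2, h3⟩ := hη3 c hc
      obtain ⟨h4, -, -, h5⟩ := hg c h3
      have h6 : (e c).2 = (q : ℝ) * (g c).2 := by
        rw [← hq]; field_simp
      have he' : e c ∈ S.stab (C.σ c) := h1
      have hg' : g c ∈ S.stab (C.σ c) := h4
      have hh := (S.stab (C.σ c)).sub_mem ((S.stab (C.σ c)).zsmul_mem he' (q.den : ℤ))
        ((S.stab (C.σ c)).zsmul_mem hg' q.num)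
      have hden : (q.den : ℝ) ≠ 0 := by exact_mod_cast q.den_nz
      have hqd : (q : ℝ) * q.den = q.num := by exact_mod_cast Rat.mul_den_eq_num q
      have hsnd : (((q.den : ℤ) • e c - q.num • g c : ℝ × ℝ)).2 = 0 := by
        rw [Prod.snd_sub, zsmul_snd', zsmul_snd', h6, ← hqd, Int.cast_natCast]; ring
      have hfst : (((q.den : ℤ) • e c - q.num • g c : ℝ × ℝ)).1 ≠ 0 := by
        rw [Prod.fst_sub, zsmul_fst', zsmul_fst', Int.cast_natCast]
        intro h0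
        apply h2
        have h7 : (q.den : ℝ) * (e c).1 = (q.num : ℝ) * (g c).1 := by linarith
        have h8 : (q.den : ℝ) * ((g c).1 * (e c).2 - (g c).2 * (e c).1) = 0 := by
          calc (q.den : ℝ) * ((g c).1 * (e c).2 - (g c).2 * (e c).1)
              = (q.den : ℝ) * (g c).1 * (e c).2 - (g c).2 * ((q.den : ℝ) * (e c).1) := by ring
            _ = 0 := by rw [h7, h6, ← hqd]; ring
        rcases mul_eq_zero.1 h8 with h | h
        · exact absurd h hden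
        · exact h
      refine hWp _ h3 _ hfst ?_
      have h9 : ((((q.den : ℤ) • e c - q.num • g c : ℝ × ℝ)).1, (0 : ℝ))
          = ((q.den : ℤ) • e c - q.num • g c : ℝ × ℝ) := Prod.ext rfl hsnd.symm
      rw [h9]
      exact hh
    have hrconst : ∀ c ∈ Ioo (c₂ - η) (c₂ + η), (e c).2 = r * (g c).2 := by
      intro c hc
      have h1 := eq_of_irrational hrcont hirr hc hc₂η
      rw [he1] at h1
      have h2 : (G c₂).2 / (g c₂).2 = r := by
        simp only [G]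
        field_simp
      rw [h2] at h1
      have h3 := (hg c (hη3 c hc).2.2).2.2.2
      rw [← h1]
      field_simp
    have hder : ∀ c ∈ Ioo (c₂ - η) (c₂ + η),
        HasDerivAt (fun c => (e c).1 - r * (g c).1) 0 c := by
      intro c hc
      obtain ⟨⟨-, -, h1⟩, -, h2⟩ := hη3 c hc
      have h3 := (hg c h2).2.2.1
      have h4 := h1.sub (h3.const_mul r)
      refine h4.congr_deriv ?_
      rw [hrconst c hc]; ring
    have hconst : ∀ c ∈ Ioo (c₂ - η) (c₂ + η), (e c).1 - r * (g c).1 = m := by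
      intro c hc
      have h1 := (convex_Ioo (c₂ - η) (c₂ + η)).is_const_of_fderivWithin_eq_zero
        (f := fun c => (e c).1 - r * (g c).1) (𝕜 := ℝ)
        (fun c hc => (hder c hc).differentiableAt.differentiableWithinAt)
        (fun c hc => by
          rw [fderivWithin_of_isOpen isOpen_Ioo hc]
          have := (hder c hc).hasFDerivAt.fderiv
          rw [this]
          ext
          simp) hc hc₂η
      rw [h1, he1]
      simp only [G]
      ring
    have hGe : ∀ c ∈ Ioo (c₂ - η) (c₂ + η), e c = G c := by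
      intro c hc
      refine Prod.ext ?_ ?_
      · simp only [G]; linarith [hconst c hc]
      · simp only [G]; exact hrconst c hc
    filter_upwards [Ioo_mem_nhds hc₂η.1 hc₂η.2] with c hc
    refine ⟨(hη3 c hc).2.2, ?_⟩
    rw [← hGe c hc]
    exact (hη3 c hc).1.1
  have hclosed : closure T ∩ Ioo α β ⊆ T := by
    rintro c ⟨hc, hcI⟩
    refine ⟨hcI, ?_⟩
    have h2 : ContinuousAt (fun c => (S.ψ (G c) (C.σ c), C.σ c)) c := by
      have hnh := Ioo_mem_nhds hcI.1 hcI.2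
      have e1 := hGcont.continuousAt hnh
      have e2 := hσcont.continuousAt hnh
      exact ((S.cont.continuousAt.comp (e1.prodMk e2))).prodMk e2
    have h3 : (S.ψ (G c) (C.σ c), C.σ c) ∈ closure (diagonal N) := by
      have h4 : MapsTo (fun c => (S.ψ (G c) (C.σ c), C.σ c)) T (diagonal N) := fun x hx => hx.2
      exact h2.continuousWithinAt.mem_closure hc h4
    rw [isClosed_diagonal.closure_eq] at h3
    exact h3
  have hsub : Ioo α β ⊆ T :=
    isPreconnected_Ioo.subset_of_closure_inter_subset hopen ⟨c₁, hc₁, hc₁, h1⟩ hclosed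
  exact fun c hc => (hsub hc).2

/-- The flat structure near a full regular point. -/
lemma exists_flat {z : N} (hz : z ∉ S.Crit) (hfull : S.Full z) {W : Set N} (hW : IsOpen W)
    (hzW : z ∈ W) (hWp : ∀ w ∈ W, ∀ s : ℝ, s ≠ 0 → S.ψ (s, 0) w ≠ w) :
    ∃ (C : ChartAt S.ψ S.F S.Crit z) (δ : ℝ) (g : ℝ → ℝ × ℝ), 0 < δ ∧
      Ioo (S.F z - δ) (S.F z + δ) ⊆ Ioo (S.F z - C.r) (S.F z + C.r) ∧
      (∀ c ∈ Ioo (S.F z - δ) (S.F z + δ), C.σ c ∈ W) ∧
      S.PerOn C g (Ioo (S.F z - δ) (S.F z + δ)) ∧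
      ∀ m r : ℝ, ∀ c₁ ∈ Ioo (S.F z - δ) (S.F z + δ),
        S.ψ (m + r * (g c₁).1, r * (g c₁).2) (C.σ c₁) = C.σ c₁ →
        ∀ c ∈ Ioo (S.F z - δ) (S.F z + δ),
          S.ψ (m + r * (g c).1, r * (g c).2) (C.σ c) = C.σ c := by
  obtain ⟨C⟩ := S.chart z hz
  obtain ⟨e₀, f₀, he₀, hf₀, hdet⟩ := hfull
  have hbase : S.F z ∈ Ioo (S.F z - C.r) (S.F z + C.r) := by
    constructor <;> linarith [C.r_pos]
  have he₀0 : e₀ ≠ 0 := by rintro rfl; apply hdet; simp
  have hf₀0 : f₀ ≠ 0 := by rintro rfl; apply hdet; simp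
  have hsnd : ∀ w ∈ W, ∀ a : ℝ × ℝ, a ≠ 0 → S.ψ a w = w → a.2 ≠ 0 := by
    intro w hw a ha hst h0
    have h4 : a.1 ≠ 0 := fun h => ha (Prod.ext h h0)
    refine hWp _ hw _ h4 ?_
    have : (a.1, (0 : ℝ)) = a := Prod.ext rfl h0.symm
    rw [this]
    exact hst
  obtain ⟨g, hg0, hg⟩ := C.period (S.F z) hbase e₀ (by rw [C.σ_base]; exact he₀)
  have hσc : ContinuousAt C.σ (S.F z) := C.cont.continuousAt (Ioo_mem_nhds hbase.1 hbase.2)
  have hσW : ∀ᶠ c in 𝓝 (S.F z), C.σ c ∈ W :=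
    hσc.eventually (by rw [C.σ_base]; exact hW.mem_nhds hzW)
  have he1 : ∀ᶠ c in 𝓝 (S.F z), g c ≠ 0 :=
    hg.self_of_nhds.2.1.eventually_ne (by rw [hg0]; exact he₀0)
  have hint : ∀ᶠ c in 𝓝 (S.F z), c ∈ Ioo (S.F z - C.r) (S.F z + C.r) :=
    Ioo_mem_nhds hbase.1 hbase.2
  obtain ⟨δ, hδ, hball⟩ := Metric.eventually_nhds_iff.1 (hg.and (hσW.and (he1.and hint)))
  have hall : ∀ c ∈ Ioo (S.F z - δ) (S.F z + δ), (S.ψ (g c) (C.σ c) = C.σ c ∧ ContinuousAt g c ∧
      HasDerivAt (fun c => (g c).1) (-(g c).2) c) ∧ C.σ c ∈ W ∧ g c ≠ 0 ∧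
      c ∈ Ioo (S.F z - C.r) (S.F z + C.r) := by
    intro c hc
    apply hball
    rw [Real.dist_eq, abs_lt]
    constructor <;> linarith [hc.1, hc.2]
  have hI : Ioo (S.F z - δ) (S.F z + δ) ⊆ Ioo (S.F z - C.r) (S.F z + C.r) :=
    fun c hc => (hall c hc).2.2.2
  have hIW : ∀ c ∈ Ioo (S.F z - δ) (S.F z + δ), C.σ c ∈ W := fun c hc => (hall c hc).2.1
  have hIp : ∀ c ∈ Ioo (S.F z - δ) (S.F z + δ), ∀ s : ℝ, s ≠ 0 →
      S.ψ (s, 0) (C.σ c) ≠ C.σ c := fun c hc => hWp _ (hIW c hc)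
  have hper : S.PerOn C g (Ioo (S.F z - δ) (S.F z + δ)) := fun c hc =>
    ⟨(hall c hc).1.1, (hall c hc).1.2.1, (hall c hc).1.2.2,
      hsnd _ (hIW c hc) _ (hall c hc).2.2.1 (hall c hc).1.1⟩
  have hzI : S.F z ∈ Ioo (S.F z - δ) (S.F z + δ) := ⟨by linarith, by linarith⟩
  -- the second section
  have hg2 : e₀.2 ≠ 0 := hsnd z hzW _ he₀0 he₀
  have hf2 : f₀.2 ≠ 0 := hsnd z hzW _ hf₀0 hf₀
  set rh : ℝ := f₀.2 / e₀.2 with hrh
  set mh : ℝ := f₀.1 - rh * e₀.1 with hmh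
  have hrh0 : rh ≠ 0 := div_ne_zero hf2 hg2
  have hrhe : rh * e₀.2 = f₀.2 := by rw [hrh]; field_simp
  have hmh0 : mh ≠ 0 := by
    intro h0
    apply hdet
    have h1 : f₀.1 = rh * e₀.1 := by linarith
    rw [h1, ← hrhe]; ring
  have hH := S.flat_step C hI hIp hper hmh0 hzI (r := rh) (by
    rw [hg0, C.σ_base]
    have : (mh + rh * e₀.1, rh * e₀.2) = f₀ := Prod.ext (by simp [hmh]) hrhe
    rw [this]; exact hf₀)
  let H : ℝ → ℝ × ℝ := fun c => (mh + rh * (g c).1, rh * (g c).2)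
  have hHper : S.PerOn C H (Ioo (S.F z - δ) (S.F z + δ)) := by
    intro c hc
    obtain ⟨h1, h2, h3, h4⟩ := hper c hc
    refine ⟨hH c hc, ?_, ?_, mul_ne_zero hrh0 h4⟩
    · exact (continuousAt_const.add (continuousAt_const.mul h2.fst)).prodMk
        (continuousAt_const.mul h2.snd)
    · have := (h3.const_mul rh).const_add mh
      refine this.congr_deriv ?_
      simp only [H]; ring
  refine ⟨C, δ, g, hδ, hI, hIW, hper, fun m r c₁ hc₁ h1 => ?_⟩
  by_cases hm : m = 0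
  · subst hm
    by_cases hr : r = 0
    · subst hr
      intro c hc
      have : ((0 : ℝ) + 0 * (g c).1, (0 : ℝ) * (g c).2) = (0 : ℝ × ℝ) := by simp
      rw [this, S.zero]
    · have hkey : ∀ c, ((0 : ℝ) + r * (g c).1, r * (g c).2)
          = (-(r * mh / rh) + (r / rh) * (H c).1, (r / rh) * (H c).2) := by
        intro c
        refine Prod.ext ?_ ?_
        · simp only [H]; field_simp; ring
        · simp only [H]; field_simp
      have hm' : -(r * mh / rh) ≠ 0 := neg_ne_zero.2 (div_ne_zero (mul_ne_zero hr hmh0) hrh0)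
      intro c hc
      rw [hkey c]
      exact S.flat_step C hI hIp hHper hm' hc₁ (by rw [← hkey c₁]; exact h1) c hc
  · exact S.flat_step C hI hIp hper hm hc₁ h1

end Sys

end Pool.Agent.PG
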