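import Pool.Agent.Work.PG.Fam2

/-!
# Core for a family of first integrals (helper88, helper83; cell PG)
-/

set_option linter.unusedVariables false
set_option linter.unusedSectionVars false

namespace Pool.Agent.PG

open Set Topology Filter

variable {N : Type*} [MetricSpace N]

lemma Sys.eventually_regular (S : Sys N) {z : N} (hz : z ∉ S.Crit) :
    ∀ᶠ w in 𝓝 z, w ∉ S.Crit := by
  obtain ⟨C⟩ := S.chart z hz
  filter_upwards [S.plaque C one_pos] with w hw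
  obtain ⟨a, c, -, hc, -, -, rfl⟩ := hw
  rw [S.crit_iff]
  exact C.regular c hc

/-- A family of systems with a common flow `φ` and a common reversal `J`, and an open invariant
set `W` without periodic points on which the members of the family are dependent. -/
structure Fam (N : Type*) [MetricSpace N] (I : Type*) where
  Sy : I → Sys N
  φ : ℝ → N → N
  J : N → N
  conj : I → I
  flow : ∀ i s z, (Sy i).ψ (s, 0) z = φ s z
  J_eq : ∀ i z, (Sy i).J z = J z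
  J_act : ∀ i a z, J ((Sy i).ψ a z) = (Sy (conj i)).ψ (-a) (J z)
  J_crit : ∀ i z, z ∉ (Sy i).Crit → J z ∉ (Sy (conj i)).Crit
  free : ∀ i z, z ∉ (Sy i).Crit → ∀ h : ℝ × ℝ,
    (∀ t : ℝ, (Sy i).ψ (t * h.1, t * h.2) z = z) → h = 0
  W : Set N
  W_open : IsOpen W
  W_per : ∀ z ∈ W, ∀ s : ℝ, s ≠ 0 → φ s z ≠ z
  W_inv : ∀ i a, ∀ z ∈ W, (Sy i).ψ a z ∈ W
  W_F : ∀ i j a, ∀ z ∈ W, (Sy j).F ((Sy i).ψ a z) = (Sy j).F z
  W_crit : ∀ i j a, ∀ z ∈ W, z ∈ (Sy j).Crit → (Sy i).ψ a z ∈ (Sy j).Crit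
  W_lam : ∀ i j, ∀ z ∈ W, z ∉ (Sy i).Crit → ∃ lam : ℝ, ∀ a : ℝ × ℝ,
    (Sy j).ψ a z = (Sy i).ψ (a.1, lam * a.2) z

namespace Fam

variable {I : Type*} (Φ : Fam N I)

/-- The common critical set of the members in `GG`. -/
def K (GG : Set I) : Set N := {z | ∀ i ∈ GG, z ∈ (Φ.Sy i).Crit}

lemma per_i (i : I) : ∀ w ∈ Φ.W, ∀ s : ℝ, s ≠ 0 → (Φ.Sy i).ψ (s, 0) w ≠ w := by
  intro w hw s hs
  rw [Φ.flow]
  exact Φ.W_per w hw s hs

lemma F_closure (i j : I) {z w : N} (hz : z ∈ Φ.W)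
    (hw : w ∈ closure (range fun a => (Φ.Sy i).ψ a z)) : (Φ.Sy j).F w = (Φ.Sy j).F z := by
  have hcl : IsClosed {w | (Φ.Sy j).F w = (Φ.Sy j).F z} :=
    isClosed_eq (Φ.Sy j).contF continuous_const
  have : closure (range fun a => (Φ.Sy i).ψ a z) ⊆ {w | (Φ.Sy j).F w = (Φ.Sy j).F z} := by
    refine closure_minimal ?_ hcl
    rintro _ ⟨a, rfl⟩
    exact Φ.W_F i j a z hz
  exact this hw

/-- Step 1: orbit closures meet the critical set of their index only in common critical points. -/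
lemma not_crit_of_closure {GG : Set I} {z w : N} (hz : z ∈ Φ.W) {i : I}
    (hi : z ∉ (Φ.Sy i).Crit) (hw : w ∈ closure (range fun a => (Φ.Sy i).ψ a z))
    (hK : w ∉ Φ.K GG) : w ∉ (Φ.Sy i).Crit := by
  intro hwi
  obtain ⟨j, hj, hwj⟩ : ∃ j ∈ GG, w ∉ (Φ.Sy j).Crit := by
    by_contra h
    push Not at h
    exact hK h
  have hFw := Φ.F_closure i j hz hw
  have h1 := (Φ.Sy j).plaque_self hwj one_pos
  rw [mem_closure_iff_frequently] at hw
  obtain ⟨x, ⟨a, rfl⟩, hx⟩ := (hw.and_eventually h1).exists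
  obtain ⟨b, -, hb⟩ := hx (by simp only; rw [Φ.W_F i j a z hz, hFw])
  simp only at hb
  have hxW := Φ.W_inv i a z hz
  have hwW : w ∈ Φ.W := by
    have h2 := Φ.W_inv j (-b) _ hxW
    rwa [← hb, (Φ.Sy j).neg_add'] at h2
  have h3 := Φ.W_crit j i b w hwW hwi
  rw [hb] at h3
  exact hi (((Φ.Sy i).crit_iff a z).1 h3)

/-- Tameness at a common critical point `w`: for the joint levels of the members in `GG`, or for
one member in `GG` which is regular at the points of `W` near `w`. -/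
def TameAt (GG : Set I) (w : N) : Prop :=
  (∀ O ∈ 𝓝 w, ∃ O' ∈ 𝓝 w, O' ⊆ O ∧ Finite (ZerothHomotopy {x : N // x ∈ O' ∧
    (∀ j ∈ GG, (Φ.Sy j).F x = (Φ.Sy j).F w) ∧ x ∉ Φ.K GG})) ∨
  ∃ i ∈ GG, (Φ.Sy i).Tame w ∧ ∀ᶠ x in 𝓝 w, x ∈ Φ.W → x ∉ (Φ.Sy i).Crit

/-- Change of the member: a nontrivial stabiliser for one member gives one for the others. -/
lemma exists_stab_change {i k : I} {z : N} (hz : z ∈ Φ.W) (hi : z ∉ (Φ.Sy i).Crit)
    (hk : z ∉ (Φ.Sy k).Crit) (h : ∃ a, a ≠ 0 ∧ (Φ.Sy i).ψ a z = z) :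
    ∃ a, a ≠ 0 ∧ (Φ.Sy k).ψ a z = z := by
  obtain ⟨a, ha0, ha⟩ := h
  obtain ⟨lam, hlam⟩ := Φ.W_lam k i z hz hk
  refine ⟨(a.1, lam * a.2), fun h0 => ha0 ?_, by rw [← hlam, ha]⟩
  have h1 : a.1 = 0 := congrArg Prod.fst h0
  have h2 : lam * a.2 = 0 := congrArg Prod.snd h0
  rcases mul_eq_zero.1 h2 with h3 | h3
  · exfalso
    have h4 : ((0, 1) : ℝ × ℝ) = 0 := Φ.free i z hi (0, 1) fun t => by
      rw [hlam, h3]
      have : ((t * 0, 0 * (t * 1)) : ℝ × ℝ) = 0 := by simp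
      simp only
      rw [this, (Φ.Sy k).zero]
    exact one_ne_zero (congrArg Prod.snd h4)
  · exact Prod.ext h1 h3

/-- Steps 2-4: the points of `W` which are regular for a member in `GG` are full for it. -/
lemma full [CompactSpace N] {GG : Set I}
    (hper : ∀ z ∈ Φ.K GG, ∃ l > 0, Φ.φ l z = z)
    (htame : ∀ w ∈ Φ.K GG, Φ.TameAt GG w)
    (hsard : ∀ i ∈ GG, interior ((Φ.Sy i).F '' (Φ.Sy i).Crit) = ∅) {i : I} (hiG : i ∈ GG) :
    ∀ z ∈ Φ.W, z ∉ (Φ.Sy i).Crit → (Φ.Sy i).Full z := by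
  have hcv : ∀ z ∈ Φ.W, z ∉ (Φ.Sy i).Crit → ¬ (Φ.Sy i).Full z →
      (Φ.Sy i).F z ∈ (Φ.Sy i).F '' (Φ.Sy i).Crit ∧ ∃ a, a ≠ 0 ∧ (Φ.Sy i).ψ a z = z := by
    intro z hz hi hnf
    obtain ⟨w, hw, hwc⟩ := (Φ.Sy i).exists_crit_of_not_full hnf
    have hwK : w ∈ Φ.K GG := by
      by_contra h
      exact Φ.not_crit_of_closure hz hi hw h hwc
    have hFall : ∀ j, (Φ.Sy j).F w = (Φ.Sy j).F z := fun j => Φ.F_closure i j hz hw
    obtain ⟨l, hl, hl2⟩ := hper w hwK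
    refine ⟨⟨w, hwc, hFall i⟩, ?_⟩
    rcases htame w hwK with htw | ⟨k, hkG, htk, hkW⟩
    · refine (Φ.Sy i).exists_stab'
        (T₀ := {x | (∀ j ∈ GG, (Φ.Sy j).F x = (Φ.Sy j).F w) ∧ x ∉ Φ.K GG}) (fun a => ?_)
        (fun x hx => ?_) (fun x hx hxc => ?_) hw hl (by rw [Φ.flow, hl2]) htw
      · refine ⟨fun j hj => by rw [Φ.W_F i j a z hz, hFall j], fun hK => ?_⟩
        exact hi (((Φ.Sy i).crit_iff a z).1 (hK i hiG))
      · rw [hx.1 i hiG, hFall i]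
      · exact Φ.not_crit_of_closure hz hi hxc hx.2
    · have hk : z ∉ (Φ.Sy k).Crit := by
        have hw' := hw
        rw [mem_closure_iff_frequently] at hw'
        obtain ⟨x, ⟨a, rfl⟩, hx⟩ := (hw'.and_eventually hkW).exists
        exact fun h => hx (Φ.W_inv i a z hz) (Φ.W_crit i k a z hz h)
      have horb : (range fun a => (Φ.Sy i).ψ a z) ⊆ range fun a => (Φ.Sy k).ψ a z := by
        rintro _ ⟨a, rfl⟩
        obtain ⟨lam, hlam⟩ := Φ.W_lam k i z hz hk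
        exact ⟨(a.1, lam * a.2), (hlam a).symm⟩
      exact Φ.exists_stab_change hz hk hi ((Φ.Sy k).exists_stab_of_crit hk
        (closure_mono horb hw) (hwK k hkG) hl (by rw [Φ.flow, hl2]) htk)
  intro z hz hi
  by_contra hnf
  obtain ⟨-, a, ha0, ha⟩ := hcv z hz hi hnf
  obtain ⟨C⟩ := (Φ.Sy i).chart z hi
  obtain ⟨δ, hδ, h⟩ := (Φ.Sy i).full_of_full_left C Φ.W_open hz (Φ.per_i i) ha0 ha
  have hr := C.r_pos
  have hm1 := min_le_left δ C.r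
  have hm2 := min_le_right δ C.r
  have hm0 : 0 < min δ C.r := lt_min hδ hr
  have hsub : Ioo ((Φ.Sy i).F z - min δ C.r) ((Φ.Sy i).F z) ⊆
      (Φ.Sy i).F '' (Φ.Sy i).Crit := by
    intro c hc
    obtain ⟨h1, h2, h3⟩ := h c ⟨by linarith [hc.1], hc.2⟩
    have := (hcv _ h1 (C.regular c ⟨by linarith [hc.1], by linarith [hc.2]⟩)
      (fun h4 => hnf (h3 h4))).1
    rwa [h2] at this
  have hmid : (Φ.Sy i).F z - min δ C.r / 2 ∈ interior ((Φ.Sy i).F '' (Φ.Sy i).Crit) :=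
    interior_maximal hsub isOpen_Ioo ⟨by linarith, by linarith⟩
  rw [hsard i hiG] at hmid
  exact hmid

/-- `x` is the first coordinate of a frame at `z` with constants `ρ`, `μ`. -/
def Fr (ρ μ : ℝ) (z : N) (x : ℝ) : Prop :=
  ∃ i, z ∉ (Φ.Sy i).Crit ∧ ∃ e f : ℝ × ℝ, (Φ.Sy i).ψ e z = z ∧ (Φ.Sy i).ψ f z = z ∧
    e.2 = ρ * f.2 ∧ e.1 - ρ * f.1 = μ ∧ e.1 = x

lemma Fr_at {ρ μ x : ℝ} {z : N} (hz : z ∈ Φ.W) (h : Φ.Fr ρ μ z x) {i : I}
    (hi : z ∉ (Φ.Sy i).Crit) : ∃ e f : ℝ × ℝ, (Φ.Sy i).ψ e z = z ∧ (Φ.Sy i).ψ f z = z ∧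
    e.2 = ρ * f.2 ∧ e.1 - ρ * f.1 = μ ∧ e.1 = x := by
  obtain ⟨j, hj, e, f, he, hf, h2, h1, hx⟩ := h
  obtain ⟨lam, hlam⟩ := Φ.W_lam i j z hz hi
  refine ⟨(e.1, lam * e.2), (f.1, lam * f.2), by rw [← hlam]; exact he,
    by rw [← hlam]; exact hf, ?_, h1, hx⟩
  simp only [h2]
  ring

lemma Fr_unique {ρ μ x y : ℝ} (hρ : Irrational ρ) {z : N} (hz : z ∈ Φ.W) (h : Φ.Fr ρ μ z x)
    (h' : Φ.Fr ρ μ z y) : x = y := by
  obtain ⟨i, hi, e, f, he, hf, h2, h1, hx⟩ := h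
  obtain ⟨e', f', he', hf', h2', h1', hy⟩ := Φ.Fr_at hz h' hi
  have hh : f - f' ∈ (Φ.Sy i).stab z := ((Φ.Sy i).stab z).sub_mem hf hf'
  have hg : e - e' ∈ (Φ.Sy i).stab z := ((Φ.Sy i).stab z).sub_mem he he'
  set h := f - f' with hdef
  have hgh : e - e' = (ρ * h.1, ρ * h.2) := by
    refine Prod.ext ?_ ?_
    · simp only [hdef, Prod.fst_sub]; linarith
    · simp only [hdef, Prod.snd_sub]; linarith
  rw [hgh] at hg
  let T : AddSubgroup ℝ :=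
    { carrier := {t | (Φ.Sy i).ψ (t * h.1, t * h.2) z = z}
      add_mem' := by
        intro s t hs ht
        have : ((s + t) * h.1, (s + t) * h.2) = (s * h.1, s * h.2) + (t * h.1, t * h.2) :=
          Prod.ext (by simp; ring) (by simp; ring)
        change (Φ.Sy i).ψ ((s + t) * h.1, (s + t) * h.2) z = z
        rw [this]
        exact (Φ.Sy i).stab_add hs ht
      zero_mem' := by
        change (Φ.Sy i).ψ (0 * h.1, 0 * h.2) z = z
        have : ((0 : ℝ) * h.1, (0 : ℝ) * h.2) = (0 : ℝ × ℝ) := by simp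
        rw [this, (Φ.Sy i).zero]
      neg_mem' := by
        intro t ht
        have : ((-t) * h.1, (-t) * h.2) = -(t * h.1, t * h.2) :=
          Prod.ext (by simp) (by simp)
        change (Φ.Sy i).ψ ((-t) * h.1, (-t) * h.2) z = z
        rw [this]
        exact (Φ.Sy i).stab_neg ht }
  have hT1 : (1 : ℝ) ∈ T := by
    change (Φ.Sy i).ψ (1 * h.1, 1 * h.2) z = z
    rw [one_mul, one_mul]
    exact hh
  have hTρ : ρ ∈ T := hg
  have hTcl : IsClosed (T : Set ℝ) :=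
    isClosed_eq (((Φ.Sy i).cont_left z).comp (by fun_prop)) continuous_const
  have hdense : Dense (T : Set ℝ) := by
    rcases T.dense_or_cyclic with h | ⟨τ, hτ⟩
    · exact h
    · exfalso
      rw [hτ, AddSubgroup.mem_closure_singleton] at hT1 hTρ
      obtain ⟨m, hm⟩ := hT1
      obtain ⟨n, hn⟩ := hTρ
      rw [zsmul_eq_mul] at hm hn
      have hm0 : (m : ℝ) ≠ 0 := by
        intro h0
        rw [h0, zero_mul] at hm
        exact zero_ne_one hm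
      apply hρ
      refine ⟨(n : ℚ) / m, ?_⟩
      push_cast
      rw [← hn, div_eq_iff hm0]
      calc (n : ℝ) = n * (m * τ) := by rw [hm, mul_one]
        _ = n * τ * m := by ring
  have hall : ∀ t : ℝ, (Φ.Sy i).ψ (t * h.1, t * h.2) z = z := by
    intro t
    have h3 : t ∈ closure (T : Set ℝ) := hdense t
    rw [hTcl.closure_eq] at h3
    exact h3
  have h0 := Φ.free i z hi h hall
  have : (e - e').1 = 0 := by rw [hgh, h0]; simp
  rw [← hx, ← hy]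
  rw [Prod.fst_sub] at this
  linarith

/-- Frames are locally given by flat sections. -/
lemma Fr_local {ρ μ : ℝ} (hρ : Irrational ρ) (hμ : μ ≠ 0) {z : N} (hz : z ∈ Φ.W) {i : I}
    (hi : z ∉ (Φ.Sy i).Crit) (hfull : (Φ.Sy i).Full z) :
    ∃ V ∈ 𝓝 z, ∃ G : N → ℝ, ContinuousAt G z ∧
      (∀ w ∈ V, w ∈ Φ.W ∧ w ∉ (Φ.Sy i).Crit) ∧
      (∀ w ∈ V, ∀ x, Φ.Fr ρ μ w x → ∃ m r : ℝ, r ≠ 0 ∧ ∀ w' ∈ V, Φ.Fr ρ μ w' (m + r * G w')) ∧
      (∀ w ∈ V, ∀ w' ∈ V, G w = G w' → (Φ.Sy i).F w = (Φ.Sy i).F w') := by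
  have hpi := Φ.per_i i
  have hinv := Φ.W_inv i
  have hFrat := fun (w : N) (hw : w ∈ Φ.W) (x : ℝ) (hx : Φ.Fr ρ μ w x)
    (hwi : w ∉ (Φ.Sy i).Crit) => Φ.Fr_at hw hx hwi
  have hFrin : ∀ (w : N) (x : ℝ), w ∉ (Φ.Sy i).Crit → (∃ e f : ℝ × ℝ, (Φ.Sy i).ψ e w = w ∧
      (Φ.Sy i).ψ f w = w ∧ e.2 = ρ * f.2 ∧ e.1 - ρ * f.1 = μ ∧ e.1 = x) → Φ.Fr ρ μ w x :=
    fun w x h1 h2 => ⟨i, h1, h2⟩
  generalize Φ.Sy i = S at *
  obtain ⟨C, δ, g, hδ, hI, hIW, hper, hflat⟩ := S.exists_flat hi hfull Φ.W_open hz hpi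
  have hV := S.plaque C hδ
  have hcI : ∀ c : ℝ, |c - S.F z| < δ → c ∈ Ioo (S.F z - δ) (S.F z + δ) := by
    intro c hc
    rw [abs_lt] at hc
    exact ⟨by linarith [hc.1], by linarith [hc.2]⟩
  have hzI : S.F z ∈ Ioo (S.F z - δ) (S.F z + δ) := ⟨by linarith, by linarith⟩
  have hVW : ∀ w, (∃ a c, ‖a‖ < δ ∧ c ∈ Ioo (S.F z - C.r) (S.F z + C.r) ∧ c = S.F w ∧
      |c - S.F z| < δ ∧ S.ψ a (C.σ c) = w) → w ∈ Φ.W ∧ w ∉ S.Crit ∧
      S.F w ∈ Ioo (S.F z - δ) (S.F z + δ) ∧ S.stab w = S.stab (C.σ (S.F w)) := by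
    rintro w ⟨a, c, -, hc, hcw, hcδ, hw⟩
    refine ⟨?_, ?_, ?_, ?_⟩
    · rw [← hw]
      exact hinv a _ (hIW c (hcI c hcδ))
    · rw [← hw, S.crit_iff]
      exact C.regular c hc
    · rw [← hcw]
      exact hcI c hcδ
    · rw [← hcw, ← hw, S.stab_act]
  refine ⟨_, hV, fun w => (g (S.F w)).1, ?_, ?_, ?_, ?_⟩
  · have h1 : ContinuousAt g (S.F z) := (hper _ hzI).2.1
    exact h1.fst.comp S.contF.continuousAt
  · intro w hw
    obtain ⟨h1, h2, -⟩ := hVW w hw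
    exact ⟨h1, h2⟩
  · intro w hw x hx
    obtain ⟨hwW, hwc, hwI, hws⟩ := hVW w hw
    obtain ⟨e, f, he, hf, h2, h1, -⟩ := hFrat w hwW x hx hwc
    obtain ⟨-, -, -, hg0⟩ := hper _ hwI
    set c := S.F w with hc
    have hρ0 : ρ ≠ 0 := hρ.ne_zero
    set re : ℝ := e.2 / (g c).2 with hre
    set me : ℝ := e.1 - re * (g c).1 with hme
    set rf : ℝ := f.2 / (g c).2 with hrf
    set mf : ℝ := f.1 - rf * (g c).1 with hmf
    have he2 : re * (g c).2 = e.2 := by rw [hre]; field_simp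
    have hf2 : rf * (g c).2 = f.2 := by rw [hrf]; field_simp
    have hrr : re = ρ * rf := by rw [hre, hrf, h2]; ring
    have heE : (me + re * (g c).1, re * (g c).2) = e := Prod.ext (by simp [hme]) he2
    have hfE : (mf + rf * (g c).1, rf * (g c).2) = f := Prod.ext (by simp [hmf]) hf2
    have he' : e ∈ S.stab (C.σ c) := by rw [← hws]; exact he
    have hf' : f ∈ S.stab (C.σ c) := by rw [← hws]; exact hf
    have hE := hflat me re c hwI (by rw [heE]; exact he')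
    have hF := hflat mf rf c hwI (by rw [hfE]; exact hf')
    have hhor : ∀ a : ℝ × ℝ, S.ψ a w = w → a.2 = 0 → a.1 = 0 := by
      intro a ha h0
      by_contra hne
      refine hpi w hwW _ hne ?_
      have : (a.1, (0 : ℝ)) = a := Prod.ext rfl h0.symm
      rw [this]
      exact ha
    refine ⟨me, re, ?_, fun w' hw' => ?_⟩
    · intro h0
      have he20 : e.2 = 0 := by rw [← he2, h0, zero_mul]
      have hf20 : f.2 = 0 := by
        rw [he20] at h2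
        rcases mul_eq_zero.1 h2.symm with h | h
        · exact absurd h hρ0
        · exact h
      apply hμ
      rw [← h1, hhor e he he20, hhor f hf hf20]
      ring
    · obtain ⟨hwW', hwc', hwI', hws'⟩ := hVW w' hw'
      refine hFrin _ _ hwc' ⟨(me + re * (g (S.F w')).1, re * (g (S.F w')).2),
        (mf + rf * (g (S.F w')).1, rf * (g (S.F w')).2), ?_, ?_, ?_, ?_, rfl⟩
      · have h3 : (me + re * (g (S.F w')).1, re * (g (S.F w')).2) ∈ S.stab w' := by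
          rw [hws']
          exact hE _ hwI'
        exact h3
      · have h3 : (mf + rf * (g (S.F w')).1, rf * (g (S.F w')).2) ∈ S.stab w' := by
          rw [hws']
          exact hF _ hwI'
        exact h3
      · simp only [hrr]; ring
      · have h4 : me - ρ * mf = μ := by
          rw [hme, hmf, ← h1, hrr]; ring
        simp only
        rw [← h4, hrr]; ring
  · intro w hw w' hw' hG
    obtain ⟨-, -, hwI, -⟩ := hVW w hw
    obtain ⟨-, -, hwI', -⟩ := hVW w' hw'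
    simp only at hG
    by_contra hne
    wlog hlt : S.F w < S.F w' generalizing w w'
    · exact this w' hw' w hw hG.symm hwI' hwI (Ne.symm hne)
        (lt_of_le_of_ne (not_lt.1 hlt) (Ne.symm hne))
    have hsubI : Icc (S.F w) (S.F w') ⊆ Ioo (S.F z - δ) (S.F z + δ) := fun c hc =>
      ⟨lt_of_lt_of_le hwI.1 hc.1, lt_of_le_of_lt hc.2 hwI'.2⟩
    obtain ⟨c, hc, hc0⟩ := exists_hasDerivAt_eq_zero (f := fun c => (g c).1)
      (f' := fun c => -(g c).2) hlt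
      (fun c hc => (hper c (hsubI hc)).2.1.fst.continuousWithinAt) hG
      (fun c hc => (hper c (hsubI (Ioo_subset_Icc_self hc))).2.2.1)
    exact (hper c (hsubI (Ioo_subset_Icc_self hc))).2.2.2 (neg_eq_zero.1 hc0)

/-- **Core theorem for families.** -/
theorem core [CompactSpace N] {GG : Set I}
    (hper : ∀ z ∈ Φ.K GG, ∃ l > 0, Φ.φ l z = z)
    (htame : ∀ w ∈ Φ.K GG, Φ.TameAt GG w)
    (hsard : ∀ i ∈ GG, interior ((Φ.Sy i).F '' (Φ.Sy i).Crit) = ∅)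
    {γ : ℝ → N} (hγ : Continuous γ) (hγW : ∀ u, γ u ∈ Φ.W)
    (hγJ : ∀ u, γ (u + Real.pi) = Φ.J (γ u)) : False := by
  have hfull : ∀ i ∈ GG, ∀ z ∈ Φ.W, z ∉ (Φ.Sy i).Crit → (Φ.Sy i).Full z :=
    fun i hi => Φ.full hper htame hsard hi
  have hex : ∀ z ∈ Φ.W, ∃ i ∈ GG, z ∉ (Φ.Sy i).Crit := by
    intro z hz
    by_contra hcon
    push Not at hcon
    obtain ⟨l, hl, h⟩ := hper z hcon
    exact Φ.W_per z hz l hl.ne' h
  -- the frame at `γ 0`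
  obtain ⟨i0, hi0G, hi0⟩ := hex (γ 0) (hγW 0)
  obtain ⟨e0, f0, he0, hf0, hdet⟩ := hfull i0 hi0G _ (hγW 0) hi0
  have hhor : ∀ a : ℝ × ℝ, (Φ.Sy i0).ψ a (γ 0) = γ 0 → a.2 = 0 → a.1 = 0 := by
    intro a ha h0
    by_contra hne
    refine Φ.per_i i0 _ (hγW 0) _ hne ?_
    have : (a.1, (0 : ℝ)) = a := Prod.ext rfl h0.symm
    rw [this]
    exact ha
  have hf2 : f0.2 ≠ 0 := by
    intro h0
    apply hdet
    rw [h0, hhor f0 hf0 h0]; ring
  obtain ⟨ρ, hρe⟩ : ∃ ρ : ℝ, e0.2 = ρ * f0.2 := ⟨e0.2 / f0.2, by field_simp⟩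
  obtain ⟨μ, hμe⟩ : ∃ μ : ℝ, e0.1 - ρ * f0.1 = μ := ⟨_, rfl⟩
  have hμ : μ ≠ 0 := by
    intro h0
    apply hdet
    have h1 : e0.1 = ρ * f0.1 := by linarith
    rw [h1, hρe]; ring
  have hρ : Irrational ρ := by
    rintro ⟨q, hq⟩
    have hden : (q.den : ℝ) ≠ 0 := by exact_mod_cast q.den_nz
    have hqd : ρ * q.den = q.num := by
      rw [← hq]; exact_mod_cast Rat.mul_den_eq_num q
    have hh := ((Φ.Sy i0).stab (γ 0)).sub_mem
      (((Φ.Sy i0).stab (γ 0)).zsmul_mem he0 (q.den : ℤ))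
      (((Φ.Sy i0).stab (γ 0)).zsmul_mem hf0 q.num)
    have hsnd : (((q.den : ℤ) • e0 - q.num • f0 : ℝ × ℝ)).2 = 0 := by
      rw [Prod.snd_sub, zsmul_snd', zsmul_snd', hρe, ← hqd, Int.cast_natCast]; ring
    have hfst := hhor _ hh hsnd
    rw [Prod.fst_sub, zsmul_fst', zsmul_fst', Int.cast_natCast, ← hqd] at hfst
    apply hμ
    have h2 : (q.den : ℝ) * μ = 0 := by rw [← hμe]; linarith
    rcases mul_eq_zero.1 h2 with h | h
    · exact absurd h hden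
    · exact h
  have hloc : ∀ u, ∃ i ∈ GG, γ u ∉ (Φ.Sy i).Crit ∧ ∃ V ∈ 𝓝 (γ u), ∃ G : N → ℝ,
      ContinuousAt G (γ u) ∧
      (∀ w ∈ V, ∀ x, Φ.Fr ρ μ w x → ∃ m r : ℝ, r ≠ 0 ∧
        ∀ w' ∈ V, Φ.Fr ρ μ w' (m + r * G w')) := by
    intro u
    obtain ⟨i, hiG, hi⟩ := hex (γ u) (hγW u)
    obtain ⟨V, hV, G, hG, -, h1, -⟩ :=
      Φ.Fr_local hρ hμ (hγW u) hi (hfull i hiG _ (hγW u) hi)
    exact ⟨i, hiG, hi, V, hV, G, hG, h1⟩
  have hall : ∀ u, ∃ x, Φ.Fr ρ μ (γ u) x := by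
    set T : Set ℝ := {u | ∃ x, Φ.Fr ρ μ (γ u) x} with hT
    have hopen : IsOpen T := by
      rw [isOpen_iff_mem_nhds]
      rintro u ⟨x, hx⟩
      obtain ⟨i, -, -, V, hV, G, -, h1⟩ := hloc u
      obtain ⟨m, r, -, h2⟩ := h1 _ (mem_of_mem_nhds hV) x hx
      filter_upwards [hγ.continuousAt.preimage_mem_nhds hV] with u' hu'
      exact ⟨_, h2 _ hu'⟩
    have hclosed : IsClosed T := by
      rw [← closure_subset_iff_isClosed]
      intro u hu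
      obtain ⟨i, -, -, V, hV, G, -, h1⟩ := hloc u
      rw [mem_closure_iff_frequently] at hu
      obtain ⟨u', ⟨x, hx⟩, hu'⟩ :=
        (hu.and_eventually (hγ.continuousAt.preimage_mem_nhds hV)).exists
      obtain ⟨m, r, -, h2⟩ := h1 _ hu' x hx
      exact ⟨_, h2 _ (mem_of_mem_nhds hV)⟩
    have huniv : T = univ := IsClopen.eq_univ ⟨hclosed, hopen⟩
      ⟨0, e0.1, i0, hi0, e0, f0, he0, hf0, hρe, hμe, rfl⟩
    intro u
    have : u ∈ T := by rw [huniv]; exact mem_univ u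
    exact this
  choose A hA using hall
  have hAc : Continuous A := by
    rw [continuous_iff_continuousAt]
    intro u
    obtain ⟨i, -, -, V, hV, G, hG, h1⟩ := hloc u
    obtain ⟨m, r, -, h2⟩ := h1 _ (mem_of_mem_nhds hV) _ (hA u)
    have h3 : ContinuousAt (fun u' => m + r * G (γ u')) u :=
      continuousAt_const.add (continuousAt_const.mul
        (ContinuousAt.comp (g := G) (f := γ) hG hγ.continuousAt))
    refine h3.congr ?_
    filter_upwards [hγ.continuousAt.preimage_mem_nhds hV] with u' hu'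
    exact Φ.Fr_unique hρ (hγW u') (h2 _ hu') (hA u')
  have hAJ : ∀ u, A (u + Real.pi) = A u := by
    intro u
    obtain ⟨i, hi, e, f, he, hf, h2, h1, hx⟩ := hA u
    refine Φ.Fr_unique hρ (hγW _) (hA (u + Real.pi)) ?_
    rw [hγJ]
    have hst : ∀ a : ℝ × ℝ, (Φ.Sy i).ψ a (γ u) = γ u →
        (Φ.Sy (Φ.conj i)).ψ a (Φ.J (γ u)) = Φ.J (γ u) := by
      intro a ha
      have h3 := Φ.J_act i (-a) (γ u)
      rw [neg_neg, (Φ.Sy i).stab_neg ha] at h3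
      exact h3.symm
    exact ⟨Φ.conj i, Φ.J_crit i _ hi, e, f, hst e he, hst f hf, h2, h1, hx⟩
  -- change of the index
  have hchg : ∀ i j, ∀ z ∈ Φ.W, z ∉ (Φ.Sy i).Crit → ∀ b, ∃ a,
      (Φ.Sy i).ψ a z = (Φ.Sy j).ψ b z := by
    intro i j z hz hi b
    obtain ⟨lam, hlam⟩ := Φ.W_lam i j z hz hi
    exact ⟨_, (hlam b).symm⟩
  have hzip := zip_lemma
    (R := fun u v => ∃ i ∈ GG, γ u ∉ (Φ.Sy i).Crit ∧ ∃ a, (Φ.Sy i).ψ a (γ u) = γ v)
    (A := A) (a := 0) (b := Real.pi) hAc.continuousOn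
    (fun u _ => by
      obtain ⟨i, hiG, hi⟩ := hex (γ u) (hγW u)
      exact ⟨i, hiG, hi, 0, (Φ.Sy i).zero _⟩)
    (fun u _ v _ h => by
      obtain ⟨i, hiG, hi, a, ha⟩ := h
      refine ⟨i, hiG, ?_, -a, ((Φ.Sy i).eq_neg_of a ha).symm⟩
      rw [← ha, (Φ.Sy i).crit_iff]
      exact hi)
    (fun u _ v _ w _ h1 h2 => by
      obtain ⟨i, hiG, hi, a, ha⟩ := h1
      obtain ⟨j, hjG, hj, b, hb⟩ := h2
      have hvi : γ v ∉ (Φ.Sy i).Crit := by
        rw [← ha, (Φ.Sy i).crit_iff]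
        exact hi
      obtain ⟨b', hb'⟩ := hchg i j (γ v) (hγW v) hvi b
      exact ⟨i, hiG, hi, b' + a, by rw [(Φ.Sy i).add, ha, hb', hb]⟩)
    (by
      have hcl : IsClosed {p : ℝ × ℝ | ∃ i ∈ GG, γ p.1 ∉ (Φ.Sy i).Crit ∧
          ∃ a, (Φ.Sy i).ψ a (γ p.1) = γ p.2} := by
        rw [← isOpen_compl_iff, isOpen_iff_mem_nhds]
        rintro ⟨u, v⟩ hp
        obtain ⟨i, hiG, hi⟩ := hex (γ u) (hγW u)
        obtain ⟨B, hB⟩ := (Φ.Sy i).bounded_rep hi (hfull i hiG _ (hγW u) hi)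
        have hp' : ∀ a, (Φ.Sy i).ψ a (γ u) ≠ γ v := fun a ha => hp ⟨i, hiG, hi, a, ha⟩
        have h1 : ∀ᶠ p : ℝ × ℝ in 𝓝 (u, v), ∀ a ∈ Metric.closedBall (0 : ℝ × ℝ) B,
            (Φ.Sy i).ψ a (γ p.1) ≠ γ p.2 := by
          refine (isCompact_closedBall (0 : ℝ × ℝ) B).eventually_forall_of_forall_eventually
            (P := fun (p : ℝ × ℝ) (a : ℝ × ℝ) => (Φ.Sy i).ψ a (γ p.1) ≠ γ p.2) fun a _ => ?_
          have hc1 : Continuous fun r : (ℝ × ℝ) × (ℝ × ℝ) => (Φ.Sy i).ψ r.2 (γ r.1.1) :=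
            (Φ.Sy i).cont.comp
              (continuous_snd.prodMk (hγ.comp (continuous_fst.comp continuous_fst)))
          have hc2 : Continuous fun r : (ℝ × ℝ) × (ℝ × ℝ) => γ r.1.2 :=
            hγ.comp (continuous_snd.comp continuous_fst)
          exact (isOpen_ne_fun hc1 hc2).mem_nhds (hp' a)
        have h2 : ∀ᶠ p : ℝ × ℝ in 𝓝 (u, v), ∀ a, ∃ a', ‖a'‖ ≤ B ∧
            (Φ.Sy i).ψ a' (γ p.1) = (Φ.Sy i).ψ a (γ p.1) :=
          ((hγ.comp continuous_fst).tendsto (u, v)).eventually hB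
        have h3 : ∀ᶠ p : ℝ × ℝ in 𝓝 (u, v), γ p.1 ∉ (Φ.Sy i).Crit :=
          ((hγ.comp continuous_fst).tendsto (u, v)).eventually
            ((Φ.Sy i).eventually_regular hi)
        filter_upwards [h1, h2, h3] with p hp1 hp2 hp3
        rintro ⟨j, hjG, hj, b, hb⟩
        obtain ⟨a, ha⟩ := hchg i j _ (hγW p.1) hp3 b
        obtain ⟨a', ha', h⟩ := hp2 a
        exact hp1 a' (by rwa [mem_closedBall_zero_iff]) (h.trans (ha.trans hb))
      have : {p : ℝ × ℝ | p.1 ∈ Icc 0 Real.pi ∧ p.2 ∈ Icc 0 Real.pi ∧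
          ∃ i ∈ GG, γ p.1 ∉ (Φ.Sy i).Crit ∧ ∃ a, (Φ.Sy i).ψ a (γ p.1) = γ p.2}
          = (Icc 0 Real.pi ×ˢ Icc 0 Real.pi) ∩ {p : ℝ × ℝ | ∃ i ∈ GG,
            γ p.1 ∉ (Φ.Sy i).Crit ∧ ∃ a, (Φ.Sy i).ψ a (γ p.1) = γ p.2} := by
        ext q
        constructor
        · rintro ⟨h1, h2, h3⟩; exact ⟨⟨h1, h2⟩, h3⟩
        · rintro ⟨⟨h1, h2⟩, h3⟩; exact ⟨h1, h2, h3⟩
      rw [this]
      exact (isClosed_Icc.prod isClosed_Icc).inter hcl)
    (fun u _ v _ h => by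
      obtain ⟨i, hiG, hi, a, ha⟩ := h
      obtain ⟨V, hV, G, -, hVW, hVF, hVG⟩ :=
        Φ.Fr_local hρ hμ (hγW u) hi (hfull i hiG _ (hγW u) hi)
      have h1 := (Φ.Sy i).same_orbit hi
      have hc1 : Continuous fun p : ℝ × ℝ => γ p.1 := hγ.comp continuous_fst
      have hc2 : Continuous fun p : ℝ × ℝ => (Φ.Sy i).ψ (-a) (γ p.2) :=
        ((Φ.Sy i).cont_right (-a)).comp (hγ.comp continuous_snd)
      have ht2 : Tendsto (fun p : ℝ × ℝ => (Φ.Sy i).ψ (-a) (γ p.2)) (𝓝 (u, v)) (𝓝 (γ u)) := by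
        have := hc2.tendsto (u, v)
        rwa [← ha, (Φ.Sy i).neg_add'] at this
      have ht1 : Tendsto (fun p : ℝ × ℝ => γ p.1) (𝓝 (u, v)) (𝓝 (γ u)) := hc1.tendsto (u, v)
      have ht : Tendsto (fun p : ℝ × ℝ => (γ p.1, (Φ.Sy i).ψ (-a) (γ p.2))) (𝓝 (u, v))
          (𝓝 (γ u, γ u)) := by
        exact ht1.prodMk_nhds ht2
      filter_upwards [ht.eventually h1, ht1.eventually hV, ht2.eventually hV]
        with p hp hp1 hp2 _ _ hAp
      have hp1' : γ p.1 ∈ V := hp1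
      have hp2' : (Φ.Sy i).ψ (-a) (γ p.2) ∈ V := hp2
      obtain ⟨m, r, hr, h2⟩ := hVF _ hp1' _ (hA p.1)
      have e1 : A p.1 = m + r * G (γ p.1) :=
        Φ.Fr_unique hρ (hγW p.1) (hA p.1) (h2 _ hp1')
      have hreg : γ p.2 ∉ (Φ.Sy i).Crit := by
        have := (hVW _ hp2').2
        rwa [(Φ.Sy i).crit_iff] at this
      have hfr : Φ.Fr ρ μ ((Φ.Sy i).ψ (-a) (γ p.2)) (A p.2) := by
        obtain ⟨e, f, he, hf, h3, h4, h5⟩ := Φ.Fr_at (hγW p.2) (hA p.2) hreg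
        have hst : (Φ.Sy i).stab ((Φ.Sy i).ψ (-a) (γ p.2)) = (Φ.Sy i).stab (γ p.2) :=
          (Φ.Sy i).stab_act _ _
        have he' : e ∈ (Φ.Sy i).stab ((Φ.Sy i).ψ (-a) (γ p.2)) := by rw [hst]; exact he
        have hf' : f ∈ (Φ.Sy i).stab ((Φ.Sy i).ψ (-a) (γ p.2)) := by rw [hst]; exact hf
        exact ⟨i, (hVW _ hp2').2, e, f, he', hf', h3, h4, h5⟩
      have e2 : A p.2 = m + r * G ((Φ.Sy i).ψ (-a) (γ p.2)) :=
        Φ.Fr_unique hρ (hVW _ hp2').1 hfr (h2 _ hp2')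
      have hGG : G (γ p.1) = G ((Φ.Sy i).ψ (-a) (γ p.2)) := by
        have h6 : r * G (γ p.1) = r * G ((Φ.Sy i).ψ (-a) (γ p.2)) := by linarith
        exact mul_left_cancel₀ hr h6
      obtain ⟨b, hb⟩ := hp (hVG _ hp1' _ hp2' hGG)
      exact ⟨i, hiG, (hVW _ hp1').2, a + b, by
        rw [(Φ.Sy i).add, hb, (Φ.Sy i).add_neg']⟩)
  obtain ⟨i, hiG, hi, e, he⟩ := hzip 0 ⟨le_rfl, Real.pi_pos.le⟩ Real.pi ⟨Real.pi_pos.le, le_rfl⟩
    (by have := hAJ 0; rw [zero_add] at this; exact this.symm)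
  have hJ : γ Real.pi = Φ.J (γ 0) := by
    have := hγJ 0
    rwa [zero_add] at this
  rw [hJ, ← Φ.J_eq i] at he
  exact (Φ.Sy i).no_reversal (hfull i hiG _ (hγW 0) hi) (Φ.per_i i _ (hγW 0)) he.symm

end Fam

end Pool.Agent.PG
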