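import Pool.Agent.Work.PG.SardUT

/-!
# Two first integrals are dependent where there are no periodic vectors

Module (L1) of cell PG2.
-/

set_option autoImplicit false
set_option linter.unusedSectionVars false

open Set Filter Topology MeasureTheory
open scoped ContDiff InnerProductSpace

namespace Pool.Agent.PG

variable {E : Type} [NormedAddCommGroup E] [InnerProductSpace ℝ E] [FiniteDimensional ℝ E]
  {M : Set E} {P : E → E →L[ℝ] E}

/-- `y` lies on the orbit of a point of a two-parameter section at which `(F, G)` is a local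
diffeomorphism. -/
def RegPt (M : Set E) (φ : ℝ → E × E → E × E) (F G : E × E → ℝ) (y : E × E) : Prop :=
  ∃ (β : ℝ × ℝ → E × E) (U : Set (ℝ × ℝ)) (s : ℝ) (q : ℝ × ℝ), IsOpen U ∧ ContDiffOn ℝ ∞ β U ∧
    (∀ q ∈ U, β q ∈ UT M) ∧ q ∈ U ∧ φ s (β q) = y ∧
    (fderiv ℝ (fun q => (F (β q), G (β q))) q).det ≠ 0

theorem Surf.exists_null (S : Surf M P) {φ : ℝ → E × E → E × E}
    (hφ : IsFlowOn (UT M) (Xf P) φ) {F G : E × E → ℝ} (hF : IsFirstIntegral M F)
    (hG : IsFirstIntegral M G) : ∃ Z : Set (ℝ × ℝ), volume Z = 0 ∧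
      ∀ y ∈ UT M, (F y, G y) ∉ Z → RegPt M φ F G y := by
  have hloc : ∀ z ∈ UT M, ∃ V ∈ 𝓝 z, ∃ Z : Set (ℝ × ℝ), volume Z = 0 ∧
      ∀ y ∈ V, y ∈ UT M → (F y, G y) ∉ Z → RegPt M φ F G y := by
    intro z hz
    obtain ⟨β, U, hU, hβ, hβU, hev⟩ := S.exists_section hφ hz
    have hH : ContDiffOn ℝ ∞ (fun q => (F (β q), G (β q))) U :=
      (hF.1.comp_contDiffOn hβ).prodMk (hG.1.comp_contDiffOn hβ)
    refine ⟨_, hev, (fun q => (F (β q), G (β q))) ''
      {q | q ∈ U ∧ (fderiv ℝ (fun q => (F (β q), G (β q))) q).det = 0}, ?_, ?_⟩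
    · refine addHaar_image_eq_zero_of_det_fderivWithin_eq_zero volume
        (f' := fun q => fderiv ℝ (fun q => (F (β q), G (β q))) q) ?_ ?_
      · intro q hq
        exact ((hH.contDiffAt (hU.mem_nhds hq.1)).differentiableAt
          (by simp)).hasFDerivAt.hasFDerivWithinAt
      · intro q hq
        exact hq.2
    · intro y hy hyM hyZ
      obtain ⟨s, q, hq, hsq⟩ := hy hyM
      refine ⟨β, U, s, q, hU, hβ, hβU, hq, hsq, fun hdet => hyZ ⟨q, ⟨hq, hdet⟩, ?_⟩⟩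
      simp only
      rw [← hsq, S.integral_flow hφ hF (hβU q hq), S.integral_flow hφ hG (hβU q hq)]
  choose! V hV Z hZ hVZ using hloc
  obtain ⟨t, htC, htc, hcov⟩ := TopologicalSpace.countable_cover_nhdsWithin
    (f := V) (s := UT M) (fun x hx => mem_nhdsWithin_of_mem_nhds (hV x hx))
  refine ⟨⋃ x ∈ t, Z x, (measure_biUnion_null_iff htc).2 fun x hx => hZ x (htC hx), ?_⟩
  intro y hy hyZ
  obtain ⟨x, hx⟩ := mem_iUnion.1 (hcov hy)
  obtain ⟨hxt, hyx⟩ := mem_iUnion.1 hx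
  refine hVZ x (htC hxt) y hyx hy fun h => hyZ ?_
  exact mem_iUnion₂.2 ⟨x, hxt, h⟩

/-- the section is a flow box at a regular point: the level is one orbit arc -/
theorem Surf.reg_box (S : Surf M P) {φ : ℝ → E × E → E × E}
    (hφ : IsFlowOn (UT M) (Xf P) φ) {F G : E × E → ℝ} (hF : IsFirstIntegral M F)
    (hG : IsFirstIntegral M G) {β : ℝ × ℝ → E × E} {U : Set (ℝ × ℝ)} {q : ℝ × ℝ}
    (hU : IsOpen U) (hβ : ContDiffOn ℝ ∞ β U) (hβU : ∀ q ∈ U, β q ∈ UT M) (hq : q ∈ U)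
    (hdet : (fderiv ℝ (fun q => (F (β q), G (β q))) q).det ≠ 0) {u : ℕ → E × E}
    (hu : ∀ n, u n ∈ UT M) (huc : ∀ n, (F (u n), G (u n)) = (F (β q), G (β q)))
    (hlim : Tendsto u atTop (𝓝 (β q))) {ε : ℝ} (hε : 0 < ε) :
    ∀ᶠ n in atTop, ∃ r : ℝ, |r| < ε ∧ u n = φ r (β q) := by
  set H : ℝ × ℝ → ℝ × ℝ := fun q => (F (β q), G (β q)) with hHdef
  have hH : ContDiffOn ℝ ∞ H U := (hF.1.comp_contDiffOn hβ).prodMk (hG.1.comp_contDiffOn hβ)
  have hHq : ContDiffAt ℝ ∞ H q := hH.contDiffAt (hU.mem_nhds hq)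
  have hHd : HasFDerivAt H (fderiv ℝ H q) q := (hHq.differentiableAt (by simp)).hasFDerivAt
  have hHs : HasStrictFDerivAt H (fderiv ℝ H q) q := hHq.hasStrictFDerivAt (by simp)
  set Ψ : ℝ × ℝ × ℝ → E × E := fun p => φ p.1 (β p.2) with hΨdef
  have hβq : ContDiffAt ℝ ∞ β q := hβ.contDiffAt (hU.mem_nhds hq)
  have hΨ : ContDiffAt ℝ ∞ Ψ (0, q) := by
    have h1 : ContDiffAt ℝ ∞ (fun p : ℝ × ℝ × ℝ => β p.2) (0, q) :=
      ContDiffAt.comp (g := β) (0, q) hβq contDiffAt_snd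
    have h2 : ContDiffAt ℝ ∞ (fun p : ℝ × ℝ × ℝ => (p.1, β p.2)) (0, q) :=
      contDiffAt_fst.prodMk h1
    exact hφ.smooth.contDiffAt.comp (0, q) h2
  have hΨ0 : Ψ (0, q) = β q := hφ.zero _
  have hUev : ∀ᶠ p : ℝ × ℝ × ℝ in 𝓝 (0, q), p.2 ∈ U := by
    have : Tendsto (fun p : ℝ × ℝ × ℝ => p.2) (𝓝 (0, q)) (𝓝 q) := continuous_snd.tendsto (0, q)
    exact this.eventually (hU.mem_nhds hq)
  have hΨUT : ∀ᶠ p in 𝓝 ((0, q) : ℝ × ℝ × ℝ), Ψ p ∈ UT M :=
    hUev.mono fun p hp => hφ.maps _ _ (hβU _ hp)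
  have hΨd : HasFDerivAt Ψ (fderiv ℝ Ψ (0, q)) (0, q) :=
    (hΨ.differentiableAt (by simp)).hasFDerivAt
  -- `(F, G) ∘ Ψ = H ∘ snd`
  have hcomp : ∀ w : ℝ × ℝ × ℝ, fderiv ℝ Ψ (0, q) w = 0 → fderiv ℝ H q w.2 = 0 := by
    intro w hw
    have hFG : HasFDerivAt (fun y : E × E => (F y, G y))
        ((fderiv ℝ F (Ψ (0, q))).prod (fderiv ℝ G (Ψ (0, q)))) (Ψ (0, q)) :=
      ((hF.1.differentiable (by simp)) _).hasFDerivAt.prodMk
        ((hG.1.differentiable (by simp)) _).hasFDerivAt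
    have h1 := hFG.comp (0, q) hΨd
    have h2 : HasFDerivAt (fun p : ℝ × ℝ × ℝ => H p.2)
        ((fderiv ℝ H q).comp (ContinuousLinearMap.snd ℝ ℝ (ℝ × ℝ))) (0, q) :=
      HasFDerivAt.comp (g := H) (0, q) hHd hasFDerivAt_snd
    have h3 : (fun y : E × E => (F y, G y)) ∘ Ψ =ᶠ[𝓝 (0, q)] fun p : ℝ × ℝ × ℝ => H p.2 := by
      filter_upwards [hUev] with p hp
      show (F (φ p.1 (β p.2)), G (φ p.1 (β p.2))) = (F (β p.2), G (β p.2))
      rw [S.integral_flow hφ hF (hβU _ hp), S.integral_flow hφ hG (hβU _ hp)]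
    have h4 := (h1.congr_of_eventuallyEq h3.symm).unique h2
    have h5 := congrArg (fun L : (ℝ × ℝ × ℝ) →L[ℝ] ℝ × ℝ => L w) h4
    simp only [ContinuousLinearMap.comp_apply, hw, map_zero] at h5
    exact h5.symm
  set e := (fderiv ℝ H q).toContinuousLinearEquivOfDetNeZero hdet with he
  have hecoe : ((e : (ℝ × ℝ) ≃L[ℝ] ℝ × ℝ) : (ℝ × ℝ) →L[ℝ] ℝ × ℝ) = fderiv ℝ H q :=
    ContinuousLinearMap.coe_toContinuousLinearEquivOfDetNeZero _ _
  have hHinj : ∀ v, fderiv ℝ H q v = 0 → v = 0 := by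
    intro v hv
    rw [← hecoe] at hv
    exact (e.map_eq_zero_iff).1 hv
  have hinj : Function.Injective (fderiv ℝ Ψ (0, q)) := by
    rw [injective_iff_map_eq_zero]
    rintro ⟨α, v⟩ hw
    have hv : v = 0 := hHinj v (hcomp _ hw)
    subst hv
    have h1 : HasDerivAt (fun r : ℝ => ((r, q) : ℝ × ℝ × ℝ)) (1, 0) 0 :=
      (hasDerivAt_id (0 : ℝ)).prodMk (hasDerivAt_const _ _)
    have h2 : HasDerivAt (fun r : ℝ => φ r (β q)) (fderiv ℝ Ψ (0, q) (1, 0)) 0 :=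
      HasFDerivAt.comp_hasDerivAt (l := Ψ) (f := fun r : ℝ => ((r, q) : ℝ × ℝ × ℝ)) 0 hΨd h1
    have h3 := h2.unique (hφ.deriv (β q) (hβU q hq) 0)
    rw [hφ.zero] at h3
    have h4 : fderiv ℝ Ψ (0, q) (α, 0) = α • Xf P (β q) := by
      rw [← h3, ← map_smul]
      congr 1
      simp
    rw [h4] at hw
    have h5 : (Xf P (β q)).1 ≠ 0 := by
      intro h6
      have h7 := (hβU q hq).2.2
      have h8 : (β q).2 = 0 := h6
      rw [h8, norm_zero] at h7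
      exact zero_ne_one h7
    have h6 : α = 0 := by
      by_contra hα
      apply h5
      have := congrArg Prod.fst hw
      rw [Prod.smul_fst, Prod.fst_zero, smul_eq_zero] at this
      exact this.resolve_left hα
    rw [h6]
    rfl
  obtain ⟨Λ, hΛ0, hΛ, -, hΛr⟩ := S.local_inverse (hΨ.of_le (by simp)) hΨUT hinj
  rw [hΨ0] at hΛ0 hΛ hΛr
  -- the coordinates of `u n`
  have hΛu : Tendsto (fun n => Λ (u n)) atTop (𝓝 (0, q)) := by
    have := hΛ.continuousAt.tendsto.comp hlim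
    rwa [hΛ0] at this
  have h1 : Tendsto (fun n => (Λ (u n)).1) atTop (𝓝 0) :=
    (continuous_fst.tendsto ((0, q) : ℝ × ℝ × ℝ)).comp hΛu
  have h2 : Tendsto (fun n => (Λ (u n)).2) atTop (𝓝 q) :=
    (continuous_snd.tendsto ((0, q) : ℝ × ℝ × ℝ)).comp hΛu
  have hHs' : HasStrictFDerivAt H (e : (ℝ × ℝ) →L[ℝ] ℝ × ℝ) q := by rw [hecoe]; exact hHs
  have hleft := hHs'.eventually_left_inverse
  have h3 := h2.eventually hleft
  have h4 := h2.eventually (hU.mem_nhds hq)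
  have h5 := hlim.eventually hΛr
  have h6 : ∀ᶠ n in atTop, |(Λ (u n)).1| < ε := by
    have := h1.eventually (Metric.ball_mem_nhds (0 : ℝ) hε)
    refine this.mono fun n hn => ?_
    rwa [Real.dist_eq, sub_zero] at hn
  filter_upwards [h3, h4, h5, h6] with n h3 h4 h5 h6
  refine ⟨(Λ (u n)).1, h6, ?_⟩
  have h7 : φ (Λ (u n)).1 (β (Λ (u n)).2) = u n := h5 (hu n)
  have h8 : H (Λ (u n)).2 = H q := by
    have h9 := huc n
    rw [← h7, S.integral_flow hφ hF (hβU _ h4), S.integral_flow hφ hG (hβU _ h4)] at h9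
    exact h9
  have h9 : (Λ (u n)).2 = q := by
    rw [h8, hleft.self_of_nhds] at h3
    exact h3.symm
  rw [h9] at h7
  exact h7.symm

theorem Surf.bracket_zero (S : Surf M P) {φ : ℝ → E × E → E × E}
    (hφ : IsFlowOn (UT M) (Xf P) φ) {F G : E × E → ℝ} (hF : IsFirstIntegral M F)
    (hG : IsFirstIntegral M G) {O : Set (E × E)} (hO : IsOpen O)
    (hp : ∀ z ∈ O ∩ UT M, ∀ s : ℝ, s ≠ 0 → φ s z ≠ z) :
    ∀ z ∈ O ∩ UT M, fderiv ℝ G z (Yf P F z) = 0 := by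
  rintro z ⟨hzO, hz⟩
  by_contra hne
  obtain ⟨Z, hZ, hreg⟩ := S.exists_null hφ hF hG
  -- the flow of `Yf`
  obtain ⟨η, hη⟩ := exists_flow S.isCompact_UT (contDiff_Yf S hF.1) fun w hw => by
    obtain ⟨β, -, h2, h3, h4⟩ := S.exists_curve hw (S.Yf_mem hw (F := F))
    exact ⟨β, h3, Eventually.of_forall h2, h4⟩
  have hFX := S.fderiv_Xf hφ hF hz
  have hb : ∃ b ∈ TU P z, fderiv ℝ F z b ≠ 0 := by
    by_contra h
    push Not at h
    have h1 := (S.Yf_eq_zero_iff hz hFX).2 h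
    rw [h1, map_zero] at hne
    exact hne rfl
  obtain ⟨b, hb, hFb⟩ := hb
  obtain ⟨γ, hγ, hγU, hγ0, hγd⟩ := S.exists_curve hz hb
  have hFY : fderiv ℝ F z (Yf P F z) = 0 := by
    rw [← S.om_Yf hz hFX (S.Yf_mem hz)]
    unfold om
    rw [sub_self]
  -- the two-parameter family
  set W : ℝ × ℝ → E × E := fun p => η p.1 (γ p.2) with hWdef
  have hW : ContDiff ℝ ∞ W := by
    have h1 : ContDiff ℝ ∞ fun p : ℝ × ℝ => (p.1, γ p.2) :=
      contDiff_fst.prodMk (hγ.comp contDiff_snd)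
    exact hη.smooth.comp h1
  have hW0 : W (0, 0) = z := by
    show η 0 (γ 0) = z
    rw [hη.zero, hγ0]
  set H : ℝ × ℝ → ℝ × ℝ := fun p => (F (W p), G (W p)) with hHdef
  have hH : ContDiff ℝ ∞ H := (hF.1.comp hW).prodMk (hG.1.comp hW)
  have hHs : HasStrictFDerivAt H (fderiv ℝ H (0, 0)) (0, 0) :=
    hH.contDiffAt.hasStrictFDerivAt (by simp)
  have hHd : HasFDerivAt H (fderiv ℝ H (0, 0)) (0, 0) := hHs.hasFDerivAt
  have hFGd : ∀ w, HasFDerivAt (fun y : E × E => (F y, G y))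
      ((fderiv ℝ F w).prod (fderiv ℝ G w)) w := fun w =>
    ((hF.1.differentiable (by simp)) _).hasFDerivAt.prodMk
      ((hG.1.differentiable (by simp)) _).hasFDerivAt
  have hd1 : fderiv ℝ H (0, 0) (1, 0) = (0, fderiv ℝ G z (Yf P F z)) := by
    have h1 : HasDerivAt (fun r : ℝ => ((r, 0) : ℝ × ℝ)) (1, 0) 0 :=
      (hasDerivAt_id (0 : ℝ)).prodMk (hasDerivAt_const _ _)
    have h2 : HasDerivAt (fun r : ℝ => H (r, 0)) (fderiv ℝ H (0, 0) (1, 0)) 0 :=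
      HasFDerivAt.comp_hasDerivAt (l := H) (f := fun r : ℝ => ((r, 0) : ℝ × ℝ)) 0 hHd h1
    have h3 := hη.deriv z hz 0
    have h4 := (hFGd (η 0 z)).comp_hasDerivAt 0 h3
    have h5 : ((fun y : E × E => (F y, G y)) ∘ fun s => η s z) = fun r : ℝ => H (r, 0) := by
      ext r
      · show F (η r z) = F (η r (γ 0))
        rw [hγ0]
      · show G (η r z) = G (η r (γ 0))
        rw [hγ0]
    rw [h5, hη.zero] at h4
    have h6 := h2.unique h4
    rw [h6]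
    show (fderiv ℝ F z (Yf P F z), fderiv ℝ G z (Yf P F z)) = _
    rw [hFY]
  have hd2 : fderiv ℝ H (0, 0) (0, 1) = (fderiv ℝ F z b, fderiv ℝ G z b) := by
    have h1 : HasDerivAt (fun r : ℝ => ((0, r) : ℝ × ℝ)) (0, 1) 0 :=
      (hasDerivAt_const _ _).prodMk (hasDerivAt_id (0 : ℝ))
    have h2 : HasDerivAt (fun r : ℝ => H (0, r)) (fderiv ℝ H (0, 0) (0, 1)) 0 :=
      HasFDerivAt.comp_hasDerivAt (l := H) (f := fun r : ℝ => ((0, r) : ℝ × ℝ)) 0 hHd h1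
    have h4 := (hFGd (γ 0)).comp_hasDerivAt 0 hγd
    have h5 : ((fun y : E × E => (F y, G y)) ∘ γ) = fun r : ℝ => H (0, r) := by
      ext r
      · show F (γ r) = F (η 0 (γ r))
        rw [hη.zero]
      · show G (γ r) = G (η 0 (γ r))
        rw [hη.zero]
    rw [h5, hγ0] at h4
    exact h2.unique h4
  have hsurj : (fderiv ℝ H (0, 0)).range = ⊤ := by
    rw [LinearMap.range_eq_top]
    rintro ⟨x, y⟩
    refine ⟨((y - x / fderiv ℝ F z b * fderiv ℝ G z b) / fderiv ℝ G z (Yf P F z),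
      x / fderiv ℝ F z b), ?_⟩
    have h1 : (((y - x / fderiv ℝ F z b * fderiv ℝ G z b) / fderiv ℝ G z (Yf P F z),
        x / fderiv ℝ F z b) : ℝ × ℝ) =
        ((y - x / fderiv ℝ F z b * fderiv ℝ G z b) / fderiv ℝ G z (Yf P F z)) • (1, 0) +
          (x / fderiv ℝ F z b) • (0, 1) := by
      simp
    show fderiv ℝ H (0, 0) _ = _
    rw [h1, map_add, map_smul, map_smul, hd1, hd2]
    ext
    · simp only [Prod.fst_add, Prod.smul_fst, smul_eq_mul]
      field_simp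
      ring
    · simp only [Prod.snd_add, Prod.smul_snd, smul_eq_mul]
      field_simp
      ring
  have hmap := hHs.map_nhds_eq_of_surj hsurj
  have hWO : {p : ℝ × ℝ | W p ∈ O} ∈ 𝓝 ((0, 0) : ℝ × ℝ) := by
    apply hW.continuous.continuousAt.preimage_mem_nhds
    rw [hW0]
    exact hO.mem_nhds hzO
  have himg : H '' {p : ℝ × ℝ | W p ∈ O} ∈ 𝓝 (H (0, 0)) := by
    rw [← hmap]
    exact image_mem_map hWO
  have hnot : ¬ H '' {p : ℝ × ℝ | W p ∈ O} ⊆ Z := by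
    intro hsub
    have h1 : volume (H '' {p : ℝ × ℝ | W p ∈ O}) = 0 := measure_mono_null hsub hZ
    exact (MeasureTheory.Measure.measure_pos_of_mem_nhds volume himg).ne' h1
  rw [not_subset] at hnot
  obtain ⟨_, ⟨p, hpO, rfl⟩, hpZ⟩ := hnot
  -- the point `w`
  set w := W p with hw
  have hwU : w ∈ UT M := hη.maps _ _ (hγU _)
  have hwp := hp w ⟨hpO, hwU⟩
  have hcpt := S.isCompact_UT
  obtain ⟨a, ha, ψ, hψ, hlim⟩ := hcpt.tendsto_subseq (x := fun n : ℕ => φ (n : ℝ) w)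
    (fun n => hφ.maps _ _ hwU)
  have hFGa : (F a, G a) = (F w, G w) := by
    have hcont : Continuous fun y : E × E => (F y, G y) :=
      hF.1.continuous.prodMk hG.1.continuous
    have h1 := (hcont.tendsto a).comp hlim
    have h2 : ((fun y : E × E => (F y, G y)) ∘ ((fun n : ℕ => φ (n : ℝ) w) ∘ ψ)) =
        fun _ => (F w, G w) := by
      ext n
      · exact S.integral_flow hφ hF hwU _
      · exact S.integral_flow hφ hG hwU _
    rw [h2] at h1
    exact tendsto_nhds_unique h1 tendsto_const_nhds |>.symm ▸ rfl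
  obtain ⟨β, U, s, q, hU, hβ, hβU, hq, hsq, hdet⟩ := hreg a ha (by rw [hFGa]; exact hpZ)
  have hy' : β q = φ (-s) a := by rw [← hsq, ← hφ.add, neg_add_cancel, hφ.zero]
  have hlim' : Tendsto (fun n => φ (-s) (φ (ψ n : ℝ) w)) atTop (𝓝 (β q)) := by
    rw [hy']
    have hcont : Continuous (φ (-s)) := by
      have h1 : Continuous fun y : E × E => ((-s, y) : ℝ × (E × E)) := by fun_prop
      exact hφ.smooth.continuous.comp h1
    exact (hcont.tendsto a).comp hlim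
  have hbox := S.reg_box hφ hF hG hU hβ hβU hq hdet (u := fun n => φ (-s) (φ (ψ n : ℝ) w))
    (fun n => hφ.maps _ _ (hφ.maps _ _ hwU)) (fun n => by
      rw [S.integral_flow hφ hF (hφ.maps _ _ hwU), S.integral_flow hφ hG (hφ.maps _ _ hwU),
        S.integral_flow hφ hF hwU, S.integral_flow hφ hG hwU, ← hFGa, hy',
        S.integral_flow hφ hF ha, S.integral_flow hφ hG ha]) hlim' (ε := 1 / 2) (by norm_num)
  obtain ⟨N, hN⟩ := eventually_atTop.1 hbox
  obtain ⟨r, hr, hur⟩ := hN N le_rfl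
  obtain ⟨r', hr', hur'⟩ := hN (N + 1) (Nat.le_succ N)
  have hlt : (ψ N : ℝ) + 1 ≤ ψ (N + 1) := by
    have := hψ (Nat.lt_succ_self N)
    exact_mod_cast this
  have e1 : β q = φ (-r + (-s + ψ N)) w := by
    rw [hφ.add, hφ.add, hur, ← hφ.add, neg_add_cancel, hφ.zero]
  have e2 : β q = φ (-r' + (-s + ψ (N + 1))) w := by
    rw [hφ.add, hφ.add, hur', ← hφ.add, neg_add_cancel, hφ.zero]
  have e3 : φ (-(-r + (-s + ψ N)) + (-r' + (-s + ψ (N + 1)))) w = w := by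
    rw [hφ.add, ← e2, e1, ← hφ.add, neg_add_cancel, hφ.zero]
  refine hwp _ ?_ e3
  rw [abs_lt] at hr hr'
  have : 0 < -(-r + (-s + (ψ N : ℝ))) + (-r' + (-s + ψ (N + 1))) := by linarith
  exact this.ne'

end Pool.Agent.PG
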