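import Pool.Agent.Work.PG.Core

/-!
# Saturation of an open set under several actions (cell PG2, helper83)
-/

set_option autoImplicit false

open Set Filter Topology

namespace Pool.Agent.PG

variable {N : Type*} [MetricSpace N] {I : Type*} (Sy : I → Sys N)

/-- points reached from `W₀` by the actions -/
inductive Reach (W₀ : Set N) : N → Prop
  | base {z : N} (h : z ∈ W₀) : Reach W₀ z
  | step {z : N} (i : I) (a : ℝ × ℝ) (h : Reach W₀ z) : Reach W₀ ((Sy i).ψ a z)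

/-- the saturation of `W₀` -/
def sat (W₀ : Set N) : Set N := {z | Reach Sy W₀ z}

lemma subset_sat (W₀ : Set N) : W₀ ⊆ sat Sy W₀ := fun _ h => Reach.base h

lemma sat_inv {W₀ : Set N} {z : N} (hz : z ∈ sat Sy W₀) (i : I) (a : ℝ × ℝ) :
    (Sy i).ψ a z ∈ sat Sy W₀ := Reach.step i a hz

lemma isOpen_sat {W₀ : Set N} (h0 : IsOpen W₀) : IsOpen (sat Sy W₀) := by
  have key : ∀ z, Reach Sy W₀ z → ∃ V, IsOpen V ∧ z ∈ V ∧ V ⊆ sat Sy W₀ := by
    intro z hz
    induction hz with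
    | base h => exact ⟨W₀, h0, h, subset_sat Sy W₀⟩
    | @step z i a h ih =>
      obtain ⟨V, hV, hzV, hVs⟩ := ih
      refine ⟨(Sy i).ψ (-a) ⁻¹' V, hV.preimage ((Sy i).cont_right (-a)), ?_, ?_⟩
      · show (Sy i).ψ (-a) ((Sy i).ψ a z) ∈ V
        rw [(Sy i).neg_add']
        exact hzV
      · intro w hw
        have h1 := sat_inv Sy (hVs hw) i a
        rwa [(Sy i).add_neg'] at h1
  rw [isOpen_iff_mem_nhds]
  intro z hz
  obtain ⟨V, hV, hzV, hVs⟩ := key z hz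
  exact mem_of_superset (hV.mem_nhds hzV) hVs

lemma sat_nonper (hflow : ∀ i j s z, (Sy i).ψ (s, 0) z = (Sy j).ψ (s, 0) z) {W₀ : Set N}
    (h0 : ∀ z ∈ W₀, ∀ i, ∀ s : ℝ, s ≠ 0 → (Sy i).ψ (s, 0) z ≠ z) :
    ∀ z ∈ sat Sy W₀, ∀ i, ∀ s : ℝ, s ≠ 0 → (Sy i).ψ (s, 0) z ≠ z := by
  intro z hz
  induction hz with
  | base h => exact h0 _ h
  | @step z j a h ih =>
    intro i s hs h1
    refine ih i s hs ?_
    rw [hflow i j] at h1 ⊢
    rw [(Sy j).act_comm] at h1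
    have h2 := congrArg ((Sy j).ψ (-a)) h1
    rwa [(Sy j).neg_add', (Sy j).neg_add'] at h2

end Pool.Agent.PG
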