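import Pool.Agent.Work.PG.Fam
import Pool.Agent.Work.PG.Rank
import Pool.Agent.Work.PG.Sat

/-!
# The family of all first integrals on the unit tangent bundle (cell PG2, helper83)
-/

set_option autoImplicit false
set_option linter.unusedSectionVars false

open Set Filter Topology
open scoped ContDiff InnerProductSpace

namespace Pool.Agent.PG

variable {E : Type} [NormedAddCommGroup E] [InnerProductSpace ℝ E] [FiniteDimensional ℝ E]
  {M : Set E} {P : E → E →L[ℝ] E}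

/-- all first integrals -/
abbrev Ints (M : Set E) := {F : E × E → ℝ // IsFirstIntegral M F}

/-- the Hamiltonian flow of a first integral -/
noncomputable def Surf.eta (S : Surf M P) (i : Ints M) : ℝ → E × E → E × E :=
  (S.exists_Y_flow i.2.1).choose

lemma Surf.eta_spec (S : Surf M P) (i : Ints M) : IsFlowOn (UT M) (Yf P i.1) (S.eta i) :=
  (S.exists_Y_flow i.2.1).choose_spec

variable (S : Surf M P) {φ : ℝ → E × E → E × E} (hφ : IsFlowOn (UT M) (Xf P) φ)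

/-- the system of a first integral -/
noncomputable def Surf.sy (i : Ints M) : Sys (UT M) := sys S i.2 hφ (S.eta_spec i)

lemma Surf.sy_apply (i : Ints M) (a : ℝ × ℝ) (z : UT M) :
    (((S.sy hφ i).ψ a z : UT M) : E × E) = φ a.1 (S.eta i a.2 z) := rfl

lemma Surf.sy_F (i : Ints M) (z : UT M) : (S.sy hφ i).F z = i.1 z := rfl

lemma Surf.sy_Crit (i : Ints M) (z : UT M) : z ∈ (S.sy hφ i).Crit ↔ (z : E × E) ∈ Critical M i.1 :=
  Iff.rfl

lemma Surf.sy_flow (i j : Ints M) (s : ℝ) (z : UT M) :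
    (S.sy hφ i).ψ (s, 0) z = (S.sy hφ j).ψ (s, 0) z := Subtype.ext (by
  rw [S.sy_apply, S.sy_apply]
  show φ s (S.eta i 0 z) = φ s (S.eta j 0 z)
  rw [(S.eta_spec i).zero, (S.eta_spec j).zero])

lemma Surf.sy_J (i j : Ints M) (z : UT M) : (S.sy hφ i).J z = (S.sy hφ j).J z := rfl

section W

variable {W : Set (UT M)} (hW : IsOpen W)
  (hinv : ∀ z ∈ W, ∀ i a, (S.sy hφ i).ψ a z ∈ W)
  (hper : ∀ z ∈ W, ∀ i, ∀ s : ℝ, s ≠ 0 → (S.sy hφ i).ψ (s, 0) z ≠ z)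

include hW in
omit S hφ in
lemma eventually_mem_image {z : E × E} (hz : z ∈ Subtype.val '' W) :
    ∀ᶠ w in 𝓝 z, w ∈ UT M → w ∈ Subtype.val '' W := by
  obtain ⟨z', hz', rfl⟩ := hz
  obtain ⟨V, hV, hV2⟩ := (mem_nhds_subtype _ _ _).1 (hW.mem_nhds hz')
  filter_upwards [hV] with w hw hwU
  exact ⟨⟨w, hwU⟩, hV2 hw, rfl⟩

include hinv in
lemma Surf.eta_mem_image (i : Ints M) {z : E × E} (hz : z ∈ Subtype.val '' W) (t : ℝ) :
    S.eta i t z ∈ Subtype.val '' W := by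
  obtain ⟨z', hz', rfl⟩ := hz
  refine ⟨_, hinv z' hz' i (0, t), ?_⟩
  rw [S.sy_apply]
  show φ 0 (S.eta i t z') = S.eta i t z'
  rw [hφ.zero]

include hper hW in
lemma Surf.bracket_image (i j : Ints M) {z : E × E} (hz : z ∈ Subtype.val '' W) :
    fderiv ℝ j.1 z (Yf P i.1 z) = 0 := by
  obtain ⟨O, hO, hOW⟩ := isOpen_induced_iff.1 hW
  obtain ⟨z', hz', rfl⟩ := hz
  refine S.bracket_zero hφ i.2 j.2 hO ?_ z' ⟨?_, z'.2⟩
  · rintro w ⟨hwO, hwU⟩ s hs h1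
    have hwW : (⟨w, hwU⟩ : UT M) ∈ W := by rw [← hOW]; exact hwO
    refine hper _ hwW i s hs (Subtype.ext ?_)
    rw [S.sy_apply]
    show φ s (S.eta i 0 w) = w
    rw [(S.eta_spec i).zero, h1]
  · have h1 : z' ∈ Subtype.val ⁻¹' O := by rw [hOW]; exact hz'
    exact h1

include hW hinv hper

/-- (L2), first part -/
theorem Surf.sy_F_inv (i j : Ints M) {z : UT M} (hz : z ∈ W) (a : ℝ × ℝ) :
    (S.sy hφ j).F ((S.sy hφ i).ψ a z) = (S.sy hφ j).F z := by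
  show j.1 (φ a.1 (S.eta i a.2 z)) = j.1 z
  rw [S.integral_flow hφ j.2 ((S.eta_spec i).maps _ _ z.2)]
  exact S.G_eta (S.eta_spec i) (W := Subtype.val '' W) (by rintro _ ⟨w, -, rfl⟩; exact w.2)
    (fun w hw t => S.eta_mem_image hφ hinv i hw t) j.2.1
    (fun w hw => S.bracket_image hφ hW hper i j hw) ⟨z, hz, rfl⟩ a.2

/-- (L2), second part -/
theorem Surf.sy_crit_inv (i j : Ints M) {z : UT M} (hz : z ∈ W) (a : ℝ × ℝ)
    (hc : z ∈ (S.sy hφ j).Crit) : (S.sy hφ i).ψ a z ∈ (S.sy hφ j).Crit := by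
  have h1 := S.crit_G_eta (S.eta_spec i) (W := Subtype.val '' W)
    (by rintro _ ⟨w, -, rfl⟩; exact w.2)
    (fun w hw t => S.eta_mem_image hφ hinv i hw t) (fun w hw => eventually_mem_image hW hw) j.2.1
    (fun w hw => S.bracket_image hφ hW hper i j hw) ⟨z, hz, rfl⟩ a.2 hc
  exact S.crit_flow j.2.1 hφ (fun z hz b hb s => S.dF_phi j.2 hφ hz hb s) h1 a.1

/-- (L3) -/
theorem Surf.sy_prop (i j : Ints M) {z : UT M} (hz : z ∈ W) (hreg : z ∉ (S.sy hφ i).Crit) :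
    ∃ κ : ℝ, (∀ a, (S.sy hφ j).ψ a z = (S.sy hφ i).ψ (a.1, κ * a.2) z) ∧
      (z ∉ (S.sy hφ j).Crit → κ ≠ 0) := by
  obtain ⟨κ, h1, h2⟩ := S.theta_eq_eta i.2 j.2 hφ (S.eta_spec i) (S.eta_spec j)
    (W := Subtype.val '' W) (by rintro _ ⟨w, -, rfl⟩; exact w.2)
    (fun w hw t => S.eta_mem_image hφ hinv i hw t) (fun w hw => eventually_mem_image hW hw)
    (fun w hw => S.bracket_image hφ hW hper i j hw) ⟨z, hz, rfl⟩ hreg
  refine ⟨κ, fun a => Subtype.ext ?_, h2⟩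
  rw [S.sy_apply, S.sy_apply, h1]

end W

end Pool.Agent.PG
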