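import Pool.Agent.Work.PG.FlowGeo

/-!
# Reversing directions: `(x, v) ↦ (x, -v)`

Module (J) of cell PG2. For a first integral `F` the function `revI F`, `z ↦ F (z.1, -z.2)`, is a
first integral and its flow is the reversed flow of `F`.
-/

set_option autoImplicit false
set_option linter.unusedSectionVars false

open Set Filter Topology
open scoped ContDiff InnerProductSpace

namespace Pool.Agent.PG

/-- the reversed first integral -/
abbrev revI {E : Type*} [NormedAddCommGroup E] (F : E × E → ℝ) : E × E → ℝ :=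
  fun z : E × E => F (z.1, -z.2)

section

variable {E : Type*} [NormedAddCommGroup E] [InnerProductSpace ℝ E] {M : Set E}

/-- reversing a geodesic -/
theorem isGeodesic_rev {γ : ℝ → E} (hγ : IsGeodesic M γ) :
    IsGeodesic M (fun t => γ (-t)) ∧ (∀ t, deriv (fun t => γ (-t)) t = -deriv γ (-t)) := by
  obtain ⟨hsm, hM, hacc⟩ := hγ
  have h1 : deriv (fun t => γ (-t)) = fun t => -deriv γ (-t) := by
    ext t
    rw [deriv_comp_neg]
  have h2 : deriv (deriv (fun t => γ (-t))) = fun t => deriv (deriv γ) (-t) := by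
    ext t
    rw [h1]
    have h3 : deriv (fun t => -deriv γ (-t)) t = -deriv (fun t => deriv γ (-t)) t :=
      deriv.fun_neg
    rw [h3, deriv_comp_neg, neg_neg]
  refine ⟨⟨hsm.comp contDiff_neg, fun t => hM _, fun t a ha => ?_⟩, fun t => by rw [h1]⟩
  rw [h2]
  exact hacc (-t) a ha

/-- the reversed first integral is a first integral -/
theorem isFirstIntegral_rev {F : E × E → ℝ} (hF : IsFirstIntegral M F) :
    IsFirstIntegral M (revI F) := by
  refine ⟨hF.1.comp (contDiff_fst.prodMk contDiff_snd.neg), fun γ hγ hn t => ?_⟩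
  obtain ⟨h1, h2⟩ := isGeodesic_rev hγ
  have h3 := hF.2 _ h1 (fun s => by rw [h2, norm_neg, hn]) (-t)
  rw [h2, h2] at h3
  simp only [neg_neg, neg_zero] at h3
  exact h3

end

section

variable {E : Type} [NormedAddCommGroup E] [InnerProductSpace ℝ E] [FiniteDimensional ℝ E]
  {M : Set E} {P : E → E →L[ℝ] E} (S : Surf M P)

include S

theorem Surf.rev_mem {z : E × E} (hz : z ∈ UT M) : (z.1, -z.2) ∈ UT M := by
  obtain ⟨h1, h2, h3⟩ := S.mem_UT.1 hz
  exact S.mem_UT.2 ⟨h1, by rw [map_neg, h2], by rw [norm_neg, h3]⟩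

omit S in
theorem rev_mem_TU {z b : E × E} (hb : b ∈ TU P z) : (b.1, -b.2) ∈ TU P (z.1, -z.2) := by
  obtain ⟨h1, h2, h3⟩ := hb
  have h : -b.2 - fderiv ℝ P z.1 b.1 (-z.2) = -(b.2 - fderiv ℝ P z.1 b.1 z.2) := by
    rw [map_neg]
    abel
  refine ⟨h1, ?_, ?_⟩
  · show P z.1 (-b.2 - fderiv ℝ P z.1 b.1 (-z.2)) = -b.2 - fderiv ℝ P z.1 b.1 (-z.2)
    rw [h, map_neg, h2]
  · show ⟪-b.2, -z.2⟫_ℝ = 0
    rw [inner_neg_neg, h3]

omit S in
theorem rev_mem_TU' {z b : E × E} (hb : b ∈ TU P (z.1, -z.2)) : (b.1, -b.2) ∈ TU P z := by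
  have := rev_mem_TU hb
  simpa only [neg_neg, Prod.mk.eta] using this

omit S [FiniteDimensional ℝ E] in
theorem fderiv_rev {F : E × E → ℝ} (hF : ContDiff ℝ ∞ F) (z b : E × E) :
    fderiv ℝ (revI F) (z.1, -z.2) b = fderiv ℝ F z (b.1, -b.2) := by
  let L : (E × E) →L[ℝ] E × E :=
    (ContinuousLinearMap.fst ℝ E E).prod (-ContinuousLinearMap.snd ℝ E E)
  have h1 : HasFDerivAt (fun w : E × E => (w.1, -w.2)) L (z.1, -z.2) := L.hasFDerivAt
  have h2 : HasFDerivAt F (fderiv ℝ F z) ((fun w : E × E => (w.1, -w.2)) (z.1, -z.2)) := by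
    have : ((fun w : E × E => (w.1, -w.2)) (z.1, -z.2)) = z := by simp
    rw [this]
    exact ((hF.differentiable (by simp)) z).hasFDerivAt
  have h3 := h2.comp (z.1, -z.2) h1
  have h4 : HasFDerivAt (revI F) ((fderiv ℝ F z).comp L) (z.1, -z.2) := h3
  rw [h4.fderiv]
  rfl

variable {φ : ℝ → E × E → E × E} (hφ : IsFlowOn (UT M) (Xf P) φ)

include hφ

/-- the Hamiltonian field of the reversed first integral -/
theorem Surf.Yf_rev {F : E × E → ℝ} (hF : IsFirstIntegral M F) {z : E × E} (hz : z ∈ UT M) :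
    Yf P (revI F) (z.1, -z.2) = (-(Yf P F z).1, (Yf P F z).2) := by
  have hz' := S.rev_mem hz
  have hF' := isFirstIntegral_rev hF
  have hX := S.fderiv_Xf hφ hF hz
  have hX' := S.fderiv_Xf hφ hF' hz'
  have hY := S.Yf_mem hz (F := F)
  have hY' := S.Yf_mem hz' (F := revI F)
  have hsum : Yf P (revI F) (z.1, -z.2) + ((Yf P F z).1, -(Yf P F z).2) ∈
      TU P (z.1, -z.2) := S.add_mem_TU hY' (rev_mem_TU hY)
  have h0 : Yf P (revI F) (z.1, -z.2) + ((Yf P F z).1, -(Yf P F z).2) = 0 := by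
    refine S.eq_zero_of_om hz' hsum ?_ fun b hb => ?_
    · have h1 : ⟪-z.2, (Yf P (revI F) (z.1, -z.2)).1⟫_ℝ = 0 := S.alpha_Yf hz' (F := revI F)
      have h2 : ⟪z.2, (Yf P F z).1⟫_ℝ = 0 := S.alpha_Yf hz (F := F)
      show ⟪-z.2, (Yf P (revI F) (z.1, -z.2)).1 + (Yf P F z).1⟫_ℝ = 0
      rw [inner_add_right, h1, inner_neg_left, h2]
      simp
    · have h1 := S.om_Yf hz' hX' hb
      have h2 := S.om_Yf hz hX (rev_mem_TU' hb)
      rw [fderiv_rev hF.1] at h1
      have h3 : om (Yf P (revI F) (z.1, -z.2) + ((Yf P F z).1, -(Yf P F z).2)) b =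
          om (Yf P (revI F) (z.1, -z.2)) b - om (Yf P F z) (b.1, -b.2) := by
        unfold om
        show ⟪(Yf P (revI F) (z.1, -z.2)).2 + -(Yf P F z).2, b.1⟫_ℝ -
          ⟪b.2, (Yf P (revI F) (z.1, -z.2)).1 + (Yf P F z).1⟫_ℝ =
          ⟪(Yf P (revI F) (z.1, -z.2)).2, b.1⟫_ℝ - ⟪b.2, (Yf P (revI F) (z.1, -z.2)).1⟫_ℝ -
            (⟪(Yf P F z).2, b.1⟫_ℝ - ⟪-b.2, (Yf P F z).1⟫_ℝ)
        rw [inner_add_left, inner_add_right, inner_neg_left, inner_neg_left]
        ring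
      rw [h3, h1, h2, sub_self]
  rw [eq_neg_of_add_eq_zero_left h0]
  show (-(Yf P F z).1, - -(Yf P F z).2) = _
  rw [neg_neg]

/-- the flow of the reversed first integral is the reversed flow -/
theorem Surf.eta_rev {F : E × E → ℝ} (hF : IsFirstIntegral M F) {η η' : ℝ → E × E → E × E}
    (hη : IsFlowOn (UT M) (Yf P F) η) (hη' : IsFlowOn (UT M) (Yf P (revI F)) η')
    {z : E × E} (hz : z ∈ UT M) (t : ℝ) :
    η' t (z.1, -z.2) = ((η (-t) z).1, -(η (-t) z).2) := by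
  have h1 := hη'.unique (fun s => ((η (-s) z).1, -(η (-s) z).2)) ?_ ?_ t
  · simp only [neg_zero, hη.zero] at h1
    exact h1.symm
  · intro s
    exact S.rev_mem (hη.maps (-s) z hz)
  · intro s
    have h2 := (hη.deriv z hz (-s)).scomp s (hasDerivAt_neg s)
    rw [neg_smul, one_smul] at h2
    have h3 : HasDerivAt (fun s => (η (-s) z).1) (-(Yf P F (η (-s) z)).1) s := h2.fst
    have h4 : HasDerivAt (fun s => (η (-s) z).2) (-(Yf P F (η (-s) z)).2) s := h2.snd
    have h5 := h3.prodMk h4.neg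
    show HasDerivAt _ (Yf P (revI F) ((η (-s) z).1, -(η (-s) z).2)) s
    rw [S.Yf_rev hφ hF (hη.maps (-s) z hz)]
    rw [neg_neg] at h5
    exact h5

omit hφ in
/-- critical vectors -/
theorem Surf.mem_Critical_rev {F : E × E → ℝ} (hF : ContDiff ℝ ∞ F) {z : E × E}
    (hz : z ∈ UT M) : z ∈ Critical M F ↔ (z.1, -z.2) ∈ Critical M (revI F) := by
  have hF' : ContDiff ℝ ∞ (revI F) := hF.comp (contDiff_fst.prodMk contDiff_snd.neg)
  rw [S.mem_Critical hF, S.mem_Critical hF']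
  constructor
  · rintro ⟨-, h⟩
    refine ⟨S.rev_mem hz, fun b hb => ?_⟩
    rw [fderiv_rev hF]
    exact h _ (rev_mem_TU' hb)
  · rintro ⟨-, h⟩
    refine ⟨hz, fun b hb => ?_⟩
    have h1 := h _ (rev_mem_TU hb)
    rw [fderiv_rev hF] at h1
    simpa only [neg_neg, Prod.mk.eta] using h1

end

end Pool.Agent.PG
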