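import Pool.Agent.Work.PG.FamGeo
import Pool.Agent.Work.PG.Fam3
import Pool.Agent.Work.PG.Rev
import Pool.Agent.Work.PG.BottPer
import Pool.Agent.Work.PG.DefsFam

/-!
# Density of closed geodesics for families of first integrals (cell PG2, helper83)
-/

set_option autoImplicit false
set_option linter.unusedSectionVars false

open Set Filter Topology
open scoped ContDiff InnerProductSpace

namespace Pool.Agent.PG

variable {E : Type} [NormedAddCommGroup E] [InnerProductSpace ℝ E] [FiniteDimensional ℝ E]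
  {M : Set E} {P : E → E →L[ℝ] E}

/-- joint tameness at one vector -/
def JointlyTameAt (M : Set E) (A : Set (E × E → ℝ)) (w : E × E) : Prop :=
  ∀ V ∈ 𝓝 w, ∃ V' ∈ 𝓝 w, V' ⊆ V ∧ ∃ S : Set (E × E), S.Finite ∧
    ∀ y ∈ V' ∩ JointLevel M A w, ∃ y' ∈ S, JoinedIn (V' ∩ JointLevel M A w) y y'

theorem jointlyTame_subtype {A : Set (E × E → ℝ)} {w : UT M} (h : JointlyTameAt M A w)
    {O : Set (UT M)} (hO : O ∈ 𝓝 w) :
    ∃ O' ∈ 𝓝 w, O' ⊆ O ∧ Finite (ZerothHomotopy {x : UT M // x ∈ O' ∧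
      (∀ F ∈ A, F x.1 = F w.1) ∧ x.1 ∉ JointCritical M A}) := by
  obtain ⟨V, hV, hVO⟩ := (mem_nhds_subtype _ _ _).1 hO
  obtain ⟨V', hV', hV'V, T, hT, hT2⟩ := h V hV
  refine ⟨Subtype.val ⁻¹' V', continuous_subtype_val.continuousAt.preimage_mem_nhds hV',
    (preimage_mono hV'V).trans hVO, ?_⟩
  set B : Set (E × E) := V' ∩ JointLevel M A w.1 with hB
  have hfin : Finite ↥(T ∩ B) := (hT.inter_of_left B).to_subtype
  let mk : ↥B → {x : UT M // x ∈ (Subtype.val ⁻¹' V' : Set (UT M)) ∧ (∀ F ∈ A, F x.1 = F w.1) ∧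
    x.1 ∉ JointCritical M A} := fun y => ⟨⟨y.1, y.2.2.1⟩, y.2.1, y.2.2.2.1, y.2.2.2.2⟩
  have hmk : Continuous mk := Continuous.subtype_mk (Continuous.subtype_mk
    continuous_subtype_val _) _
  refine Finite.of_surjective (α := ↥(T ∩ B))
    (fun y => Quotient.mk (pathSetoid _) (mk ⟨y.1, y.2.2⟩)) ?_
  intro c
  induction c using Quotient.inductionOn with
  | h x =>
    have hxB : x.1.1 ∈ B := ⟨x.2.1, x.1.2, x.2.2.1, x.2.2.2⟩
    obtain ⟨y', hy', hj⟩ := hT2 x.1.1 hxB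
    have hyB : y' ∈ B := hj.target_mem
    refine ⟨⟨y', hy', hyB⟩, Quotient.sound ?_⟩
    have h1 : Joined (⟨x.1.1, hxB⟩ : ↥B) ⟨y', hyB⟩ := hj.joined_subtype
    have h2 := h1.symm
    obtain ⟨p⟩ := h2
    exact ⟨p.map hmk⟩

theorem tameAt_subtype {F : E × E → ℝ} {w : UT M} (h : TameAt M F w)
    {O : Set (UT M)} (hO : O ∈ 𝓝 w) : ∃ O' ∈ 𝓝 w, O' ⊆ O ∧
      Finite (ZerothHomotopy {x : UT M // x ∈ O' ∧ F x.1 = F w.1 ∧ x ∉ crit M F}) := by
  obtain ⟨V, hV, hVO⟩ := (mem_nhds_subtype _ _ _).1 hO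
  obtain ⟨V', hV', hV'V, T, hT, hT2⟩ := h V hV
  refine ⟨Subtype.val ⁻¹' V', continuous_subtype_val.continuousAt.preimage_mem_nhds hV',
    (preimage_mono hV'V).trans hVO, ?_⟩
  set A : Set (E × E) := {y | y ∈ V' ∧ y ∈ UT M ∧ F y = F w.1 ∧ y ∉ Critical M F} with hA
  have hfin : Finite ↥(T ∩ A) := (hT.inter_of_left A).to_subtype
  let mk : ↥A → {x : UT M // x ∈ (Subtype.val ⁻¹' V' : Set (UT M)) ∧ F x.1 = F w.1 ∧
    x ∉ crit M F} := fun y => ⟨⟨y.1, y.2.2.1⟩, y.2.1, y.2.2.2.1, y.2.2.2.2⟩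
  have hmk : Continuous mk := Continuous.subtype_mk (Continuous.subtype_mk
    continuous_subtype_val _) _
  refine Finite.of_surjective (α := ↥(T ∩ A))
    (fun y => Quotient.mk (pathSetoid _) (mk ⟨y.1, y.2.2⟩)) ?_
  intro c
  induction c using Quotient.inductionOn with
  | h x =>
    have hxA : x.1.1 ∈ A := ⟨x.2.1, x.1.2, x.2.2.1, x.2.2.2⟩
    obtain ⟨y', hy', hj⟩ := hT2 x.1.1 hxA
    have hyA : y' ∈ A := hj.target_mem
    refine ⟨⟨y', hy', hyA⟩, Quotient.sound ?_⟩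
    have h1 : Joined (⟨x.1.1, hxA⟩ : ↥A) ⟨y', hyA⟩ := hj.joined_subtype
    have h2 := h1.symm
    obtain ⟨p⟩ := h2
    exact ⟨p.map hmk⟩

/-- a periodic unit vector is tangent to a closed geodesic -/
theorem Surf.exists_closedGeodesic (S : Surf M P) {φ : ℝ → E × E → E × E}
    (hφ : IsFlowOn (UT M) (Xf P) φ) {z : E × E} (hz : z ∈ UT M) {T : ℝ} (hT0 : 0 < T)
    (hT : φ T z = z) : ∃ γ : ℝ → E, IsClosedGeodesic M γ ∧ γ 0 = z.1 ∧ deriv γ 0 = z.2 := by
  obtain ⟨h5, h6⟩ := S.geodesic_of_flow hφ hz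
  have h0 : (φ 0 z).1 = z.1 := by rw [hφ.zero]
  refine ⟨fun s => (φ s z).1, ⟨h5, ⟨_, hT0, fun t => ?_⟩, ?_⟩, h0, ?_⟩
  · simp only [hφ.add, hT]
  · by_contra hne
    push Not at hne
    have h3 : (fun s => (φ s z).1) = fun _ => (φ 0 z).1 := funext hne
    have h4 := h6 0
    rw [h3, deriv_const, hφ.zero] at h4
    have h7 := hz.2.2
    rw [← h4, norm_zero] at h7
    exact zero_ne_one h7
  · rw [h6, hφ.zero]

/-- compact invariant sets which are locally orbit segments consist of periodic vectors -/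
theorem periodic_of_segments {K U : Set (E × E)} {f : E × E → E × E} (hK : IsCompact K)
    {φ : ℝ → E × E → E × E} (hφ : IsFlowOn U f φ) (hinv : ∀ z ∈ K, ∀ s, φ s z ∈ K)
    (hseg : ∀ w ∈ K, ∀ᶠ x in 𝓝 w, x ∈ K → ∃ s : ℝ, |s| < 1 / 2 ∧ φ s w = x) {z : E × E}
    (hz : z ∈ K) : ∃ T > 0, φ T z = z := by
  obtain ⟨w, hw, k, hk, hlim⟩ := hK.tendsto_subseq (x := fun n : ℕ => φ n z) fun n => hinv z hz n
  have h1 := hlim.eventually (hseg w hw)
  obtain ⟨n, hn⟩ := h1.exists_forall_of_atTop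
  obtain ⟨s, hs, hs'⟩ := hn n le_rfl (hinv z hz _)
  obtain ⟨t, ht, ht'⟩ := hn (n + 1) (Nat.le_succ n) (hinv z hz _)
  simp only [Function.comp_apply] at hs' ht'
  have hw1 : φ (k n - s) z = w := by
    rw [sub_eq_neg_add, hφ.add, ← hs', ← hφ.add, neg_add_cancel, hφ.zero]
  have hw2 : φ (k (n + 1) - t) z = w := by
    rw [sub_eq_neg_add, hφ.add, ← ht', ← hφ.add, neg_add_cancel, hφ.zero]
  have hkk : (k n : ℝ) + 1 ≤ k (n + 1) := by exact_mod_cast hk (Nat.lt_succ_self n)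
  have hT0 : 0 < (k (n + 1) - t) - (k n - s) := by
    have := abs_lt.1 hs
    have := abs_lt.1 ht
    linarith
  refine ⟨_, hT0, ?_⟩
  rw [sub_eq_neg_add, hφ.add, hw2, ← hw1, ← hφ.add, neg_add_cancel, hφ.zero]

/-- the abstract family of all first integrals -/
noncomputable def Surf.fam (S : Surf M P) {φ : ℝ → E × E → E × E}
    (hφ : IsFlowOn (UT M) (Xf P) φ) {W₀ : Set (UT M)} (h0 : IsOpen W₀)
    (hp0 : ∀ z ∈ W₀, ∀ s : ℝ, s ≠ 0 → φ s z ≠ z) : Fam (UT M) (Ints M) :=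
  have hper0 : ∀ z ∈ W₀, ∀ i, ∀ s : ℝ, s ≠ 0 → (S.sy hφ i).ψ (s, 0) z ≠ z := by
    intro z hz i s hs h1
    refine hp0 z hz s hs ?_
    have h2 := congrArg Subtype.val h1
    rw [S.sy_apply] at h2
    change φ s (S.eta i 0 z) = z at h2
    rwa [(S.eta_spec i).zero] at h2
  have hper := sat_nonper (S.sy hφ) (fun i j s z => S.sy_flow hφ i j s z) hper0
  have hopen := isOpen_sat (S.sy hφ) h0
  have hinv : ∀ z ∈ sat (S.sy hφ) W₀, ∀ i a, (S.sy hφ i).ψ a z ∈ sat (S.sy hφ) W₀ :=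
    fun z hz i a => sat_inv (S.sy hφ) hz i a
  { Sy := S.sy hφ
    φ := fun s z => ⟨φ s z, hφ.maps s z z.2⟩
    J := rev S
    conj := fun i => ⟨revI i.1, isFirstIntegral_rev i.2⟩
    flow := fun i s z => Subtype.ext (by
      rw [S.sy_apply]
      show φ s (S.eta i 0 z) = φ s z
      rw [(S.eta_spec i).zero])
    J_eq := fun i z => rfl
    J_act := fun i a z => Subtype.ext (by
      rw [S.sy_apply]
      show ((φ a.1 (S.eta i a.2 z)).1, -(φ a.1 (S.eta i a.2 z)).2) =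
        φ (-a.1) (S.eta ⟨revI i.1, isFirstIntegral_rev i.2⟩ (-a.2) (z.1.1, -z.1.2))
      rw [S.eta_rev hφ i.2 (S.eta_spec i) (S.eta_spec ⟨revI i.1, isFirstIntegral_rev i.2⟩) z.2,
        neg_neg, S.flow_neg hφ ((S.eta_spec i).maps _ _ z.2), neg_neg])
    J_crit := fun i z hz hc => hz ((S.mem_Critical_rev i.2.1 z.2).2 hc)
    free := fun i z hz h hh => by
      have hX : HasDerivAt (fun t : ℝ => φ (-(t * h.1)) z) ((-h.1) • Xf P z) 0 := by
        have h1 := hφ.deriv z z.2 (-((0 : ℝ) * h.1))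
        have h2 : HasDerivAt (fun t : ℝ => -(t * h.1)) (-(1 * h.1)) 0 :=
          ((hasDerivAt_id (0 : ℝ)).mul_const h.1).neg
        rw [one_mul] at h2
        have h3 := HasDerivAt.scomp (g₁ := fun s => φ s z) (h := fun t : ℝ => -(t * h.1)) 0 h1 h2
        have h4 : φ (-((0 : ℝ) * h.1)) z = z := by rw [zero_mul, neg_zero, hφ.zero]
        rw [h4] at h3
        exact h3
      have hY : HasDerivAt (fun t : ℝ => S.eta i (t * h.2) z) (h.2 • Yf P i.1 z) 0 := by
        have h1 := (S.eta_spec i).deriv z z.2 ((0 : ℝ) * h.2)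
        have h2 : HasDerivAt (fun t : ℝ => t * h.2) h.2 0 := by
          simpa using (hasDerivAt_id (0 : ℝ)).mul_const h.2
        have h3 := HasDerivAt.scomp (g₁ := fun s => S.eta i s z) (h := fun t : ℝ => t * h.2) 0
          h1 h2
        have h4 : S.eta i ((0 : ℝ) * h.2) z = z := by rw [zero_mul, (S.eta_spec i).zero]
        rw [h4] at h3
        exact h3
      have heq : (fun t : ℝ => S.eta i (t * h.2) z) = fun t : ℝ => φ (-(t * h.1)) z := by
        funext t
        have h1 := congrArg Subtype.val (hh t)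
        rw [S.sy_apply] at h1
        change φ (t * h.1) (S.eta i (t * h.2) z) = z at h1
        rw [← h1, hφ.neg_add_self, h1]
      rw [heq] at hY
      have h1 : h.2 • Yf P i.1 (z : E × E) = (-h.1) • Xf P z := hY.unique hX
      have h2 : h.1 = 0 := by
        have h3 := congrArg (fun b : E × E => ⟪z.1.2, b.1⟫_ℝ) h1
        simp only [Prod.smul_fst, inner_smul_right] at h3
        rw [S.alpha_Yf z.2] at h3
        have h4 : ⟪z.1.2, (Xf P (z : E × E)).1⟫_ℝ = 1 := by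
          show ⟪z.1.2, z.1.2⟫_ℝ = 1
          rw [real_inner_self_eq_norm_sq, z.2.2.2, one_pow]
        rw [h4] at h3
        linarith
      rw [h2, neg_zero, zero_smul] at h1
      rcases smul_eq_zero.1 h1 with h3 | h3
      · exact Prod.ext h2 h3
      · exfalso
        apply hz
        rw [S.sy_Crit, S.mem_Critical i.2.1]
        exact ⟨z.2, (S.Yf_eq_zero_iff z.2 (S.fderiv_Xf hφ i.2 z.2)).1 h3⟩
    W := sat (S.sy hφ) W₀
    W_open := hopen
    W_per := fun z hz s hs h1 => by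
      by_cases hne : Nonempty (Ints M)
      · obtain ⟨i⟩ := hne
        refine hper z hz i s hs (Subtype.ext ?_)
        rw [S.sy_apply]
        show φ s (S.eta i 0 z) = z
        rw [(S.eta_spec i).zero]
        exact congrArg Subtype.val h1
      · exact hne ⟨⟨fun _ => 0, contDiff_const, fun _ _ _ _ => rfl⟩⟩
    W_inv := fun i a z hz => hinv z hz i a
    W_F := fun i j a z hz => S.sy_F_inv hφ hopen hinv hper i j hz a
    W_crit := fun i j a z hz hc => S.sy_crit_inv hφ hopen hinv hper i j hz a hc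
    W_lam := fun i j z hz hi => by
      obtain ⟨κ, h1, -⟩ := S.sy_prop hφ hopen hinv hper i j hz hi
      exact ⟨κ, h1⟩ }

/-- **Density, family version.** -/
theorem dense_fam_of_surf (S : Surf M P) {A : Set (E × E → ℝ)}
    (hA : ∀ F ∈ A, IsFirstIntegral M F) (hper : JointlyPeriodic M A)
    (htame : ∀ w ∈ JointCritical M A, JointlyTameAt M A w ∨
      ∃ F ∈ A, TransversallyNondegenerate M F w) :
    M ⊆ closure (closedGeodesicSet M) := by
  obtain ⟨φ, hφ⟩ := S.exists_geodesic_flow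
  intro x hx
  by_contra hcl
  have hcomp : CompactSpace (UT M) := isCompact_iff_compactSpace.1 S.isCompact_UT
  obtain ⟨e₁, e₂, he₁, he₂, hn₁, hn₂, ho, -⟩ := S.plane x hx
  set W₀ : Set (UT M) := {z | z.1.1 ∈ (closure (closedGeodesicSet M))ᶜ} with hW₀
  have hWo : IsOpen W₀ := isClosed_closure.isOpen_compl.preimage
    (continuous_fst.comp continuous_subtype_val)
  have hWp : ∀ w ∈ W₀, ∀ s : ℝ, s ≠ 0 → φ s w ≠ w := by
    intro w hw s hs h
    exact hw (subset_closure (S.mem_closedGeodesicSet hφ w.2 hs h))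
  set Φ := S.fam hφ hWo hWp with hΦ
  set GG : Set (Ints M) := {i | i.1 ∈ A} with hGG
  have hK : ∀ z : UT M, z ∈ Φ.K GG ↔ z.1 ∈ JointCritical M A := by
    intro z
    constructor
    · intro h
      exact ⟨z.2, fun F hF => h ⟨F, hA F hF⟩ hF⟩
    · rintro h i hi
      exact h.2 i.1 hi
  have hperK : ∀ z ∈ Φ.K GG, ∃ l > 0, φ l z = z := by
    intro z hz
    obtain ⟨γ, hγ, h0, h1⟩ := hper z.1 ((hK z).1 hz)
    exact S.periodic_of_closedGeodesic hφ z.2 hγ h0 h1
  have hγm : ∀ u : ℝ, (x, Real.cos u • e₁ + Real.sin u • e₂) ∈ UT M := by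
    intro u
    refine S.mem_UT.2 ⟨hx, ?_, ?_⟩
    · rw [map_add, map_smul, map_smul, he₁, he₂]
    · have h1 : ‖Real.cos u • e₁ + Real.sin u • e₂‖ ^ 2 = 1 := by
        rw [← real_inner_self_eq_norm_sq, inner_add_left, inner_add_right, inner_add_right]
        simp only [inner_smul_left, inner_smul_right, real_inner_self_eq_norm_sq, hn₁, hn₂,
          real_inner_comm e₁ e₂, ho]
        simp only [conj_trivial]
        have := Real.cos_sq_add_sin_sq u
        nlinarith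
      have h2 : (0 : ℝ) ≤ ‖Real.cos u • e₁ + Real.sin u • e₂‖ := norm_nonneg _
      nlinarith
  refine Φ.core (GG := GG) ?_ ?_ ?_
    (γ := fun u => ⟨(x, Real.cos u • e₁ + Real.sin u • e₂), hγm u⟩)
    ?_ (fun u => subset_sat (S.sy hφ) W₀ hcl) ?_
  · intro z hz
    obtain ⟨T, hT, h2⟩ := hperK z hz
    exact ⟨T, hT, Subtype.ext h2⟩
  · intro w hw
    rcases htame w.1 ((hK w).1 hw) with h | ⟨F, hF, hB⟩
    · refine Or.inl fun O hO => ?_
      obtain ⟨O', hO', hO'O, hfin⟩ := jointlyTame_subtype h hO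
      refine ⟨O', hO', hO'O, ?_⟩
      let mk : {x : UT M // x ∈ O' ∧ (∀ F ∈ A, F x.1 = F w.1) ∧ x.1 ∉ JointCritical M A} →
          {x : UT M // x ∈ O' ∧ (∀ j ∈ GG, (Φ.Sy j).F x = (Φ.Sy j).F w) ∧ x ∉ Φ.K GG} :=
        fun y => ⟨y.1, y.2.1, fun j hj => y.2.2.1 j.1 hj, fun h => y.2.2.2 ((hK _).1 h)⟩
      have hmk : Continuous mk := Continuous.subtype_mk continuous_subtype_val _
      refine Finite.of_surjective (fun c : ZerothHomotopy _ =>
        Quotient.map' (s₁ := pathSetoid _) (s₂ := pathSetoid _) mk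
          (fun a b (hab : Joined a b) => (hab.map hmk : Joined (mk a) (mk b))) c) ?_
      intro c
      induction c using Quotient.inductionOn with
      | h y =>
        refine ⟨Quotient.mk (pathSetoid _) ⟨y.1, y.2.1, fun F hF => y.2.2.1 ⟨F, hA F hF⟩ hF,
          fun h => y.2.2.2 ((hK _).2 h)⟩, ?_⟩
        rfl
    · have hFi := hA F hF
      have hwc : w.1 ∈ Critical M F := ((hK w).1 hw).2 F hF
      refine Or.inr ⟨⟨F, hFi⟩, hF, fun O hO => tameAt_subtype (S.tameAt_of_bott hFi hwc hB) hO, ?_⟩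
      have h1 := S.critical_segment hFi hφ hwc hB (ε := 1) one_pos
      obtain ⟨T, hT, hTw⟩ := hperK w hw
      filter_upwards [(continuous_subtype_val.tendsto w).eventually h1] with y hy hyW hyc
      obtain ⟨s, -, hs⟩ := hy hyc
      refine Φ.W_per y hyW T hT.ne' (Subtype.ext ?_)
      show φ T y = y
      rw [← hs, ← hφ.add, add_comm, hφ.add, hTw]
  · intro i hi
    have h1 : (Φ.Sy i).F '' (Φ.Sy i).Crit = i.1 '' Critical M i.1 := by
      ext c
      constructor
      · rintro ⟨z, hz, rfl⟩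
        exact ⟨z.1, hz, rfl⟩
      · rintro ⟨z, hz, rfl⟩
        exact ⟨⟨z, hz.1⟩, hz, rfl⟩
    rw [h1]
    exact S.interior_critical i.2
  · exact Continuous.subtype_mk (by fun_prop) _
  · intro u
    refine Subtype.ext (Prod.ext rfl ?_)
    show Real.cos (u + Real.pi) • e₁ + Real.sin (u + Real.pi) • e₂ =
      -(Real.cos u • e₁ + Real.sin u • e₂)
    rw [Real.cos_add_pi, Real.sin_add_pi, neg_smul, neg_smul, neg_add]

/-- jointly critical vectors which are transversally nondegenerate are periodic -/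
theorem jointlyPeriodic_of_bott (S : Surf M P) {A : Set (E × E → ℝ)}
    (hA : ∀ F ∈ A, IsFirstIntegral M F)
    (hB : ∀ w ∈ JointCritical M A, ∃ F ∈ A, TransversallyNondegenerate M F w) :
    JointlyPeriodic M A := by
  obtain ⟨φ, hφ⟩ := S.exists_geodesic_flow
  have hK : IsCompact (JointCritical M A) := by
    have h1 : JointCritical M A = UT M ∩ ⋂ F ∈ A, Critical M F := by
      ext z
      simp only [JointCritical, mem_ofPred_eq, mem_inter_iff, mem_iInter]
    rw [h1]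
    exact S.isCompact_UT.inter_right (isClosed_biInter fun F hF =>
      (S.isCompact_Critical (hA F hF)).isClosed)
  intro z hz
  obtain ⟨T, hT, hTz⟩ := periodic_of_segments hK hφ
    (fun z hz s => ⟨hφ.maps s z hz.1, fun F hF => S.critical_flow (hA F hF) hφ (hz.2 F hF) s⟩)
    (fun w hw => by
      obtain ⟨F, hF, hB'⟩ := hB w hw
      filter_upwards [S.critical_segment (hA F hF) hφ (hw.2 F hF) hB' (ε := 1 / 2)
        (by norm_num)] with x hx hxK
      exact hx (hxK.2 F hF)) hz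
  exact S.exists_closedGeodesic hφ hz.1 hT hTz

theorem dense_family {M : Set E} (hM : IsClosedSurface M) {A : Set (E × E → ℝ)}
    (hA : ∀ F ∈ A, IsFirstIntegral M F)
    (h : (∀ z ∈ JointCritical M A, ∃ F ∈ A, TransversallyNondegenerate M F z) ∨
      (JointlyPeriodic M A ∧ JointlyTame M A)) :
    M ⊆ closure (closedGeodesicSet M) := by
  obtain ⟨P, S⟩ := exists_surf hM
  rcases h with h | ⟨h1, h2⟩
  · exact dense_fam_of_surf S hA (jointlyPeriodic_of_bott S hA h) fun w hw => Or.inr (h w hw)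
  · exact dense_fam_of_surf S hA h1 fun w hw => Or.inl (h2 w hw)

end Pool.Agent.PG
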