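import Pool.Agent.Work.PG.FlowUT

/-!
# Geodesics and the orbits of the geodesic flow

Module C2 of cell PG.
-/

set_option autoImplicit false
set_option linter.unusedSectionVars false

open Set Filter Topology
open scoped ContDiff InnerProductSpace

namespace Pool.Agent.PG

section

variable {E : Type} [NormedAddCommGroup E] [InnerProductSpace ℝ E] [FiniteDimensional ℝ E]
  {M : Set E} {P : E → E →L[ℝ] E}

variable (S : Surf M P) {φ : ℝ → E × E → E × E} (hφ : IsFlowOn (UT M) (Xf P) φ)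

include S hφ

omit S [FiniteDimensional ℝ E] in
theorem IsFlowOn.hasDerivAt_one {z : E × E} (hz : z ∈ UT M) (t : ℝ) :
    HasDerivAt (fun s => (φ s z).1) (φ t z).2 t := by
  have h := (ContinuousLinearMap.fst ℝ E E).hasFDerivAt.comp_hasDerivAt t (hφ.deriv z hz t)
  exact h

omit S [FiniteDimensional ℝ E] in
theorem IsFlowOn.hasDerivAt_two {z : E × E} (hz : z ∈ UT M) (t : ℝ) :
    HasDerivAt (fun s => (φ s z).2) (fderiv ℝ P (φ t z).1 (φ t z).2 (φ t z).2) t := by
  have h := (ContinuousLinearMap.snd ℝ E E).hasFDerivAt.comp_hasDerivAt t (hφ.deriv z hz t)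
  exact h

omit S [FiniteDimensional ℝ E] in
theorem IsFlowOn.contDiff_orbit (z : E × E) : ContDiff ℝ ∞ fun s => φ s z :=
  hφ.smooth.comp (contDiff_id.prodMk contDiff_const)

omit [FiniteDimensional ℝ E] in
/-- orbits of the flow project to geodesics -/
theorem Surf.geodesic_of_flow {z : E × E} (hz : z ∈ UT M) :
    IsGeodesic M (fun s => (φ s z).1) ∧ (∀ s, deriv (fun s => (φ s z).1) s = (φ s z).2) := by
  have h1 : ∀ s, deriv (fun s => (φ s z).1) s = (φ s z).2 :=
    fun s => (hφ.hasDerivAt_one hz s).deriv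
  refine ⟨⟨contDiff_fst.comp (hφ.contDiff_orbit z), fun t => (hφ.maps t z hz).1, ?_⟩, h1⟩
  intro t a ha
  have h2 : deriv (fun s => (φ s z).1) = fun s => (φ s z).2 := funext h1
  rw [h2, (hφ.hasDerivAt_two hz t).deriv]
  obtain ⟨h3, h4, -⟩ := S.mem_UT.1 (hφ.maps t z hz)
  exact S.dP_orth h3 h4 h4 ((S.mem_tangent _ h3 _).1 ha)

omit hφ [FiniteDimensional ℝ E] in
/-- velocities of geodesics are tangent -/
theorem Surf.geodesic_vel {γ : ℝ → E} (hγ : IsGeodesic M γ) (t : ℝ) :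
    HasDerivAt γ (deriv γ t) t ∧ HasDerivAt (deriv γ) (deriv (deriv γ) t) t ∧
      deriv γ t ∈ tangent M (γ t) ∧ P (γ t) (deriv γ t) = deriv γ t ∧
      P (γ t) (deriv (deriv γ) t) = 0 := by
  have h1 : HasDerivAt γ (deriv γ t) t := (hγ.1.differentiable (by simp) t).hasDerivAt
  have h2 : ContDiff ℝ ∞ (deriv γ) := hγ.1.deriv' (n := ∞)
  have h3 : HasDerivAt (deriv γ) (deriv (deriv γ) t) t :=
    (h2.differentiable (by simp) t).hasDerivAt
  have h4 : deriv γ t ∈ tangent M (γ t) := by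
    refine ⟨fun s => γ (t + s), by simp, Eventually.of_forall fun s => hγ.2.1 _, ?_⟩
    have h5 : HasDerivAt (fun s : ℝ => t + s) 1 0 := by
      simpa using (hasDerivAt_id (0 : ℝ)).const_add t
    have h6 : HasDerivAt γ (deriv γ t) (t + 0) := by rw [add_zero]; exact h1
    have h7 := h6.scomp 0 h5
    rw [one_smul] at h7
    exact h7
  refine ⟨h1, h3, h4, (S.mem_tangent _ (hγ.2.1 t) _).1 h4, ?_⟩
  refine ext_inner_right ℝ fun b => ?_
  rw [S.symm _ (hγ.2.1 t), inner_zero_left]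
  exact hγ.2.2 t _ ((S.mem_tangent _ (hγ.2.1 t) _).2 (S.idem _ (hγ.2.1 t) b))

omit hφ [FiniteDimensional ℝ E] in
theorem Surf.geodesic_speed {γ : ℝ → E} (hγ : IsGeodesic M γ) (t : ℝ) :
    ‖deriv γ t‖ = ‖deriv γ 0‖ := by
  have h1 : ∀ s, HasDerivAt (fun s => ⟪deriv γ s, deriv γ s⟫_ℝ) 0 s := by
    intro s
    obtain ⟨-, h3, h4, -⟩ := S.geodesic_vel hγ s
    have h5 := h3.inner ℝ h3
    have h6 := hγ.2.2 s _ h4
    rw [real_inner_comm (deriv (deriv γ) s), h6, add_zero] at h5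
    exact h5
  have h2 : ⟪deriv γ t, deriv γ t⟫_ℝ = ⟪deriv γ 0, deriv γ 0⟫_ℝ :=
    is_const_of_deriv_eq_zero (fun s => (h1 s).differentiableAt) (fun s => (h1 s).deriv) t 0
  rw [real_inner_self_eq_norm_sq, real_inner_self_eq_norm_sq] at h2
  exact (sq_eq_sq₀ (norm_nonneg _) (norm_nonneg _)).1 h2

omit [FiniteDimensional ℝ E] in
/-- unit speed geodesics lift to orbits of the flow -/
theorem Surf.flow_of_geodesic {γ : ℝ → E} (hγ : IsGeodesic M γ) (h1 : ‖deriv γ 0‖ = 1) (t : ℝ) :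
    (γ t, deriv γ t) = φ t (γ 0, deriv γ 0) := by
  refine hφ.unique (fun t => (γ t, deriv γ t)) (fun t => ?_) (fun t => ?_) t
  · obtain ⟨-, -, h4, -⟩ := S.geodesic_vel hγ t
    exact ⟨hγ.2.1 t, h4, (S.geodesic_speed hγ t).trans h1⟩
  · obtain ⟨h2, h3, -, h5, h6⟩ := S.geodesic_vel hγ t
    have h7 := S.hasDerivAt_P_apply h2 h3
    have h8 : (fun s => P (γ s) (deriv γ s)) = deriv γ :=
      funext fun s => (S.geodesic_vel hγ s).2.2.2.1
    rw [h8, h6, add_zero] at h7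
    exact h2.prodMk h7

omit [FiniteDimensional ℝ E] in
/-- a periodic orbit of the flow gives a closed geodesic -/
theorem Surf.mem_closedGeodesicSet {z : E × E} (hz : z ∈ UT M) {T : ℝ} (hT : T ≠ 0)
    (h : φ T z = z) : z.1 ∈ closedGeodesicSet M := by
  obtain ⟨h1, h2⟩ := S.geodesic_of_flow hφ hz
  have h0 : (φ 0 z).1 = z.1 := by rw [hφ.zero]
  refine ⟨fun s => (φ s z).1, ⟨h1, ⟨|T|, abs_pos.2 hT, fun t => ?_⟩, ?_⟩, ⟨0, h0⟩⟩
  · have h3 : φ |T| z = z := by
      rcases abs_choice T with h4 | h4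
      · rw [h4, h]
      · rw [h4]
        conv_lhs => rw [← h]
        rw [← hφ.add, neg_add_cancel, hφ.zero]
    show (φ (t + |T|) z).1 = (φ t z).1
    rw [hφ.add, h3]
  · by_contra hne
    push Not at hne
    have h3 : (fun s => (φ s z).1) = fun _ => (φ 0 z).1 := funext hne
    have h4 := h2 0
    rw [h3, deriv_const, hφ.zero] at h4
    have h5 := hz.2.2
    rw [← h4, norm_zero] at h5
    exact zero_ne_one h5

omit [FiniteDimensional ℝ E] in
/-- a unit vector tangent to a closed geodesic is periodic -/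
theorem Surf.periodic_of_closedGeodesic {z : E × E} (hz : z ∈ UT M) {γ : ℝ → E}
    (hγ : IsClosedGeodesic M γ) (h0 : γ 0 = z.1) (h1 : deriv γ 0 = z.2) :
    ∃ T > 0, φ T z = z := by
  obtain ⟨hg, ⟨T, hT, hper⟩, -⟩ := hγ
  refine ⟨T, hT, ?_⟩
  have h2 := S.flow_of_geodesic hφ hg (by rw [h1]; exact hz.2.2) T
  have h3 : deriv γ T = deriv γ 0 := by
    have h4 : (fun s => γ (s + T)) = γ := funext hper
    have h5 := deriv_comp_add_const γ T 0
    rw [h4, zero_add] at h5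
    exact h5.symm
  have h6 : γ T = γ 0 := by simpa using hper 0
  rw [h3, h6, h0, h1] at h2
  exact h2.symm

omit [FiniteDimensional ℝ E] in
/-- first integrals are invariant -/
theorem Surf.integral_flow {F : E × E → ℝ} (hF : IsFirstIntegral M F) {z : E × E}
    (hz : z ∈ UT M) (s : ℝ) : F (φ s z) = F z := by
  obtain ⟨h1, h2⟩ := S.geodesic_of_flow hφ hz
  have h3 := hF.2 _ h1 (fun t => by rw [h2]; exact (hφ.maps t z hz).2.2) s
  rw [h2, h2] at h3
  have h4 : ((φ 0 z).1, (φ 0 z).2) = z := by rw [hφ.zero]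
  rw [h4] at h3
  exact h3

omit [FiniteDimensional ℝ E] in
theorem Surf.fderiv_Xf {F : E × E → ℝ} (hF : IsFirstIntegral M F) {z : E × E}
    (hz : z ∈ UT M) : fderiv ℝ F z (Xf P z) = 0 := by
  have h1 := hφ.deriv z hz 0
  have h2 : HasFDerivAt F (fderiv ℝ F (φ 0 z)) (φ 0 z) :=
    (hF.1.differentiable (by simp) _).hasFDerivAt
  have h3 := h2.comp_hasDerivAt 0 h1
  have h4 : (F ∘ fun s => φ s z) = fun _ => F z := funext fun s => S.integral_flow hφ hF hz s
  rw [h4, hφ.zero] at h3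
  exact h3.unique (hasDerivAt_const _ _)

omit [FiniteDimensional ℝ E] in
/-- reversing a geodesic -/
theorem Surf.flow_neg {z : E × E} (hz : z ∈ UT M) (s : ℝ) :
    φ s (z.1, -z.2) = ((φ (-s) z).1, -(φ (-s) z).2) := by
  obtain ⟨h1, h2⟩ := S.geodesic_of_flow hφ hz
  have h3 : ∀ t, HasDerivAt (fun s => (φ (-s) z).1) (-(φ (-t) z).2) t := by
    intro t
    have h4 := (hφ.hasDerivAt_one hz (-t)).scomp t (hasDerivAt_neg t)
    rw [neg_one_smul] at h4
    exact h4
  have h5 : deriv (fun s => (φ (-s) z).1) = fun t => -(φ (-t) z).2 :=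
    funext fun t => (h3 t).deriv
  have h6 : IsGeodesic M fun s => (φ (-s) z).1 := by
    refine ⟨h1.1.comp contDiff_neg, fun t => h1.2.1 (-t), fun t a ha => ?_⟩
    have h7 : HasDerivAt (fun t => -(φ (-t) z).2)
        (fderiv ℝ P (φ (-t) z).1 (φ (-t) z).2 (φ (-t) z).2) t := by
      have h8 := ((hφ.hasDerivAt_two hz (-t)).scomp t (hasDerivAt_neg t)).neg
      rw [neg_one_smul, neg_neg] at h8
      exact h8
    rw [h5, h7.deriv]
    obtain ⟨h9, h10, -⟩ := S.mem_UT.1 (hφ.maps (-t) z hz)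
    exact S.dP_orth h9 h10 h10 ((S.mem_tangent _ h9 _).1 ha)
  have h8 := S.flow_of_geodesic hφ h6 (by
    rw [h5, norm_neg, neg_zero, hφ.zero]; exact hz.2.2) s
  rw [h5] at h8
  simp only [neg_zero, hφ.zero] at h8
  exact h8.symm

omit [FiniteDimensional ℝ E] in
/-- there are no short periods (uniformly) -/
theorem Surf.no_short_period {z : E × E} (hz : z ∈ UT M) :
    ∃ k > 0, ∀ s : ℝ, s ≠ 0 → |s| ≤ k → φ s z ≠ z := by
  have h1 := hφ.hasDerivAt_one hz 0
  rw [hφ.zero] at h1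
  have hv : z.2 ≠ 0 := by
    intro h0
    have := hz.2.2
    rw [h0, norm_zero] at this
    exact zero_ne_one this
  have h2 : ∀ᶠ s in 𝓝[≠] (0 : ℝ), (φ s z).1 ≠ z.1 := h1.eventually_ne hv
  rw [eventually_nhdsWithin_iff, Metric.eventually_nhds_iff] at h2
  obtain ⟨ε, hε, h3⟩ := h2
  refine ⟨ε / 2, by positivity, fun s hs hs' h4 => ?_⟩
  refine h3 (y := s) ?_ hs (by rw [h4])
  rw [dist_zero_right, Real.norm_eq_abs]
  linarith

end

end Pool.Agent.PG
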