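import Pool.Agent.Work.PG.Contact
import Pool.Agent.Work.MP_3b24f6_gt.S.Variational

/-!
# Flows of vector fields tangent to the unit tangent bundle

Module C of cell PG.
-/

set_option autoImplicit false

open Set Filter Topology
open scoped ContDiff InnerProductSpace

namespace Pool.Agent.PG

open Pool.Agent.Work

/-- Nagumo's theorem (two-sided tangency is enough here). Hint: the distance of `γ t` to `K`
satisfies the differential inequality of `le_gronwallBound_of_liminf_deriv_right_le`. -/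
theorem nagumo {V : Type*} [NormedAddCommGroup V] [NormedSpace ℝ V] [FiniteDimensional ℝ V]
    {K : Set V} (hK : IsClosed K) {f : V → V} {L : ℝ} (hL : ∀ x y, ‖f x - f y‖ ≤ L * ‖x - y‖)
    (htan : ∀ z ∈ K, ∃ β : ℝ → V, β 0 = z ∧ (∀ᶠ t in 𝓝 (0 : ℝ), β t ∈ K) ∧
      HasDerivAt β (f z) 0) {γ : ℝ → V} (hγ : ∀ t, HasDerivAt γ (f (γ t)) t) (h0 : γ 0 ∈ K) :
    ∀ t, γ t ∈ K := by
  have key : ∀ (f : V → V) (_ : ∀ x y, ‖f x - f y‖ ≤ L * ‖x - y‖)
      (_ : ∀ z ∈ K, ∃ β : ℝ → V, β 0 = z ∧ (∀ᶠ t in 𝓝 (0 : ℝ), β t ∈ K) ∧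
        HasDerivAt β (f z) 0) (γ : ℝ → V) (_ : ∀ t, HasDerivAt γ (f (γ t)) t) (_ : γ 0 ∈ K),
      ∀ t, 0 ≤ t → γ t ∈ K := by
    intro f hL htan γ hγ h0 T hT
    have hproper : ProperSpace V := FiniteDimensional.proper ℝ V
    have hne : K.Nonempty := ⟨_, h0⟩
    have hγc : Continuous γ := continuous_iff_continuousAt.2 fun t => (hγ t).continuousAt
    have hd : Continuous fun t => Metric.infDist (γ t) K :=
      (Metric.continuous_infDist_pt K).comp hγc
    have h1 := le_gronwallBound_of_liminf_deriv_right_le (f := fun t => Metric.infDist (γ t) K)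
      (f' := fun t => L * Metric.infDist (γ t) K) (δ := 0) (K := L) (ε := 0) (a := 0) (b := T)
      hd.continuousOn ?_ (by simp [Metric.infDist_zero_of_mem h0])
      (fun x _ => by simp) T ⟨hT, le_rfl⟩
    · have h2 : Metric.infDist (γ T) K ≤ 0 := by
        have h3 : gronwallBound 0 L 0 (T - 0) = 0 := by
          rw [gronwallBound_ε0]; simp
        rw [h3] at h1
        exact h1
      have h4 : Metric.infDist (γ T) K = 0 := le_antisymm h2 Metric.infDist_nonneg
      exact (hK.mem_iff_infDist_zero hne).2 h4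
    · intro t _ r hr
      refine Filter.Eventually.frequently ?_
      obtain ⟨y, hy, hyd⟩ := hK.exists_infDist_eq_dist hne (γ t)
      obtain ⟨β, hβ0, hβK, hβ⟩ := htan y hy
      have hG : HasDerivAt (fun z => γ z - β (z - t)) (f (γ t) - f y) t := by
        refine (hγ t).sub ?_
        have h5 : HasDerivAt (fun z : ℝ => z - t) 1 t := (hasDerivAt_id t).sub_const t
        have h6 : HasDerivAt β (f y) ((fun z : ℝ => z - t) t) := by
          show HasDerivAt β (f y) (t - t)
          rw [sub_self]; exact hβ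
        have h7 := HasDerivAt.scomp (g₁ := β) (h := fun z : ℝ => z - t) t h6 h5
        rw [one_smul] at h7
        exact h7
      set ε : ℝ := (r - L * Metric.infDist (γ t) K) / 2 with hε
      have hε0 : 0 < ε := by
        have : L * Metric.infDist (γ t) K < r := hr
        rw [hε]; linarith
      have h8 := (hasDerivAt_iff_isLittleO.1 hG).def hε0
      have h9 : ∀ᶠ z in 𝓝 t, β (z - t) ∈ K := by
        have h10 : Tendsto (fun z : ℝ => z - t) (𝓝 t) (𝓝 0) := by
          have : ContinuousAt (fun z : ℝ => z - t) t := by fun_prop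
          have h11 := this.tendsto
          rwa [sub_self] at h11
        exact h10.eventually hβK
      filter_upwards [(h8.and h9).filter_mono nhdsWithin_le_nhds, self_mem_nhdsWithin]
        with z hz hzt
      obtain ⟨h10, h11⟩ := hz
      have hpos : 0 < z - t := sub_pos.2 hzt
      rw [sub_self, hβ0, Real.norm_eq_abs, abs_of_pos hpos] at h10
      have h12 : Metric.infDist (γ z) K ≤ ‖γ z - β (z - t)‖ := by
        rw [← dist_eq_norm]; exact Metric.infDist_le_dist_of_mem h11
      have h13 : ‖γ t - y‖ = Metric.infDist (γ t) K := by rw [hyd, dist_eq_norm]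
      have h14 : ‖(z - t) • (f (γ t) - f y)‖ ≤ (z - t) * (L * Metric.infDist (γ t) K) := by
        rw [norm_smul, Real.norm_eq_abs, abs_of_pos hpos, ← h13]
        exact mul_le_mul_of_nonneg_left (hL _ _) hpos.le
      have h15 : ‖γ z - β (z - t)‖ ≤ ε * (z - t) + ‖γ t - y‖ + ‖(z - t) • (f (γ t) - f y)‖ := by
        have h16 : γ z - β (z - t) = (γ z - β (z - t) - (γ t - y) - (z - t) • (f (γ t) - f y)) +
            (γ t - y) + (z - t) • (f (γ t) - f y) := by abel
        rw [h16]
        exact (norm_add_le _ _).trans (add_le_add (norm_add_le _ _ |>.trans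
          (add_le_add h10 le_rfl)) le_rfl)
      have h17 : Metric.infDist (γ z) K - Metric.infDist (γ t) K ≤
          (z - t) * (ε + L * Metric.infDist (γ t) K) := by
        rw [h13] at h15
        linarith
      have h18 : ε + L * Metric.infDist (γ t) K < r := by
        have : r - L * Metric.infDist (γ t) K = 2 * ε := by rw [hε]; ring
        linarith
      show (z - t)⁻¹ * (Metric.infDist (γ z) K - Metric.infDist (γ t) K) < r
      calc (z - t)⁻¹ * (Metric.infDist (γ z) K - Metric.infDist (γ t) K)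
          ≤ (z - t)⁻¹ * ((z - t) * (ε + L * Metric.infDist (γ t) K)) :=
            mul_le_mul_of_nonneg_left h17 (inv_pos.2 hpos).le
        _ = ε + L * Metric.infDist (γ t) K := by field_simp
        _ < r := h18
  intro t
  rcases le_total 0 t with ht | ht
  · exact key f hL htan γ hγ h0 t ht
  · have h1 := key (fun x => -f x) (fun x y => by
      have h2 : -f x - -f y = -(f x - f y) := by abel
      rw [h2, norm_neg]; exact hL x y) (fun z hz => by
      obtain ⟨β, hβ0, hβK, hβ⟩ := htan z hz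
      refine ⟨fun t => β (-t), by simp [hβ0], ?_, ?_⟩
      · have h3 : Tendsto (fun z : ℝ => -z) (𝓝 0) (𝓝 0) := by
          have : ContinuousAt (fun z : ℝ => -z) 0 := by fun_prop
          have h4 := this.tendsto
          rwa [neg_zero] at h4
        exact h3.eventually hβK
      · have h5 : HasDerivAt β (f z) ((fun t : ℝ => -t) 0) := by
          show HasDerivAt β (f z) (-0)
          rw [neg_zero]; exact hβ
        have h6 := HasDerivAt.scomp (g₁ := β) (h := fun t : ℝ => -t) (0 : ℝ) h5
          (hasDerivAt_neg (0 : ℝ))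
        rw [neg_one_smul] at h6
        exact h6) (fun t => γ (-t)) (fun t => by
      have h6 := HasDerivAt.scomp (g₁ := γ) (h := fun t : ℝ => -t) t (hγ (-t))
        (hasDerivAt_neg t)
      rw [neg_one_smul] at h6
      exact h6) (by simpa using h0) (-t) (by linarith)
    simpa using h1

/-- the flow of a smooth vector field tangent to a compact set -/
structure IsFlowOn {V : Type*} [NormedAddCommGroup V] [NormedSpace ℝ V] (K : Set V) (f : V → V)
    (φ : ℝ → V → V) : Prop where
  smooth : ContDiff ℝ ∞ (Function.uncurry φ)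
  zero : ∀ x, φ 0 x = x
  add : ∀ s t x, φ (s + t) x = φ s (φ t x)
  maps : ∀ t, ∀ x ∈ K, φ t x ∈ K
  deriv : ∀ x ∈ K, ∀ t, HasDerivAt (fun s => φ s x) (f (φ t x)) t
  /-- the variational equation on `K` -/
  var : ∀ x ∈ K, ∀ (b : V) (t : ℝ), HasDerivAt (fun s => fderiv ℝ (φ s) x b)
    (fderiv ℝ f (φ t x) (fderiv ℝ (φ t) x b)) t
  unique : ∀ γ : ℝ → V, (∀ t, γ t ∈ K) → (∀ t, HasDerivAt γ (f (γ t)) t) → ∀ t, γ t = φ t (γ 0)

/-- Hint: `Flow.exists_extension`, `Flow.lip_of_compact`, `Flow.global_flow`, `nagumo`,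
`Flow.variational_apply`. -/
theorem exists_flow {V : Type} [NormedAddCommGroup V] [NormedSpace ℝ V] [FiniteDimensional ℝ V]
    {K : Set V} (hK : IsCompact K) {f : V → V} (hf : ContDiff ℝ ∞ f)
    (htan : ∀ z ∈ K, ∃ β : ℝ → V, β 0 = z ∧ (∀ᶠ t in 𝓝 (0 : ℝ), β t ∈ K) ∧
      HasDerivAt β (f z) 0) : ∃ φ : ℝ → V → V, IsFlowOn K f φ := by
  have hcomplete : CompleteSpace V := FiniteDimensional.complete ℝ V
  obtain ⟨g, hg, hgc, -, O, hO, hKO, -, hgf⟩ := MP_3b24f6_gt.Flow.exists_extension hK isOpen_univ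
    (subset_univ K) hf.contDiffOn
  have hgL := MP_3b24f6_gt.Flow.lip_of_compact hg hgc
  obtain ⟨φ, h1, h2, h3, h4, h5, -⟩ := MP_3b24f6_gt.Flow.global_flow hg hgL
  obtain ⟨L, hL⟩ := hgL
  have hgK : ∀ x ∈ K, g x = f x := fun x hx => hgf (hKO hx)
  have hmaps : ∀ t, ∀ x ∈ K, φ t x ∈ K := by
    intro t x hx
    refine nagumo hK.isClosed hL (fun z hz => ?_) (γ := fun t => φ t x) (fun t => h3 t x)
      (by rw [h2]; exact hx) t
    rw [hgK z hz]
    exact htan z hz
  refine ⟨φ, h1, h2, h4, hmaps, fun x hx t => ?_, fun x hx b t => ?_, fun γ hγK hγ => ?_⟩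
  · rw [← hgK _ (hmaps t x hx)]
    exact h3 t x
  · have h6 : fderiv ℝ f (φ t x) = fderiv ℝ g (φ t x) :=
      Filter.EventuallyEq.fderiv_eq ((hgf.eventuallyEq_of_mem
        (hO.mem_nhds (hKO (hmaps t x hx)))).symm)
    rw [h6]
    exact MP_3b24f6_gt.Flow.variational_apply (f := g) (h1.contDiffAt.of_le
      (show ((2 : ℕ∞) : WithTop ℕ∞) ≤ ((⊤ : ℕ∞) : WithTop ℕ∞) from WithTop.coe_le_coe.2 le_top))
      (Eventually.of_forall fun y => h3 t y) (hg.differentiable (by simp) _) b
  · exact h5 γ fun t => by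
      rw [hgK _ (hγK t)]
      exact hγ t

section

variable {E : Type} [NormedAddCommGroup E] [InnerProductSpace ℝ E] [FiniteDimensional ℝ E]
  {M : Set E} {P : E → E →L[ℝ] E}

/-- the geodesic flow -/
theorem Surf.exists_geodesic_flow (S : Surf M P) :
    ∃ φ : ℝ → E × E → E × E, IsFlowOn (UT M) (Xf P) φ :=
  exists_flow S.isCompact_UT S.contDiff_Xf fun z hz => by
    obtain ⟨β, -, h2, h3, h4⟩ := S.exists_curve hz (S.Xf_mem hz)
    exact ⟨β, h3, Eventually.of_forall h2, h4⟩

end

end Pool.Agent.PG
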