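import Pool.Agent.Work.PG.Core3

/-!
# Local product charts from smooth flows (helper88, cell PG)
-/

set_option linter.unusedVariables false
set_option linter.unusedSectionVars false

namespace Pool.Agent.PG

open Set Topology Filter

variable {V V' : Type*} [NormedAddCommGroup V] [NormedSpace ℝ V] [FiniteDimensional ℝ V]
  [NormedAddCommGroup V'] [NormedSpace ℝ V'] [FiniteDimensional ℝ V']

/-- Velocities of curves in `N`. -/
def Tan (N : Set V) (w b : V) : Prop :=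
  ∃ γ : ℝ → V, γ 0 = w ∧ (∀ᶠ t in 𝓝 (0 : ℝ), γ t ∈ N) ∧ HasDerivAt γ b 0

/-- Two commuting smooth flows on a compact set `N`, an integral `F`, and a contact form. -/
structure SFlow (V : Type*) [NormedAddCommGroup V] [NormedSpace ℝ V] where
  N : Set V
  φ : ℝ → V → V
  η : ℝ → V → V
  X : V → V
  Y : V → V
  F : V → ℝ
  α : V → V →L[ℝ] ℝ
  φ_smooth : ContDiff ℝ 1 (Function.uncurry φ)
  η_smooth : ContDiff ℝ 1 (Function.uncurry η)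
  φ_zero : ∀ w, φ 0 w = w
  η_zero : ∀ w, η 0 w = w
  φ_add : ∀ s t w, φ (s + t) w = φ s (φ t w)
  η_add : ∀ s t w, η (s + t) w = η s (η t w)
  φ_der : ∀ t, ∀ w ∈ N, HasDerivAt (fun s => φ s w) (X (φ t w)) t
  η_der : ∀ t, ∀ w ∈ N, HasDerivAt (fun s => η s w) (Y (η t w)) t
  Y_cont : Continuous Y
  φ_N : ∀ t, ∀ w ∈ N, φ t w ∈ N
  η_N : ∀ t, ∀ w ∈ N, η t w ∈ N
  comm : ∀ s t, ∀ w ∈ N, φ s (η t w) = η t (φ s w)
  F_smooth : ContDiff ℝ 1 F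
  F_φ : ∀ t, ∀ w ∈ N, F (φ t w) = F w
  F_η : ∀ t, ∀ w ∈ N, F (η t w) = F w
  α_X : ∀ w ∈ N, α w (X w) = 1
  α_Y : ∀ w ∈ N, α w (Y w) = 0
  α_pull : ∀ s t, ∀ w ∈ N, ∀ b, Tan N w b →
    α (φ s (η t w)) (fderiv ℝ (fun w => φ s (η t w)) w b) = α w b + t * fderiv ℝ F w b

/-- `C^1` inverse function theorem, in the form used below. -/
lemma local_inverse {E₁ E₂ : Type*} [NormedAddCommGroup E₁] [NormedSpace ℝ E₁]
    [CompleteSpace E₁] [NormedAddCommGroup E₂] [NormedSpace ℝ E₂]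
    {f : E₁ → E₂} {a : E₁} {f' : E₁ ≃L[ℝ] E₂} (hf : ContDiffAt ℝ 1 f a)
    (hf' : HasFDerivAt f (f' : E₁ →L[ℝ] E₂) a) :
    ∃ g : E₂ → E₁, g (f a) = a ∧ ContDiffAt ℝ 1 g (f a) ∧ (∀ᶠ x in 𝓝 a, g (f x) = x) ∧
      (∀ᶠ y in 𝓝 (f a), f (g y) = y) ∧
      HasFDerivAt g (f'.symm : E₂ →L[ℝ] E₁) (f a) := by
  have h1 : (1 : WithTop ℕ∞) ≠ 0 := one_ne_zero
  have hs := hf.hasStrictFDerivAt' hf' h1
  refine ⟨hf.localInverse hf' h1, hf.localInverse_apply_image hf' h1, hf.to_localInverse hf' h1,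
    hs.eventually_left_inverse, hs.eventually_right_inverse, hs.to_localInverse.hasFDerivAt⟩

namespace SFlow

variable (S : SFlow V)

/-- The joint flow. -/
def Φ (p : (ℝ × ℝ) × V) : V := S.φ p.1.1 (S.η p.1.2 p.2)

lemma Φ_smooth : ContDiff ℝ 1 S.Φ := by
  have h1 : ContDiff ℝ 1 fun p : (ℝ × ℝ) × V => (p.1.2, p.2) := by fun_prop
  have h2 : ContDiff ℝ 1 fun p : (ℝ × ℝ) × V => S.η p.1.2 p.2 := S.η_smooth.comp h1
  have h3 : ContDiff ℝ 1 fun p : (ℝ × ℝ) × V => (p.1.1, S.η p.1.2 p.2) := by fun_prop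
  exact S.φ_smooth.comp h3

lemma Φ_zero (w : V) : S.Φ (0, w) = w := by
  simp [Φ, S.φ_zero, S.η_zero]

lemma Φ_N (a : ℝ × ℝ) {w : V} (hw : w ∈ S.N) : S.Φ (a, w) ∈ S.N :=
  S.φ_N _ _ (S.η_N _ _ hw)

lemma Φ_add (a b : ℝ × ℝ) {w : V} (hw : w ∈ S.N) :
    S.Φ (a + b, w) = S.Φ (a, S.Φ (b, w)) := by
  simp only [Φ, Prod.fst_add, Prod.snd_add]
  rw [S.φ_add, S.η_add, S.comm b.1 a.2 _ (S.η_N _ _ hw)]

/-- The inverse of the time `a` map, on the whole space. -/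
lemma Φ_inv (a : ℝ × ℝ) (w : V) : S.η (-a.2) (S.φ (-a.1) (S.Φ (a, w))) = w := by
  simp only [Φ]
  rw [← S.φ_add, neg_add_cancel, S.φ_zero, ← S.η_add, neg_add_cancel, S.η_zero]

lemma Φ_F (a : ℝ × ℝ) {w : V} (hw : w ∈ S.N) : S.F (S.Φ (a, w)) = S.F w := by
  simp only [Φ]
  rw [S.F_φ _ _ (S.η_N _ _ hw), S.F_η _ _ hw]

lemma fderiv_Φ_fst (a : ℝ × ℝ) {w : V} (hw : w ∈ S.N) (h : ℝ × ℝ) :
    fderiv ℝ S.Φ (a, w) (h, 0) = h.1 • S.X (S.Φ (a, w)) + h.2 • S.Y (S.Φ (a, w)) := by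
  have hd : HasFDerivAt S.Φ (fderiv ℝ S.Φ (a, w)) (a, w) :=
    (S.Φ_smooth.differentiable (by norm_num) _).hasFDerivAt
  have e1 : fderiv ℝ S.Φ (a, w) ((1, 0), 0) = S.X (S.Φ (a, w)) := by
    have hc : HasDerivAt (fun s : ℝ => (((s, a.2), w) : (ℝ × ℝ) × V)) (((1, 0), 0)) a.1 :=
      ((hasDerivAt_id a.1).prodMk (hasDerivAt_const _ _)).prodMk (hasDerivAt_const _ _)
    have h1 := hd.comp_hasDerivAt a.1 hc
    have h2 : HasDerivAt (fun s => S.φ s (S.η a.2 w)) (S.X (S.φ a.1 (S.η a.2 w))) a.1 :=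
      S.φ_der _ _ (S.η_N _ _ hw)
    exact h1.unique h2
  have e2 : fderiv ℝ S.Φ (a, w) ((0, 1), 0) = S.Y (S.Φ (a, w)) := by
    have hc : HasDerivAt (fun s : ℝ => (((a.1, s), w) : (ℝ × ℝ) × V)) (((0, 1), 0)) a.2 :=
      ((hasDerivAt_const _ _).prodMk (hasDerivAt_id a.2)).prodMk (hasDerivAt_const _ _)
    have h1 := hd.comp_hasDerivAt a.2 hc
    have h2 : HasDerivAt (fun s => S.φ a.1 (S.η s w)) (S.Y (S.Φ (a, w))) a.2 := by
      have h3 : HasDerivAt (fun s => S.η s (S.φ a.1 w)) (S.Y (S.η a.2 (S.φ a.1 w))) a.2 :=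
        S.η_der _ _ (S.φ_N _ _ hw)
      have h4 : (fun s => S.φ a.1 (S.η s w)) = fun s => S.η s (S.φ a.1 w) := by
        funext s; exact S.comm _ _ _ hw
      rw [h4]
      simp only [Φ]
      rw [S.comm _ _ _ hw]
      exact h3
    exact h1.unique h2
  have e3 : ((h, 0) : (ℝ × ℝ) × V) = h.1 • ((1, 0), 0) + h.2 • ((0, 1), 0) := by
    simp
  rw [e3, map_add, map_smul, map_smul, e1, e2]

lemma fderiv_Φ_snd (a : ℝ × ℝ) (w v : V) :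
    fderiv ℝ S.Φ (a, w) (0, v) = fderiv ℝ (fun w => S.φ a.1 (S.η a.2 w)) w v := by
  have hd : HasFDerivAt S.Φ (fderiv ℝ S.Φ (a, w)) (a, w) :=
    (S.Φ_smooth.differentiable (by norm_num) _).hasFDerivAt
  have hc : HasFDerivAt (fun w : V => (a, w)) (ContinuousLinearMap.inr ℝ (ℝ × ℝ) V) w :=
    hasFDerivAt_prodMk_right a w
  have h1 := hd.comp w hc
  have h2 : fderiv ℝ (fun w => S.φ a.1 (S.η a.2 w)) w
      = (fderiv ℝ S.Φ (a, w)).comp (ContinuousLinearMap.inr ℝ (ℝ × ℝ) V) := h1.fderiv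
  rw [h2]
  simp

/-- The formula `a_s' = - a_t` for stabilisers along a curve transversal to the levels. -/
lemma period_formula {σ : ℝ → V} {a : ℝ → ℝ × ℝ} {c : ℝ} {σ' : V} {a' : ℝ × ℝ}
    (hσ : HasDerivAt σ σ' c) (ha : HasDerivAt a a' c) (hσN : ∀ᶠ c' in 𝓝 c, σ c' ∈ S.N)
    (hσF : ∀ᶠ c' in 𝓝 c, S.F (σ c') = c') (hst : ∀ᶠ c' in 𝓝 c, S.Φ (a c', σ c') = σ c') :
    HasDerivAt (fun c => (a c).1) (-(a c).2) c := by
  have hN : σ c ∈ S.N := hσN.self_of_nhds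
  have hfix : S.Φ (a c, σ c) = σ c := hst.self_of_nhds
  have hd : HasFDerivAt S.Φ (fderiv ℝ S.Φ (a c, σ c)) (a c, σ c) :=
    (S.Φ_smooth.differentiable (by norm_num) _).hasFDerivAt
  have h1 : HasDerivAt (fun c' => S.Φ (a c', σ c')) (fderiv ℝ S.Φ (a c, σ c) (a', σ')) c := by
    have hp : HasDerivAt (fun c' => (a c', σ c')) (a', σ') c := ha.prodMk hσ
    exact HasFDerivAt.comp_hasDerivAt (f := fun c' => (a c', σ c')) (l := S.Φ) c hd hp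
  have h2 : HasDerivAt σ (fderiv ℝ S.Φ (a c, σ c) (a', σ')) c :=
    h1.congr_of_eventuallyEq (hst.mono fun c' hc' => hc'.symm)
  have h3 : fderiv ℝ S.Φ (a c, σ c) (a', σ') = σ' := h2.unique hσ
  have h4 : ((a', σ') : (ℝ × ℝ) × V) = (a', 0) + (0, σ') := by simp
  rw [h4, map_add, S.fderiv_Φ_fst _ hN, S.fderiv_Φ_snd, hfix] at h3
  have hTan : Tan S.N (σ c) σ' := by
    refine ⟨fun t => σ (c + t), by simp, ?_, ?_⟩
    · have h5 : Tendsto (fun t : ℝ => c + t) (𝓝 0) (𝓝 c) := by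
        have : Tendsto (fun t : ℝ => c + t) (𝓝 0) (𝓝 (c + 0)) := tendsto_const_nhds.add tendsto_id
        rwa [add_zero] at this
      exact h5.eventually hσN
    · have h5 : HasDerivAt (fun t : ℝ => c + t) 1 0 := by
        simpa using (hasDerivAt_id (0 : ℝ)).const_add c
      have h6 : HasDerivAt σ σ' (c + 0) := by rwa [add_zero]
      have h7 := h6.scomp (0 : ℝ) h5
      rw [one_smul] at h7
      exact h7
  have hF : fderiv ℝ S.F (σ c) σ' = 1 := by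
    have h5 : HasFDerivAt S.F (fderiv ℝ S.F (σ c)) (σ c) :=
      (S.F_smooth.differentiable (by norm_num) _).hasFDerivAt
    have h6 := h5.comp_hasDerivAt c hσ
    have h7 : HasDerivAt (fun c' : ℝ => c') (fderiv ℝ S.F (σ c) σ') c :=
      h6.congr_of_eventuallyEq (hσF.mono fun c' hc' => hc'.symm)
    exact h7.unique (hasDerivAt_id c)
  have hpull := S.α_pull (a c).1 (a c).2 (σ c) hN σ' hTan
  have hfix' : S.φ (a c).1 (S.η (a c).2 (σ c)) = σ c := hfix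
  rw [hfix', hF] at hpull
  have h8 := congrArg (S.α (σ c)) h3
  rw [map_add, map_add, map_smul, map_smul, S.α_X _ hN, S.α_Y _ hN, hpull] at h8
  simp only [smul_eq_mul, mul_one, mul_zero, add_zero] at h8
  have h9 : a'.1 = -(a c).2 := by linarith
  rw [← h9]
  exact ha.fst

/-- The action on `N`. -/
def ψN (a : ℝ × ℝ) (w : S.N) : S.N := ⟨S.Φ (a, w), S.Φ_N a w.2⟩

/-- The integral on `N`. -/
def FN (w : S.N) : ℝ := S.F w

/-- Local inverses of three-parameter maps into `N` with injective derivative. -/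
def HasLocalInverses : Prop :=
  ∀ (Ψ : ℝ × ℝ × ℝ → V) (q : ℝ × ℝ × ℝ), ContDiffAt ℝ 1 Ψ q → (∀ᶠ r in 𝓝 q, Ψ r ∈ S.N) →
    Function.Injective (fderiv ℝ Ψ q) →
    ∃ Λ : V → ℝ × ℝ × ℝ, Λ (Ψ q) = q ∧ ContDiffAt ℝ 1 Λ (Ψ q) ∧
      (∀ᶠ r in 𝓝 q, Λ (Ψ r) = r) ∧ (∀ᶠ z in 𝓝 (Ψ q), z ∈ S.N → Ψ (Λ z) = z)

/-- The three-parameter map attached to a transversal `σ`. -/
def Ψσ (σ : ℝ → V) (q : ℝ × ℝ × ℝ) : V := S.Φ ((q.1, q.2.1), σ q.2.2)

variable {S}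

lemma Ψσ_zero (σ : ℝ → V) (c : ℝ) : S.Ψσ σ (0, 0, c) = σ c := by
  change S.Φ ((0 : ℝ × ℝ), σ c) = σ c
  exact S.Φ_zero _

lemma Ψσ_contDiffAt {σ : ℝ → V} {c : ℝ} (hσ : ContDiffAt ℝ 1 σ c) (s t : ℝ) :
    ContDiffAt ℝ 1 (S.Ψσ σ) (s, t, c) := by
  have h1 : ContDiffAt ℝ 1 (fun q : ℝ × ℝ × ℝ => σ q.2.2) (s, t, c) := by
    have h2 : ContDiffAt ℝ 1 (fun q : ℝ × ℝ × ℝ => q.2.2) (s, t, c) := by fun_prop
    exact ContDiffAt.comp (g := σ) (f := fun q : ℝ × ℝ × ℝ => q.2.2) (s, t, c) hσ h2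
  have h3 : ContDiffAt ℝ 1 (fun q : ℝ × ℝ × ℝ => (((q.1, q.2.1), σ q.2.2) : (ℝ × ℝ) × V))
      (s, t, c) := by
    refine ContDiffAt.prodMk ?_ h1
    fun_prop
  exact ContDiffAt.comp (g := S.Φ) (s, t, c) S.Φ_smooth.contDiffAt h3

lemma Ψσ_injective {σ : ℝ → V} {c : ℝ} (hσ : ContDiffAt ℝ 1 σ c)
    (hσN : ∀ᶠ c' in 𝓝 c, σ c' ∈ S.N) (hσF : ∀ᶠ c' in 𝓝 c, S.F (σ c') = c')
    (hY : S.Y (σ c) ≠ 0) : Function.Injective (fderiv ℝ (S.Ψσ σ) (0, 0, c)) := by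
  have hN : σ c ∈ S.N := hσN.self_of_nhds
  have hσd : HasDerivAt σ (deriv σ c) c := (hσ.differentiableAt (by norm_num)).hasDerivAt
  have hd : HasFDerivAt (S.Ψσ σ) (fderiv ℝ (S.Ψσ σ) (0, 0, c)) (0, 0, c) :=
    ((Ψσ_contDiffAt hσ 0 0).differentiableAt (by norm_num)).hasFDerivAt
  have hX : fderiv ℝ (S.Ψσ σ) (0, 0, c) (1, 0, 0) = S.X (σ c) := by
    have hc : HasDerivAt (fun s : ℝ => ((s, 0, c) : ℝ × ℝ × ℝ)) (1, 0, 0) 0 :=
      (hasDerivAt_id (0 : ℝ)).prodMk (hasDerivAt_const _ _)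
    have h1 := HasFDerivAt.comp_hasDerivAt (f := fun s : ℝ => ((s, 0, c) : ℝ × ℝ × ℝ)) 0 hd hc
    have h2 := S.φ_der 0 _ hN
    rw [S.φ_zero] at h2
    have h3 : (S.Ψσ σ ∘ fun s : ℝ => ((s, 0, c) : ℝ × ℝ × ℝ)) = fun s => S.φ s (σ c) := by
      funext s
      simp [Ψσ, Φ, S.η_zero]
    rw [h3] at h1
    exact h1.unique h2
  have hYd : fderiv ℝ (S.Ψσ σ) (0, 0, c) (0, 1, 0) = S.Y (σ c) := by
    have hc : HasDerivAt (fun s : ℝ => ((0, s, c) : ℝ × ℝ × ℝ)) (0, 1, 0) 0 :=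
      (hasDerivAt_const _ _).prodMk ((hasDerivAt_id (0 : ℝ)).prodMk (hasDerivAt_const _ _))
    have h1 := HasFDerivAt.comp_hasDerivAt (f := fun s : ℝ => ((0, s, c) : ℝ × ℝ × ℝ)) 0 hd hc
    have h2 := S.η_der 0 _ hN
    rw [S.η_zero] at h2
    have h3 : (S.Ψσ σ ∘ fun s : ℝ => ((0, s, c) : ℝ × ℝ × ℝ)) = fun s => S.η s (σ c) := by
      funext s
      simp [Ψσ, Φ, S.φ_zero]
    rw [h3] at h1
    exact h1.unique h2
  have hσ' : fderiv ℝ (S.Ψσ σ) (0, 0, c) (0, 0, 1) = deriv σ c := by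
    have hc : HasDerivAt (fun s : ℝ => ((0, 0, s) : ℝ × ℝ × ℝ)) (0, 0, 1) c :=
      (hasDerivAt_const _ _).prodMk ((hasDerivAt_const _ _).prodMk (hasDerivAt_id c))
    have h1 := HasFDerivAt.comp_hasDerivAt (f := fun s : ℝ => ((0, 0, s) : ℝ × ℝ × ℝ)) c hd hc
    have h3 : (S.Ψσ σ ∘ fun s : ℝ => ((0, 0, s) : ℝ × ℝ × ℝ)) = σ := by
      funext s
      exact Ψσ_zero σ s
    rw [h3] at h1
    exact h1.unique hσd
  have hF' : HasFDerivAt S.F (fderiv ℝ S.F (σ c)) (σ c) :=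
    (S.F_smooth.differentiable (by norm_num) _).hasFDerivAt
  have hFσ : fderiv ℝ S.F (σ c) (deriv σ c) = 1 := by
    have h6 := hF'.comp_hasDerivAt c hσd
    have h7 : HasDerivAt (fun c' : ℝ => c') (fderiv ℝ S.F (σ c) (deriv σ c)) c :=
      h6.congr_of_eventuallyEq (hσF.mono fun c' hc' => hc'.symm)
    exact h7.unique (hasDerivAt_id c)
  have hFX : fderiv ℝ S.F (σ c) (S.X (σ c)) = 0 := by
    have h2 := S.φ_der 0 _ hN
    rw [S.φ_zero] at h2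
    have h3 : HasFDerivAt S.F (fderiv ℝ S.F (σ c)) (S.φ 0 (σ c)) := by rwa [S.φ_zero]
    have h4 := HasFDerivAt.comp_hasDerivAt (f := fun s => S.φ s (σ c)) 0 h3 h2
    have h5 : (S.F ∘ fun s => S.φ s (σ c)) = fun _ => S.F (σ c) := by
      funext s; exact S.F_φ s _ hN
    rw [h5] at h4
    exact h4.unique (hasDerivAt_const _ _)
  have hFY : fderiv ℝ S.F (σ c) (S.Y (σ c)) = 0 := by
    have h2 := S.η_der 0 _ hN
    rw [S.η_zero] at h2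
    have h3 : HasFDerivAt S.F (fderiv ℝ S.F (σ c)) (S.η 0 (σ c)) := by rwa [S.η_zero]
    have h4 := HasFDerivAt.comp_hasDerivAt (f := fun s => S.η s (σ c)) 0 h3 h2
    have h5 : (S.F ∘ fun s => S.η s (σ c)) = fun _ => S.F (σ c) := by
      funext s; exact S.F_η s _ hN
    rw [h5] at h4
    exact h4.unique (hasDerivAt_const _ _)
  have hcomb : ∀ v : ℝ × ℝ × ℝ, fderiv ℝ (S.Ψσ σ) (0, 0, c) v
      = v.1 • S.X (σ c) + v.2.1 • S.Y (σ c) + v.2.2 • deriv σ c := by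
    intro v
    have e : v = v.1 • ((1, 0, 0) : ℝ × ℝ × ℝ) + v.2.1 • ((0, 1, 0) : ℝ × ℝ × ℝ)
        + v.2.2 • ((0, 0, 1) : ℝ × ℝ × ℝ) := by
      obtain ⟨a, b, d⟩ := v
      simp
    conv_lhs => rw [e]
    rw [map_add, map_add, map_smul, map_smul, map_smul, hX, hYd, hσ']
  rw [injective_iff_map_eq_zero]
  intro v hv
  rw [hcomb] at hv
  have h1 := congrArg (fderiv ℝ S.F (σ c)) hv
  rw [map_add, map_add, map_smul, map_smul, map_smul, hFX, hFY, hFσ, map_zero] at h1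
  simp only [smul_eq_mul, mul_zero, mul_one, zero_add] at h1
  rw [h1, zero_smul, add_zero] at hv
  have h2 := congrArg (S.α (σ c)) hv
  rw [map_add, map_smul, map_smul, S.α_X _ hN, S.α_Y _ hN, map_zero] at h2
  simp only [smul_eq_mul, mul_zero, mul_one, add_zero] at h2
  rw [h2, zero_smul, zero_add] at hv
  have h3 : v.2.1 = 0 := by
    rcases smul_eq_zero.1 hv with h | h
    · exact h
    · exact absurd h hY
  exact Prod.ext h2 (Prod.ext h3 h1)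

/-- Local coordinates `(s, t, c)` near a point of the transversal. -/
lemma coords (hLI : S.HasLocalInverses) {σ : ℝ → V} {I : Set ℝ} (hI : IsOpen I)
    (hσ : ContDiffOn ℝ 1 σ I) (hσN : ∀ c ∈ I, σ c ∈ S.N) (hσF : ∀ c ∈ I, S.F (σ c) = c)
    (hY : ∀ c ∈ I, S.Y (σ c) ≠ 0) {c : ℝ} (hc : c ∈ I) :
    ∃ Λ : V → ℝ × ℝ, Λ (σ c) = 0 ∧ ContDiffAt ℝ 1 Λ (σ c) ∧
      ∀ᶠ z in 𝓝 (σ c), z ∈ S.N → S.F z ∈ I ∧ S.Φ (Λ z, σ (S.F z)) = z := by
  have hσc : ContDiffAt ℝ 1 σ c := hσ.contDiffAt (hI.mem_nhds hc)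
  have hIc : ∀ᶠ c' in 𝓝 c, c' ∈ I := hI.mem_nhds hc
  have hΨN : ∀ᶠ r in 𝓝 ((0 : ℝ), (0 : ℝ), c), S.Ψσ σ r ∈ S.N := by
    have h1 : Tendsto (fun r : ℝ × ℝ × ℝ => r.2.2) (𝓝 ((0 : ℝ), (0 : ℝ), c)) (𝓝 c) :=
      (continuous_snd.comp continuous_snd).tendsto _
    filter_upwards [h1.eventually hIc] with r hr
    exact S.Φ_N _ (hσN _ hr)
  obtain ⟨Λ, h1, h2, h3, h4⟩ := hLI (S.Ψσ σ) (0, 0, c) (Ψσ_contDiffAt hσc 0 0) hΨN
    (Ψσ_injective hσc (hIc.mono hσN) (hIc.mono hσF) (hY c hc))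
  rw [Ψσ_zero] at h1 h2 h4
  refine ⟨fun z => ((Λ z).1, (Λ z).2.1), by simp [h1], ?_, ?_⟩
  · exact h2.fst.prodMk h2.snd.fst
  · have h5 : Tendsto (fun z => (Λ z).2.2) (𝓝 (σ c)) (𝓝 c) := by
      have h6 := (continuous_snd.comp continuous_snd).tendsto (Λ (σ c)) |>.comp
        h2.continuousAt.tendsto
      rw [h1] at h6
      exact h6
    filter_upwards [h4, h5.eventually hIc] with z hz hzI hzN
    have h7 := hz hzN
    have h8 : S.F z = (Λ z).2.2 := by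
      have h9 := congrArg S.F h7
      rw [← h9]
      change S.F (S.Φ _) = _
      rw [S.Φ_F _ (hσN _ hzI), hσF _ hzI]
    rw [h8]
    exact ⟨hzI, h7⟩

/-- **The chart.** -/
theorem chartAt (hLI : S.HasLocalInverses) {σ : ℝ → V} {z : V} (hz : z ∈ S.N) {r : ℝ}
    (hr : 0 < r) (hσ : ContDiffOn ℝ 1 σ (Ioo (S.F z - r) (S.F z + r)))
    (hσz : σ (S.F z) = z) (hσN : ∀ c ∈ Ioo (S.F z - r) (S.F z + r), σ c ∈ S.N)
    (hσF : ∀ c ∈ Ioo (S.F z - r) (S.F z + r), S.F (σ c) = c)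
    (hY : ∀ c ∈ Ioo (S.F z - r) (S.F z + r), S.Y (σ c) ≠ 0) :
    Nonempty (ChartAt S.ψN S.FN {w | S.Y w = 0} ⟨z, hz⟩) := by
  classical
  set I := Ioo (S.F z - r) (S.F z + r) with hIdef
  have hIo : IsOpen I := isOpen_Ioo
  have hzI : S.F z ∈ I := ⟨by linarith, by linarith⟩
  let τ : ℝ → S.N := fun c => if h : c ∈ I then ⟨σ c, hσN c h⟩ else ⟨z, hz⟩
  have hτ : ∀ c ∈ I, ((τ c : S.N) : V) = σ c := by
    intro c hc
    simp only [τ, dif_pos hc]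
  have hτ' : ∀ c (hc : c ∈ I), τ c = ⟨σ c, hσN c hc⟩ := by
    intro c hc
    simp only [τ, dif_pos hc]
  refine ⟨⟨τ, ?_, r, hr, ?_, ?_, ?_, ?_, ?_⟩⟩
  · apply Subtype.ext
    change ((τ (S.F z) : S.N) : V) = z
    rw [hτ _ hzI, hσz]
  · change ContinuousOn τ I
    rw [Topology.IsInducing.subtypeVal.continuousOn_iff]
    exact hσ.continuousOn.congr hτ
  · intro c hc
    change S.F (τ c) = c
    rw [hτ c hc, hσF c hc]
  · intro c hc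
    change ¬ (S.Y (τ c) = 0)
    rw [hτ c hc]
    exact hY c hc
  · intro ε hε
    change _ ∈ 𝓝 (⟨z, hz⟩ : S.N)
    obtain ⟨Λ, h1, h2, h3⟩ := coords hLI hIo hσ hσN hσF hY hzI
    rw [hσz] at h1 h2 h3
    have h4 : ∀ᶠ w in 𝓝 z, ‖Λ w‖ < ε := by
      have := h2.continuousAt.norm.tendsto.eventually_lt_const (u := ε) (by simp [h1, hε])
      exact this
    have h5 : ∀ᶠ w in 𝓝 z, |S.F w - S.F z| < ε := by
      have hc : Continuous fun w => |S.F w - S.F z| :=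
        (S.F_smooth.continuous.sub continuous_const).abs
      exact (hc.tendsto z).eventually_lt_const (by simp [hε])
    have h6 : ∀ᶠ w : S.N in 𝓝 ⟨z, hz⟩, ((w : V) ∈ S.N → S.F w ∈ I ∧ S.Φ (Λ w, σ (S.F w)) = w) ∧
        ‖Λ w‖ < ε ∧ |S.F w - S.F z| < ε :=
      (continuous_subtype_val.tendsto (⟨z, hz⟩ : S.N)).eventually (h3.and (h4.and h5))
    filter_upwards [h6] with w hw
    obtain ⟨hw1, hw2, hw3⟩ := hw
    obtain ⟨hw4, hw5⟩ := hw1 w.2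
    refine ⟨Λ w, S.F w, hw2, hw4, hw3, ?_⟩
    apply Subtype.ext
    change S.Φ (Λ w, (τ (S.F w) : S.N)) = w
    rw [hτ _ hw4]
    exact hw5
  · intro c₁ hc₁ a₁ ha₁
    change c₁ ∈ I at hc₁
    have ha₁' : S.Φ (a₁, σ c₁) = σ c₁ := by
      have := congrArg Subtype.val ha₁
      change S.Φ (a₁, (τ c₁ : S.N)) = (τ c₁ : S.N) at this
      rwa [hτ c₁ hc₁] at this
    obtain ⟨Λ, h1, h2, h3⟩ := coords hLI hIo hσ hσN hσF hY hc₁
    -- the displaced transversal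
    have hσc : ∀ c ∈ I, ContDiffAt ℝ 1 σ c := fun c hc => hσ.contDiffAt (hIo.mem_nhds hc)
    have hw : ∀ c ∈ I, ContDiffAt ℝ 1 (fun c => S.Φ (a₁, σ c)) c := fun c hc =>
      ContDiffAt.comp (g := S.Φ) c S.Φ_smooth.contDiffAt (contDiffAt_const.prodMk (hσc c hc))
    have hwt : Tendsto (fun c => S.Φ (a₁, σ c)) (𝓝 c₁) (𝓝 (σ c₁)) := by
      have := (hw c₁ hc₁).continuousAt.tendsto
      rwa [ha₁'] at this
    have hΛe : ∀ᶠ w in 𝓝 (σ c₁), ContDiffAt ℝ 1 Λ w := h2.eventually (by simp)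
    have hIe : ∀ᶠ c in 𝓝 c₁, c ∈ I := hIo.mem_nhds hc₁
    have hst : ∀ᶠ c in 𝓝 c₁, S.Φ (a₁ - Λ (S.Φ (a₁, σ c)), σ c) = σ c := by
      filter_upwards [hwt.eventually h3, hIe] with c hc hcI
      have hN := hσN c hcI
      obtain ⟨-, h5⟩ := hc (S.Φ_N _ hN)
      rw [S.Φ_F _ hN, hσF c hcI] at h5
      have h6 : a₁ - Λ (S.Φ (a₁, σ c)) = -Λ (S.Φ (a₁, σ c)) + a₁ := by abel
      rw [h6, S.Φ_add _ _ hN]
      conv_lhs => rw [← h5]
      rw [← S.Φ_add _ _ hN]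
      rw [h5]
      rw [neg_add_cancel, S.Φ_zero]
    have hdiff : ∀ᶠ c in 𝓝 c₁, ContDiffAt ℝ 1 (fun c => a₁ - Λ (S.Φ (a₁, σ c))) c := by
      filter_upwards [hwt.eventually hΛe, hIe] with c hc hcI
      exact contDiffAt_const.sub (ContDiffAt.comp (g := Λ) c hc (hw c hcI))
    refine ⟨fun c => a₁ - Λ (S.Φ (a₁, σ c)), ?_, ?_⟩
    · simp only
      rw [ha₁', h1, sub_zero]
    · filter_upwards [hst, hst.eventually_nhds, hdiff, hIe, hIe.eventually_nhds]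
        with c hc hc2 hc3 hcI hcI2
      refine ⟨?_, hc3.continuousAt, ?_⟩
      · apply Subtype.ext
        change S.Φ (_, (τ c : S.N)) = (τ c : S.N)
        rw [hτ c hcI]
        exact hc
      · exact S.period_formula ((hσc c hcI).differentiableAt (by norm_num)).hasDerivAt
          (hc3.differentiableAt (by norm_num)).hasDerivAt (hcI2.mono hσN) (hcI2.mono hσF) hc2

end SFlow

end Pool.Agent.PG
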