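import Pool.Agent.Work.PG.Pres
import Pool.Agent.Work.PG.LocAbs

/-!
# Local coordinates on the unit tangent bundle

Module E of cell PG.
-/

set_option autoImplicit false
set_option linter.unusedVariables false

open Set Filter Topology
open scoped ContDiff InnerProductSpace

namespace Pool.Agent.PG

variable {E : Type} [NormedAddCommGroup E] [InnerProductSpace ℝ E] [FiniteDimensional ℝ E]
  {M : Set E} {P : E → E →L[ℝ] E}

/-- A unit vector `n` completing the unit tangent vector `v` to an orthonormal basis of the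
tangent plane. -/
lemma Surf.exists_normal (S : Surf M P) {z : E × E} (hz : z ∈ UT M) :
    ∃ n : E, P z.1 n = n ∧ ‖n‖ = 1 ∧ ⟪n, z.2⟫_ℝ = 0 ∧
      ∀ a, P z.1 a = ⟪z.2, a⟫_ℝ • z.2 + ⟪n, a⟫_ℝ • n := by
  obtain ⟨hx, hv, hv1⟩ := S.mem_UT.1 hz
  obtain ⟨e₁, e₂, h1, h2, h3, h4, h5, h6⟩ := S.plane z.1 hx
  set α := ⟪e₁, z.2⟫_ℝ with hα
  set β := ⟪e₂, z.2⟫_ℝ with hβ
  have hvd : z.2 = α • e₁ + β • e₂ := by rw [hα, hβ, ← h6, hv]
  have h5' : ⟪e₂, e₁⟫_ℝ = 0 := by rw [real_inner_comm]; exact h5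
  have h33 : ⟪e₁, e₁⟫_ℝ = 1 := by rw [real_inner_self_eq_norm_sq, h3]; norm_num
  have h44 : ⟪e₂, e₂⟫_ℝ = 1 := by rw [real_inner_self_eq_norm_sq, h4]; norm_num
  have hαβ : α ^ 2 + β ^ 2 = 1 := by
    have h7 : ⟪z.2, z.2⟫_ℝ = 1 := by rw [real_inner_self_eq_norm_sq, hv1]; norm_num
    rw [hvd] at h7
    simp only [inner_add_left, inner_add_right, real_inner_smul_left, real_inner_smul_right,
      h33, h44, h5, h5'] at h7
    nlinarith
  refine ⟨-β • e₁ + α • e₂, ?_, ?_, ?_, ?_⟩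
  · rw [map_add, map_smul, map_smul, h1, h2]
  · have h8 : ‖-β • e₁ + α • e₂‖ ^ 2 = 1 := by
      rw [← real_inner_self_eq_norm_sq]
      simp only [inner_add_left, inner_add_right, real_inner_smul_left, real_inner_smul_right,
        h33, h44, h5, h5']
      nlinarith
    have h9 := norm_nonneg (-β • e₁ + α • e₂)
    nlinarith
  · rw [hvd]
    simp only [inner_add_left, inner_add_right, real_inner_smul_left, real_inner_smul_right,
      h33, h44, h5, h5']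
    ring
  · intro a
    rw [h6 a]
    have e1 : ⟪z.2, a⟫_ℝ = α * ⟪e₁, a⟫_ℝ + β * ⟪e₂, a⟫_ℝ := by
      rw [hvd]
      simp only [inner_add_left, real_inner_smul_left]
    have e2 : ⟪-β • e₁ + α • e₂, a⟫_ℝ = -β * ⟪e₁, a⟫_ℝ + α * ⟪e₂, a⟫_ℝ := by
      simp only [inner_add_left, real_inner_smul_left]
    rw [e1, e2]
    conv_rhs => rw [hvd]
    have e3 : ⟪e₁, a⟫_ℝ = (α ^ 2 + β ^ 2) * ⟪e₁, a⟫_ℝ := by rw [hαβ, one_mul]
    have e4 : ⟪e₂, a⟫_ℝ = (α ^ 2 + β ^ 2) * ⟪e₂, a⟫_ℝ := by rw [hαβ, one_mul]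
    conv_lhs => rw [e3, e4]
    module

/-- local charts of the unit tangent bundle: `κ' (y, w) = (κ y 0, κ y 1, ⟪n, w⟫)`. -/
theorem Surf.exists_chart_UT (S : Surf M P) {z : E × E} (hz : z ∈ UT M) :
    ∃ (O : Set (E × E)) (κ : E × E → ℝ × ℝ × ℝ), IsOpen O ∧ z ∈ O ∧ ContDiffOn ℝ ∞ κ O ∧
      InjOn κ (UT M ∩ O) ∧ ∀ b ∈ TU P z, fderiv ℝ κ z b = 0 → b = 0 := by
  obtain ⟨hx, hv, hv1⟩ := S.mem_UT.1 hz
  obtain ⟨n, hn, hn1, hnv, hP⟩ := S.exists_normal hz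
  obtain ⟨O₀, κ₀, hO₀, hxO, hκ₀, hinj, hder⟩ := S.chart z.1 hx
  -- the neighbourhood
  have hPc : Continuous P := S.smooth.continuous
  set O₁ : Set (E × E) := {q | ‖P q.1 - P z.1‖ < 1 / 4} ∩ {q | ‖q.2 - z.2‖ < 1 / 4} with hO₁
  have hO₁o : IsOpen O₁ := by
    refine IsOpen.inter ?_ ?_
    · exact isOpen_lt ((hPc.comp continuous_fst).sub continuous_const).norm continuous_const
    · exact isOpen_lt (continuous_snd.sub continuous_const).norm continuous_const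
  set O : Set (E × E) := (Prod.fst ⁻¹' O₀) ∩ O₁ with hO
  have hOo : IsOpen O := (hO₀.preimage continuous_fst).inter hO₁o
  have hzO : z ∈ O := ⟨hxO, by simp [hO₁], by simp⟩
  set κ : E × E → ℝ × ℝ × ℝ := fun q => (κ₀ q.1 0, κ₀ q.1 1, ⟪n, q.2⟫_ℝ) with hκ
  have hκ₀' : ContDiffOn ℝ ∞ (fun q : E × E => κ₀ q.1) O :=
    hκ₀.comp contDiff_fst.contDiffOn fun q hq => hq.1
  have hκsm : ContDiffOn ℝ ∞ κ O := by
    have hc : ∀ i : Fin 2, ContDiffOn ℝ ∞ (fun q : E × E => κ₀ q.1 i) O := by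
      intro i
      have : ContDiff ℝ ∞ (fun p : Pl => p i) := (EuclideanSpace.proj (𝕜 := ℝ) i).contDiff
      exact this.comp_contDiffOn hκ₀'
    refine (hc 0).prodMk ((hc 1).prodMk ?_)
    exact (contDiff_const.inner ℝ contDiff_snd).contDiffOn
  refine ⟨O, κ, hOo, hzO, hκsm, ?_, ?_⟩
  · rintro ⟨y, w⟩ ⟨hq, hqO⟩ ⟨y', w'⟩ ⟨hq', hqO'⟩ heq
    obtain ⟨hy, hw, hw1⟩ := S.mem_UT.1 hq
    obtain ⟨hy', hw', hw1'⟩ := S.mem_UT.1 hq'
    simp only at hy hw hw1 hy' hw' hw1'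
    simp only [hκ, Prod.mk.injEq] at heq
    obtain ⟨e0, e1, e2⟩ := heq
    have hyy : y = y' := by
      apply hinj ⟨hy, hqO.1⟩ ⟨hy', hqO'.1⟩
      ext i
      fin_cases i
      · exact e0
      · exact e1
    subst hyy
    -- the difference of the unit vectors
    set d := w - w' with hd
    have hPd : P y d = d := by rw [hd, map_sub, hw, hw']
    have hdn : ⟪n, d⟫_ℝ = 0 := by rw [hd, inner_sub_right, e2, sub_self]
    have hds : ⟪d, w + w'⟫_ℝ = 0 := by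
      have h1 : ⟪w, w⟫_ℝ = 1 := by rw [real_inner_self_eq_norm_sq, hw1]; norm_num
      have h2 : ⟪w', w'⟫_ℝ = 1 := by rw [real_inner_self_eq_norm_sq, hw1']; norm_num
      rw [hd]
      simp only [inner_sub_left, inner_add_right]
      rw [h1, h2, real_inner_comm w' w]
      ring
    have h1 : |⟪z.2, d⟫_ℝ| ≤ 1 / 4 * ‖d‖ := by
      have e3 : 2 * ⟪z.2, d⟫_ℝ = -⟪d, (w - z.2) + (w' - z.2)⟫_ℝ := by
        have : ⟪d, (w - z.2) + (w' - z.2)⟫_ℝ = ⟪d, w + w'⟫_ℝ - 2 * ⟪d, z.2⟫_ℝ := by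
          simp only [inner_add_right, inner_sub_right]; ring
        rw [this, hds, real_inner_comm]; ring
      have e4 : |⟪d, (w - z.2) + (w' - z.2)⟫_ℝ| ≤ ‖d‖ * (1 / 4 + 1 / 4) := by
        refine (abs_real_inner_le_norm _ _).trans ?_
        refine mul_le_mul_of_nonneg_left ?_ (norm_nonneg _)
        refine (norm_add_le _ _).trans (add_le_add ?_ ?_)
        · exact (show ‖w - z.2‖ < 1 / 4 from hqO.2.2).le
        · exact (show ‖w' - z.2‖ < 1 / 4 from hqO'.2.2).le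
      have e5 : |2 * ⟪z.2, d⟫_ℝ| = |⟪d, (w - z.2) + (w' - z.2)⟫_ℝ| := by rw [e3, abs_neg]
      rw [abs_mul, abs_of_pos (by norm_num : (0 : ℝ) < 2)] at e5
      linarith
    have h2 : ‖d‖ ≤ 1 / 4 * ‖d‖ + 1 / 4 * ‖d‖ := by
      have e3 : d = ⟪z.2, d⟫_ℝ • z.2 + (P y - P z.1) d := by
        rw [ContinuousLinearMap.sub_apply, hPd, hP d, hdn, zero_smul, add_zero]; abel
      calc ‖d‖ = ‖⟪z.2, d⟫_ℝ • z.2 + (P y - P z.1) d‖ := by rw [← e3]
        _ ≤ ‖⟪z.2, d⟫_ℝ • z.2‖ + ‖(P y - P z.1) d‖ := norm_add_le _ _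
        _ ≤ 1 / 4 * ‖d‖ + 1 / 4 * ‖d‖ := by
            refine add_le_add ?_ ?_
            · rw [norm_smul, hv1, mul_one]; exact h1
            · exact ((P y - P z.1).le_opNorm d).trans (mul_le_mul_of_nonneg_right
                (show ‖P y - P z.1‖ < 1 / 4 from hqO.2.1).le (norm_nonneg _))
    have h3 : ‖d‖ = 0 := by linarith [norm_nonneg d]
    have h4 : w = w' := sub_eq_zero.1 (norm_eq_zero.1 h3)
    rw [h4]
  · rintro b ⟨hb1, hb2, hb3⟩ hb
    have hκd : DifferentiableAt ℝ κ z :=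
      (hκsm.contDiffAt (hOo.mem_nhds hzO)).differentiableAt (by simp)
    have hκ₀d : DifferentiableAt ℝ κ₀ z.1 :=
      (hκ₀.contDiffAt (hO₀.mem_nhds hxO)).differentiableAt (by simp)
    have hcomp : ∀ i : Fin 2, HasFDerivAt (fun q : E × E => κ₀ q.1 i)
        (((EuclideanSpace.proj (𝕜 := ℝ) i).comp (fderiv ℝ κ₀ z.1)).comp
          (ContinuousLinearMap.fst ℝ E E)) z := by
      intro i
      have h1 : HasFDerivAt (fun q : E × E => κ₀ q.1)
          ((fderiv ℝ κ₀ z.1).comp (ContinuousLinearMap.fst ℝ E E)) z :=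
        HasFDerivAt.comp (g := κ₀) z hκ₀d.hasFDerivAt hasFDerivAt_fst
      exact ((EuclideanSpace.proj (𝕜 := ℝ) i : Pl →L[ℝ] ℝ).hasFDerivAt).comp z h1
    have hlast : HasFDerivAt (fun q : E × E => ⟪n, q.2⟫_ℝ)
        ((innerSL ℝ n).comp (ContinuousLinearMap.snd ℝ E E)) z :=
      ((innerSL ℝ n).hasFDerivAt).comp z hasFDerivAt_snd
    have htot := (hcomp 0).prodMk ((hcomp 1).prodMk hlast)
    rw [htot.fderiv] at hb
    have hb0 : (fderiv ℝ κ₀ z.1 b.1) 0 = 0 := congrArg Prod.fst hb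
    have hb1' : (fderiv ℝ κ₀ z.1 b.1) 1 = 0 := congrArg (fun q => q.2.1) hb
    have hbl : ⟪n, b.2⟫_ℝ = 0 := congrArg (fun q => q.2.2) hb
    have hbz : b.1 = 0 := by
      apply hder b.1 hb1
      ext i
      fin_cases i
      · exact hb0
      · exact hb1'
    rw [hbz] at hb2
    simp only [map_zero, ContinuousLinearMap.zero_apply, sub_zero] at hb2
    have hb4 : b.2 = 0 := by
      rw [← hb2, hP b.2, hbl, real_inner_comm, hb3]; simp
    exact Prod.ext hbz hb4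

/-- local coordinates: a `C^1` map of three parameters into the unit tangent bundle with
injective derivative at `q` has a `C^1` local inverse. -/
theorem Surf.local_inverse (S : Surf M P) {Ψ : ℝ × ℝ × ℝ → E × E} {q : ℝ × ℝ × ℝ}
    (hΨ : ContDiffAt ℝ 1 Ψ q) (hUT : ∀ᶠ r in 𝓝 q, Ψ r ∈ UT M)
    (hinj : Function.Injective (fderiv ℝ Ψ q)) :
    ∃ Λ : E × E → ℝ × ℝ × ℝ, Λ (Ψ q) = q ∧ ContDiffAt ℝ 1 Λ (Ψ q) ∧
      (∀ᶠ r in 𝓝 q, Λ (Ψ r) = r) ∧ (∀ᶠ z in 𝓝 (Ψ q), z ∈ UT M → Ψ (Λ z) = z) := by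
  have hz : Ψ q ∈ UT M := hUT.self_of_nhds
  obtain ⟨O, κ, hO, hzO, hκ, hκinj, hκder⟩ := S.exists_chart_UT hz
  have hκz : ContDiffAt ℝ 1 κ (Ψ q) := (hκ.contDiffAt (hO.mem_nhds hzO)).of_le (by simp)
  have hf : ContDiffAt ℝ 1 (fun r => κ (Ψ r)) q := ContDiffAt.comp (g := κ) q hκz hΨ
  have hΨd : HasFDerivAt Ψ (fderiv ℝ Ψ q) q := (hΨ.differentiableAt (by norm_num)).hasFDerivAt
  have hκd : HasFDerivAt κ (fderiv ℝ κ (Ψ q)) (Ψ q) :=
    (hκz.differentiableAt (by norm_num)).hasFDerivAt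
  have hfd : HasFDerivAt (fun r => κ (Ψ r)) ((fderiv ℝ κ (Ψ q)).comp (fderiv ℝ Ψ q)) q :=
    hκd.comp q hΨd
  -- the velocities are tangent
  have htan : ∀ r, fderiv ℝ Ψ q r ∈ TU P (Ψ q) := by
    intro r
    have hline : HasDerivAt (fun t : ℝ => q + t • r) r 0 := by
      simpa using ((hasDerivAt_id (0 : ℝ)).smul_const r).const_add q
    have hΨd0 : HasFDerivAt Ψ (fderiv ℝ Ψ q) (q + (0 : ℝ) • r) := by simpa using hΨd
    have h1 := HasFDerivAt.comp_hasDerivAt (f := fun t : ℝ => q + t • r) 0 hΨd0 hline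
    refine S.vel_mem hz (β := Ψ ∘ fun t : ℝ => q + t • r) (by simp) ?_ h1
    have h2 : Tendsto (fun t : ℝ => q + t • r) (𝓝 0) (𝓝 q) := by
      have := hline.continuousAt.tendsto
      simpa using this
    exact h2.eventually hUT
  have hinj2 : Function.Injective ((fderiv ℝ κ (Ψ q)).comp (fderiv ℝ Ψ q)) := by
    rw [injective_iff_map_eq_zero]
    intro r hr
    have h1 := hκder _ (htan r) hr
    exact (injective_iff_map_eq_zero (fderiv ℝ Ψ q)).1 hinj r h1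
  let e : (ℝ × ℝ × ℝ) ≃L[ℝ] (ℝ × ℝ × ℝ) :=
    (LinearEquiv.ofInjectiveEndo
      ((fderiv ℝ κ (Ψ q)).comp (fderiv ℝ Ψ q) : (ℝ × ℝ × ℝ) →ₗ[ℝ] (ℝ × ℝ × ℝ))
      hinj2).toContinuousLinearEquiv
  have he : HasFDerivAt (fun r => κ (Ψ r)) (e : (ℝ × ℝ × ℝ) →L[ℝ] (ℝ × ℝ × ℝ)) q := by
    convert hfd using 1
    ext r <;> rfl
  obtain ⟨g, hg0, hgc, hg1, hg2, -⟩ := Pool.Agent.PG.local_inverse hf he
  refine ⟨fun z => g (κ z), hg0, ContDiffAt.comp (g := g) _ hgc hκz, hg1, ?_⟩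
  have hκt : Tendsto κ (𝓝 (Ψ q)) (𝓝 (κ (Ψ q))) := hκz.continuousAt.tendsto
  have hgt : Tendsto (fun z => g (κ z)) (𝓝 (Ψ q)) (𝓝 q) := by
    have := (hgc.continuousAt.tendsto).comp hκt
    rwa [hg0] at this
  have hΨt : Tendsto (fun z => Ψ (g (κ z))) (𝓝 (Ψ q)) (𝓝 (Ψ q)) :=
    hΨ.continuousAt.tendsto.comp hgt
  filter_upwards [hκt.eventually hg2, hgt.eventually hUT, hΨt.eventually (hO.mem_nhds hzO),
    hO.mem_nhds hzO] with z h1 h2 h3 h4 h5
  exact hκinj ⟨h2, h3⟩ ⟨h5, h4⟩ h1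

/-- a transversal through a regular vector, parametrised by the value of `F` -/
theorem Surf.exists_transversal (S : Surf M P) {F : E × E → ℝ} (hF : ContDiff ℝ ∞ F) {z : E × E}
    (hz : z ∈ UT M) (hreg : z ∉ Critical M F) : ∃ (σ : ℝ → E × E) (r : ℝ), 0 < r ∧
      ContDiffOn ℝ 1 σ (Ioo (F z - r) (F z + r)) ∧ σ (F z) = z ∧
      ∀ c ∈ Ioo (F z - r) (F z + r), σ c ∈ UT M ∧ F (σ c) = c ∧ σ c ∉ Critical M F := by
  have hnt : ∃ b ∈ TU P z, fderiv ℝ F z b ≠ 0 := by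
    by_contra h
    push Not at h
    exact hreg ((S.mem_Critical hF).2 ⟨hz, h⟩)
  obtain ⟨b, hb, hFb⟩ := hnt
  obtain ⟨β, hβ, hβU, hβ0, hβd⟩ := S.exists_curve hz hb
  have hFd : ∀ w, HasFDerivAt F (fderiv ℝ F w) w := fun w =>
    (hF.differentiable (by simp) w).hasFDerivAt
  -- the function `F ∘ β`
  have hf : ContDiff ℝ 1 (fun t => F (β t)) := (hF.comp hβ).of_le (by simp)
  have hfd : HasDerivAt (fun t => F (β t)) (fderiv ℝ F z b) 0 := by
    have h1 : HasFDerivAt F (fderiv ℝ F z) (β 0) := by rw [hβ0]; exact hFd z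
    exact HasFDerivAt.comp_hasDerivAt (f := β) 0 h1 hβd
  let e : ℝ ≃L[ℝ] ℝ := ContinuousLinearEquiv.unitsEquivAut ℝ (Units.mk0 _ hFb)
  have he : HasFDerivAt (fun t => F (β t)) (e : ℝ →L[ℝ] ℝ) 0 := by
    have h1 := hfd.hasFDerivAt
    have h2 : (e : ℝ →L[ℝ] ℝ) = ContinuousLinearMap.toSpanSingleton ℝ (fderiv ℝ F z b) := by
      apply ContinuousLinearMap.ext_ring
      change (1 : ℝ) * (Units.mk0 _ hFb : ℝˣ) = (1 : ℝ) • (fderiv ℝ F z b)
      simp
    rw [h2]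
    exact h1
  obtain ⟨g, hg0, hgc, hg1, hg2, -⟩ := Pool.Agent.PG.local_inverse hf.contDiffAt he
  simp only [hβ0] at hg0 hgc hg2
  have hgt : Tendsto g (𝓝 (F z)) (𝓝 0) := by
    have := hgc.continuousAt.tendsto
    rwa [hg0] at this
  -- nondegeneracy near `z`
  have hder : ∀ᶠ t in 𝓝 (0 : ℝ), deriv (fun t => F (β t)) t ≠ 0 := by
    have hc : Continuous (deriv fun t => F (β t)) := hf.continuous_deriv (by norm_num)
    have h0 : deriv (fun t => F (β t)) 0 ≠ 0 := by rw [hfd.deriv]; exact hFb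
    exact hc.continuousAt.eventually_ne h0
  have hall : ∀ᶠ c in 𝓝 (F z), F (β (g c)) = c ∧ deriv (fun t => F (β t)) (g c) ≠ 0 ∧
      ContDiffAt ℝ 1 g c :=
    hg2.and ((hgt.eventually hder).and (hgc.eventually (by simp)))
  obtain ⟨r, hr, hball⟩ := Metric.eventually_nhds_iff.1 hall
  have hball' : ∀ c ∈ Ioo (F z - r) (F z + r), F (β (g c)) = c ∧
      deriv (fun t => F (β t)) (g c) ≠ 0 ∧ ContDiffAt ℝ 1 g c := by
    intro c hc
    apply hball
    rw [Real.dist_eq, abs_lt]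
    constructor <;> linarith [hc.1, hc.2]
  refine ⟨fun c => β (g c), r, hr, ?_, by simp only; rw [hg0, hβ0], ?_⟩
  · intro c hc
    exact (ContDiffAt.comp (g := β) c ((hβ.of_le (by simp)).contDiffAt)
      (hball' c hc).2.2).contDiffWithinAt
  · intro c hc
    obtain ⟨h1, h2, h3⟩ := hball' c hc
    refine ⟨hβU _, h1, fun hcrit => h2 ?_⟩
    -- a critical point kills the derivative
    have h4 := hcrit.2 (fun t => β (g c + t)) (by simp) (Eventually.of_forall fun t => hβU _)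
      (by
        have : ContDiff ℝ ∞ fun t => β (g c + t) := hβ.comp (by fun_prop)
        exact (this.differentiable (by simp)) 0)
    have h5 : HasDerivAt (fun t => F (β t)) (deriv (fun t => F (β t)) (g c)) (g c + 0) := by
      rw [add_zero]
      exact (hf.differentiable (by norm_num) (g c)).hasDerivAt
    have h6 : HasDerivAt (fun t : ℝ => g c + t) 1 0 := by
      simpa using (hasDerivAt_id (0 : ℝ)).const_add (g c)
    have h7 := h5.comp (0 : ℝ) h6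
    rw [mul_one] at h7
    exact h7.unique h4

section Chart

variable (S : Surf M P) {F : E × E → ℝ} (hF : IsFirstIntegral M F) {φ η : ℝ → E × E → E × E}
  (hφ : IsFlowOn (UT M) (Xf P) φ) (hη : IsFlowOn (UT M) (Yf P F) η)

/-- The two flows as an abstract flow pair. -/
noncomputable def Surf.sflow : SFlow (E × E) where
  N := UT M
  φ := φ
  η := η
  X := Xf P
  Y := Yf P F
  F := F
  α := fun z => (innerSL ℝ z.2).comp (ContinuousLinearMap.fst ℝ E E)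
  φ_smooth := hφ.smooth.of_le (by simp)
  η_smooth := hη.smooth.of_le (by simp)
  φ_zero := hφ.zero
  η_zero := hη.zero
  φ_add := hφ.add
  η_add := hη.add
  φ_der := fun t w hw => hφ.deriv w hw t
  η_der := fun t w hw => hη.deriv w hw t
  Y_cont := (contDiff_Yf S hF.1).continuous
  φ_N := hφ.maps
  η_N := hη.maps
  comm := fun s t w hw => S.comm hF hφ hη hw s t
  F_smooth := hF.1.of_le (by simp)
  F_φ := fun t w hw => S.integral_flow hφ hF hw t
  F_η := fun t w hw => S.F_eta hF hφ hη hw t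
  α_X := fun w hw => by
    change ⟪w.2, (Xf P w).1⟫_ℝ = 1
    change ⟪w.2, w.2⟫_ℝ = 1
    rw [real_inner_self_eq_norm_sq, (S.mem_UT.1 hw).2.2]; norm_num
  α_Y := fun w hw => S.alpha_Yf hw
  α_pull := fun s t w hw b hb => by
    obtain ⟨β, hβ0, hβU, hβd⟩ := hb
    have hbT : b ∈ TU P w := S.vel_mem hw hβ0 hβU hβd
    have hηs : ContDiff ℝ ∞ (η t) := hη.smooth.comp (contDiff_const.prodMk contDiff_id)
    have hφs : ContDiff ℝ ∞ (φ s) := hφ.smooth.comp (contDiff_const.prodMk contDiff_id)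
    have h1 : HasFDerivAt (η t) (fderiv ℝ (η t) w) w :=
      (hηs.differentiable (by simp) w).hasFDerivAt
    have h2 : HasFDerivAt (φ s) (fderiv ℝ (φ s) (η t w)) (η t w) :=
      (hφs.differentiable (by simp) _).hasFDerivAt
    have h3 : fderiv ℝ (fun w => φ s (η t w)) w
        = (fderiv ℝ (φ s) (η t w)).comp (fderiv ℝ (η t) w) := (h2.comp w h1).fderiv
    rw [h3]
    change ⟪(φ s (η t w)).2, (fderiv ℝ (φ s) (η t w) (fderiv ℝ (η t) w b)).1⟫_ℝ
      = ⟪w.2, b.1⟫_ℝ + t * fderiv ℝ F w b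
    have h4 : fderiv ℝ (η t) w b ∈ TU P (η t w) := S.fderiv_flow_mem hη hw hbT t
    rw [S.alpha_phi hφ (hη.maps t w hw) h4 s, S.alpha_eta hF hφ hη hw hbT t]

include S hF in
/-- **The chart field of the abstract system**, for the unit tangent bundle. -/
theorem Surf.chartAt {z : E × E} (hz : z ∈ UT M) (hreg : z ∉ Critical M F) :
    Nonempty (ChartAt (N := UT M)
      (fun (a : ℝ × ℝ) (w : UT M) => (⟨φ a.1 (η a.2 w), hφ.maps _ _ (hη.maps _ _ w.2)⟩ : UT M))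
      (fun w => F w) {w | (w : E × E) ∈ Critical M F} ⟨z, hz⟩) := by
  obtain ⟨σ, r, hr, hσ, hσz, hall⟩ := S.exists_transversal hF.1 hz hreg
  have hcrit : ∀ w ∈ UT M, Yf P F w = 0 ↔ w ∈ Critical M F := by
    intro w hw
    rw [S.Yf_eq_zero_iff hw (S.fderiv_Xf hφ hF hw), S.mem_Critical hF.1]
    exact ⟨fun h => ⟨hw, h⟩, fun h => h.2⟩
  have hLI : (S.sflow hF hφ hη).HasLocalInverses := by
    intro Ψ q h1 h2 h3
    exact S.local_inverse h1 h2 h3
  have h := SFlow.chartAt (S := S.sflow hF hφ hη) hLI (σ := σ) (z := z) hz hr hσ hσz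
    (fun c hc => (hall c hc).1) (fun c hc => (hall c hc).2.1)
    (fun c hc h0 => (hall c hc).2.2 ((hcrit _ (hall c hc).1).1 h0))
  have hset : {w : UT M | (w : E × E) ∈ Critical M F}
      = {w : (S.sflow hF hφ hη).N | (S.sflow hF hφ hη).Y w = 0} := by
    ext w
    exact (hcrit w.1 w.2).symm
  rw [hset]
  exact h

end Chart

end Pool.Agent.PG
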