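import Pool.Agent.Work.PG.FlowGeo

/-!
# Preservation of the contact form; the two flows commute

Module D of cell PG.
-/

set_option autoImplicit false
set_option linter.unusedSectionVars false

open Set Filter Topology
open scoped ContDiff InnerProductSpace

namespace Pool.Agent.PG

section Slices

variable {V : Type*} [NormedAddCommGroup V] [NormedSpace ℝ V] {K : Set V} {f : V → V}
  {φ : ℝ → V → V} (hφ : IsFlowOn K f φ)

include hφ

lemma IsFlowOn.smooth_slice (s : ℝ) : ContDiff ℝ ∞ (φ s) :=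
  hφ.smooth.comp (contDiff_const.prodMk contDiff_id)

lemma IsFlowOn.smooth_time (x : V) : ContDiff ℝ ∞ fun s => φ s x :=
  hφ.smooth.comp (contDiff_id.prodMk contDiff_const)

lemma IsFlowOn.hasFDerivAt_slice (s : ℝ) (x : V) : HasFDerivAt (φ s) (fderiv ℝ (φ s) x) x :=
  ((hφ.smooth_slice s).differentiable (by simp) x).hasFDerivAt

lemma IsFlowOn.hasDerivAt_comp (s : ℝ) {β : ℝ → V} {b : V} {t : ℝ} (hβ : HasDerivAt β b t) :
    HasDerivAt (fun t => φ s (β t)) (fderiv ℝ (φ s) (β t) b) t :=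
  (hφ.hasFDerivAt_slice s (β t)).comp_hasDerivAt t hβ

lemma IsFlowOn.neg_add_self (s : ℝ) (x : V) : φ (-s) (φ s x) = x := by
  rw [← hφ.add, neg_add_cancel, hφ.zero]

lemma IsFlowOn.add_neg_self (s : ℝ) (x : V) : φ s (φ (-s) x) = x := by
  rw [← hφ.add, add_neg_cancel, hφ.zero]

lemma IsFlowOn.fderiv_zero (x b : V) : fderiv ℝ (φ 0) x b = b := by
  have h : φ 0 = id := funext hφ.zero
  rw [h, fderiv_id]
  rfl

lemma IsFlowOn.fderiv_neg_fderiv (s : ℝ) (x b : V) :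
    fderiv ℝ (φ (-s)) (φ s x) (fderiv ℝ (φ s) x b) = b := by
  have h := (hφ.hasFDerivAt_slice (-s) (φ s x)).comp x (hφ.hasFDerivAt_slice s x)
  have h2 : φ (-s) ∘ φ s = id := funext fun y => hφ.neg_add_self s y
  rw [h2] at h
  have h3 := h.unique (hasFDerivAt_id x)
  exact congrArg (fun l : V →L[ℝ] V => l b) h3

lemma IsFlowOn.fderiv_fderiv_neg (s : ℝ) (x b : V) :
    fderiv ℝ (φ s) x (fderiv ℝ (φ (-s)) (φ s x) b) = b := by
  have h1 := hφ.fderiv_neg_fderiv (-s) (φ s x) b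
  rw [neg_neg, hφ.neg_add_self] at h1
  exact h1

end Slices

variable {E : Type} [NormedAddCommGroup E] [InnerProductSpace ℝ E] [FiniteDimensional ℝ E]
  {M : Set E} {P : E → E →L[ℝ] E}

theorem Surf.exists_Y_flow (S : Surf M P) {F : E × E → ℝ} (hF : ContDiff ℝ ∞ F) :
    ∃ η : ℝ → E × E → E × E, IsFlowOn (UT M) (Yf P F) η :=
  exists_flow S.isCompact_UT (contDiff_Yf S hF) fun z hz => by
    obtain ⟨β, -, h2, h3, h4⟩ := S.exists_curve hz (S.Yf_mem hz)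
    exact ⟨β, h3, Eventually.of_forall h2, h4⟩

lemma hasDerivAt_fst' {β : ℝ → E × E} {b : E × E} {t : ℝ} (h : HasDerivAt β b t) :
    HasDerivAt (fun t => (β t).1) b.1 t :=
  (hasFDerivAt_fst (𝕜 := ℝ) (E := E) (F := E) (p := β t)).comp_hasDerivAt t h

lemma hasDerivAt_snd' {β : ℝ → E × E} {b : E × E} {t : ℝ} (h : HasDerivAt β b t) :
    HasDerivAt (fun t => (β t).2) b.2 t :=
  (hasFDerivAt_snd (𝕜 := ℝ) (E := E) (F := E) (p := β t)).comp_hasDerivAt t h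

lemma eq_of_hasDerivAt_zero {g : ℝ → ℝ} (h : ∀ s, HasDerivAt g 0 s) (s t : ℝ) : g s = g t :=
  is_const_of_deriv_eq_zero (fun s => (h s).differentiableAt) (fun s => (h s).deriv) s t

variable (S : Surf M P)

include S

/-- flows preserve the tangent spaces -/
theorem Surf.fderiv_flow_mem {f : E × E → E × E} {φ : ℝ → E × E → E × E}
    (hφ : IsFlowOn (UT M) f φ) {z b : E × E} (hz : z ∈ UT M) (hb : b ∈ TU P z) (s : ℝ) :
    fderiv ℝ (φ s) z b ∈ TU P (φ s z) := by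
  obtain ⟨β, -, h2, h3, h4⟩ := S.exists_curve hz hb
  have h5 := hφ.hasDerivAt_comp s h4
  rw [h3] at h5
  exact S.vel_mem (β := fun t => φ s (β t)) (hφ.maps s z hz) (by rw [h3])
    (Eventually.of_forall fun t => hφ.maps s _ (h2 t)) h5

omit S in
lemma fderiv_Xf_fst (hP : ContDiff ℝ ∞ (Xf P)) (z b : E × E) :
    (fderiv ℝ (Xf P) z b).1 = b.2 := by
  have h1 : HasFDerivAt (fun w : E × E => (Xf P w).1)
      ((ContinuousLinearMap.fst ℝ E E).comp (fderiv ℝ (Xf P) z)) z :=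
    (hasFDerivAt_fst (𝕜 := ℝ) (E := E) (F := E) (p := Xf P z)).comp z
      (hP.differentiable (by simp) z).hasFDerivAt
  have h2 : HasFDerivAt (fun w : E × E => (Xf P w).1) (ContinuousLinearMap.snd ℝ E E) z :=
    hasFDerivAt_snd
  exact congrArg (fun l : E × E →L[ℝ] E => l b) (h1.unique h2)

/-- the geodesic flow preserves the contact form -/
theorem Surf.alpha_phi {φ : ℝ → E × E → E × E} (hφ : IsFlowOn (UT M) (Xf P) φ)
    {z b : E × E} (hz : z ∈ UT M) (hb : b ∈ TU P z) (s : ℝ) :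
    ⟪(φ s z).2, (fderiv ℝ (φ s) z b).1⟫_ℝ = ⟪z.2, b.1⟫_ℝ := by
  have h0 : ⟪z.2, b.1⟫_ℝ = ⟪(φ 0 z).2, (fderiv ℝ (φ 0) z b).1⟫_ℝ := by
    rw [hφ.fderiv_zero, hφ.zero]
  rw [h0]
  refine eq_of_hasDerivAt_zero (g := fun s => ⟪(φ s z).2, (fderiv ℝ (φ s) z b).1⟫_ℝ)
    (fun s => ?_) s 0
  have hw := hφ.maps s z hz
  have hb' := S.fderiv_flow_mem hφ hz hb s
  obtain ⟨hx, hv, -⟩ := S.mem_UT.1 hw
  have h1 := (hasDerivAt_snd' (hφ.deriv z hz s)).inner ℝ (hasDerivAt_fst' (hφ.var z hz b s))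
  have h2 : ⟪(φ s z).2, (fderiv ℝ (Xf P) (φ s z) (fderiv ℝ (φ s) z b)).1⟫_ℝ +
      ⟪(Xf P (φ s z)).2, (fderiv ℝ (φ s) z b).1⟫_ℝ = 0 := by
    rw [fderiv_Xf_fst S.contDiff_Xf, real_inner_comm, hb'.2.2]
    show (0 : ℝ) + ⟪fderiv ℝ P (φ s z).1 (φ s z).2 (φ s z).2, (fderiv ℝ (φ s) z b).1⟫_ℝ = 0
    rw [S.dP_orth hx hv hv hb'.1, add_zero]
  rw [h2] at h1
  exact h1

lemma Surf.fderiv_Xf_inner {z a b : E × E} (hz : z ∈ UT M) (ha : a ∈ TU P z) (hb : b ∈ TU P z) :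
    ⟪(fderiv ℝ (Xf P) z a).2, b.1⟫_ℝ =
      -⟪fderiv ℝ P z.1 z.2 z.2, fderiv ℝ P z.1 a.1 b.1⟫_ℝ := by
  obtain ⟨β, -, h2, h3, h4⟩ := S.exists_curve hz ha
  subst h3
  have h5 : HasDerivAt (fun t => Xf P (β t)) (fderiv ℝ (Xf P) (β 0) a) 0 :=
    ((S.contDiff_Xf.differentiable (by simp)) _).hasFDerivAt.comp_hasDerivAt 0 h4
  have h6 : HasDerivAt (fun t => P (β t).1 b.1) (fderiv ℝ P (β 0).1 a.1 b.1 + P (β 0).1 0) 0 :=
    S.hasDerivAt_P_apply (hasDerivAt_fst' h4) (hasDerivAt_const 0 b.1)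
  have h7 := (hasDerivAt_snd' h5).inner ℝ h6
  have h8 : (fun t => ⟪(Xf P (β t)).2, P (β t).1 b.1⟫_ℝ) = fun _ => (0 : ℝ) := by
    funext t
    obtain ⟨hx, hv, -⟩ := S.mem_UT.1 (h2 t)
    exact S.dP_orth hx hv hv (S.idem _ hx _)
  rw [h8] at h7
  have h9 := h7.unique (hasDerivAt_const (0 : ℝ) (0 : ℝ))
  rw [map_zero, add_zero, hb.1] at h9
  have h10 : ⟪(Xf P (β 0)).2, fderiv ℝ P (β 0).1 a.1 b.1⟫_ℝ =
    ⟪fderiv ℝ P (β 0).1 (β 0).2 (β 0).2, fderiv ℝ P (β 0).1 a.1 b.1⟫_ℝ := rfl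
  rw [← h10]
  linarith

/-- the geodesic flow preserves `om`. -/
theorem Surf.om_phi {φ : ℝ → E × E → E × E} (hφ : IsFlowOn (UT M) (Xf P) φ)
    {z a b : E × E} (hz : z ∈ UT M) (ha : a ∈ TU P z) (hb : b ∈ TU P z) (s : ℝ) :
    om (fderiv ℝ (φ s) z a) (fderiv ℝ (φ s) z b) = om a b := by
  have h0 : om a b = om (fderiv ℝ (φ 0) z a) (fderiv ℝ (φ 0) z b) := by
    rw [hφ.fderiv_zero, hφ.fderiv_zero]
  rw [h0]
  refine eq_of_hasDerivAt_zero (g := fun s => om (fderiv ℝ (φ s) z a) (fderiv ℝ (φ s) z b))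
    (fun s => ?_) s 0
  have hw := hφ.maps s z hz
  have ha' := S.fderiv_flow_mem hφ hz ha s
  have hb' := S.fderiv_flow_mem hφ hz hb s
  obtain ⟨hx, hv, -⟩ := S.mem_UT.1 hw
  have hda := hφ.var z hz a s
  have hdb := hφ.var z hz b s
  have h1 := ((hasDerivAt_snd' hda).inner ℝ (hasDerivAt_fst' hdb)).sub
    ((hasDerivAt_snd' hdb).inner ℝ (hasDerivAt_fst' hda))
  have h2 : ⟪(fderiv ℝ (φ s) z a).2, (fderiv ℝ (Xf P) (φ s z) (fderiv ℝ (φ s) z b)).1⟫_ℝ +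
      ⟪(fderiv ℝ (Xf P) (φ s z) (fderiv ℝ (φ s) z a)).2, (fderiv ℝ (φ s) z b).1⟫_ℝ -
      (⟪(fderiv ℝ (φ s) z b).2, (fderiv ℝ (Xf P) (φ s z) (fderiv ℝ (φ s) z a)).1⟫_ℝ +
      ⟪(fderiv ℝ (Xf P) (φ s z) (fderiv ℝ (φ s) z b)).2, (fderiv ℝ (φ s) z a).1⟫_ℝ) = 0 := by
    rw [fderiv_Xf_fst S.contDiff_Xf, fderiv_Xf_fst S.contDiff_Xf, S.fderiv_Xf_inner hw ha' hb',
      S.fderiv_Xf_inner hw hb' ha', S.sff _ hx _ _ ha'.1 hb'.1,
      real_inner_comm (fderiv ℝ (φ s) z b).2 (fderiv ℝ (φ s) z a).2]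
    ring
  rw [h2] at h1
  exact h1

lemma Surf.fderiv_comp_curve {F : E × E → ℝ} (hF : ContDiff ℝ ∞ F) {g : E × E → E × E}
    (hg : Differentiable ℝ g) (hgF : ∀ z ∈ UT M, F (g z) = F z) {z b : E × E} (hz : z ∈ UT M)
    (hb : b ∈ TU P z) : fderiv ℝ F (g z) (fderiv ℝ g z b) = fderiv ℝ F z b := by
  obtain ⟨β, -, h2, h3, h4⟩ := S.exists_curve hz hb
  subst h3
  have h5 : HasDerivAt (fun t => g (β t)) (fderiv ℝ g (β 0) b) 0 :=
    (hg _).hasFDerivAt.comp_hasDerivAt 0 h4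
  have h6 : HasDerivAt (fun t => F (g (β t))) (fderiv ℝ F (g (β 0)) (fderiv ℝ g (β 0) b)) 0 :=
    ((hF.differentiable (by simp)) _).hasFDerivAt.comp_hasDerivAt 0 h5
  have h7 : HasDerivAt (fun t => F (β t)) (fderiv ℝ F (β 0) b) 0 :=
    ((hF.differentiable (by simp)) _).hasFDerivAt.comp_hasDerivAt 0 h4
  have h8 : (fun t => F (g (β t))) = fun t => F (β t) := funext fun t => hgF _ (h2 t)
  rw [h8] at h6
  exact h6.unique h7

variable {F : E × E → ℝ} (hF : IsFirstIntegral M F) {φ η : ℝ → E × E → E × E}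
  (hφ : IsFlowOn (UT M) (Xf P) φ) (hη : IsFlowOn (UT M) (Yf P F) η)

include hF hφ

theorem Surf.dF_phi {z b : E × E} (hz : z ∈ UT M) (hb : b ∈ TU P z) (s : ℝ) :
    fderiv ℝ F (φ s z) (fderiv ℝ (φ s) z b) = fderiv ℝ F z b :=
  S.fderiv_comp_curve hF.1 ((hφ.smooth_slice s).differentiable (by simp))
    (fun _ hz => S.integral_flow hφ hF hz s) hz hb

/-- the field `Y` is invariant under the geodesic flow -/
theorem Surf.Yf_phi {z : E × E} (hz : z ∈ UT M) (s : ℝ) :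
    fderiv ℝ (φ s) z (Yf P F z) = Yf P F (φ s z) := by
  have hw := hφ.maps s z hz
  have hX := S.fderiv_Xf hφ hF hz
  have hXw := S.fderiv_Xf hφ hF hw
  have h1 := S.fderiv_flow_mem hφ hz (S.Yf_mem (F := F) hz) s
  have h2 := S.Yf_mem (F := F) hw
  have h3 : fderiv ℝ (φ s) z (Yf P F z) + (-1 : ℝ) • Yf P F (φ s z) = 0 := by
    refine S.eq_zero_of_om hw (S.add_mem_TU h1 (S.smul_mem_TU _ h2)) ?_ fun b' hb' => ?_
    · rw [Prod.fst_add, Prod.smul_fst, inner_add_right, inner_smul_right,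
        S.alpha_phi hφ hz (S.Yf_mem hz), S.alpha_Yf hz, S.alpha_Yf hw]
      simp
    · have hb : fderiv ℝ (φ (-s)) (φ s z) b' ∈ TU P z := by
        have h := S.fderiv_flow_mem hφ hw hb' (-s)
        rwa [hφ.neg_add_self] at h
      have h4 : fderiv ℝ (φ s) z (fderiv ℝ (φ (-s)) (φ s z) b') = b' :=
        hφ.fderiv_fderiv_neg s z b'
      have h5 := S.om_phi hφ hz (S.Yf_mem (F := F) hz) hb s
      rw [h4, S.om_Yf hz hX hb, ← S.dF_phi hF hφ hz hb s, h4, ← S.om_Yf hw hXw hb'] at h5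
      have h6 : om (fderiv ℝ (φ s) z (Yf P F z) + (-1 : ℝ) • Yf P F (φ s z)) b' =
          om (fderiv ℝ (φ s) z (Yf P F z)) b' - om (Yf P F (φ s z)) b' := by
        simp only [om, Prod.fst_add, Prod.snd_add, Prod.smul_fst, Prod.smul_snd, inner_add_left,
          inner_add_right, inner_smul_left, inner_smul_right]
        simp only [map_neg, map_one]
        ring
      rw [h6, h5, sub_self]
  rw [neg_one_smul, ← sub_eq_add_neg, sub_eq_zero] at h3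
  exact h3

include hη

/-- the flows commute -/
theorem Surf.comm {z : E × E} (hz : z ∈ UT M) (s t : ℝ) : φ s (η t z) = η t (φ s z) := by
  have h := hη.unique (fun t => φ s (η t z)) (fun t => hφ.maps s _ (hη.maps t z hz)) (fun t => ?_) t
  · rw [hη.zero] at h
    exact h
  · have h1 := hφ.hasDerivAt_comp s (hη.deriv z hz t)
    rw [S.Yf_phi hF hφ (hη.maps t z hz)] at h1
    exact h1

theorem Surf.F_eta {z : E × E} (hz : z ∈ UT M) (t : ℝ) : F (η t z) = F z := by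
  have h0 : F z = F (η 0 z) := by rw [hη.zero]
  rw [h0]
  refine eq_of_hasDerivAt_zero (g := fun t => F (η t z)) (fun t => ?_) t 0
  have hw := hη.maps t z hz
  have h1 : HasDerivAt (fun t => F (η t z)) (fderiv ℝ F (η t z) (Yf P F (η t z))) t :=
    ((hF.1.differentiable (by simp)) _).hasFDerivAt.comp_hasDerivAt t (hη.deriv z hz t)
  have h2 : fderiv ℝ F (η t z) (Yf P F (η t z)) = 0 := by
    rw [← S.om_Yf hw (S.fderiv_Xf hφ hF hw) (S.Yf_mem hw), om, sub_self]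
  rw [h2] at h1
  exact h1

theorem Surf.dF_eta {z b : E × E} (hz : z ∈ UT M) (hb : b ∈ TU P z) (t : ℝ) :
    fderiv ℝ F (η t z) (fderiv ℝ (η t) z b) = fderiv ℝ F z b :=
  S.fderiv_comp_curve hF.1 ((hη.smooth_slice t).differentiable (by simp))
    (fun _ hz => S.F_eta hF hφ hη hz t) hz hb

/-- `η_t` changes the contact form by `t dF` -/
theorem Surf.alpha_eta {z b : E × E} (hz : z ∈ UT M) (hb : b ∈ TU P z) (t : ℝ) :
    ⟪(η t z).2, (fderiv ℝ (η t) z b).1⟫_ℝ = ⟪z.2, b.1⟫_ℝ + t * fderiv ℝ F z b := by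
  have h0 : ⟪z.2, b.1⟫_ℝ = ⟪(η 0 z).2, (fderiv ℝ (η 0) z b).1⟫_ℝ - 0 * fderiv ℝ F z b := by
    rw [hη.fderiv_zero, hη.zero]; ring
  rw [h0, ← sub_eq_iff_eq_add]
  refine eq_of_hasDerivAt_zero
    (g := fun t => ⟪(η t z).2, (fderiv ℝ (η t) z b).1⟫_ℝ - t * fderiv ℝ F z b)
    (fun t => ?_) t 0
  have hw := hη.maps t z hz
  have hb' := S.fderiv_flow_mem hη hz hb t
  have h1 := ((hasDerivAt_snd' (hη.deriv z hz t)).inner ℝ (hasDerivAt_fst' (hη.var z hz b t))).sub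
    ((hasDerivAt_id t).mul_const (fderiv ℝ F z b))
  have h2 : ⟪(η t z).2, (fderiv ℝ (Yf P F) (η t z) (fderiv ℝ (η t) z b)).1⟫_ℝ +
      ⟪(fderiv ℝ (η t) z b).2, (Yf P F (η t z)).1⟫_ℝ = 0 := by
    obtain ⟨β, -, h3, h4, h5⟩ := S.exists_curve hw hb'
    have h6 : HasDerivAt (fun t => Yf P F (β t))
        (fderiv ℝ (Yf P F) (β 0) (fderiv ℝ (η t) z b)) 0 :=
      (((contDiff_Yf S hF.1).differentiable (by simp)) _).hasFDerivAt.comp_hasDerivAt 0 h5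
    have h7 := (hasDerivAt_snd' h5).inner ℝ (hasDerivAt_fst' h6)
    have h8 : (fun t => ⟪(β t).2, (Yf P F (β t)).1⟫_ℝ) = fun _ => (0 : ℝ) :=
      funext fun t => S.alpha_Yf (h3 t)
    rw [h8] at h7
    have h9 := h7.unique (hasDerivAt_const (0 : ℝ) (0 : ℝ))
    rw [h4] at h9
    exact h9
  have h3 : ⟪(η t z).2, (fderiv ℝ (Yf P F) (η t z) (fderiv ℝ (η t) z b)).1⟫_ℝ +
      ⟪(Yf P F (η t z)).2, (fderiv ℝ (η t) z b).1⟫_ℝ - 1 * fderiv ℝ F z b = 0 := by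
    have h4 := S.om_Yf hw (S.fderiv_Xf hφ hF hw) hb'
    rw [om, S.dF_eta hF hφ hη hz hb] at h4
    linarith
  rw [h3] at h1
  exact h1

end Pool.Agent.PG
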