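import Mathlib

/-!
# Sard's theorem for functions of two variables (helper88, cell PG)

`sard2`: the critical values of a `C^3` function on an open subset of a two-dimensional space form
a null set.  Proof by Hausdorff dimension: at degenerate critical points (vanishing Hessian) the
function is Hölder of exponent `3` on the set of these points; near a critical point with
nonvanishing Hessian the critical set is Lipschitz parametrised by a subset of the line, and the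
function is Hölder of exponent `2` on it.
-/

set_option linter.unusedVariables false
set_option linter.unusedSectionVars false

namespace Pool.Agent.PG

open Set MeasureTheory Metric Topology NNReal ENNReal

variable {E : Type*} [NormedAddCommGroup E] [NormedSpace ℝ E]

/-- First order estimate. -/
lemma sard_est {F : Type*} [NormedAddCommGroup F] [NormedSpace ℝ F] {f : E → F} {B : Set E}
    (hB : Convex ℝ B) (hf : ∀ z ∈ B, DifferentiableAt ℝ f z) {x y : E} (hx : x ∈ B) (hy : y ∈ B)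
    {K : ℝ} (hK : ∀ z ∈ segment ℝ x y, ‖fderiv ℝ f z‖ ≤ K) : ‖f y - f x‖ ≤ K * ‖y - x‖ := by
  refine (convex_segment x y).norm_image_sub_le_of_norm_fderiv_le
    (fun z hz => hf z (hB.segment_subset hx hy hz)) hK ?_ ?_
  · exact left_mem_segment ℝ x y
  · exact right_mem_segment ℝ x y

lemma segment_dist_le {x y z : E} (hz : z ∈ segment ℝ x y) : ‖z - x‖ ≤ ‖y - x‖ := by
  obtain ⟨a, b, ha, hb, hab, rfl⟩ := hz
  have : a • x + b • y - x = b • (y - x) := by
    have : a = 1 - b := by linarith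
    rw [this]; module
  rw [this, norm_smul, Real.norm_eq_abs, abs_of_nonneg hb]
  have : b ≤ 1 := by linarith
  nlinarith [norm_nonneg (y - x)]

/-- `f` is quadratic at critical points. -/
lemma sard_est2 {f : E → ℝ} {B : Set E} (hB : Convex ℝ B)
    (hf : ∀ z ∈ B, DifferentiableAt ℝ f z) {K : ℝ≥0}
    (hL : LipschitzOnWith K (fderiv ℝ f) B) {x y : E} (hx : x ∈ B) (hy : y ∈ B)
    (h0 : fderiv ℝ f x = 0) : ‖f y - f x‖ ≤ K * ‖y - x‖ ^ 2 := by
  have h := sard_est hB hf hx hy (K := K * ‖y - x‖) (fun z hz => by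
    have := hL.norm_sub_le (hB.segment_subset hx hy hz) hx
    rw [h0, sub_zero] at this
    exact this.trans (mul_le_mul_of_nonneg_left (segment_dist_le hz) K.2))
  calc _ ≤ _ := h
    _ = _ := by ring

/-- `f` is cubic at critical points with vanishing Hessian. -/
lemma sard_est3 {f : E → ℝ} {B : Set E} (hB : Convex ℝ B)
    (hf : ∀ z ∈ B, DifferentiableAt ℝ f z) (hf2 : ∀ z ∈ B, DifferentiableAt ℝ (fderiv ℝ f) z)
    {K : ℝ≥0} (hL : LipschitzOnWith K (fderiv ℝ (fderiv ℝ f)) B) {x y : E} (hx : x ∈ B)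
    (hy : y ∈ B) (h0 : fderiv ℝ f x = 0) (h00 : fderiv ℝ (fderiv ℝ f) x = 0) :
    ‖f y - f x‖ ≤ K * ‖y - x‖ ^ 3 := by
  have h1 : ∀ z ∈ segment ℝ x y, ‖fderiv ℝ f z‖ ≤ K * ‖y - x‖ ^ 2 := by
    intro z hz
    have hzB := hB.segment_subset hx hy hz
    have h := sard_est (f := fderiv ℝ f) hB hf2 hx hzB (K := K * ‖y - x‖) (fun w hw => by
      have := hL.norm_sub_le (hB.segment_subset hx hzB hw) hx
      rw [h00, sub_zero] at this
      refine this.trans (mul_le_mul_of_nonneg_left ?_ K.2)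
      exact (segment_dist_le hw).trans (segment_dist_le hz))
    rw [h0, sub_zero] at h
    refine h.trans ?_
    have := segment_dist_le hz
    have h2 : (0 : ℝ) ≤ K * ‖y - x‖ := by positivity
    nlinarith [norm_nonneg (y - x)]
  have h := sard_est hB hf hx hy h1
  calc _ ≤ _ := h
    _ = _ := by ring

lemma holder_of_norm {X Y : Type*} [SeminormedAddCommGroup X] [SeminormedAddCommGroup Y]
    {f : X → Y} {s : Set X} {C : ℝ≥0} {n : ℕ}
    (h : ∀ x ∈ s, ∀ y ∈ s, ‖f y - f x‖ ≤ C * ‖y - x‖ ^ n) :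
    HolderOnWith C (n : ℝ≥0) f s := by
  intro x hx y hy
  have := h y hy x hx
  rw [edist_dist, edist_dist, dist_eq_norm, dist_eq_norm]
  have h2 : ENNReal.ofReal ‖f x - f y‖ ≤ ENNReal.ofReal (C * ‖x - y‖ ^ n) :=
    ENNReal.ofReal_le_ofReal this
  refine h2.trans (le_of_eq ?_)
  rw [ENNReal.ofReal_mul (by positivity), ENNReal.ofReal_coe_nnreal,
    ENNReal.ofReal_pow (norm_nonneg _)]
  congr 1
  rw [NNReal.coe_natCast, ENNReal.rpow_natCast]

lemma volume_zero_of_dimH_lt_one {s : Set ℝ} (h : dimH s < 1) : volume s = 0 := by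
  refine measure_zero_of_dimH_lt (d := 1) ?_ (by simpa using h)
  rw [NNReal.coe_one, hausdorffMeasure_real]

variable [FiniteDimensional ℝ E]

/-- A second functional completing a nonzero functional to a coordinate system of a plane. -/
lemma exists_second (hE : Module.finrank ℝ E = 2) (L : E →L[ℝ] ℝ) (hL : L ≠ 0) :
    ∃ l : E →L[ℝ] ℝ, ∃ M : ℝ, 0 < M ∧ ∀ z, ‖z‖ ≤ M * (|L z| + |l z|) := by
  obtain ⟨w, hw⟩ : ∃ w, L w ≠ 0 := by
    by_contra h
    push Not at h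
    exact hL (ContinuousLinearMap.ext (by simpa using h))
  have hrange : LinearMap.range (L : E →ₗ[ℝ] ℝ) = ⊤ := by
    rw [LinearMap.range_eq_top]
    intro t
    exact ⟨(t / L w) • w, by simp; field_simp⟩
  have hker : Module.finrank ℝ (LinearMap.ker (L : E →ₗ[ℝ] ℝ)) = 1 := by
    have := LinearMap.finrank_range_add_finrank_ker (L : E →ₗ[ℝ] ℝ)
    rw [hrange, hE] at this
    simp at this
    omega
  obtain ⟨⟨u, hu⟩, hu0, hspan⟩ := finrank_eq_one_iff'.1 hker
  have hune : u ≠ 0 := fun h => hu0 (by ext; simpa using h)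
  obtain ⟨l, hl⟩ := SeparatingDual.exists_ne_zero (R := ℝ) hune
  have hinj : Function.Injective ((L.prod l : E →L[ℝ] ℝ × ℝ) : E →ₗ[ℝ] ℝ × ℝ) := by
    rw [← LinearMap.ker_eq_bot, LinearMap.ker_eq_bot']
    intro z hz
    have h1 : L z = 0 := congrArg Prod.fst hz
    have h2 : l z = 0 := congrArg Prod.snd hz
    obtain ⟨c, hc⟩ := hspan ⟨z, h1⟩
    have hc' : c • u = z := congrArg Subtype.val hc
    rw [← hc', map_smul, smul_eq_mul] at h2
    rcases mul_eq_zero.1 h2 with h | h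
    · rw [← hc', h, zero_smul]
    · exact absurd h hl
  obtain ⟨K, hK, hanti⟩ := LinearMap.exists_antilipschitzWith
    ((L.prod l : E →L[ℝ] ℝ × ℝ) : E →ₗ[ℝ] ℝ × ℝ) (LinearMap.ker_eq_bot.2 hinj)
  refine ⟨l, K, by exact_mod_cast hK, fun z => ?_⟩
  have := hanti.le_mul_dist z 0
  simp only [dist_eq_norm, sub_zero] at this
  refine this.trans ?_
  have h3 : ‖((L.prod l : E →L[ℝ] ℝ × ℝ) : E →ₗ[ℝ] ℝ × ℝ) z
      - ((L.prod l : E →L[ℝ] ℝ × ℝ) : E →ₗ[ℝ] ℝ × ℝ) 0‖ ≤ |L z| + |l z| := by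
    rw [map_zero, sub_zero]
    change ‖(L z, l z)‖ ≤ _
    rw [Prod.norm_mk]
    refine max_le ?_ ?_
    · rw [Real.norm_eq_abs]; linarith [abs_nonneg (l z)]
    · rw [Real.norm_eq_abs]; linarith [abs_nonneg (L z)]
  exact mul_le_mul_of_nonneg_left h3 K.2

/-- Near a nondegenerate critical point. -/
lemma sard_local1 (hE : Module.finrank ℝ E = 2) {f : E → ℝ} {U : Set E} (hU : IsOpen U)
    (hf : ContDiffOn ℝ 3 f U) {x0 : E} (hx0 : x0 ∈ U)
    (h2 : fderiv ℝ (fderiv ℝ f) x0 ≠ 0) :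
    ∃ V ∈ 𝓝 x0, volume (f '' ({x ∈ U | fderiv ℝ f x = 0} ∩ V)) = 0 := by
  have hfa : ContDiffAt ℝ 3 f x0 := hf.contDiffAt (hU.mem_nhds hx0)
  have hg : ContDiffAt ℝ 2 (fderiv ℝ f) x0 := hfa.fderiv_right (by norm_num)
  obtain ⟨w, v, hv⟩ : ∃ w v, fderiv ℝ (fderiv ℝ f) x0 w v ≠ 0 := by
    by_contra h
    push Not at h
    exact h2 (ContinuousLinearMap.ext fun w => ContinuousLinearMap.ext fun v => h w v)
  set g : E → ℝ := fun x => fderiv ℝ f x v with hgdef
  have hgs : HasStrictFDerivAt g ((fderiv ℝ (fderiv ℝ f) x0).flip v) x0 := by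
    have := (hg.hasStrictFDerivAt (by norm_num)).clm_apply (hasStrictFDerivAt_const v x0)
    simpa [hgdef] using this
  set L := (fderiv ℝ (fderiv ℝ f) x0).flip v with hLdef
  have hL : L ≠ 0 := fun h => hv (by
    have := congrArg (fun l : E →L[ℝ] ℝ => l w) h
    simpa [hLdef] using this)
  obtain ⟨l, M, hM, hML⟩ := exists_second hE L hL
  obtain ⟨K, t, ht, hKt⟩ := (hg.of_le (by norm_num : (1 : WithTop ℕ∞) ≤ 2)).exists_lipschitzOnWith
  have hgo := hgs.isLittleO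
  rw [Asymptotics.isLittleO_iff] at hgo
  have hgo1 := hgo (c := 1 / (2 * M)) (by positivity)
  obtain ⟨s1, hs1, s2, hs2, hss⟩ := mem_nhds_prod_iff.1 hgo1
  have hs : s1 ∩ s2 ∈ 𝓝 x0 := Filter.inter_mem hs1 hs2
  obtain ⟨r, hr, hball⟩ := Metric.mem_nhds_iff.1 (Filter.inter_mem (Filter.inter_mem ht hs)
    (hU.mem_nhds hx0))
  set S := {x ∈ U | fderiv ℝ f x = 0} ∩ ball x0 r with hS
  refine ⟨ball x0 r, ball_mem_nhds _ hr, ?_⟩
  have hdiff : ∀ z ∈ ball x0 r, DifferentiableAt ℝ f z := fun z hz =>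
    (hf.contDiffAt (hU.mem_nhds (hball hz).2)).differentiableAt (by norm_num)
  have hkey : ∀ x ∈ S, ∀ y ∈ S, ‖y - x‖ ≤ 2 * M * |l y - l x| := by
    intro x hx y hy
    have h1 : ‖g y - g x - L (y - x)‖ ≤ 1 / (2 * M) * ‖y - x‖ :=
      @hss (y, x) ⟨(hball hy.2).1.2.1, (hball hx.2).1.2.2⟩
    have e1 : g y = 0 := by simp [hgdef, hy.1.2]
    have e2 : g x = 0 := by simp [hgdef, hx.1.2]
    rw [e1, e2, sub_zero, zero_sub, norm_neg, Real.norm_eq_abs] at h1
    have h3 := hML (y - x)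
    rw [map_sub l] at h3
    have h4 : M * |L (y - x)| ≤ ‖y - x‖ / 2 := by
      calc M * |L (y - x)| ≤ M * (1 / (2 * M) * ‖y - x‖) := mul_le_mul_of_nonneg_left h1 hM.le
        _ = ‖y - x‖ / 2 := by field_simp
    nlinarith
  have hquad : ∀ x ∈ S, ∀ y ∈ S, ‖f y - f x‖ ≤ (K * (2 * M) ^ 2) * |l y - l x| ^ 2 := by
    intro x hx y hy
    have h1 := sard_est2 (convex_ball x0 r) hdiff
      (hKt.mono (fun z hz => (hball hz).1.1)) hx.2 hy.2 hx.1.2
    have h3 := hkey x hx y hy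
    have h4 : ‖y - x‖ ^ 2 ≤ (2 * M * |l y - l x|) ^ 2 := by gcongr
    calc _ ≤ K * ‖y - x‖ ^ 2 := h1
      _ ≤ K * (2 * M * |l y - l x|) ^ 2 := mul_le_mul_of_nonneg_left h4 K.2
      _ = _ := by ring
  -- the function factors through `l`
  set φ : ℝ → ℝ := fun t => f (Function.invFunOn l S t) with hφ
  have hinv : ∀ x ∈ S, Function.invFunOn l S (l x) ∈ S ∧ l (Function.invFunOn l S (l x)) = l x :=
    fun x hx => ⟨Function.invFunOn_mem ⟨x, hx, rfl⟩, Function.invFunOn_eq ⟨x, hx, rfl⟩⟩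
  have hφl : ∀ x ∈ S, φ (l x) = f x := by
    intro x hx
    have h1 := hquad x hx _ (hinv x hx).1
    rw [(hinv x hx).2, sub_self, abs_zero] at h1
    have h3 : ‖f (Function.invFunOn l S (l x)) - f x‖ ≤ 0 := by simpa using h1
    have := norm_le_zero_iff.1 h3
    exact sub_eq_zero.1 this
  have himg : f '' S = φ '' (l '' S) := by
    rw [image_image]
    exact image_congr fun x hx => (hφl x hx).symm
  have hHol : HolderOnWith ((K * (2 * ⟨M, hM.le⟩) ^ 2 : ℝ≥0)) ((2 : ℕ) : ℝ≥0) φ (l '' S) := by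
    refine holder_of_norm ?_
    rintro _ ⟨x, hx, rfl⟩ _ ⟨y, hy, rfl⟩
    rw [hφl x hx, hφl y hy]
    exact hquad x hx y hy
  apply volume_zero_of_dimH_lt_one
  rw [himg]
  have h5 := hHol.dimH_image_le (by norm_num)
  refine lt_of_le_of_lt h5 ?_
  have h6 : dimH (l '' S) ≤ 1 := (dimH_mono (subset_univ _)).trans (by rw [Real.dimH_univ])
  calc dimH (l '' S) / ((2 : ℕ) : ℝ≥0) ≤ 1 / ((2 : ℕ) : ℝ≥0) := by gcongr
    _ < 1 := by
        rw [ENNReal.div_lt_iff (by simp) (by simp)]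
        norm_num

/-- Near a degenerate critical point. -/
lemma sard_local2 (hE : Module.finrank ℝ E = 2) {f : E → ℝ} {U : Set E} (hU : IsOpen U)
    (hf : ContDiffOn ℝ 3 f U) {x0 : E} (hx0 : x0 ∈ U) :
    ∃ V ∈ 𝓝 x0, volume (f '' ({x ∈ U | fderiv ℝ f x = 0 ∧ fderiv ℝ (fderiv ℝ f) x = 0} ∩ V))
      = 0 := by
  have hfa : ContDiffAt ℝ 3 f x0 := hf.contDiffAt (hU.mem_nhds hx0)
  have hg : ContDiffAt ℝ 2 (fderiv ℝ f) x0 := hfa.fderiv_right (by norm_num)
  have hgg : ContDiffAt ℝ 1 (fderiv ℝ (fderiv ℝ f)) x0 := hg.fderiv_right (by norm_num)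
  obtain ⟨K, t, ht, hKt⟩ := hgg.exists_lipschitzOnWith
  obtain ⟨r, hr, hball⟩ := Metric.mem_nhds_iff.1 (Filter.inter_mem ht (hU.mem_nhds hx0))
  set S := {x ∈ U | fderiv ℝ f x = 0 ∧ fderiv ℝ (fderiv ℝ f) x = 0} ∩ ball x0 r with hS
  refine ⟨ball x0 r, ball_mem_nhds _ hr, ?_⟩
  have hat : ∀ z ∈ ball x0 r, ContDiffAt ℝ 3 f z := fun z hz =>
    hf.contDiffAt (hU.mem_nhds (hball hz).2)
  have hHol : HolderOnWith K ((3 : ℕ) : ℝ≥0) f S := by
    refine holder_of_norm fun x hx y hy => ?_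
    refine sard_est3 (convex_ball x0 r) (fun z hz => (hat z hz).differentiableAt (by norm_num))
      (fun z hz => ((hat z hz).fderiv_right (m := 2) (by norm_num)).differentiableAt
        (by norm_num)) (hKt.mono fun z hz => (hball hz).1) hx.2 hy.2 hx.1.2.1 hx.1.2.2
  apply volume_zero_of_dimH_lt_one
  refine lt_of_le_of_lt (hHol.dimH_image_le (by norm_num)) ?_
  have h6 : dimH S ≤ 2 := (dimH_mono (subset_univ _)).trans (by
    rw [Real.dimH_univ_eq_finrank, hE]; norm_num)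
  calc dimH S / ((3 : ℕ) : ℝ≥0) ≤ 2 / ((3 : ℕ) : ℝ≥0) := by gcongr
    _ < 1 := by
        rw [ENNReal.div_lt_iff (by simp) (by simp)]
        norm_num

/-- **Sard's theorem** for functions of two variables. -/
theorem sard2 (hE : Module.finrank ℝ E = 2) {f : E → ℝ} {U : Set E} (hU : IsOpen U)
    (hf : ContDiffOn ℝ 3 f U) : volume (f '' {x ∈ U | fderiv ℝ f x = 0}) = 0 := by
  have hnull : ∀ (C : Set E), (∀ x ∈ C, ∃ V ∈ 𝓝 x, volume (f '' (C ∩ V)) = 0) →
      volume (f '' C) = 0 := by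
    intro C hC
    choose! V hV hVn using hC
    obtain ⟨t, htC, htc, hcov⟩ := TopologicalSpace.countable_cover_nhdsWithin
      (f := V) (s := C) (fun x hx => mem_nhdsWithin_of_mem_nhds (hV x hx))
    have hsub : f '' C ⊆ ⋃ x ∈ t, f '' (C ∩ V x) := by
      rintro _ ⟨x, hx, rfl⟩
      obtain ⟨y, hy⟩ := mem_iUnion.1 (hcov hx)
      obtain ⟨hyt, hxy⟩ := mem_iUnion.1 hy
      exact mem_iUnion₂.2 ⟨y, hyt, ⟨x, ⟨hx, hxy⟩, rfl⟩⟩
    refine measure_mono_null hsub ((measure_biUnion_null_iff htc).2 fun x hx => hVn x (htC hx))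
  have h1 : volume (f '' {x ∈ U | fderiv ℝ f x = 0 ∧ fderiv ℝ (fderiv ℝ f) x = 0}) = 0 :=
    hnull _ fun x hx => sard_local2 hE hU hf hx.1
  have h2 : volume (f '' {x ∈ U | fderiv ℝ f x = 0 ∧ fderiv ℝ (fderiv ℝ f) x ≠ 0}) = 0 := by
    refine hnull _ fun x hx => ?_
    obtain ⟨V, hV, hVn⟩ := sard_local1 hE hU hf hx.1 hx.2.2
    refine ⟨V, hV, measure_mono_null (image_mono ?_) hVn⟩
    exact inter_subset_inter_left _ fun y hy => ⟨hy.1, hy.2.1⟩
  refine measure_mono_null ?_ (measure_union_null h1 h2)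
  rintro _ ⟨x, ⟨hxU, hx⟩, rfl⟩
  by_cases h : fderiv ℝ (fderiv ℝ f) x = 0
  · exact Or.inl ⟨x, ⟨hxU, hx, h⟩, rfl⟩
  · exact Or.inr ⟨x, ⟨hxU, hx, h⟩, rfl⟩

end Pool.Agent.PG
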