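import Pool.Agent.Work.PG.Loc
import Pool.Agent.Work.PG.Sard

/-!
# The critical values of a first integral have empty interior

Module F of cell PG.
-/

set_option autoImplicit false
set_option linter.unusedVariables false

open Set Filter Topology
open scoped ContDiff InnerProductSpace

namespace Pool.Agent.PG

variable {E : Type} [NormedAddCommGroup E] [InnerProductSpace ℝ E] [FiniteDimensional ℝ E]
  {M : Set E} {P : E → E →L[ℝ] E}

/-- A two-parameter section of the geodesic flow through any unit vector, with a local inverse of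
`(s, q) ↦ φ s (β q)`. -/
theorem Surf.exists_section (S : Surf M P) {φ : ℝ → E × E → E × E}
    (hφ : IsFlowOn (UT M) (Xf P) φ) {z : E × E} (hz : z ∈ UT M) :
    ∃ (β : ℝ × ℝ → E × E) (U : Set (ℝ × ℝ)), IsOpen U ∧ ContDiffOn ℝ ∞ β U ∧
      (∀ q ∈ U, β q ∈ UT M) ∧
      ∀ᶠ w in 𝓝 z, w ∈ UT M → ∃ (s : ℝ) (q : ℝ × ℝ), q ∈ U ∧ φ s (β q) = w := by
  obtain ⟨hx, hv, hv1⟩ := S.mem_UT.1 hz
  obtain ⟨n, hn, hn1, hnv, hP⟩ := S.exists_normal hz
  obtain ⟨c, hc, hcM, hc0, hcd⟩ := S.curve z.1 hx n hn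
  have hvv : ⟪z.2, z.2⟫_ℝ = 1 := by rw [real_inner_self_eq_norm_sq, hv1]; norm_num
  have hnn : ⟪n, n⟫_ℝ = 1 := by rw [real_inner_self_eq_norm_sq, hn1]; norm_num
  have hvn : ⟪z.2, n⟫_ℝ = 0 := by rw [real_inner_comm]; exact hnv
  let u : ℝ × ℝ → E := fun q => P (c q.1) (Real.cos q.2 • z.2 + Real.sin q.2 • n)
  have hu : ContDiff ℝ ∞ u := by
    have h1 : ContDiff ℝ ∞ fun q : ℝ × ℝ => P (c q.1) := S.smooth.comp (hc.comp contDiff_fst)
    have h2 : ContDiff ℝ ∞ fun q : ℝ × ℝ => Real.cos q.2 • z.2 + Real.sin q.2 • n :=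
      ((Real.contDiff_cos.comp contDiff_snd).smul contDiff_const).add
        ((Real.contDiff_sin.comp contDiff_snd).smul contDiff_const)
    exact h1.clm_apply h2
  set U : Set (ℝ × ℝ) := {q | u q ≠ 0} with hU
  have hUo : IsOpen U := isOpen_ne_fun hu.continuous continuous_const
  let β : ℝ × ℝ → E × E := fun q => (c q.1, ‖u q‖⁻¹ • u q)
  have hβ : ContDiffOn ℝ ∞ β U := by
    have h1 : ContDiffOn ℝ ∞ (fun q => ‖u q‖⁻¹) U := fun q hq =>
      (((contDiffAt_norm ℝ hq).comp q hu.contDiffAt).inv (norm_ne_zero_iff.2 hq)).contDiffWithinAt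
    exact (hc.comp contDiff_fst).contDiffOn.prodMk (h1.smul hu.contDiffOn)
  have hβU : ∀ q ∈ U, β q ∈ UT M := by
    intro q hq
    rw [S.mem_UT]
    refine ⟨hcM _, ?_, ?_⟩
    · change P (c q.1) (‖u q‖⁻¹ • u q) = ‖u q‖⁻¹ • u q
      rw [map_smul]
      congr 1
      exact S.idem _ (hcM _) _
    · change ‖‖u q‖⁻¹ • u q‖ = 1
      rw [norm_smul, norm_inv, norm_norm]
      exact inv_mul_cancel₀ (norm_ne_zero_iff.2 hq)
  -- the values on the vertical line
  have hu0 : ∀ b : ℝ, u (0, b) = Real.cos b • z.2 + Real.sin b • n := by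
    intro b
    change P (c 0) _ = _
    rw [hc0, map_add, map_smul, map_smul, hv, hn]
  have hu0n : ∀ b : ℝ, ‖u (0, b)‖ = 1 := by
    intro b
    rw [hu0]
    have h1 : ‖Real.cos b • z.2 + Real.sin b • n‖ ^ 2 = 1 := by
      rw [← real_inner_self_eq_norm_sq]
      simp only [inner_add_left, inner_add_right, real_inner_smul_left, real_inner_smul_right,
        hvv, hnn, hvn, hnv]
      nlinarith [Real.sin_sq_add_cos_sq b]
    have h2 := norm_nonneg (Real.cos b • z.2 + Real.sin b • n)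
    nlinarith
  have hβ0 : ∀ b : ℝ, β (0, b) = (z.1, Real.cos b • z.2 + Real.sin b • n) := by
    intro b
    change (c 0, ‖u (0, b)‖⁻¹ • u (0, b)) = _
    rw [hu0n, inv_one, one_smul, hu0, hc0]
  have hβz : β 0 = z := by
    have := hβ0 0
    simp only [Real.cos_zero, Real.sin_zero, one_smul, zero_smul, add_zero] at this
    exact this
  have h0U : (0 : ℝ × ℝ) ∈ U := by
    change u (0, 0) ≠ 0
    rw [← norm_ne_zero_iff, hu0n]; norm_num
  -- the three-parameter map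
  let Ψ : ℝ × ℝ × ℝ → E × E := fun r => φ r.1 (β r.2)
  have hβat : ∀ q ∈ U, ContDiffAt ℝ 1 β q := fun q hq =>
    (hβ.contDiffAt (hUo.mem_nhds hq)).of_le (by simp)
  have hΨ : ContDiffAt ℝ 1 Ψ 0 := by
    have h1 : ContDiffAt ℝ 1 (fun r : ℝ × ℝ × ℝ => β r.2) 0 :=
      ContDiffAt.comp (g := β) (0 : ℝ × ℝ × ℝ) (hβat 0 h0U) contDiffAt_snd
    have h2 : ContDiffAt ℝ 1 (fun r : ℝ × ℝ × ℝ => (r.1, β r.2)) 0 := contDiffAt_fst.prodMk h1
    have h3 : ContDiff ℝ 1 (Function.uncurry φ) := hφ.smooth.of_le (by simp)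
    exact ContDiffAt.comp (g := Function.uncurry φ) (0 : ℝ × ℝ × ℝ) h3.contDiffAt h2
  have hΨ0 : Ψ 0 = z := by
    change φ 0 (β 0) = z
    rw [hφ.zero, hβz]
  have hUe : ∀ᶠ r : ℝ × ℝ × ℝ in 𝓝 0, r.2 ∈ U :=
    (continuous_snd.tendsto (0 : ℝ × ℝ × ℝ)).eventually (hUo.mem_nhds h0U)
  have hΨU : ∀ᶠ r in 𝓝 (0 : ℝ × ℝ × ℝ), Ψ r ∈ UT M := by
    filter_upwards [hUe] with r hr
    exact hφ.maps _ _ (hβU _ hr)
  have hd : HasFDerivAt Ψ (fderiv ℝ Ψ 0) 0 := (hΨ.differentiableAt (by norm_num)).hasFDerivAt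
  have hd1 : fderiv ℝ Ψ 0 (1, 0, 0) = Xf P z := by
    have h1 : HasDerivAt (fun s : ℝ => ((s, 0, 0) : ℝ × ℝ × ℝ)) (1, 0, 0) 0 :=
      (hasDerivAt_id (0 : ℝ)).prodMk (hasDerivAt_const _ _)
    have h2 := HasFDerivAt.comp_hasDerivAt (f := fun s : ℝ => ((s, 0, 0) : ℝ × ℝ × ℝ)) 0 hd h1
    have h3 := hφ.deriv z hz 0
    rw [hφ.zero] at h3
    have h4 : (Ψ ∘ fun s : ℝ => ((s, 0, 0) : ℝ × ℝ × ℝ)) = fun s => φ s z := by
      funext s
      change φ s (β 0) = φ s z
      rw [hβz]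
    rw [h4] at h2
    exact h2.unique h3
  have hd2 : (fderiv ℝ Ψ 0 (0, 1, 0)).1 = n := by
    have h1 : HasDerivAt (fun s : ℝ => ((0, s, 0) : ℝ × ℝ × ℝ)) (0, 1, 0) 0 :=
      (hasDerivAt_const _ _).prodMk ((hasDerivAt_id (0 : ℝ)).prodMk (hasDerivAt_const _ _))
    have h2 := HasFDerivAt.comp_hasDerivAt (f := fun s : ℝ => ((0, s, 0) : ℝ × ℝ × ℝ)) 0 hd h1
    have h3 : HasDerivAt (Prod.fst ∘ (Ψ ∘ fun s : ℝ => ((0, s, 0) : ℝ × ℝ × ℝ)))
        (fderiv ℝ Ψ 0 (0, 1, 0)).1 0 :=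
      (hasFDerivAt_fst (𝕜 := ℝ) (E := E) (F := E)).comp_hasDerivAt (0 : ℝ) h2
    have h4 : (Prod.fst ∘ (Ψ ∘ fun s : ℝ => ((0, s, 0) : ℝ × ℝ × ℝ))) = c := by
      funext s
      change (φ 0 (β (s, 0))).1 = c s
      rw [hφ.zero]
    rw [h4] at h3
    exact h3.unique hcd
  have hd3 : fderiv ℝ Ψ 0 (0, 0, 1) = (0, n) := by
    have h1 : HasDerivAt (fun s : ℝ => ((0, 0, s) : ℝ × ℝ × ℝ)) (0, 0, 1) 0 :=
      (hasDerivAt_const _ _).prodMk ((hasDerivAt_const _ _).prodMk (hasDerivAt_id (0 : ℝ)))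
    have h2 := HasFDerivAt.comp_hasDerivAt (f := fun s : ℝ => ((0, 0, s) : ℝ × ℝ × ℝ)) 0 hd h1
    have h4 : (Ψ ∘ fun s : ℝ => ((0, 0, s) : ℝ × ℝ × ℝ))
        = fun s => (z.1, Real.cos s • z.2 + Real.sin s • n) := by
      funext s
      change φ 0 (β (0, s)) = _
      rw [hφ.zero, hβ0]
    rw [h4] at h2
    have h5 : HasDerivAt (fun s : ℝ => (z.1, Real.cos s • z.2 + Real.sin s • n)) (0, n) 0 := by
      refine (hasDerivAt_const _ _).prodMk ?_
      have h6 := ((Real.hasDerivAt_cos 0).smul_const z.2).add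
        ((Real.hasDerivAt_sin 0).smul_const n)
      have h7 : (-Real.sin 0) • z.2 + Real.cos 0 • n = n := by simp
      rw [h7] at h6
      exact h6
    exact h2.unique h5
  have hinj : Function.Injective (fderiv ℝ Ψ 0) := by
    rw [injective_iff_map_eq_zero]
    rintro ⟨s, a, b⟩ hv0
    have e : ((s, a, b) : ℝ × ℝ × ℝ) = s • (1, 0, 0) + a • (0, 1, 0) + b • (0, 0, 1) := by simp
    rw [e, map_add, map_add, map_smul, map_smul, map_smul, hd1, hd3] at hv0
    have h1 := congrArg Prod.fst hv0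
    simp only [Prod.fst_add, Prod.smul_fst, hd2, smul_zero, add_zero, Prod.fst_zero, Xf] at h1
    have h2 := congrArg (fun w => ⟪z.2, w⟫_ℝ) h1
    simp only [inner_add_right, real_inner_smul_right, hvv, hvn, inner_zero_right, mul_one,
      mul_zero, add_zero] at h2
    have h3 := congrArg (fun w => ⟪n, w⟫_ℝ) h1
    simp only [inner_add_right, real_inner_smul_right, hnn, hnv, inner_zero_right, mul_one,
      mul_zero, zero_add] at h3
    rw [h2, h3, zero_smul, zero_smul, zero_add, zero_add] at hv0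
    have h4 := congrArg (fun w : E × E => ⟪n, w.2⟫_ℝ) hv0
    simp only [Prod.smul_snd, real_inner_smul_right, hnn, mul_one, Prod.snd_zero,
      inner_zero_right] at h4
    rw [h2, h3, h4]
    rfl
  obtain ⟨Λ, h1, h2, h3, h4⟩ := S.local_inverse hΨ hΨU hinj
  rw [hΨ0] at h1 h2 h4
  have hΛt : Tendsto Λ (𝓝 z) (𝓝 0) := by
    have := h2.continuousAt.tendsto
    rwa [h1] at this
  refine ⟨β, U, hUo, hβ, hβU, ?_⟩
  filter_upwards [h4, hΛt.eventually hUe] with w hw hwU hwM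
  exact ⟨(Λ w).1, (Λ w).2, hwU, hw hwM⟩

/-- critical vectors are permuted by the flow -/
lemma Surf.critical_flow (S : Surf M P) {F : E × E → ℝ} (hF : IsFirstIntegral M F)
    {φ : ℝ → E × E → E × E} (hφ : IsFlowOn (UT M) (Xf P) φ) {z : E × E}
    (hz : z ∈ Critical M F) (s : ℝ) : φ s z ∈ Critical M F := by
  refine ⟨hφ.maps s z hz.1, fun β hβ0 hβU hβd => ?_⟩
  have hφs : ContDiff ℝ ∞ (φ (-s)) := hφ.smooth.comp (contDiff_const.prodMk contDiff_id)
  have h1 := hz.2 (fun t => φ (-s) (β t)) (by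
      simp only [hβ0]
      rw [← hφ.add, neg_add_cancel, hφ.zero])
    (hβU.mono fun t ht => hφ.maps _ _ ht)
    (DifferentiableAt.comp (g := φ (-s)) (0 : ℝ) (hφs.differentiable (by simp) _) hβd)
  refine h1.congr_of_eventuallyEq ?_
  filter_upwards [hβU] with t ht
  exact (S.integral_flow hφ hF ht (-s)).symm

theorem Surf.volume_critical (S : Surf M P) {F : E × E → ℝ} (hF : IsFirstIntegral M F) :
    MeasureTheory.volume (F '' Critical M F) = 0 := by
  obtain ⟨φ, hφ⟩ := S.exists_geodesic_flow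
  have hloc : ∀ z ∈ Critical M F, ∃ V ∈ 𝓝 z,
      MeasureTheory.volume (F '' (Critical M F ∩ V)) = 0 := by
    intro z hz
    obtain ⟨β, U, hU, hβ, hβU, hev⟩ := S.exists_section hφ hz.1
    refine ⟨_, hev, ?_⟩
    have hfin : Module.finrank ℝ (ℝ × ℝ) = 2 := by simp
    have hsm : ContDiffOn ℝ 3 (fun q => F (β q)) U :=
      (hF.1.comp_contDiffOn hβ).of_le (WithTop.coe_le_coe.2 (le_top : (3 : ℕ∞) ≤ ⊤))
    refine MeasureTheory.measure_mono_null ?_ (sard2 hfin hU hsm)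
    rintro _ ⟨w, ⟨hwc, hw⟩, rfl⟩
    obtain ⟨s, q, hq, hsq⟩ := hw hwc.1
    have hβq : β q ∈ Critical M F := by
      have h1 := S.critical_flow hF hφ hwc (-s)
      rwa [← hsq, ← hφ.add, neg_add_cancel, hφ.zero] at h1
    refine ⟨q, ⟨hq, ?_⟩, ?_⟩
    · refine ContinuousLinearMap.ext fun r => ?_
      have hdq : HasFDerivAt (fun q => F (β q)) (fderiv ℝ (fun q => F (β q)) q) q :=
        ((hsm.contDiffAt (hU.mem_nhds hq)).differentiableAt (by norm_num)).hasFDerivAt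
      have hline : HasDerivAt (fun t : ℝ => q + t • r) r 0 := by
        simpa using ((hasDerivAt_id (0 : ℝ)).smul_const r).const_add q
      have hdq0 : HasFDerivAt (fun q => F (β q)) (fderiv ℝ (fun q => F (β q)) q)
          (q + (0 : ℝ) • r) := by simpa using hdq
      have h1 := HasFDerivAt.comp_hasDerivAt (f := fun t : ℝ => q + t • r) 0 hdq0 hline
      have ht : Tendsto (fun t : ℝ => q + t • r) (𝓝 0) (𝓝 q) := by
        simpa using hline.continuousAt.tendsto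
      have hβd : DifferentiableAt ℝ β (q + (0 : ℝ) • r) := by
        have := (hβ.contDiffAt (hU.mem_nhds hq)).differentiableAt (by simp)
        simpa using this
      have h2 := hβq.2 (fun t => β (q + t • r)) (by simp)
        ((ht.eventually (hU.mem_nhds hq)).mono fun t ht => hβU _ ht)
        (DifferentiableAt.comp (g := β) (0 : ℝ) hβd hline.differentiableAt)
      exact h1.unique h2
    · simp only
      rw [← hsq, S.integral_flow hφ hF (hβU q hq)]
  choose! V hV hVn using hloc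
  obtain ⟨t, htC, htc, hcov⟩ := TopologicalSpace.countable_cover_nhdsWithin
    (f := V) (s := Critical M F) (fun x hx => mem_nhdsWithin_of_mem_nhds (hV x hx))
  have hsub : F '' Critical M F ⊆ ⋃ x ∈ t, F '' (Critical M F ∩ V x) := by
    rintro _ ⟨x, hx, rfl⟩
    obtain ⟨y, hy⟩ := mem_iUnion.1 (hcov hx)
    obtain ⟨hyt, hxy⟩ := mem_iUnion.1 hy
    exact mem_iUnion₂.2 ⟨y, hyt, ⟨x, ⟨hx, hxy⟩, rfl⟩⟩
  exact MeasureTheory.measure_mono_null hsub
    ((MeasureTheory.measure_biUnion_null_iff htc).2 fun x hx => hVn x (htC hx))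

theorem Surf.interior_critical (S : Surf M P) {F : E × E → ℝ} (hF : IsFirstIntegral M F) :
    interior (F '' Critical M F) = ∅ := by
  by_contra h
  have h1 := isOpen_interior.measure_pos MeasureTheory.volume (nonempty_iff_ne_empty.2 h)
  have h2 := MeasureTheory.measure_mono_null interior_subset (S.volume_critical hF)
  rw [h2] at h1
  exact lt_irrefl _ h1

end Pool.Agent.PG
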