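import Pool.Agent.Work.PG.Defs

/-!
# The projection field of an embedded surface

Module A of cell PG. `Surf M P` collects what the rest of the proof uses of the surface `M`:
a smooth field `P x` of linear maps on the whole of `E` which for `x ∈ M` is the orthogonal
projection onto the tangent plane.
-/

set_option autoImplicit false

open Set Filter Topology
open scoped ContDiff InnerProductSpace

namespace Pool.Agent.PG

variable {E : Type*} [NormedAddCommGroup E] [InnerProductSpace ℝ E]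

/-- the interface of module A -/
structure Surf (M : Set E) (P : E → E →L[ℝ] E) : Prop where
  compact : IsCompact M
  smooth : ContDiff ℝ ∞ P
  mem_tangent : ∀ x ∈ M, ∀ a, a ∈ tangent M x ↔ P x a = a
  idem : ∀ x ∈ M, ∀ a, P x (P x a) = P x a
  symm : ∀ x ∈ M, ∀ a b, ⟪P x a, b⟫_ℝ = ⟪a, P x b⟫_ℝ
  /-- the tangent spaces are two-dimensional -/
  plane : ∀ x ∈ M, ∃ e₁ e₂ : E, P x e₁ = e₁ ∧ P x e₂ = e₂ ∧ ‖e₁‖ = 1 ∧ ‖e₂‖ = 1 ∧
    ⟪e₁, e₂⟫_ℝ = 0 ∧ ∀ a, P x a = ⟪e₁, a⟫_ℝ • e₁ + ⟪e₂, a⟫_ℝ • e₂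
  /-- tangent vectors are velocities of smooth curves in `M` -/
  curve : ∀ x ∈ M, ∀ a, P x a = a → ∃ c : ℝ → E, ContDiff ℝ ∞ c ∧ (∀ t, c t ∈ M) ∧ c 0 = x ∧
    HasDerivAt c a 0
  /-- symmetry of the second fundamental form -/
  sff : ∀ x ∈ M, ∀ a b, P x a = a → P x b = b → fderiv ℝ P x a b = fderiv ℝ P x b a
  /-- local charts -/
  chart : ∀ x ∈ M, ∃ (O : Set E) (κ : E → Pl), IsOpen O ∧ x ∈ O ∧ ContDiffOn ℝ ∞ κ O ∧
    InjOn κ (M ∩ O) ∧ ∀ a, P x a = a → fderiv ℝ κ x a = 0 → a = 0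

/-- `L` is the orthogonal projection onto the tangent plane of `M` at `y`. -/
structure IsProj (M : Set E) (y : E) (L : E →L[ℝ] E) : Prop where
  mem_tangent : ∀ a, a ∈ tangent M y ↔ L a = a
  idem : ∀ a, L (L a) = L a
  symm : ∀ a b, ⟪L a, b⟫_ℝ = ⟪a, L b⟫_ℝ
  plane : ∃ e₁ e₂ : E, L e₁ = e₁ ∧ L e₂ = e₂ ∧ ‖e₁‖ = 1 ∧ ‖e₂‖ = 1 ∧
    ⟪e₁, e₂⟫_ℝ = 0 ∧ ∀ a, L a = ⟪e₁, a⟫_ℝ • e₁ + ⟪e₂, a⟫_ℝ • e₂

theorem IsProj.unique {M : Set E} {y : E} {L L' : E →L[ℝ] E} (h : IsProj M y L)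
    (h' : IsProj M y L') : L = L' := by
  ext a
  refine ext_inner_right ℝ fun b => ?_
  have h1 : L' (L a) = L a := (h'.mem_tangent _).1 ((h.mem_tangent _).2 (h.idem a))
  have h2 : L (L' b) = L' b := (h.mem_tangent _).1 ((h'.mem_tangent _).2 (h'.idem b))
  rw [← h1, h'.symm, h.symm, h2, ← h'.symm]

/-- the unit vectors of the parameter plane -/
noncomputable def pe (i : Fin 2) : Pl := EuclideanSpace.single i 1

theorem pl_eq (u : Pl) : u = u 0 • pe 0 + u 1 • pe 1 := by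
  ext i
  fin_cases i <;> simp [pe]

/-- the map `a ↦ ⟪n₁, a⟫ n₁ + ⟪n₂, a⟫ n₂` -/
noncomputable def frameProj (n₁ n₂ : E) : E →L[ℝ] E :=
  (innerSL ℝ n₁).smulRight n₁ + (innerSL ℝ n₂).smulRight n₂

theorem frameProj_apply (n₁ n₂ a : E) :
    frameProj n₁ n₂ a = ⟪n₁, a⟫_ℝ • n₁ + ⟪n₂, a⟫_ℝ • n₂ := by
  simp [frameProj]

/-- Gram-Schmidt for two vectors: the first vector -/
noncomputable def gs1 (v : E) : E := ‖v‖⁻¹ • v

/-- Gram-Schmidt for two vectors: the second vector before normalisation -/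
noncomputable def gsw (v w : E) : E := w - ⟪gs1 v, w⟫_ℝ • gs1 v

theorem norm_gs1 {v : E} (hv : v ≠ 0) : ‖gs1 v‖ = 1 := by
  rw [gs1, norm_smul, norm_inv, norm_norm, inv_mul_cancel₀ (norm_ne_zero_iff.2 hv)]

theorem inner_gs1_self {v : E} (hv : v ≠ 0) : ⟪gs1 v, gs1 v⟫_ℝ = 1 := by
  rw [real_inner_self_eq_norm_sq, norm_gs1 hv, one_pow]

theorem inner_gs1_gsw {v w : E} (hv : v ≠ 0) : ⟪gs1 v, gsw v w⟫_ℝ = 0 := by
  rw [gsw, inner_sub_right, inner_smul_right, inner_gs1_self hv, mul_one, sub_self]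

theorem smul_gs1 (v : E) : ‖v‖ • gs1 v = v := by
  by_cases hv : v = 0
  · simp [hv, gs1]
  · rw [gs1, smul_smul, mul_inv_cancel₀ (norm_ne_zero_iff.2 hv), one_smul]

/-- `a v + b w = 0` only for `a = b = 0`. -/
def Indep2 (v w : E) : Prop := ∀ a b : ℝ, a • v + b • w = 0 → a = 0 ∧ b = 0

theorem Indep2.ne {v w : E} (h : Indep2 v w) : v ≠ 0 := by
  intro hv
  have := h 1 0 (by simp [hv])
  exact one_ne_zero this.1

theorem Indep2.gsw_ne {v w : E} (h : Indep2 v w) : gsw v w ≠ 0 := by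
  intro hw
  have h1 := h (-(⟪gs1 v, w⟫_ℝ * ‖v‖⁻¹)) 1 (by
    rw [gsw, gs1] at hw
    rw [← hw, gs1]
    module)
  exact one_ne_zero h1.2

/-- The orthonormal frame: everything about `frameProj` of it. -/
theorem frame_props {v w : E} (h : Indep2 v w) :
    ‖gs1 v‖ = 1 ∧ ‖gs1 (gsw v w)‖ = 1 ∧ ⟪gs1 v, gs1 (gsw v w)⟫_ℝ = 0 ∧
      (∀ a b : ℝ, frameProj (gs1 v) (gs1 (gsw v w)) (a • v + b • w) = a • v + b • w) ∧
      ∀ x, ∃ a b : ℝ, frameProj (gs1 v) (gs1 (gsw v w)) x = a • v + b • w := by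
  have hv := h.ne
  have hw := h.gsw_ne
  have h12 : ⟪gs1 v, gs1 (gsw v w)⟫_ℝ = 0 := by
    have e : gs1 (gsw v w) = ‖gsw v w‖⁻¹ • gsw v w := rfl
    rw [e, inner_smul_right, inner_gs1_gsw hv, mul_zero]
  have hn1 : ⟪gs1 v, gs1 v⟫_ℝ = 1 := inner_gs1_self hv
  have hn2 : ⟪gs1 (gsw v w), gs1 (gsw v w)⟫_ℝ = 1 := inner_gs1_self hw
  have h21 : ⟪gs1 (gsw v w), gs1 v⟫_ℝ = 0 := by rw [real_inner_comm]; exact h12
  have hP1 : frameProj (gs1 v) (gs1 (gsw v w)) (gs1 v) = gs1 v := by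
    rw [frameProj_apply, hn1, h21, one_smul, zero_smul, add_zero]
  have hP2 : frameProj (gs1 v) (gs1 (gsw v w)) (gs1 (gsw v w)) = gs1 (gsw v w) := by
    rw [frameProj_apply, hn2, h12, one_smul, zero_smul, zero_add]
  have hPv : frameProj (gs1 v) (gs1 (gsw v w)) v = v := by
    have e := congrArg (frameProj (gs1 v) (gs1 (gsw v w))) (smul_gs1 v)
    rw [map_smul, hP1] at e
    rw [← e, smul_gs1]
  have hPg : frameProj (gs1 v) (gs1 (gsw v w)) (gsw v w) = gsw v w := by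
    have e := congrArg (frameProj (gs1 v) (gs1 (gsw v w))) (smul_gs1 (gsw v w))
    rw [map_smul, hP2] at e
    rw [← e, smul_gs1]
  have hPw : frameProj (gs1 v) (gs1 (gsw v w)) w = w := by
    have e : gsw v w + ⟪gs1 v, w⟫_ℝ • gs1 v = w := by rw [gsw]; module
    have e' := congrArg (frameProj (gs1 v) (gs1 (gsw v w))) e
    rw [map_add, map_smul, hPg, hP1] at e'
    rw [← e', e]
  refine ⟨norm_gs1 hv, norm_gs1 hw, h12, fun a b => ?_, fun x => ?_⟩
  · rw [map_add, map_smul, map_smul, hPv, hPw]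
  · refine ⟨⟪gs1 v, x⟫_ℝ * ‖v‖⁻¹ - ⟪gs1 (gsw v w), x⟫_ℝ * ‖gsw v w‖⁻¹ * ⟪gs1 v, w⟫_ℝ * ‖v‖⁻¹,
      ⟪gs1 (gsw v w), x⟫_ℝ * ‖gsw v w‖⁻¹, ?_⟩
    rw [frameProj_apply]
    have e1 : gs1 v = ‖v‖⁻¹ • v := rfl
    have e2 : gs1 (gsw v w) = ‖gsw v w‖⁻¹ • (w - ⟪gs1 v, w⟫_ℝ • (‖v‖⁻¹ • v)) := by
      rw [← e1]; rfl
    generalize ⟪gs1 v, x⟫_ℝ = A at *
    generalize ⟪gs1 (gsw v w), x⟫_ℝ = B at *
    generalize ⟪gs1 v, w⟫_ℝ = Cc at *
    rw [e2, e1]
    module

/-- The data of a chart. -/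
structure IsChart (M : Set E) (O : Set E) (D : Set Pl) (f : Pl → E) (κ : E → Pl) : Prop where
  openO : IsOpen O
  openD : IsOpen D
  smoothf : ContDiffOn ℝ ∞ f D
  smoothk : ContDiffOn ℝ ∞ κ O
  image : f '' D = M ∩ O
  left : ∀ p ∈ D, κ (f p) = p

namespace IsChart

variable {M : Set E} {O : Set E} {D : Set Pl} {f : Pl → E} {κ : E → Pl}

theorem mem_of (h : IsChart M O D f κ) {p : Pl} (hp : p ∈ D) : f p ∈ M ∩ O :=
  h.image ▸ mem_image_of_mem f hp

theorem kmem (h : IsChart M O D f κ) {y : E} (hy : y ∈ M) (hy' : y ∈ O) : κ y ∈ D := by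
  have h1 : y ∈ f '' D := by rw [h.image]; exact ⟨hy, hy'⟩
  obtain ⟨p, hp, rfl⟩ := h1
  rwa [h.left p hp]

theorem right (h : IsChart M O D f κ) {y : E} (hy : y ∈ M) (hy' : y ∈ O) : f (κ y) = y := by
  have h1 : y ∈ f '' D := by rw [h.image]; exact ⟨hy, hy'⟩
  obtain ⟨p, hp, rfl⟩ := h1
  rw [h.left p hp]

theorem diff_f (h : IsChart M O D f κ) {p : Pl} (hp : p ∈ D) : DifferentiableAt ℝ f p :=
  ((h.smoothf.contDiffAt (h.openD.mem_nhds hp)).differentiableAt (by simp))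

theorem diff_k (h : IsChart M O D f κ) {y : E} (hy : y ∈ O) : DifferentiableAt ℝ κ y :=
  ((h.smoothk.contDiffAt (h.openO.mem_nhds hy)).differentiableAt (by simp))

/-- `Dκ ∘ Df = id` -/
theorem fderiv_left (h : IsChart M O D f κ) {p : Pl} (hp : p ∈ D) (u : Pl) :
    fderiv ℝ κ (f p) (fderiv ℝ f p u) = u := by
  have h1 : HasFDerivAt (κ ∘ f) ((fderiv ℝ κ (f p)).comp (fderiv ℝ f p)) p :=
    (h.diff_k (h.mem_of hp).2).hasFDerivAt.comp p (h.diff_f hp).hasFDerivAt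
  have h2 : HasFDerivAt (κ ∘ f) (ContinuousLinearMap.id ℝ Pl) p := by
    refine (hasFDerivAt_id p).congr_of_eventuallyEq ?_
    filter_upwards [h.openD.mem_nhds hp] with q hq
    exact h.left q hq
  have h3 := congrArg (fun L : Pl →L[ℝ] Pl => L u) (h1.unique h2)
  simpa using h3

theorem indep (h : IsChart M O D f κ) {p : Pl} (hp : p ∈ D) :
    Indep2 (fderiv ℝ f p (pe 0)) (fderiv ℝ f p (pe 1)) := by
  intro a b hab
  have h1 : fderiv ℝ f p (a • pe 0 + b • pe 1) = 0 := by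
    rw [map_add, map_smul, map_smul]; exact hab
  have h2 := h.fderiv_left hp (a • pe 0 + b • pe 1)
  rw [h1, map_zero] at h2
  constructor
  · have := congrArg (fun u : Pl => u 0) h2
    simpa [pe] using this.symm
  · have := congrArg (fun u : Pl => u 1) h2
    simpa [pe] using this.symm

/-- tangent vectors -/
theorem tangent_iff (h : IsChart M O D f κ) {p : Pl} (hp : p ∈ D) (a : E) :
    a ∈ tangent M (f p) ↔ ∃ u, a = fderiv ℝ f p u := by
  constructor
  · rintro ⟨c, hc0, hcM, hca⟩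
    have hcont : ContinuousAt c 0 := hca.continuousAt
    have hO : ∀ᶠ t in 𝓝 (0 : ℝ), c t ∈ O := by
      apply hcont.eventually
      rw [hc0]
      exact h.openO.mem_nhds (h.mem_of hp).2
    have e1 : c =ᶠ[𝓝 0] fun t => f (κ (c t)) := by
      filter_upwards [hcM, hO] with t h1 h2
      exact (h.right h1 h2).symm
    have hk : HasDerivAt (fun t => κ (c t)) (fderiv ℝ κ (f p) a) 0 := by
      have := (h.diff_k (h.mem_of hp).2).hasFDerivAt
      rw [← hc0] at this ⊢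
      exact this.comp_hasDerivAt 0 hca
    have hf : HasDerivAt (fun t => f (κ (c t))) (fderiv ℝ f p (fderiv ℝ κ (f p) a)) 0 := by
      have := (h.diff_f hp).hasFDerivAt
      have hkp : κ (c 0) = p := by rw [hc0]; exact h.left p hp
      rw [← hkp] at this ⊢
      rw [hkp] at this ⊢
      have h3 : HasFDerivAt f (fderiv ℝ f p) (κ (c 0)) := by rw [hkp]; exact this
      exact h3.comp_hasDerivAt 0 hk
    exact ⟨_, (hca.congr_of_eventuallyEq e1.symm).unique hf⟩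
  · rintro ⟨u, rfl⟩
    refine ⟨fun t => f (p + t • u), by simp, ?_, ?_⟩
    · have hcont : ContinuousAt (fun t : ℝ => p + t • u) 0 := by fun_prop
      have : ∀ᶠ t in 𝓝 (0 : ℝ), p + t • u ∈ D := by
        apply hcont.eventually
        simpa using h.openD.mem_nhds hp
      filter_upwards [this] with t ht
      exact (h.mem_of ht).1
    · have h1 : HasDerivAt (fun t : ℝ => p + t • u) u 0 := by
        simpa using ((hasDerivAt_id (0 : ℝ)).smul_const u).const_add p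
      have h2 : HasFDerivAt f (fderiv ℝ f p) (p + (0 : ℝ) • u) := by
        simpa using (h.diff_f hp).hasFDerivAt
      exact h2.comp_hasDerivAt 0 h1

/-- the projection field in the parameter domain -/
noncomputable def Q (f : Pl → E) (p : Pl) : E →L[ℝ] E :=
  frameProj (gs1 (fderiv ℝ f p (pe 0)))
    (gs1 (gsw (fderiv ℝ f p (pe 0)) (fderiv ℝ f p (pe 1))))

theorem isProj_Q (h : IsChart M O D f κ) {p : Pl} (hp : p ∈ D) : IsProj M (f p) (Q f p) := by
  obtain ⟨h1, h2, h3, h4, h5⟩ := frame_props (h.indep hp)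
  have h6 : ∀ u, Q f p (fderiv ℝ f p u) = fderiv ℝ f p u := by
    intro u
    conv_lhs => rw [pl_eq u]
    conv_rhs => rw [pl_eq u]
    rw [map_add, map_smul, map_smul]
    exact h4 _ _
  have h7 : ∀ a, ∃ u, Q f p a = fderiv ℝ f p u := by
    intro a
    obtain ⟨x, y, hxy⟩ := h5 a
    refine ⟨x • pe 0 + y • pe 1, ?_⟩
    rw [map_add, map_smul, map_smul]
    exact hxy
  have hn1 : ⟪gs1 (fderiv ℝ f p (pe 0)), gs1 (fderiv ℝ f p (pe 0))⟫_ℝ = 1 :=
    inner_gs1_self (h.indep hp).ne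
  have hn2 := inner_gs1_self (h.indep hp).gsw_ne
  refine ⟨fun a => ?_, fun a => ?_, fun a b => ?_,
    gs1 (fderiv ℝ f p (pe 0)), gs1 (gsw (fderiv ℝ f p (pe 0)) (fderiv ℝ f p (pe 1))),
    ?_, ?_, h1, h2, h3, fun a => frameProj_apply _ _ a⟩
  · rw [h.tangent_iff hp]
    constructor
    · rintro ⟨u, rfl⟩
      exact h6 u
    · intro ha
      obtain ⟨u, hu⟩ := h7 a
      exact ⟨u, ha ▸ hu⟩
  · obtain ⟨u, hu⟩ := h7 a
    rw [hu, h6]
  · simp only [Q, frameProj_apply, inner_add_left, inner_add_right, inner_smul_left,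
      inner_smul_right, RCLike.conj_to_real]
    rw [real_inner_comm a, real_inner_comm a]
    ring
  · rw [Q, frameProj_apply, hn1, real_inner_comm, h3, one_smul, zero_smul, add_zero]
  · rw [Q, frameProj_apply, hn2, h3, one_smul, zero_smul, zero_add]

theorem contDiffOn_Q [FiniteDimensional ℝ E] (h : IsChart M O D f κ) :
    ContDiffOn ℝ ∞ (Q f) D := by
  rw [contDiffOn_clm_apply]
  intro a
  have hf' : ContDiffOn ℝ ∞ (fderiv ℝ f) D := h.smoothf.fderiv_of_isOpen h.openD (by simp)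
  have h1 : ∀ u : Pl, ContDiffOn ℝ ∞ (fun p => fderiv ℝ f p u) D :=
    fun u => hf'.clm_apply contDiffOn_const
  have h2 : ContDiffOn ℝ ∞ (fun p => gs1 (fderiv ℝ f p (pe 0))) D :=
    (((h1 _).norm ℝ (fun p hp => (h.indep hp).ne)).inv
      (fun p hp => norm_ne_zero_iff.2 (h.indep hp).ne)).smul (h1 _)
  have h3 : ContDiffOn ℝ ∞
      (fun p => gsw (fderiv ℝ f p (pe 0)) (fderiv ℝ f p (pe 1))) D :=
    (h1 _).sub ((h2.inner ℝ (h1 _)).smul h2)
  have h4 : ContDiffOn ℝ ∞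
      (fun p => gs1 (gsw (fderiv ℝ f p (pe 0)) (fderiv ℝ f p (pe 1)))) D :=
    ((h3.norm ℝ (fun p hp => (h.indep hp).gsw_ne)).inv
      (fun p hp => norm_ne_zero_iff.2 (h.indep hp).gsw_ne)).smul h3
  simp only [Q, frameProj_apply]
  exact ((h2.inner ℝ contDiffOn_const).smul h2).add ((h4.inner ℝ contDiffOn_const).smul h4)

theorem curve (h : IsChart M O D f κ) {p : Pl} (hp : p ∈ D) (u : Pl) :
    ∃ c : ℝ → E, ContDiff ℝ ∞ c ∧ (∀ t, c t ∈ M) ∧ c 0 = f p ∧
      HasDerivAt c (fderiv ℝ f p u) 0 := by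
  obtain ⟨r, hr, hball⟩ := Metric.isOpen_iff.1 h.openD p hp
  obtain ⟨ε, hε, hεr⟩ : ∃ ε : ℝ, 0 < ε ∧ ε * ‖u‖ < r := by
    refine ⟨r / (2 * (‖u‖ + 1)), by positivity, ?_⟩
    rw [div_mul_eq_mul_div, div_lt_iff₀ (by positivity)]
    nlinarith [norm_nonneg u]
  have hmem : ∀ t : ℝ, p + (ε * Real.sin (t / ε)) • u ∈ D := by
    intro t
    apply hball
    rw [Metric.mem_ball, dist_eq_norm, add_sub_cancel_left, norm_smul, Real.norm_eq_abs, abs_mul,
      abs_of_pos hε]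
    refine lt_of_le_of_lt ?_ hεr
    refine mul_le_mul_of_nonneg_right ?_ (norm_nonneg u)
    exact mul_le_of_le_one_right hε.le (Real.abs_sin_le_one _)
  have hin : ContDiff ℝ ∞ fun t : ℝ => p + (ε * Real.sin (t / ε)) • u := by fun_prop
  refine ⟨fun t => f (p + (ε * Real.sin (t / ε)) • u), ?_, fun t => (h.mem_of (hmem t)).1, ?_, ?_⟩
  · exact h.smoothf.comp_contDiff hin hmem
  · simp
  · have h1 : HasDerivAt (fun t : ℝ => p + (ε * Real.sin (t / ε)) • u) u 0 := by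
      have h2 : HasDerivAt (fun t : ℝ => ε * Real.sin (t / ε)) 1 0 := by
        have h3 := (((hasDerivAt_id (0 : ℝ)).div_const ε).sin).const_mul ε
        simp only [id, zero_div, Real.cos_zero, one_mul] at h3
        rwa [mul_one_div_cancel hε.ne'] at h3
      simpa using (h2.smul_const u).const_add p
    have h2 : HasFDerivAt f (fderiv ℝ f p) (p + (ε * Real.sin ((0 : ℝ) / ε)) • u) := by
      simpa using (h.diff_f hp).hasFDerivAt
    exact h2.comp_hasDerivAt 0 h1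

end IsChart

theorem exists_isProj_field [FiniteDimensional ℝ E] {M : Set E} (hM : IsClosedSurface M) :
    ∃ P : E → E →L[ℝ] E, ContDiff ℝ ∞ P ∧ ∀ x ∈ M, IsProj M x (P x) := by
  let t : E → Set (E →L[ℝ] E) := fun y => {L | y ∈ M → IsProj M y L}
  have ht : ∀ y, Convex ℝ (t y) := by
    intro y
    by_cases hy : y ∈ M
    · apply Set.Subsingleton.convex
      intro L hL L' hL'
      exact (hL hy).unique (hL' hy)
    · have : t y = univ := eq_univ_of_forall fun L hL => absurd hL hy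
      rw [this]; exact convex_univ
  have hloc : ∀ x : E, ∃ U ∈ 𝓝 x, ∃ g : E → E →L[ℝ] E,
      ContMDiffOn (modelWithCornersSelf ℝ E) (modelWithCornersSelf ℝ (E →L[ℝ] E)) ∞ g U ∧
        ∀ y ∈ U, g y ∈ t y := by
    intro x
    by_cases hx : x ∈ M
    · obtain ⟨O, D, f, κ, hO, hxO, hD, hf, hk, him, hl⟩ := hM.chart x hx
      have h : IsChart M O D f κ := ⟨hO, hD, hf, hk, him, hl⟩
      refine ⟨O ∩ κ ⁻¹' D, (hk.continuousOn.isOpen_inter_preimage hO hD).mem_nhds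
        ⟨hxO, h.kmem hx hxO⟩, fun y => IsChart.Q f (κ y), ?_, ?_⟩
      · rw [contMDiffOn_iff_contDiffOn]
        exact h.contDiffOn_Q.comp (hk.mono inter_subset_left) fun y hy => hy.2
      · intro y hy hyM
        have := h.isProj_Q (h.kmem hyM hy.1)
        rwa [h.right hyM hy.1] at this
    · exact ⟨Mᶜ, hM.compact.isClosed.isOpen_compl.mem_nhds hx, fun _ => 0, contMDiffOn_const,
        fun y hy hyM => absurd hyM hy⟩
  obtain ⟨g, hg⟩ := exists_contMDiffMap_forall_mem_convex_of_local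
    (modelWithCornersSelf ℝ E) (n := (⊤ : ℕ∞)) ht hloc
  exact ⟨g, g.contMDiff.contDiff, fun x hx => hg x hx⟩

/-- Module A. Hints: near `x` take `A y = fderiv ℝ f (κ y)`, Gram-Schmidt of the two vectors
`A y (e 0)`, `A y (e 1)` gives smooth `e₁ y, e₂ y` and the local field
`P y a = ⟪e₁ y, a⟫ e₁ y + ⟪e₂ y, a⟫ e₂ y`; globalise with
`exists_contMDiffOn_forall_mem_convex_of_local` (or `exists_smooth_forall_mem_convex_of_local`)
for the convex sets `t y = {the projection}` if `y ∈ M`, `univ` otherwise.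
`curve`: `c t = f (κ x + (ε * sin (t / ε)) • u)`. `sff`: differentiate
`P (f p) (Df_p u') = Df_p u'` in the direction `u` and use the symmetry of `D²f`. -/
theorem exists_surf [FiniteDimensional ℝ E] {M : Set E} (hM : IsClosedSurface M) :
    ∃ P : E → E →L[ℝ] E, Surf M P := by
  obtain ⟨P, hPc, hP⟩ := exists_isProj_field hM
  have hch : ∀ x ∈ M, ∃ (O : Set E) (D : Set Pl) (f : Pl → E) (κ : E → Pl),
      IsChart M O D f κ ∧ x ∈ O := fun x hx => by
    obtain ⟨O, D, f, κ, hO, hxO, hD, hf, hk, him, hl⟩ := hM.chart x hx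
    exact ⟨O, D, f, κ, ⟨hO, hD, hf, hk, him, hl⟩, hxO⟩
  refine ⟨P, hM.compact, hPc, fun x hx => (hP x hx).mem_tangent, fun x hx => (hP x hx).idem,
    fun x hx => (hP x hx).symm, fun x hx => (hP x hx).plane, ?_, ?_, ?_⟩
  · -- curves
    intro x hx a ha
    obtain ⟨O, D, f, κ, h, hxO⟩ := hch x hx
    have hfx := h.right hx hxO
    have hp := h.kmem hx hxO
    have h1 := ((hP x hx).mem_tangent a).2 ha
    rw [← hfx, h.tangent_iff hp] at h1
    obtain ⟨u, rfl⟩ := h1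
    obtain ⟨c, h2, h3, h4, h5⟩ := h.curve hp u
    exact ⟨c, h2, h3, h4.trans hfx, h5⟩
  · -- symmetry of the second fundamental form
    intro x hx a b ha hb
    obtain ⟨O, D, f, κ, h, hxO⟩ := hch x hx
    have hfx := h.right hx hxO
    have hp := h.kmem hx hxO
    have h1 := ((hP x hx).mem_tangent a).2 ha
    have h2 := ((hP x hx).mem_tangent b).2 hb
    rw [← hfx, h.tangent_iff hp] at h1 h2
    obtain ⟨u, rfl⟩ := h1
    obtain ⟨v, rfl⟩ := h2
    set p := κ x with hpx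
    have hf' : ContDiffOn ℝ ∞ (fderiv ℝ f) D := h.smoothf.fderiv_of_isOpen h.openD (by simp)
    have hf'd : DifferentiableAt ℝ (fderiv ℝ f) p :=
      (hf'.contDiffAt (h.openD.mem_nhds hp)).differentiableAt (by simp)
    have key : ∀ u v : Pl, fderiv ℝ P x (fderiv ℝ f p u) (fderiv ℝ f p v) =
        fderiv ℝ (fderiv ℝ f) p u v - P x (fderiv ℝ (fderiv ℝ f) p u v) := by
      intro u v
      have e1 : (fun q => P (f q) (fderiv ℝ f q v)) =ᶠ[𝓝 p] fun q => fderiv ℝ f q v := by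
        filter_upwards [h.openD.mem_nhds hp] with q hq
        exact ((hP (f q) (h.mem_of hq).1).mem_tangent _).1 ((h.tangent_iff hq _).2 ⟨v, rfl⟩)
      have hPd : HasFDerivAt (fun q => P (f q)) ((fderiv ℝ P x).comp (fderiv ℝ f p)) p := by
        have h3 : HasFDerivAt P (fderiv ℝ P x) (f p) := by
          rw [hfx]
          exact (hPc.differentiable (by simp) x).hasFDerivAt
        exact h3.comp p (h.diff_f hp).hasFDerivAt
      have hv : HasFDerivAt (fun q => fderiv ℝ f q v)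
          ((ContinuousLinearMap.apply ℝ E v).comp (fderiv ℝ (fderiv ℝ f) p)) p :=
        (ContinuousLinearMap.apply ℝ E v).hasFDerivAt.comp p hf'd.hasFDerivAt
      have h4 := hPd.clm_apply hv
      have h5 := (h4.congr_of_eventuallyEq e1.symm).unique hv
      have h6 := congrArg (fun L : Pl →L[ℝ] E => L u) h5
      simp only [ContinuousLinearMap.add_apply, ContinuousLinearMap.comp_apply,
        ContinuousLinearMap.flip_apply, ContinuousLinearMap.apply_apply, hfx] at h6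
      rw [eq_sub_iff_add_eq, add_comm]
      exact h6
    have hsymm : IsSymmSndFDerivAt ℝ f p :=
      (h.smoothf.contDiffAt (h.openD.mem_nhds hp)).isSymmSndFDerivAt (by
        rw [minSmoothness_of_isRCLikeNormedField]; exact WithTop.coe_le_coe.2 le_top)
    rw [key, key, hsymm.eq u v]
  · -- charts
    intro x hx
    obtain ⟨O, D, f, κ, h, hxO⟩ := hch x hx
    have hfx := h.right hx hxO
    have hp := h.kmem hx hxO
    refine ⟨O, κ, h.openO, hxO, h.smoothk, ?_, ?_⟩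
    · intro y hy z hz hyz
      rw [← h.right hy.1 hy.2, hyz, h.right hz.1 hz.2]
    · intro a ha h0
      have h1 := ((hP x hx).mem_tangent a).2 ha
      rw [← hfx, h.tangent_iff hp] at h1
      obtain ⟨u, rfl⟩ := h1
      have h2 := h.fderiv_left hp u
      rw [hfx, h0] at h2
      rw [← h2, map_zero]

end Pool.Agent.PG
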