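import Mathlib

/-!
# The zip lemma (helper88, cell PG)

A closed equivalence relation `R` on an interval, contained in and relatively open in
`{(u, u') : A u = A u'}` with `A` continuous, is equal to `{(u, u') : A u = A u'}`.
-/

namespace Pool.Agent.PG

open Set Topology

/-- Two-sided shrinking of an excursion: if `A > A u = A u'` on `(u, u')`, there are pairs
`(w, w')` strictly inside, arbitrarily close to `(u, u')`, with `A w = A w'`. -/
lemma zip_shrink {A : ℝ → ℝ} {u u' : ℝ} (huu : u < u') (hA : ContinuousOn A (Icc u u'))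
    (hAu : A u = A u') (hpos : ∀ w ∈ Ioo u u', A u < A w) {ε : ℝ} (hε : 0 < ε) :
    ∃ w w', w ∈ Ioo u u' ∧ w' ∈ Ioo u u' ∧ w < w' ∧ w - u < ε ∧ u' - w' < ε ∧ A w = A w' := by
  set δ := min (ε / 2) ((u' - u) / 4) with hδ
  have hδ0 : 0 < δ := lt_min (by linarith) (by linarith)
  have hδ1 : δ ≤ ε / 2 := min_le_left _ _
  have hδ2 : δ ≤ (u' - u) / 4 := min_le_right _ _
  have h1 : A u < A (u + δ) := hpos _ ⟨by linarith, by linarith⟩
  have h2 : A u < A (u' - δ) := hpos _ ⟨by linarith, by linarith⟩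
  obtain ⟨y, hy1, hy2⟩ := exists_between (lt_min h1 h2)
  have hy3 := lt_min_iff.1 hy2
  obtain ⟨w, hw, hwy⟩ := intermediate_value_Icc (show u ≤ u + δ by linarith)
    (hA.mono (Icc_subset_Icc le_rfl (by linarith))) ⟨hy1.le, hy3.1.le⟩
  obtain ⟨w', hw', hwy'⟩ := intermediate_value_Icc' (show u' - δ ≤ u' by linarith)
    (hA.mono (Icc_subset_Icc (by linarith) le_rfl)) ⟨by rw [← hAu]; exact hy1.le, hy3.2.le⟩
  have hwu : w ≠ u := fun h => by rw [h] at hwy; linarith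
  have hwu' : w' ≠ u' := fun h => by rw [h, ← hAu] at hwy'; linarith
  have hw0 : u < w := lt_of_le_of_ne hw.1 (Ne.symm hwu)
  have hw0' : w' < u' := lt_of_le_of_ne hw'.2 hwu'
  exact ⟨w, w', ⟨hw0, by linarith [hw.2]⟩, ⟨by linarith [hw'.1], hw0'⟩,
    by linarith [hw.2, hw'.1], by linarith [hw.2], by linarith [hw'.1], by rw [hwy, hwy']⟩

/-- **Zip lemma.** -/
theorem zip_lemma {R : ℝ → ℝ → Prop} {A : ℝ → ℝ} {a b : ℝ}
    (hA : ContinuousOn A (Icc a b))
    (hrefl : ∀ u ∈ Icc a b, R u u)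
    (hsymm : ∀ u ∈ Icc a b, ∀ v ∈ Icc a b, R u v → R v u)
    (htrans : ∀ u ∈ Icc a b, ∀ v ∈ Icc a b, ∀ w ∈ Icc a b, R u v → R v w → R u w)
    (hclosed : IsClosed {p : ℝ × ℝ | p.1 ∈ Icc a b ∧ p.2 ∈ Icc a b ∧ R p.1 p.2})
    (hloc : ∀ u ∈ Icc a b, ∀ v ∈ Icc a b, R u v → ∀ᶠ p : ℝ × ℝ in 𝓝 (u, v),
      p.1 ∈ Icc a b → p.2 ∈ Icc a b → A p.1 = A p.2 → R p.1 p.2) :
    ∀ u ∈ Icc a b, ∀ v ∈ Icc a b, A u = A v → R u v := by
  by_contra hcon
  push Not at hcon
  obtain ⟨u0, hu0, v0, hv0, hA0, hR0⟩ := hcon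
  -- the set of bad pairs is compact
  set B : Set (ℝ × ℝ) := {p | p.1 ∈ Icc a b ∧ p.2 ∈ Icc a b ∧ A p.1 = A p.2 ∧ ¬ R p.1 p.2}
    with hB
  have hBsub : B ⊆ Icc a b ×ˢ Icc a b := fun p hp => ⟨hp.1, hp.2.1⟩
  have hBclosed : IsClosed B := by
    rw [← isOpen_compl_iff, isOpen_iff_mem_nhds]
    rintro ⟨u, v⟩ hp
    by_cases hu : u ∈ Icc a b
    swap
    · filter_upwards [(isClosed_Icc.isOpen_compl.preimage continuous_fst).mem_nhds hu] with q hq hqB
      exact hq hqB.1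
    by_cases hv : v ∈ Icc a b
    swap
    · filter_upwards [(isClosed_Icc.isOpen_compl.preimage continuous_snd).mem_nhds hv] with q hq hqB
      exact hq hqB.2.1
    by_cases hAuv : A u = A v
    · have hR : R u v := by
        by_contra h
        exact hp ⟨hu, hv, hAuv, h⟩
      filter_upwards [hloc u hu v hv hR] with q hq hqB
      exact hqB.2.2.2 (hq hqB.1 hqB.2.1 hqB.2.2.1)
    · -- `A` is continuous on the square
      have hc1 : ContinuousWithinAt (fun q : ℝ × ℝ => A q.1 - A q.2) (Icc a b ×ˢ Icc a b) (u, v) :=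
        ((hA u hu).comp continuousWithinAt_fst (fun q hq => hq.1)).sub
          ((hA v hv).comp continuousWithinAt_snd (fun q hq => hq.2))
      have hne : (fun q : ℝ × ℝ => A q.1 - A q.2) (u, v) ≠ 0 := sub_ne_zero.2 hAuv
      have h3 := hc1.eventually_ne hne
      rw [eventually_nhdsWithin_iff] at h3
      filter_upwards [h3] with q hq hqB
      exact hq ⟨hqB.1, hqB.2.1⟩ (sub_eq_zero.2 hqB.2.2.1)
  have hBcomp : IsCompact B := (isCompact_Icc.prod isCompact_Icc).of_isClosed_subset hBclosed hBsub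
  obtain ⟨⟨u, v⟩, hp, hmin⟩ := hBcomp.exists_isMinOn ⟨(u0, v0), hu0, hv0, hA0, hR0⟩
    (f := fun q : ℝ × ℝ => |q.1 - q.2|) (by fun_prop)
  have hmin' : ∀ q ∈ B, |u - v| ≤ |q.1 - q.2| := fun q hq => hmin hq
  -- without loss of generality `u < v`
  obtain ⟨u, v, huv, hp, hmin'⟩ : ∃ u v, u < v ∧ (u, v) ∈ B ∧
      ∀ q ∈ B, |u - v| ≤ |q.1 - q.2| := by
    rcases lt_trichotomy u v with h | h | h
    · exact ⟨u, v, h, hp, hmin'⟩
    · subst h
      exact absurd (hrefl u hp.1) hp.2.2.2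
    · refine ⟨v, u, h, ⟨hp.2.1, hp.1, hp.2.2.1.symm, fun hR => hp.2.2.2
        (hsymm v hp.2.1 u hp.1 hR)⟩, fun q hq => ?_⟩
      rw [abs_sub_comm]
      exact hmin' q hq
  obtain ⟨hu, hv, hAuv, hR⟩ := hp
  have huv' : |u - v| = v - u := by rw [abs_sub_comm]; exact abs_of_pos (by linarith)
  rw [huv'] at hmin'
  have hIcc : Icc u v ⊆ Icc a b := Icc_subset_Icc hu.1 hv.2
  -- pairs strictly inside are related
  have hin : ∀ w ∈ Icc u v, ∀ w' ∈ Icc u v, w ≤ w' → w' - w < v - u → A w = A w' → R w w' := by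
    intro w hw w' hw' hle hlt hAw
    by_contra h
    have := hmin' (w, w') ⟨hIcc hw, hIcc hw', hAw, h⟩
    rw [abs_sub_comm, abs_of_nonneg (by simpa using hle)] at this
    simp only at this
    linarith
  -- `A` does not take the value `A u` inside
  have hne : ∀ w ∈ Ioo u v, A w ≠ A u := by
    intro w hw h
    have h1 := hin u (left_mem_Icc.2 huv.le) w ⟨hw.1.le, hw.2.le⟩ hw.1.le
      (by linarith [hw.2]) h.symm
    have h2 := hin w ⟨hw.1.le, hw.2.le⟩ v (right_mem_Icc.2 huv.le) hw.2.le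
      (by linarith [hw.1]) (by rw [h, hAuv])
    exact hR (htrans u hu w (hIcc ⟨hw.1.le, hw.2.le⟩) v hv h1 h2)
  have hcontI : ContinuousOn A (Icc u v) := hA.mono hIcc
  have hmid : (u + v) / 2 ∈ Ioo u v := ⟨by linarith, by linarith⟩
  -- closedness gives the contradiction once arbitrarily close pairs exist
  have hfinal : (∀ ε > 0, ∃ w w', w ∈ Ioo u v ∧ w' ∈ Ioo u v ∧ w < w' ∧ w - u < ε ∧ v - w' < ε ∧
      A w = A w') → False := by
    intro hex
    apply hR
    have hmem : (u, v) ∈ closure {p : ℝ × ℝ | p.1 ∈ Icc a b ∧ p.2 ∈ Icc a b ∧ R p.1 p.2} := by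
      rw [Metric.mem_closure_iff]
      intro ε hε
      obtain ⟨w, w', hw, hw', hlt, h1, h2, hAw⟩ := hex ε hε
      refine ⟨(w, w'), ⟨hIcc ⟨hw.1.le, hw.2.le⟩, hIcc ⟨hw'.1.le, hw'.2.le⟩,
        hin w ⟨hw.1.le, hw.2.le⟩ w' ⟨hw'.1.le, hw'.2.le⟩ hlt.le
          (by linarith [hw.1, hw'.2]) hAw⟩, ?_⟩
      rw [Prod.dist_eq, max_lt_iff, Real.dist_eq, Real.dist_eq]
      refine ⟨?_, ?_⟩
      · rw [abs_sub_comm, abs_of_pos (by simpa using hw.1)]; exact h1
      · rw [abs_of_pos (by simpa using hw'.2)]; exact h2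
    exact (hclosed.closure_eq ▸ hmem).2.2
  rcases lt_or_gt_of_ne (hne _ hmid) with hlt | hgt
  · -- all values are below
    have hneg : ∀ w ∈ Ioo u v, A w < A u := by
      intro w hw
      by_contra h
      have hgt : A u < A w := lt_of_le_of_ne (not_lt.1 h) (Ne.symm (hne w hw))
      obtain ⟨z, hz, hzA⟩ := (isPreconnected_Ioo (a := u) (b := v)).intermediate_value hmid hw
        (hcontI.mono Ioo_subset_Icc_self) ⟨hlt.le, hgt.le⟩
      exact hne z hz hzA
    refine hfinal fun ε hε => ?_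
    obtain ⟨w, w', h1, h2, h3, h4, h5, h6⟩ := zip_shrink (A := fun x => - A x) huv hcontI.neg
      (by simp [hAuv]) (fun w hw => by simpa using hneg w hw) hε
    exact ⟨w, w', h1, h2, h3, h4, h5, by simpa using h6⟩
  · have hpos : ∀ w ∈ Ioo u v, A u < A w := by
      intro w hw
      by_contra h
      have hlt : A w < A u := lt_of_le_of_ne (not_lt.1 h) (hne w hw)
      obtain ⟨z, hz, hzA⟩ := (isPreconnected_Ioo (a := u) (b := v)).intermediate_value hw hmid
        (hcontI.mono Ioo_subset_Icc_self) ⟨hlt.le, hgt.le⟩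
      exact hne z hz hzA
    exact hfinal fun ε hε => zip_shrink huv hcontI hAuv hpos hε

end Pool.Agent.PG
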